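import Pool.Agent.Lib.MP_8b7544_co.Hv.Stm3

set_option autoImplicit false

namespace Pool.Agent.Lib.MP_8b7544_co.Hv

open Finset
open scoped Pointwise

private theorem as_bij_union {α β : Type*} {f : α → β} {s₁ s₂ : Set α} {t₁ t₂ : Set β}
    (h1 : Set.BijOn f s₁ t₁) (h2 : Set.BijOn f s₂ t₂) (hd : Disjoint t₁ t₂) :
    Set.BijOn f (s₁ ∪ s₂) (t₁ ∪ t₂) := by
  refine h1.union h2 ?_
  rintro x (hx | hx) y (hy | hy) hxy
  · exact h1.injOn hx hy hxy
  · exact (Set.disjoint_left.1 hd (h1.mapsTo hx) (hxy ▸ h2.mapsTo hy)).elim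
  · exact (Set.disjoint_left.1 hd (h1.mapsTo hy) (hxy ▸ h2.mapsTo hx)).elim
  · exact h2.injOn hx hy hxy

private theorem as_bij_shift {g : ℤ → ℤ} {S T : Set ℤ} (h : Set.BijOn g S T) (c : ℤ) :
    Set.BijOn (fun x => g (x - c) + c) {x | x - c ∈ S} {y | y - c ∈ T} := by
  refine ⟨?_, ?_, ?_⟩
  · intro x hx
    change g (x - c) + c - c ∈ T
    rw [add_sub_cancel_right]
    exact h.mapsTo hx
  · intro x hx y hy hxy
    have h1 : g (x - c) = g (y - c) := by
      change g (x - c) + c = g (y - c) + c at hxy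
      linarith
    have h2 := h.injOn hx hy h1
    linarith
  · intro y hy
    obtain ⟨x, hx, hxy⟩ := h.surjOn hy
    refine ⟨x + c, ?_, ?_⟩
    · change x + c - c ∈ S
      rw [add_sub_cancel_right]
      exact hx
    · change g (x + c - c) + c = y
      rw [add_sub_cancel_right, hxy, sub_add_cancel]

private theorem as_filter_image (S A : Finset ℤ) (κ : ℤ) (h : ∀ x ∈ A, x + κ ∈ S) :
    S.filter (fun x => x - κ ∈ A) = A.image (fun x => x + κ) := by
  ext x
  rw [mem_filter, mem_image]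
  constructor
  · rintro ⟨-, h2⟩
    exact ⟨x - κ, h2, sub_add_cancel x κ⟩
  · rintro ⟨y, hy, rfl⟩
    refine ⟨h y hy, ?_⟩
    rw [add_sub_cancel_right]
    exact hy

private theorem as_card (S A : Finset ℤ) (κ : ℤ) (h : ∀ x ∈ A, x + κ ∈ S) :
    ((S.filter (fun x => x - κ ∉ A)).card : ℤ) = S.card - A.card := by
  have h1 := Finset.card_filter_add_card_filter_not (s := S) (fun x => x - κ ∈ A)
  rw [as_filter_image S A κ h, Finset.card_image_of_injective _ (add_left_injective κ)] at h1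
  have h2 : ((A.card + (S.filter (fun x => x - κ ∉ A)).card : ℕ) : ℤ) = (S.card : ℤ) := by
    exact_mod_cast h1
  push_cast at h2
  linarith

private theorem as_sum (S A : Finset ℤ) (κ : ℤ) (h : ∀ x ∈ A, x + κ ∈ S) :
    ∑ x ∈ S.filter (fun x => x - κ ∉ A), x = ∑ x ∈ S, x - ∑ x ∈ A, x - κ * A.card := by
  have h1 := Finset.sum_filter_add_sum_filter_not S (fun x => x - κ ∈ A) (fun x => x)
  rw [as_filter_image S A κ h, Finset.sum_image (by
    intro x _ y _ hxy
    exact add_left_injective κ hxy), Finset.sum_add_distrib, Finset.sum_const, nsmul_eq_mul] at h1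
  linarith

/-- counting of the displacements -/
private theorem as_count (ι : Type) [Fintype ι] (a : ℕ) (β : ι → ℕ) (ha : 2 ≤ a)
    (hβ : ∀ i, 1 ≤ β i) (hβi : Function.Injective β) (S : Finset ℤ) (f : ℤ → ℤ)
    (hf : ∀ x ∈ S, f x = x ∨ f x = x + a ∨ ∃ i, f x = x - β i) :
    (S.card : ℤ) = (S.filter (fun x => f x = x)).card + (S.filter (fun x => f x = x + a)).card +
      ∑ i, ((S.filter (fun x => f x = x - β i)).card : ℤ) ∧
    ∑ x ∈ S, f x - ∑ x ∈ S, x = a * (S.filter (fun x => f x = x + a)).card -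
      ∑ i, (β i : ℤ) * (S.filter (fun x => f x = x - β i)).card := by
  classical
  have hz : ∀ x ∈ S, (1 : ℤ) = (if f x = x then 1 else 0) + (if f x = x + a then 1 else 0) +
      ∑ i, (if f x = x - β i then (1 : ℤ) else 0) := by
    intro x hx
    rcases hf x hx with h | h | ⟨i, h⟩
    · rw [if_pos h, if_neg (by omega), Finset.sum_eq_zero]
      · norm_num
      · intro i _
        rw [if_neg]
        have := hβ i
        omega
    · rw [if_neg (by omega), if_pos h, Finset.sum_eq_zero]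
      · norm_num
      · intro i _
        rw [if_neg]
        have := hβ i
        omega
    · have := hβ i
      rw [if_neg (by omega), if_neg (by omega), Finset.sum_eq_single i]
      · rw [if_pos h]; norm_num
      · intro j _ hj
        rw [if_neg]
        intro h'
        apply hj
        apply hβi
        omega
      · intro h'
        exact absurd (Finset.mem_univ _) h'
  have hd : ∀ x ∈ S, f x - x = a * (if f x = x + a then (1 : ℤ) else 0) -
      ∑ i, (β i : ℤ) * (if f x = x - β i then (1 : ℤ) else 0) := by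
    intro x hx
    rcases hf x hx with h | h | ⟨i, h⟩
    · rw [if_neg (by omega), Finset.sum_eq_zero]
      · rw [h]; ring
      · intro i _
        rw [if_neg, mul_zero]
        have := hβ i
        omega
    · rw [if_pos h, Finset.sum_eq_zero]
      · rw [h]; ring
      · intro i _
        rw [if_neg, mul_zero]
        have := hβ i
        omega
    · have := hβ i
      rw [if_neg (by omega), Finset.sum_eq_single i]
      · rw [if_pos h, h]; ring
      · intro j _ hj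
        rw [if_neg, mul_zero]
        intro h'
        apply hj
        apply hβi
        omega
      · intro h'
        exact absurd (Finset.mem_univ _) h'
  constructor
  · have h1 : (S.card : ℤ) = ∑ x ∈ S, (1 : ℤ) := by simp
    rw [h1, Finset.sum_congr rfl hz, Finset.sum_add_distrib, Finset.sum_add_distrib,
      Finset.sum_comm]
    simp only [Finset.sum_boole]
  · rw [← Finset.sum_sub_distrib, Finset.sum_congr rfl hd, Finset.sum_sub_distrib,
      Finset.sum_comm, ← Finset.mul_sum]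
    simp only [← Finset.mul_sum, Finset.sum_boole]

/-- sources and targets in a window -/
private theorem as_window (ι : Type) [Fintype ι] (a : ℕ) (β : ι → ℕ) (ha : 2 ≤ a)
    (hβ : ∀ i, 1 ≤ β i) (hβi : Function.Injective β) (A B : Finset ℤ) (κ lo hi : ℤ)
    (hlo : lo ≤ hi) (f : ℤ → ℤ) (hA : ∀ x ∈ A, lo ≤ x + κ ∧ x + κ ≤ hi)
    (hB : ∀ x ∈ B, lo < x + κ ∧ x + κ ≤ hi)
    (hbij : Set.BijOn f {x : ℤ | lo ≤ x ∧ x ≤ hi ∧ x - κ ∉ A} {y : ℤ | lo < y ∧ y ≤ hi ∧ y - κ ∉ B})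
    (hf : ∀ x : ℤ, lo ≤ x → x ≤ hi → x - κ ∉ A → f x = x ∨ f x = x + a ∨ ∃ i, f x = x - β i) :
    hi + 1 - lo - A.card = {x : ℤ | lo ≤ x ∧ x ≤ hi ∧ x - κ ∉ A ∧ f x = x}.ncard +
      {x : ℤ | lo ≤ x ∧ x ≤ hi ∧ x - κ ∉ A ∧ f x = x + a}.ncard +
      ∑ i, ({x : ℤ | lo ≤ x ∧ x ≤ hi ∧ x - κ ∉ A ∧ f x = x - β i}.ncard : ℤ) ∧
    a * ({x : ℤ | lo ≤ x ∧ x ≤ hi ∧ x - κ ∉ A ∧ f x = x + a}.ncard : ℤ) -
      ∑ i, (β i : ℤ) * ({x : ℤ | lo ≤ x ∧ x ≤ hi ∧ x - κ ∉ A ∧ f x = x - β i}.ncard : ℤ) =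
      ∑ x ∈ A, x + κ * A.card - ∑ x ∈ B, x - κ * B.card - lo := by
  classical
  set S : Finset ℤ := (Icc lo hi).filter (fun x => x - κ ∉ A) with hS
  set T : Finset ℤ := (Ioc lo hi).filter (fun x => x - κ ∉ B) with hT
  have hSc : {x : ℤ | lo ≤ x ∧ x ≤ hi ∧ x - κ ∉ A} = (S : Set ℤ) := by
    ext x
    simp [hS, and_assoc]
  have hTc : {x : ℤ | lo < x ∧ x ≤ hi ∧ x - κ ∉ B} = (T : Set ℤ) := by
    ext x
    simp [hT, and_assoc]
  rw [hSc, hTc] at hbij
  have hf' : ∀ x ∈ S, f x = x ∨ f x = x + a ∨ ∃ i, f x = x - β i := by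
    intro x hx
    rw [hS, mem_filter, mem_Icc] at hx
    exact hf x hx.1.1 hx.1.2 hx.2
  have hN : ∀ p : ℤ → ℤ, {x : ℤ | lo ≤ x ∧ x ≤ hi ∧ x - κ ∉ A ∧ f x = p x}.ncard =
      (S.filter (fun x => f x = p x)).card := by
    intro p
    rw [← Set.ncard_coe_finset]
    congr 1
    ext x
    simp [hS, and_assoc]
  obtain ⟨h1, h2⟩ := as_count ι a β ha hβ hβi S f hf'
  have h3 : ∑ x ∈ S, f x = ∑ y ∈ T, y := by
    have h4 : T = S.image f := by
      rw [← Finset.coe_inj, Finset.coe_image]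
      exact hbij.image_eq.symm
    rw [h4, Finset.sum_image hbij.injOn]
  have h5 := as_card (Icc lo hi) A κ (fun x hx => mem_Icc.2 (hA x hx))
  have h6 := as_sum (Icc lo hi) A κ (fun x hx => mem_Icc.2 (hA x hx))
  have h7 := as_sum (Ioc lo hi) B κ (fun x hx => mem_Ioc.2 (hB x hx))
  rw [← hS] at h5 h6
  rw [← hT] at h7
  have h8 : ∑ x ∈ Icc lo hi, x = lo + ∑ x ∈ Ioc lo hi, x := by
    rw [← Finset.Ioc_insert_left hlo, Finset.sum_insert (by simp)]
  have h9 : ((Icc lo hi).card : ℤ) = hi + 1 - lo := by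
    rw [Int.card_Icc, Int.toNat_of_nonneg (by omega)]
  have hN0 := hN (fun x => x)
  have hN1 := hN (fun x => x + a)
  have hNi : ∀ i, {x : ℤ | lo ≤ x ∧ x ≤ hi ∧ x - κ ∉ A ∧ f x = x - β i}.ncard =
      (S.filter (fun x => f x = x - β i)).card := fun i => hN (fun x => x - β i)
  simp only [hN0, hN1, hNi]
  constructor
  · rw [← h1]
    linarith
  · rw [← h2, h3]
    linarith

/-- shifted counting sets -/
private theorem as_ncard_shift (S : Set ℤ) (c : ℤ) : {x : ℤ | x - c ∈ S}.ncard = S.ncard := by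
  have h : {x : ℤ | x - c ∈ S} = (fun x => x + c) '' S := by
    ext x
    constructor
    · intro hx
      exact ⟨x - c, hx, sub_add_cancel x c⟩
    · rintro ⟨y, hy, rfl⟩
      change y + c - c ∈ S
      rw [add_sub_cancel_right]
      exact hy
  rw [h, Set.ncard_image_of_injective _ (add_left_injective c)]

theorem AS_holds (hAR : S_AR) (hTL : S_TL) (hTR : S_TR) : S_AS := by
  classical
  intro ι _ a β A B R g ha hβ hβi hAB hA hB hg hgd
  obtain ⟨C', hC'⟩ := hAR ι a β ha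
  have hAl : ∀ x ∈ A, -(R : ℤ) < x ∧ x < R := fun x hx => abs_lt.1 (hA x hx)
  have hBl : ∀ x ∈ B, -(R : ℤ) < x ∧ x < R := fun x hx => abs_lt.1 (hB x hx)
  -- the window
  obtain ⟨hw1, hw2⟩ := as_window ι a β ha hβ hβi A B 0 (-(R : ℤ)) R (by omega) g
    (fun x hx => by have := hAl x hx; omega) (fun x hx => by have := hBl x hx; omega)
    (by simpa only [sub_zero] using hg) (fun x h1 h2 h3 => hgd x h1 h2 (by rwa [sub_zero] at h3))
  simp only [sub_zero, zero_mul, add_zero] at hw1 hw2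
  set n0 : ℕ := {x : ℤ | -(R : ℤ) ≤ x ∧ x ≤ R ∧ x ∉ A ∧ g x = x}.ncard with hn0
  set n1 : ℕ := {x : ℤ | -(R : ℤ) ≤ x ∧ x ≤ R ∧ x ∉ A ∧ g x = x + a}.ncard with hn1
  set n : ι → ℕ := fun i => {x : ℤ | -(R : ℤ) ≤ x ∧ x ≤ R ∧ x ∉ A ∧ g x = x - β i}.ncard with hn
  have hw1' : (R : ℤ) + 1 - -(R : ℤ) - A.card = n0 + n1 + ∑ i, (n i : ℤ) := hw1
  have hw2' : (a : ℤ) * n1 - ∑ i, (β i : ℤ) * (n i : ℤ) =
      ∑ x ∈ A, x - ∑ x ∈ B, x - -(R : ℤ) := hw2
  have hns : ∀ i, (n i : ℤ) ≤ 2 * R + 1 := by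
    intro i
    have h1 : (n i : ℤ) ≤ ∑ i, (n i : ℤ) :=
      Finset.single_le_sum (f := fun i => (n i : ℤ)) (fun i _ => Int.natCast_nonneg _)
        (Finset.mem_univ i)
    omega
  have hnsum : 0 ≤ ∑ i, (n i : ℤ) := Finset.sum_nonneg fun i _ => Int.natCast_nonneg _
  refine ⟨C' + 2 * R + 1, ?_⟩
  intro m m0 m1 κ P hm hm0 hm1 hκ hP hCκ hκP
  push_cast at hCκ hκP
  have hni : ∀ i, n i ≤ m i := by
    intro i
    have h1 := hns i
    have h2 := hm i
    omega
  have hn0' : n0 ≤ m0 := by omega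
  have hn1' : n1 ≤ m1 := by omega
  set z0 : ℤ := κ - R with hz0
  have hsub : ∀ i, ((m i - n i : ℕ) : ℤ) = (m i : ℤ) - n i := fun i => Nat.cast_sub (hni i)
  obtain ⟨d, z, p, hdz, hz0e, hp⟩ := hC' (fun i => m i - n i) (m0 - n0) (m1 - n1) z0
    (by intro i; have h1 := hns i; have h2 := hm i; omega)
    (by omega) (by omega)
    (by
      simp only [hsub, Finset.sum_sub_distrib]
      rw [Nat.cast_sub hn0', Nat.cast_sub hn1']
      omega)
    (by
      simp only [hsub, mul_sub, Finset.sum_sub_distrib]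
      rw [Nat.cast_sub hn1', mul_sub]
      linarith)
  -- the right length
  have hdz' : ∀ i, ((a : ℤ) - 1) * d i + a * z i = m i - n i := by
    intro i
    have h1 := hdz i
    have h2 : (((a - 1) * d i + a * z i : ℕ) : ℤ) = ((m i - n i : ℕ) : ℤ) := by
      exact_mod_cast congrArg (fun x : ℕ => (x : ℤ)) h1
    rw [hsub] at h2
    push_cast [Nat.cast_sub (show 1 ≤ a by omega)] at h2
    exact h2
  set q : ℕ := (m0 - n0) - (a - 1) * p with hq
  have hq' : (q : ℤ) = (m0 : ℤ) - n0 - (a - 1) * p := by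
    rw [hq, Nat.cast_sub hp, Nat.cast_sub hn0']
    push_cast [Nat.cast_sub (show 1 ≤ a by omega)]
    ring
  have hlen : P - κ - R = ∑ i, (z i : ℤ) * (a + β i) + q := by
    have h1 : (a : ℤ) * (P - κ - R) = a * (∑ i, (z i : ℤ) * (a + β i) + q) := by
      have h2 : (a : ℤ) * ∑ i, (z i : ℤ) * (a + β i) =
          ∑ i, ((m i : ℤ) - n i) * (a + β i) - (a - 1) * ∑ i, (d i : ℤ) * (a + β i) := by
        rw [Finset.mul_sum, Finset.mul_sum, ← Finset.sum_sub_distrib]
        refine Finset.sum_congr rfl fun i _ => ?_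
        rw [← hdz' i]
        ring
      have h3 : ∑ i, ((m i : ℤ) - n i) * (a + β i) = a * (∑ i, (m i : ℤ) - ∑ i, (n i : ℤ)) +
          (∑ i, (β i : ℤ) * m i - ∑ i, (β i : ℤ) * n i) := by
        rw [← Finset.sum_sub_distrib, ← Finset.sum_sub_distrib, Finset.mul_sum,
          ← Finset.sum_add_distrib]
        refine Finset.sum_congr rfl fun i _ => ?_
        ring
      have h4 : ∑ i, (d i : ℤ) * (a + β i) = z0 - a * p := by linarith
      rw [mul_add, h2, h3, h4, hq']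
      have h5 : P = m0 + m1 + ∑ i, (m i : ℤ) + A.card - 1 := by linarith
      have h6 : ∑ i, (n i : ℤ) = (R : ℤ) + 1 - -(R : ℤ) - A.card - n0 - n1 := by linarith
      have h7 : ∑ i, (β i : ℤ) * (n i : ℤ) = (a : ℤ) * n1 - (∑ x ∈ A, x - ∑ x ∈ B, x - -(R : ℤ)) := by
        linarith
      have h8 : ∑ i, (β i : ℤ) * (m i : ℤ) = a * m1 + (∑ x ∈ B, x - ∑ x ∈ A, x) - κ := by linarith
      rw [h5, h6, h7, h8, hz0]
      ring
    have h9 : (a : ℤ) ≠ 0 := by omega
    exact mul_left_cancel₀ h9 h1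
  obtain ⟨gl, hgl1, hgl2, hgl3⟩ := hTL ι a β (by omega) hβ hβi d p
  obtain ⟨gr, hgr1, hgr2, hgr3⟩ := hTR ι a β (by omega) hβ hβi z q
  have hL : ((∑ i, d i * (a + β i) + a * p : ℕ) : ℤ) = κ - R := by
    push_cast
    rw [← hz0, hz0e]
  have hRt : ((∑ i, z i * (a + β i) + q : ℕ) : ℤ) = P - κ - R := by
    push_cast
    rw [hlen]
  rw [hL] at hgl1
  rw [hRt] at hgr1
  simp only [hL] at hgl2 hgl3
  simp only [hRt] at hgr2 hgr3
  -- the map
  set f : ℤ → ℤ := fun x => if x < κ - R then gl x else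
    if x ≤ κ + R then g (x - κ) + κ else gr (x - (κ + R + 1)) + (κ + R + 1) with hf
  have hf1 : ∀ x, x < κ - R → f x = gl x := fun x hx => by simp only [hf]; rw [if_pos hx]
  have hf2 : ∀ x, κ - R ≤ x → x ≤ κ + R → f x = g (x - κ) + κ := fun x hx hx' => by
    simp only [hf]; rw [if_neg (by omega), if_pos hx']
  have hf3 : ∀ x, κ + R < x → f x = gr (x - (κ + R + 1)) + (κ + R + 1) := fun x hx => by
    simp only [hf]; rw [if_neg (by omega), if_neg (by omega)]
  have hS : {x : ℤ | 0 ≤ x ∧ x ≤ P ∧ x - κ ∉ A} =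
      (Set.Ico 0 (κ - R) ∪ {x | x - κ ∈ {x : ℤ | -(R : ℤ) ≤ x ∧ x ≤ R ∧ x ∉ A}}) ∪
        {x | x - (κ + R + 1) ∈ Set.Ico (0 : ℤ) (P - κ - R)} := by
    ext x
    simp only [Set.mem_ofPred_eq, Set.mem_union, Set.mem_Ico]
    constructor
    · rintro ⟨h1, h2, h3⟩
      by_cases h4 : x < κ - R
      · left; left; omega
      · by_cases h5 : x ≤ κ + R
        · left; right; exact ⟨by omega, by omega, h3⟩
        · right; omega
    · rintro ((h1 | h1) | h1)
      · exact ⟨by omega, by omega, fun h => by have := hAl _ h; omega⟩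
      · exact ⟨by omega, by omega, h1.2.2⟩
      · exact ⟨by omega, by omega, fun h => by have := hAl _ h; omega⟩
  have hT : {y : ℤ | 1 ≤ y ∧ y ≤ P ∧ y - κ ∉ B} =
      (Set.Ico 1 (κ - R + 1) ∪ {y | y - κ ∈ {y : ℤ | -(R : ℤ) < y ∧ y ≤ R ∧ y ∉ B}}) ∪
        {y | y - (κ + R + 1) ∈ Set.Ico (0 : ℤ) (P - κ - R + 0)} := by
    ext x
    simp only [Set.mem_ofPred_eq, Set.mem_union, Set.mem_Ico]
    constructor
    · rintro ⟨h1, h2, h3⟩
      by_cases h4 : x < κ - R + 1
      · left; left; omega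
      · by_cases h5 : x ≤ κ + R
        · left; right; exact ⟨by omega, by omega, h3⟩
        · right; omega
    · rintro ((h1 | h1) | h1)
      · exact ⟨by omega, by omega, fun h => by have := hBl _ h; omega⟩
      · exact ⟨by omega, by omega, h1.2.2⟩
      · exact ⟨by omega, by omega, fun h => by have := hBl _ h; omega⟩
  have hbij : Set.BijOn f {x : ℤ | 0 ≤ x ∧ x ≤ P ∧ x - κ ∉ A} {y : ℤ | 1 ≤ y ∧ y ≤ P ∧ y - κ ∉ B} := by
    rw [hS, hT]
    refine as_bij_union (as_bij_union ?_ ?_ ?_) ?_ ?_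
    · refine hgl1.congr ?_
      intro x hx
      exact (hf1 x hx.2).symm
    · refine (as_bij_shift hg κ).congr ?_
      intro x hx
      have hx' : -(R : ℤ) ≤ x - κ ∧ x - κ ≤ R ∧ x - κ ∉ A := hx
      exact (hf2 x (by omega) (by omega)).symm
    · rw [Set.disjoint_left]
      intro y hy1 hy2
      have hy1' : 1 ≤ y ∧ y < κ - R + 1 := hy1
      have hy2' : -(R : ℤ) < y - κ ∧ y - κ ≤ R ∧ y - κ ∉ B := hy2
      omega
    · refine (as_bij_shift hgr1 (κ + R + 1)).congr ?_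
      intro x hx
      have hx' : 0 ≤ x - (κ + R + 1) ∧ x - (κ + R + 1) < P - κ - R := hx
      exact (hf3 x (by omega)).symm
    · rw [Set.disjoint_left]
      intro y hy1 hy2
      have hy2' : 0 ≤ y - (κ + R + 1) ∧ y - (κ + R + 1) < P - κ - R + 0 := hy2
      rcases hy1 with hy1 | hy1
      · have hy1' : 1 ≤ y ∧ y < κ - R + 1 := hy1
        omega
      · have hy1' : -(R : ℤ) < y - κ ∧ y - κ ≤ R ∧ y - κ ∉ B := hy1
        omega
  have hdisp : ∀ x : ℤ, 0 ≤ x → x ≤ P → x - κ ∉ A → f x = x ∨ f x = x + a ∨ ∃ i, f x = x - β i := by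
    intro x h1 h2 h3
    by_cases h4 : x < κ - R
    · rw [hf1 x h4]
      exact hgl2 x h1 h4
    · by_cases h5 : x ≤ κ + R
      · rw [hf2 x (by omega) h5]
        rcases hgd (x - κ) (by omega) (by omega) h3 with h | h | ⟨i, h⟩
        · left; omega
        · right; left; omega
        · right; right; exact ⟨i, by omega⟩
      · rw [hf3 x (by omega)]
        rcases hgr2 (x - (κ + R + 1)) (by omega) (by omega) with h | h | ⟨i, h⟩
        · left; omega
        · right; left; omega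
        · right; right; exact ⟨i, by omega⟩
  -- the counts of the negative displacements
  have hcnt : ∀ i, {x : ℤ | 0 ≤ x ∧ x ≤ P ∧ x - κ ∉ A ∧ f x = x - β i}.ncard = m i := by
    intro i
    have h1 : {x : ℤ | 0 ≤ x ∧ x ≤ P ∧ x - κ ∉ A ∧ f x = x - β i} =
        ({x : ℤ | 0 ≤ x ∧ x < κ - R ∧ gl x = x - β i} ∪
          {x | x - κ ∈ {x : ℤ | -(R : ℤ) ≤ x ∧ x ≤ R ∧ x ∉ A ∧ g x = x - β i}}) ∪
        {x | x - (κ + R + 1) ∈ {x : ℤ | 0 ≤ x ∧ x < P - κ - R ∧ gr x = x - β i}} := by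
      ext x
      simp only [Set.mem_ofPred_eq, Set.mem_union]
      constructor
      · rintro ⟨h1, h2, h3, h4⟩
        by_cases h5 : x < κ - R
        · left; left
          rw [hf1 x h5] at h4
          exact ⟨h1, h5, h4⟩
        · by_cases h6 : x ≤ κ + R
          · left; right
            rw [hf2 x (by omega) h6] at h4
            exact ⟨by omega, by omega, h3, by omega⟩
          · right
            rw [hf3 x (by omega)] at h4
            exact ⟨by omega, by omega, by omega⟩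
      · rintro ((h1 | h1) | h1)
        · refine ⟨by omega, by omega, fun h => by have := hAl _ h; omega, ?_⟩
          rw [hf1 x h1.2.1]
          exact h1.2.2
        · refine ⟨by omega, by omega, h1.2.2.1, ?_⟩
          rw [hf2 x (by omega) (by omega)]
          omega
        · refine ⟨by omega, by omega, fun h => by have := hAl _ h; omega, ?_⟩
          rw [hf3 x (by omega)]
          omega
    have hfin1 : {x : ℤ | 0 ≤ x ∧ x < κ - R ∧ gl x = x - β i}.Finite :=
      (Set.finite_Ico (0 : ℤ) (κ - R)).subset fun x hx => ⟨hx.1, hx.2.1⟩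
    have hfin2 : {x | x - κ ∈ {x : ℤ | -(R : ℤ) ≤ x ∧ x ≤ R ∧ x ∉ A ∧ g x = x - β i}}.Finite :=
      (Set.finite_Icc (κ - R) (κ + R)).subset fun x hx => by
        have hx' : -(R : ℤ) ≤ x - κ ∧ x - κ ≤ R ∧ x - κ ∉ A ∧ g (x - κ) = (x - κ) - β i := hx
        exact ⟨by omega, by omega⟩
    have hfin3 : {x | x - (κ + R + 1) ∈
        {x : ℤ | 0 ≤ x ∧ x < P - κ - R ∧ gr x = x - β i}}.Finite :=
      (Set.finite_Icc (κ + R) P).subset fun x hx => by
        have hx' : 0 ≤ x - (κ + R + 1) ∧ x - (κ + R + 1) < P - κ - R ∧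
          gr (x - (κ + R + 1)) = x - (κ + R + 1) - β i := hx
        exact ⟨by omega, by omega⟩
    rw [h1, Set.ncard_union_eq ?_ (hfin1.union hfin2) hfin3, Set.ncard_union_eq ?_ hfin1 hfin2,
      as_ncard_shift, as_ncard_shift, hgl3 i, hgr3 i]
    · change (a - 1) * d i + n i + a * z i = m i
      have h2 := hdz i
      have h3 := hni i
      omega
    · rw [Set.disjoint_left]
      intro x hx1 hx2
      have hx1' : 0 ≤ x ∧ x < κ - R ∧ gl x = x - β i := hx1
      have hx2' : -(R : ℤ) ≤ x - κ ∧ x - κ ≤ R ∧ x - κ ∉ A ∧ g (x - κ) = (x - κ) - β i := hx2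
      omega
    · rw [Set.disjoint_left]
      intro x hx1 hx2
      have hx2' : 0 ≤ x - (κ + R + 1) ∧ x - (κ + R + 1) < P - κ - R ∧
        gr (x - (κ + R + 1)) = x - (κ + R + 1) - β i := hx2
      rcases hx1 with hx1 | hx1
      · have hx1' : 0 ≤ x ∧ x < κ - R ∧ gl x = x - β i := hx1
        omega
      · have hx1' : -(R : ℤ) ≤ x - κ ∧ x - κ ≤ R ∧ x - κ ∉ A ∧ g (x - κ) = (x - κ) - β i := hx1
        omega
  -- the other counts
  have hT' : {y : ℤ | 1 ≤ y ∧ y ≤ P ∧ y - κ ∉ B} = {y : ℤ | 0 < y ∧ y ≤ P ∧ y - κ ∉ B} := by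
    ext y
    simp only [Set.mem_ofPred_eq]
    constructor
    · rintro ⟨h1, h2, h3⟩; exact ⟨by omega, h2, h3⟩
    · rintro ⟨h1, h2, h3⟩; exact ⟨by omega, h2, h3⟩
  have hbij' := hbij
  rw [hT'] at hbij'
  obtain ⟨hb1, hb2⟩ := as_window ι a β ha hβ hβi A B κ 0 P (by omega) f
    (fun x hx => by have := hAl x hx; omega) (fun x hx => by have := hBl x hx; omega)
    hbij' hdisp
  simp only [hcnt] at hb1 hb2
  set N0 : ℕ := {x : ℤ | 0 ≤ x ∧ x ≤ P ∧ x - κ ∉ A ∧ f x = x}.ncard with hN0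
  set N1 : ℕ := {x : ℤ | 0 ≤ x ∧ x ≤ P ∧ x - κ ∉ A ∧ f x = x + a}.ncard with hN1
  have hABz : (A.card : ℤ) = B.card + 1 := by exact_mod_cast hAB
  have hN1m : (N1 : ℤ) = m1 := by
    have h9 : (a : ℤ) ≠ 0 := by omega
    apply mul_left_cancel₀ h9
    rw [hABz] at hb2
    linarith
  have hN1m' : N1 = m1 := by exact_mod_cast hN1m
  have hN0m : N0 = m0 := by
    have : (N0 : ℤ) = m0 := by linarith
    exact_mod_cast this
  exact ⟨f, hbij, hdisp, hN0m, hN1m', hcnt⟩

end Pool.Agent.Lib.MP_8b7544_co.Hv
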