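import Pool.Agent.Lib.MP_8b7544_co.Hv.Stm3

set_option autoImplicit false

namespace Pool.Agent.Lib.MP_8b7544_co.Hv

open Finset

/-- Transfer of a small good labelling on `Fin (n+1)`. -/
theorem core_ok {V : Type} [DecidableEq V] (par : V → V) (n : ℕ) (e : Fin (n + 1) → V)
    (he : Function.Injective e) (pi : Fin (n + 1) → Fin (n + 1))
    (hpi : ∀ i, i ≠ 0 → par (e i) = e (pi i)) (o : Fin (n + 1) → ℤ) (B : ℕ) (j : Fin (n + 1))
    (ho : o 0 = 0) (hj : o j = 1) (hB : ∀ i, |o i| ≤ (B : ℤ))
    (hB2 : ∀ i, i ≠ 0 → |o i + o (pi i)| ≤ (B : ℤ))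
    (hinj : Function.Injective o)
    (hinj2 : ∀ i i', i ≠ 0 → i' ≠ 0 → o i + o (pi i) = o i' + o (pi i') → i = i')
    (hψ : ∀ t ∈ Finset.Icc (-(B : ℤ)) B, psi pi 0 univ o t = 0 ∨ psi pi 0 univ o t = 1)
    (hψ2 : ∀ i, psi pi 0 univ o (o i) = 1) : Ok par (e 0) (e j) := by
  classical
  set δ : V → ℤ := Function.extend e o 0 with hδ
  have hδe : ∀ i, δ (e i) = o i := fun i => he.extend_apply _ _ _
  set S : Finset V := univ.image e with hS
  have hpsi : ∀ t, psi par (e 0) S δ t = psi pi 0 univ o t := by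
    intro t
    unfold psi
    have h1 : S.filter (fun w => δ w ≤ t) = (univ.filter (fun i => o i ≤ t)).image e := by
      ext w
      simp only [hS, mem_filter, mem_image, mem_univ, true_and]
      constructor
      · rintro ⟨⟨i, rfl⟩, h⟩
        rw [hδe] at h
        exact ⟨i, h, rfl⟩
      · rintro ⟨i, h, rfl⟩
        exact ⟨⟨i, rfl⟩, by rw [hδe]; exact h⟩
    have h2 : (S.erase (e 0)).filter (fun w => δ w + δ (par w) ≤ t) =
        ((univ.erase 0).filter (fun i => o i + o (pi i) ≤ t)).image e := by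
      ext w
      simp only [hS, mem_filter, mem_image, mem_univ, true_and, mem_erase, and_true]
      constructor
      · rintro ⟨⟨hw, i, rfl⟩, h⟩
        have hi : i ≠ 0 := fun h0 => hw (by rw [h0])
        rw [hpi i hi, hδe, hδe] at h
        exact ⟨i, ⟨hi, h⟩, rfl⟩
      · rintro ⟨i, ⟨hi, h⟩, rfl⟩
        refine ⟨⟨fun h0 => hi (he h0), i, rfl⟩, ?_⟩
        rw [hpi i hi, hδe, hδe]; exact h
    rw [h1, h2, Finset.card_image_of_injective _ he, Finset.card_image_of_injective _ he]
  have hall : ∀ t, psi pi 0 univ o t = 0 ∨ psi pi 0 univ o t = 1 := by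
    intro t
    by_cases h1 : t < -(B : ℤ)
    · left
      unfold psi
      have e1 : (univ.filter (fun i => o i ≤ t)) = ∅ := by
        rw [Finset.filter_eq_empty_iff]
        intro i _ h
        have := hB i
        rw [abs_le] at this
        linarith [this.1]
      have e2 : ((univ.erase 0).filter (fun i => o i + o (pi i) ≤ t)) = ∅ := by
        rw [Finset.filter_eq_empty_iff]
        intro i hi h
        have := hB2 i (Finset.mem_erase.1 hi).1
        rw [abs_le] at this
        linarith [this.1]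
      rw [e1, e2]; simp
    · by_cases h2 : (B : ℤ) < t
      · right
        unfold psi
        have e1 : (univ.filter (fun i => o i ≤ t)) = univ := by
          rw [Finset.filter_eq_self]
          intro i _
          have := hB i
          rw [abs_le] at this
          linarith [this.2]
        have e2 : ((univ.erase (0 : Fin (n + 1))).filter (fun i => o i + o (pi i) ≤ t)) =
            univ.erase 0 := by
          rw [Finset.filter_eq_self]
          intro i hi
          have := hB2 i (Finset.mem_erase.1 hi).1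
          rw [abs_le] at this
          linarith [this.2]
        rw [e1, e2, Finset.card_erase_of_mem (mem_univ _)]
        simp
      · exact hψ t (Finset.mem_Icc.2 ⟨by omega, by omega⟩)
  refine ⟨S, δ, ⟨?_, ?_, ?_, ?_, ?_, ?_⟩, ?_, ?_, ?_⟩
  · exact mem_image.2 ⟨0, mem_univ _, rfl⟩
  · intro x hx hxv
    obtain ⟨i, _, rfl⟩ := mem_image.1 hx
    have hi : i ≠ 0 := fun h0 => hxv (by rw [h0])
    rw [hpi i hi]
    exact mem_image.2 ⟨_, mem_univ _, rfl⟩
  · intro x hx y hy hxy
    obtain ⟨i, _, rfl⟩ := mem_image.1 (Finset.mem_coe.1 hx)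
    obtain ⟨i', _, rfl⟩ := mem_image.1 (Finset.mem_coe.1 hy)
    rw [hδe, hδe] at hxy
    rw [hinj hxy]
  · intro x hx y hy hxy
    have hx' := Finset.mem_erase.1 (Finset.mem_coe.1 hx)
    have hy' := Finset.mem_erase.1 (Finset.mem_coe.1 hy)
    obtain ⟨i, _, rfl⟩ := mem_image.1 hx'.2
    obtain ⟨i', _, rfl⟩ := mem_image.1 hy'.2
    have hi : i ≠ 0 := fun h0 => hx'.1 (by rw [h0])
    have hi' : i' ≠ 0 := fun h0 => hy'.1 (by rw [h0])
    simp only [hpi i hi, hpi i' hi', hδe] at hxy
    rw [hinj2 i i' hi hi' hxy]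
  · intro t
    rw [hpsi]; exact hall t
  · intro w hw
    obtain ⟨i, _, rfl⟩ := mem_image.1 hw
    rw [hpsi, hδe]; exact hψ2 i
  · exact mem_image.2 ⟨j, mem_univ _, rfl⟩
  · rw [hδe]; exact ho
  · rw [hδe]; exact hj

theorem C2A_holds : S_C2A := by
  intro V _ par v p u z w hnd h1 h2 h3 h4
  have he : Function.Injective ![v, p, u, z, w] := by
    rw [← List.nodup_ofFn]; simpa using hnd
  have := core_ok par 4 ![v, p, u, z, w] he ![0, 0, 1, 1, 3]
    (by intro i hi; fin_cases i <;> simp_all)
    ![0, -1, 1, 3, -2] 4 2 (by decide) (by decide) (by decide) (by decide) (by decide) (by decide)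
    (by decide) (by decide)
  exact this

theorem C2B_holds : S_C2B := by
  intro V _ par v p u z w hnd h1 h2 h3 h4
  have he : Function.Injective ![v, p, u, z, w] := by
    rw [← List.nodup_ofFn]; simpa using hnd
  have := core_ok par 4 ![v, p, u, z, w] he ![0, 0, 1, 2, 3]
    (by intro i hi; fin_cases i <;> simp_all)
    ![0, 2, 1, -2, 3] 4 2 (by decide) (by decide) (by decide) (by decide) (by decide) (by decide)
    (by decide) (by decide)
  exact this

theorem C2C_holds : S_C2C := by
  intro V _ par v p u z w hnd h1 h2 h3 h4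
  have he : Function.Injective ![v, p, u, z, w] := by
    rw [← List.nodup_ofFn]; simpa using hnd
  have := core_ok par 4 ![v, p, u, z, w] he ![0, 0, 1, 0, 3]
    (by intro i hi; fin_cases i <;> simp_all)
    ![0, -1, 1, 3, -2] 4 2 (by decide) (by decide) (by decide) (by decide) (by decide) (by decide)
    (by decide) (by decide)
  exact this

end Pool.Agent.Lib.MP_8b7544_co.Hv
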