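import Pool.Agent.Lib.MP_8b7544_co.Hv.P_C2

set_option autoImplicit false

namespace Pool.Agent.Lib.MP_8b7544_co.Hv

open Finset

theorem C4D_holds : S_C4D := by
  intro V _ par v x1 x2 x3 u z w hnd h1 h2 h3 h4 h5 h6
  have he : Function.Injective ![v, x1, x2, x3, u, z, w] := by
    rw [← List.nodup_ofFn]; simpa using hnd
  have := core_ok par 6 ![v, x1, x2, x3, u, z, w] he ![0, 0, 1, 2, 3, 0, 5]
    (by intro i hi; fin_cases i <;> simp_all)
    ![0, -1, 4, -3, 1, 2, -2] 5 4 (by decide) (by decide) (by decide) (by decide) (by decide)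
    (by decide) (by decide) (by decide)
  exact this

theorem C4E_holds : S_C4E := by
  intro V _ par v x1 x2 x3 u z w hnd h1 h2 h3 h4 h5 h6
  have he : Function.Injective ![v, x1, x2, x3, u, z, w] := by
    rw [← List.nodup_ofFn]; simpa using hnd
  have := core_ok par 6 ![v, x1, x2, x3, u, z, w] he ![0, 0, 1, 2, 3, 4, 5]
    (by intro i hi; fin_cases i <;> simp_all)
    ![0, -1, 4, -4, 1, 3, -2] 5 4 (by decide) (by decide) (by decide) (by decide) (by decide)
    (by decide) (by decide) (by decide)
  exact this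

end Pool.Agent.Lib.MP_8b7544_co.Hv
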