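import Pool.Agent.Lib.MP_8b7544_co.Hv.Stm3

set_option autoImplicit false

namespace Pool.Agent.Lib.MP_8b7544_co.Hv

open Finset
open scoped Pointwise

theorem CD_holds : S_CD := by
  intro X D hX hD
  have h := cauchy_davenport_add_of_linearOrder_isCancelAdd hX hD
  omega

end Pool.Agent.Lib.MP_8b7544_co.Hv
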