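import Pool.Agent.Lib.MP_8b7544_co.Hv.Stm3

set_option autoImplicit false

namespace Pool.Agent.Lib.MP_8b7544_co.Hv

open Finset

private theorem chn_dep {V : Type} (par : V → V) (v : V) : ∀ (n : ℕ) (x : V), Dep par v n x →
    par^[n] x = v ∧ ∀ j, j < n → par^[j] x ≠ v
  | 0, x, h => ⟨h, fun j hj => absurd hj (Nat.not_lt_zero j)⟩
  | n + 1, x, h => by
    obtain ⟨h1, h2⟩ := chn_dep par v n (par x) h.2
    refine ⟨h1, fun j hj => ?_⟩
    cases j with
    | zero => exact h.1
    | succ j => exact h2 j (Nat.lt_of_succ_lt_succ hj)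

private theorem chn_zero {V : Type} [DecidableEq V] (par : V → V) (v : V) :
    Good par v {v} (fun _ => 0) := by
  have hpsi : ∀ t : ℤ, psi par v {v} (fun _ => 0) t = if 0 ≤ t then 1 else 0 := by
    intro t
    unfold psi
    rw [Finset.erase_singleton, Finset.filter_empty, Finset.card_empty]
    by_cases ht : 0 ≤ t
    · rw [if_pos ht, Finset.filter_true_of_mem (fun _ _ => ht), Finset.card_singleton]
      norm_num
    · rw [if_neg ht, Finset.filter_false_of_mem (fun _ _ => ht), Finset.card_empty]
      norm_num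
  refine ⟨Finset.mem_singleton_self v, ?_, ?_, ?_, ?_, ?_⟩
  · intro x hx hxv
    exact absurd (Finset.mem_singleton.1 hx) hxv
  · rw [Finset.coe_singleton]
    exact Set.injOn_singleton _ _
  · rw [Finset.erase_singleton, Finset.coe_empty]
    exact Set.injOn_empty _
  · intro t
    rw [hpsi]
    by_cases ht : 0 ≤ t
    · right; rw [if_pos ht]
    · left; rw [if_neg ht]
  · intro w _
    rw [hpsi, if_pos le_rfl]

theorem CHN_holds (hEXT : S_EXT) : S_CHN := by
  intro V _ par v n
  induction n with
  | zero =>
    intro x hx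
    have hxv : x = v := hx
    subst hxv
    refine ⟨{x}, fun _ => 0, chn_zero par x, Finset.mem_singleton_self x, ?_, rfl, fun _ => rfl,
      ?_, ?_, fun _ => le_rfl, ?_⟩
    · intro y hy
      exact ⟨0, le_rfl, Finset.mem_singleton.1 hy⟩
    · intro y hy hyv
      exact absurd (Finset.mem_singleton.1 hy) hyv
    · intro h
      exact absurd h (by decide)
    · intro h
      exact absurd h (lt_irrefl 0)
  | succ n ih =>
    intro x hx
    obtain ⟨hd1, hd2⟩ := chn_dep par v (n + 1) x hx
    have hxv : x ≠ v := hx.1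
    obtain ⟨S, δ, hG, hpS, hiter, hv0, -, h5, hodd, heven, -⟩ := ih (par x) hx.2
    have hxS : x ∉ S := by
      intro h
      obtain ⟨k, hk, hxk⟩ := hiter x h
      have e1 : par^[k + 1] x = x := hxk.symm
      have e2 : par^[n + 1] x = par^[n - k] x := by
        have : n + 1 = (n - k) + (k + 1) := by omega
        rw [this, Function.iterate_add_apply, e1]
      exact hd2 (n - k) (by omega) (e2.symm.trans hd1)
    have hpar : ∀ y ∈ S, y ≠ v → par y ∈ S := hG.2.1
    set R : ℤ := 5 + ∑ y ∈ S, (|δ y| + |δ y + δ (par y)|) with hR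
    have hbound : ∀ y ∈ S, |δ y| + |δ y + δ (par y)| + 5 ≤ R := by
      intro y hy
      have := Finset.single_le_sum (f := fun y => |δ y| + |δ y + δ (par y)|)
        (fun i _ => add_nonneg (abs_nonneg _) (abs_nonneg _)) hy
      rw [hR]
      linarith
    have hR5 : 5 ≤ R := by
      rw [hR]
      have : 0 ≤ ∑ y ∈ S, (|δ y| + |δ y + δ (par y)|) :=
        Finset.sum_nonneg fun i _ => add_nonneg (abs_nonneg _) (abs_nonneg _)
      linarith
    obtain ⟨y0, hy1, hy2, hG'⟩ := hEXT V par v S δ x hG hxS hpS R
    have hy0 : R < |y0| ∧ R < |y0 + δ (par x)| := by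
      rcases le_or_gt (δ (par x)) 0 with h | h
      · obtain ⟨h1, h2⟩ := hy1 h
        exact ⟨lt_of_lt_of_le h1 (le_abs_self _), lt_of_lt_of_le h2 (le_abs_self _)⟩
      · obtain ⟨h1, h2⟩ := hy2 h
        exact ⟨lt_of_lt_of_le (by linarith) (neg_le_abs _),
          lt_of_lt_of_le (by linarith) (neg_le_abs _)⟩
    have hpx : par x ≠ x := fun h => hxS (by rw [← h]; exact hpS)
    have ux : Function.update δ x y0 x = y0 := Function.update_self x y0 δ
    have uS : ∀ y ∈ S, Function.update δ x y0 y = δ y := by
      intro y hy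
      refine Function.update_of_ne ?_ y0 δ
      rintro rfl
      exact hxS hy
    have upx : Function.update δ x y0 (par x) = δ (par x) := uS _ hpS
    refine ⟨insert x S, Function.update δ x y0, hG', Finset.mem_insert_self x S, ?_, ?_,
      fun h => absurd h (Nat.succ_ne_zero n), ?_, ?_, ?_, ?_⟩
    · intro y hy
      rcases Finset.mem_insert.1 hy with rfl | hy
      · exact ⟨0, Nat.zero_le _, rfl⟩
      · obtain ⟨k, hk, e⟩ := hiter y hy
        exact ⟨k + 1, by omega, e⟩
    · rw [uS v hG.1, hv0]
    · intro y hy hyv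
      rcases Finset.mem_insert.1 hy with rfl | hy
      · rw [ux, upx]
        exact ⟨by linarith [hy0.1], by linarith [hy0.2]⟩
      · rw [uS y hy, uS _ (hpar y hy hyv)]
        exact h5 y hy hyv
    · intro h
      rw [ux]
      have hn : Even n := by
        rcases Nat.even_or_odd n with h' | h'
        · exact h'
        · exact absurd h (Nat.not_odd_iff_even.2 h'.add_one)
      have := (hy1 (heven hn)).1
      linarith
    · intro h
      rw [ux]
      have hn : Odd n := by
        rcases Nat.even_or_odd n with h' | h'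
        · exact absurd h (Nat.not_even_iff_odd.2 h'.add_one)
        · exact h'
      have := (hy2 (hodd hn)).1
      linarith
    · intro _ y hy
      refine ⟨fun hyx => ?_, fun hyv hyx => ?_⟩
      · have hyS : y ∈ S := (Finset.mem_insert.1 hy).resolve_left hyx
        rw [ux, uS y hyS]
        have h1 := hbound y hyS
        have h2 := abs_nonneg (δ y + δ (par y))
        linarith [hy0.1]
      · have hyS : y ∈ S := (Finset.mem_insert.1 hy).resolve_left hyx
        rw [ux, uS y hyS, uS _ (hpar y hyS hyv)]
        have h1 := hbound y hyS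
        have h2 := abs_nonneg (δ y)
        linarith [hy0.1]

end Pool.Agent.Lib.MP_8b7544_co.Hv
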