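import Pool.Agent.Lib.MP_8b7544_co.Hv.P_THR

set_option autoImplicit false

namespace Pool.Agent.Lib.MP_8b7544_co.Hv

open Finset
open scoped Pointwise

theorem CIM_holds (hSTR : S_STR) : S_CIM := by
  intro V _ _ r par U δ e a b Γ v u x hr hv hu hx hU hδv hδu hδx hcop hVa hVb hδw hδl he hΓ hδ
    hinj hpar
  classical
  obtain ⟨K, hK⟩ : ∃ K, K = Fintype.card V := ⟨_, rfl⟩
  rw [← hK] at hVa hVb hΓ
  have hUK : U.card ≤ K := by rw [hK]; exact card_le_univ U
  have hDcard : (U.image δ).card = U.card := card_image_of_injective _ hδ
  have hbpos : (0 : ℤ) < b := by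
    have : 0 < b := by omega
    exact_mod_cast this
  have hapos : (0 : ℤ) < a := by
    have : 0 < a := by omega
    exact_mod_cast this
  have hDb : ∀ w ∈ U, |δ w| ≤ (a : ℤ) := by
    intro w hw
    by_cases h : w = u
    · rw [h, hδu]; exact (abs_of_nonneg hapos.le).le
    · have := hδw w hw h
      rw [abs_le]
      constructor <;> linarith
  let c : V → ℤ := fun w => if w ∈ U then 0 else 4 ^ (e w)
  have hcU : ∀ w, w ∈ U → c w = 0 := fun w hw => by simp [c, hw]
  have hcL : ∀ w, w ∉ U → c w = 4 ^ (e w) := fun w hw => by simp [c, hw]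
  have hcb : ∀ w, |δ w - Γ * c w| ≤ a := by
    intro w
    by_cases hw : w ∈ U
    · rw [hcU w hw, mul_zero, sub_zero]; exact hDb w hw
    · rw [hcL w hw, hδl w hw, sub_self, abs_zero]; exact hapos.le
  have hpow : ∀ n : ℕ, (0 : ℤ) < 4 ^ n := fun n => by positivity
  have hcnn : ∀ w, 0 ≤ c w := by
    intro w
    by_cases hw : w ∈ U
    · rw [hcU w hw]
    · rw [hcL w hw]; exact (hpow _).le
  have hKK : (0 : ℤ) ≤ (K : ℤ) * K := by positivity
  have hΓpos : 0 < Γ := by nlinarith
  have hsep : ∀ p q : ℤ, |Γ * (p - q)| < Γ → p = q := by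
    intro p q h
    rw [abs_mul, abs_of_pos hΓpos] at h
    have h1 : |p - q| < 1 := by
      by_contra h2
      push Not at h2
      nlinarith
    have h2 := Int.abs_lt_one_iff.1 h1
    linarith
  have hz1 : ∀ i j k : ℕ, i ≠ j → (4 : ℤ) ^ i + 4 ^ j ≠ 4 ^ k := by
    intro i j k hij h
    exact thr_dig1 hij (by exact_mod_cast h)
  have hz2 : ∀ i j k l : ℕ, i ≠ j → k ≠ l → (4 : ℤ) ^ i + 4 ^ j = 4 ^ k + 4 ^ l →
      (i = k ∧ j = l) ∨ (i = l ∧ j = k) := by
    intro i j k l hij hkl h
    exact thr_dig2 hij hkl (by exact_mod_cast h)
  have hz3 : ∀ i j : ℕ, (4 : ℤ) ^ i = 4 ^ j → i = j := by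
    intro i j h
    have h1 : 4 ^ i = 4 ^ j := by exact_mod_cast h
    exact Nat.pow_right_injective (le_refl 2 |>.trans (by norm_num)) h1
  have hDle : (U.image δ).card ≤ a + b := by rw [hDcard]; omega
  constructor
  · refine hSTR (setA δ) (setB r par δ) (U.image δ) a b K a (by omega) (by omega) hcop
      (mem_image.2 ⟨v, hv, hδv⟩) (mem_image.2 ⟨u, hu, hδu⟩) (mem_image.2 ⟨x, hx, hδx⟩) hVb ?_ ?_
      hDle ?_
    · refine card_image_le.trans ?_
      rw [card_erase_of_mem (mem_univ _), card_univ]; omega
    · intro d hd
      obtain ⟨w, hw, rfl⟩ := mem_image.1 hd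
      exact hDb w hw
    · intro t
      set F := (setB r par δ).filter
        (fun z => t ≤ z ∧ z ≤ t + (2 * (a : ℤ) * (K * K) + 2 * a)) with hF
      have hmemF : ∀ z ∈ F, ∃ w, w ≠ r ∧ δ w + δ (par w) = z ∧ t ≤ z ∧
          z ≤ t + (2 * (a : ℤ) * (K * K) + 2 * a) := by
        intro z hz
        rw [hF, mem_filter, setB, mem_image] at hz
        obtain ⟨⟨w, hw, hwz⟩, h1, h2⟩ := hz
        exact ⟨w, (mem_erase.1 hw).1, hwz, h1, h2⟩
      rcases F.eq_empty_or_nonempty with hFe | ⟨z0, hz0⟩
      · left
        rw [hFe, card_empty, hDcard]; omega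
      obtain ⟨w0, hw0r, hw0z, h01, h02⟩ := hmemF z0 hz0
      have hcen : ∀ w, t ≤ δ w + δ (par w) →
          δ w + δ (par w) ≤ t + (2 * (a : ℤ) * (K * K) + 2 * a) →
          c w + c (par w) = c w0 + c (par w0) := by
        intro w h1 h2
        apply hsep
        have e1 := abs_le.1 (hcb w)
        have e2 := abs_le.1 (hcb (par w))
        have e3 := abs_le.1 (hcb w0)
        have e4 := abs_le.1 (hcb (par w0))
        rw [abs_lt]
        constructor
        · nlinarith
        · nlinarith
      by_cases h1 : w0 ∈ U <;> by_cases h2 : par w0 ∈ U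
      · -- both heavy
        left
        have hsub : F ⊆ (U.erase r).image (fun w => δ w + δ (par w)) := by
          intro z hz
          obtain ⟨w, hwr, hwz, h3, h4⟩ := hmemF z hz
          have h5 := hcen w (by rw [hwz]; exact h3) (by rw [hwz]; exact h4)
          rw [hcU _ h1, hcU _ h2] at h5
          have h6 : w ∈ U := by
            by_contra h
            have := hcnn (par w)
            have := hpow (e w)
            rw [hcL w h] at h5
            linarith
          exact mem_image.2 ⟨w, mem_erase.2 ⟨hwr, h6⟩, hwz⟩
        have := (card_le_card hsub).trans card_image_le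
        rw [card_erase_of_mem hr] at this
        omega
      · -- light vertex par w0
        right
        refine ⟨(U.image δ).image (fun d => δ (par w0) + d), card_image_le, ?_, ?_⟩
        · intro z hz
          obtain ⟨w, hwr, hwz, h3, h4⟩ := hmemF z hz
          have h5 := hcen w (by rw [hwz]; exact h3) (by rw [hwz]; exact h4)
          rw [hcU _ h1, hcL _ h2, zero_add] at h5
          by_cases h6 : w ∈ U <;> by_cases h7 : par w ∈ U
          · rw [hcU _ h6, hcU _ h7] at h5
            have := hpow (e (par w0))
            linarith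
          · rw [hcU _ h6, hcL _ h7, zero_add] at h5
            have h8 : par w = par w0 := he (hz3 _ _ h5)
            rw [mem_image]
            exact ⟨δ w, mem_image_of_mem _ h6, by rw [← hwz, h8]; ring⟩
          · rw [hcL _ h6, hcU _ h7, add_zero] at h5
            have h8 : w = par w0 := he (hz3 _ _ h5)
            rw [mem_image]
            exact ⟨δ (par w), mem_image_of_mem _ h7, by rw [← hwz, h8]⟩
          · rw [hcL _ h6, hcL _ h7] at h5
            exact absurd h5 (hz1 _ _ _ (fun h => hpar w hwr (he h).symm))
        · intro y hy heq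
          apply hy
          have h3 : ((U.image δ).image (fun d => y + d)) = (U.image δ).image (fun d => δ (par w0) + d) := heq
          have h4 : ∑ z ∈ (U.image δ).image (fun d => y + d), z =
              ∑ z ∈ (U.image δ).image (fun d => δ (par w0) + d), z := by rw [h3]
          rw [sum_image (fun p _ q _ h => add_left_cancel h),
            sum_image (fun p _ q _ h => add_left_cancel h), sum_add_distrib, sum_add_distrib,
            sum_const, sum_const, nsmul_eq_mul, nsmul_eq_mul, hDcard] at h4
          have h5 : (U.card : ℤ) * y = U.card * δ (par w0) := by linarith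
          have h6 : (U.card : ℤ) ≠ 0 := by
            have : U.card ≠ 0 := by omega
            exact_mod_cast this
          have h7 := mul_left_cancel₀ h6 h5
          rw [h7, setA]
          exact mem_image_of_mem _ (mem_univ _)
      · -- light vertex w0
        right
        refine ⟨(U.image δ).image (fun d => δ w0 + d), card_image_le, ?_, ?_⟩
        · intro z hz
          obtain ⟨w, hwr, hwz, h3, h4⟩ := hmemF z hz
          have h5 := hcen w (by rw [hwz]; exact h3) (by rw [hwz]; exact h4)
          rw [hcL _ h1, hcU _ h2, add_zero] at h5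
          by_cases h6 : w ∈ U <;> by_cases h7 : par w ∈ U
          · rw [hcU _ h6, hcU _ h7] at h5
            have := hpow (e w0)
            linarith
          · rw [hcU _ h6, hcL _ h7, zero_add] at h5
            have h8 : par w = w0 := he (hz3 _ _ h5)
            rw [mem_image]
            exact ⟨δ w, mem_image_of_mem _ h6, by rw [← hwz, h8]; ring⟩
          · rw [hcL _ h6, hcU _ h7, add_zero] at h5
            have h8 : w = w0 := he (hz3 _ _ h5)
            rw [mem_image]
            exact ⟨δ (par w), mem_image_of_mem _ h7, by rw [← hwz, h8]⟩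
          · rw [hcL _ h6, hcL _ h7] at h5
            exact absurd h5 (hz1 _ _ _ (fun h => hpar w hwr (he h).symm))
        · intro y hy heq
          apply hy
          have h3 : ((U.image δ).image (fun d => y + d)) = (U.image δ).image (fun d => δ w0 + d) := heq
          have h4 : ∑ z ∈ (U.image δ).image (fun d => y + d), z =
              ∑ z ∈ (U.image δ).image (fun d => δ w0 + d), z := by rw [h3]
          rw [sum_image (fun p _ q _ h => add_left_cancel h),
            sum_image (fun p _ q _ h => add_left_cancel h), sum_add_distrib, sum_add_distrib,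
            sum_const, sum_const, nsmul_eq_mul, nsmul_eq_mul, hDcard] at h4
          have h5 : (U.card : ℤ) * y = U.card * δ w0 := by linarith
          have h6 : (U.card : ℤ) ≠ 0 := by
            have : U.card ≠ 0 := by omega
            exact_mod_cast this
          have h7 := mul_left_cancel₀ h6 h5
          rw [h7, setA]
          exact mem_image_of_mem _ (mem_univ _)
      · -- both light
        left
        have hsub : F ⊆ {z0} := by
          intro z hz
          obtain ⟨w, hwr, hwz, h3, h4⟩ := hmemF z hz
          have h5 := hcen w (by rw [hwz]; exact h3) (by rw [hwz]; exact h4)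
          rw [hcL _ h1, hcL _ h2] at h5
          have hne0 : e w0 ≠ e (par w0) := fun h => hpar w0 hw0r (he h).symm
          rw [mem_singleton, ← hwz, ← hw0z]
          by_cases h6 : w ∈ U <;> by_cases h7 : par w ∈ U
          · rw [hcU _ h6, hcU _ h7] at h5
            have := hpow (e w0)
            have := hpow (e (par w0))
            linarith
          · rw [hcU _ h6, hcL _ h7, zero_add] at h5
            exact absurd h5.symm (hz1 _ _ _ hne0)
          · rw [hcL _ h6, hcU _ h7, add_zero] at h5
            exact absurd h5.symm (hz1 _ _ _ hne0)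
          · rw [hcL _ h6, hcL _ h7] at h5
            rcases hz2 _ _ _ _ (fun h => hpar w hwr (he h).symm) hne0 h5 with ⟨h8, h9⟩ | ⟨h8, h9⟩
            · rw [he h8]
            · have h10 : par w = w0 := he h9
              have h11 : w = par w0 := he h8
              rw [h10, ← h11]; ring
        have := card_le_card hsub
        rw [card_singleton] at this
        omega
  · have hnegcard : (-(U.image δ)).card = U.card := by rw [card_neg, hDcard]
    refine hSTR (setB r par δ) (setA δ) (-(U.image δ)) b a K a (by omega) (by omega) hcop.symm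
      ?_ ?_ ?_ hVa ?_ ?_ (by rw [hnegcard]; omega) ?_
    · rw [mem_neg]; exact ⟨0, mem_image.2 ⟨v, hv, hδv⟩, neg_zero⟩
    · rw [mem_neg]; exact ⟨-(b : ℤ), mem_image.2 ⟨x, hx, hδx⟩, neg_neg _⟩
    · rw [mem_neg]; exact ⟨(a : ℤ), mem_image.2 ⟨u, hu, hδu⟩, rfl⟩
    · rw [setA, hK]
      exact card_image_le.trans (card_univ (α := V)).le
    · intro d hd
      rw [mem_neg] at hd
      obtain ⟨d', hd', rfl⟩ := hd
      obtain ⟨w, hw, rfl⟩ := mem_image.1 hd'
      rw [abs_neg]
      exact hDb w hw
    · intro t
      set F := (setA δ).filter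
        (fun z => t ≤ z ∧ z ≤ t + (2 * (a : ℤ) * (K * K) + 2 * a)) with hF
      have hmemF : ∀ z ∈ F, ∃ w, δ w = z ∧ t ≤ z ∧
          z ≤ t + (2 * (a : ℤ) * (K * K) + 2 * a) := by
        intro z hz
        rw [hF, mem_filter, setA, mem_image] at hz
        obtain ⟨⟨w, hw, hwz⟩, h1, h2⟩ := hz
        exact ⟨w, hwz, h1, h2⟩
      rcases F.eq_empty_or_nonempty with hFe | ⟨z0, hz0⟩
      · left
        rw [hFe, card_empty, hnegcard]; omega
      obtain ⟨w0, hw0z, h01, h02⟩ := hmemF z0 hz0
      have hcen : ∀ w, t ≤ δ w → δ w ≤ t + (2 * (a : ℤ) * (K * K) + 2 * a) → c w = c w0 := by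
        intro w h1 h2
        apply hsep
        have e1 := abs_le.1 (hcb w)
        have e3 := abs_le.1 (hcb w0)
        rw [abs_lt]
        constructor
        · nlinarith
        · nlinarith
      by_cases h1 : w0 ∈ U
      · right
        refine ⟨U.image δ, by rw [hnegcard, hDcard], ?_, ?_⟩
        · intro z hz
          obtain ⟨w, hwz, h3, h4⟩ := hmemF z hz
          have h5 := hcen w (by rw [hwz]; exact h3) (by rw [hwz]; exact h4)
          rw [hcU _ h1] at h5
          have h6 : w ∈ U := by
            by_contra h
            have := hpow (e w)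
            rw [hcL w h] at h5
            linarith
          exact mem_image.2 ⟨w, h6, hwz⟩
        · intro y _ heq
          -- minimum of D
          obtain ⟨w1, hw1, hmin⟩ := exists_min_image U δ ⟨v, hv⟩
          have hmem : ∀ w ∈ U, y - δ w ∈ U.image δ := by
            intro w hw
            rw [← heq, mem_image]
            exact ⟨-δ w, by rw [mem_neg]; exact ⟨δ w, mem_image_of_mem _ hw, rfl⟩, by ring⟩
          have hle : ∀ d ∈ U.image δ, d ≤ a := by
            intro d hd
            obtain ⟨w, hw, rfl⟩ := mem_image.1 hd
            exact (abs_le.1 (hDb w hw)).2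
          have h3 := hle _ (hmem w1 hw1)
          have h4 : (a : ℤ) ∈ (-(U.image δ)).image (fun d => y + d) := by
            rw [heq]; exact mem_image.2 ⟨u, hu, hδu⟩
          rw [mem_image] at h4
          obtain ⟨d, hd, hd2⟩ := h4
          rw [mem_neg] at hd
          obtain ⟨d', hd', rfl⟩ := hd
          obtain ⟨w2, hw2, rfl⟩ := mem_image.1 hd'
          have h5 := hmin w2 hw2
          have h6 := hmin x hx
          rw [hδx] at h6
          have h7 : w1 ≠ u := by
            rintro rfl
            rw [hδu] at h6
            linarith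
          have h8 := hδw w1 hw1 h7
          have h9 := hmem v hv
          rw [hδv, sub_zero] at h9
          obtain ⟨w3, hw3, hw3y⟩ := mem_image.1 h9
          by_cases h10 : w3 = u
          · rw [h10, hδu] at hw3y
            linarith
          · have := hδw w3 hw3 h10
            linarith
      · left
        have hsub : F ⊆ {z0} := by
          intro z hz
          obtain ⟨w, hwz, h3, h4⟩ := hmemF z hz
          have h5 := hcen w (by rw [hwz]; exact h3) (by rw [hwz]; exact h4)
          rw [hcL _ h1] at h5
          rw [mem_singleton, ← hwz, ← hw0z]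
          by_cases h6 : w ∈ U
          · rw [hcU _ h6] at h5
            have := hpow (e w0)
            linarith
          · rw [hcL _ h6] at h5
            rw [he (hz3 _ _ h5)]
        have := card_le_card hsub
        rw [card_singleton] at this
        rw [hnegcard]
        omega

end Pool.Agent.Lib.MP_8b7544_co.Hv
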