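import Pool.Agent.Lib.MP_8b7544_co.Hv.Stm3

set_option autoImplicit false

namespace Pool.Agent.Lib.MP_8b7544_co.Hv

open Finset
open scoped Pointwise

theorem COR_holds (hLH : S_LH) (hAS : S_AS) : S_COR := by
  intro V _ _ G r par U δ v u x a β hadj hδ hinj hv hu hx hvu hxv hxu hδv hδu hδw hcop ha hVa hVb
    hCI hCI'
  classical
  have hbx : 1 ≤ β x ∧ δ x = -(β x : ℤ) := ⟨(hδw x hx hxv hxu).2, (hδw x hx hxv hxu).1⟩
  have hAcard : (setA δ).card = Fintype.card V := by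
    rw [setA, card_image_of_injective _ hδ, card_univ]
  have hV1 : 1 ≤ Fintype.card V := Fintype.card_pos_iff.2 ⟨v⟩
  have hBcard : (setB r par δ).card = Fintype.card V - 1 := by
    rw [setB, card_image_of_injOn, card_erase_of_mem (mem_univ _), card_univ]
    intro w hw w' hw' h
    refine hinj ?_ ?_ h
    · simpa using hw
    · simpa using hw'
  obtain ⟨Dm, hDm⟩ : ∃ Dm : ℕ, ∀ w, |δ w| ≤ (Dm : ℤ) := by
    refine ⟨∑ w, (δ w).natAbs, ?_⟩
    intro w
    have h1 : (δ w).natAbs ≤ ∑ w, (δ w).natAbs :=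
      single_le_sum (f := fun w => (δ w).natAbs) (fun i _ => Nat.zero_le _) (mem_univ w)
    rw [← Int.natCast_natAbs]
    exact_mod_cast h1
  have hAb : ∀ y ∈ setA δ, |y| < ((2 * Dm + 1 : ℕ) : ℤ) := by
    intro y hy
    rw [setA, mem_image] at hy
    obtain ⟨w, _, rfl⟩ := hy
    have := hDm w
    push_cast
    linarith [abs_nonneg (δ w)]
  have hBb : ∀ y ∈ setB r par δ, |y| < ((2 * Dm + 1 : ℕ) : ℤ) := by
    intro y hy
    rw [setB, mem_image] at hy
    obtain ⟨w, _, rfl⟩ := hy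
    have h1 := hDm w
    have h2 := hDm (par w)
    have h3 := abs_add_le (δ w) (δ (par w))
    push_cast
    linarith
  obtain ⟨R, g, hR, hg, hgD⟩ := hLH (setA δ) (setB r par δ) (U.image δ) a (β x) Dm (2 * Dm + 1)
    (by omega) hbx.1 hcop (mem_image.2 ⟨v, hv, hδv⟩) (mem_image.2 ⟨u, hu, hδu⟩)
    (mem_image.2 ⟨x, hx, hbx.2⟩) (by omega) (by omega) (by omega)
    (by
      intro d hd
      obtain ⟨w, _, rfl⟩ := mem_image.1 hd
      exact hDm w) hAb hBb hCI hCI'
  let ι := {w // w ∈ U ∧ w ≠ v ∧ w ≠ u}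
  have hβinj : Function.Injective (fun i : ι => β i.1) := by
    intro i j hij
    apply Subtype.ext
    apply hδ
    rw [(hδw i.1 i.2.1 i.2.2.1 i.2.2.2).1, (hδw j.1 j.2.1 j.2.2.1 j.2.2.2).1]
    simp only at hij
    rw [hij]
  obtain ⟨C, hC⟩ := hAS ι a (fun i => β i.1) (setA δ) (setB r par δ) R g ha
    (fun i => (hδw i.1 i.2.1 i.2.2.1 i.2.2.2).2) hβinj (by omega)
    (fun y hy => lt_of_lt_of_le (hAb y hy) (by exact_mod_cast hR))
    (fun y hy => lt_of_lt_of_le (hBb y hy) (by exact_mod_cast hR)) hg (by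
      intro y hy1 hy2 hy3
      obtain ⟨w, hw, hwy⟩ := mem_image.1 (hgD y hy1 hy2 hy3)
      by_cases h1 : w = v
      · left
        rw [h1, hδv] at hwy
        linarith
      by_cases h2 : w = u
      · right; left
        rw [h2, hδu] at hwy
        linarith
      · right; right
        refine ⟨⟨w, hw, h1, h2⟩, ?_⟩
        rw [(hδw w hw h1 h2).1] at hwy
        simp only
        linarith)
  have hsum : ∀ f : V → ℤ, (∀ w, w ∉ U → f w = 0) → ∑ w, f w = f v + f u + ∑ i : ι, f i.1 := by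
    intro f hf
    have h1 : ∑ w, f w = ∑ w ∈ U, f w := (sum_subset (subset_univ U) (fun w _ hw => hf w hw)).symm
    have h2 : ∑ i : ι, f i.1 = ∑ w ∈ (U.erase v).erase u, f w := by
      refine (Finset.sum_subtype ((U.erase v).erase u) ?_ f).symm
      intro w
      simp only [mem_erase]
      tauto
    rw [h1, h2, ← add_sum_erase U f hv, ← add_sum_erase (U.erase v) f (mem_erase.2 ⟨Ne.symm hvu, hu⟩)]
    ring
  obtain ⟨E, hE⟩ : ∃ E : ℤ, E = ∑ y ∈ setB r par δ, y - ∑ y ∈ setA δ, y := ⟨_, rfl⟩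
  refine ⟨C + E.natAbs + Fintype.card V + 1, ?_⟩
  intro m hm0 hm hc1 hc2
  have hs1 := hsum (fun w => (m w : ℤ) * δ w) (fun w hw => by simp [hm0 w hw])
  have hs2 := hsum (fun w => (m w : ℤ)) (fun w hw => by simp [hm0 w hw])
  simp only [hδv, hδu] at hs1
  have hs3 : ∑ i : ι, (m i.1 : ℤ) * δ i.1 = - ∑ i : ι, (β i.1 : ℤ) * m i.1 := by
    rw [← sum_neg_distrib]
    apply sum_congr rfl
    intro i _
    rw [(hδw i.1 i.2.1 i.2.2.1 i.2.2.2).1]
    ring
  rw [hs3] at hs1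
  have hEb' : -|E| ≤ E ∧ E ≤ |E| := ⟨neg_abs_le E, le_abs_self E⟩
  push_cast at hc1 hc2
  obtain ⟨f, hf1, hf2, hf3, hf4, hf5⟩ := hC (fun i => m i.1) (m v) (m u)
    (∑ w, (m w : ℤ) * δ w + E) (PP m)
    (fun i => by have := hm i.1 i.2.1; omega) (by have := hm v hv; omega)
    (by have := hm u hu; omega) (by rw [hs1, hE]; ring)
    (by unfold PP; rw [hAcard, hs2]; ring)
    (by linarith [hEb'.1])
    (by
      unfold PP
      have hV : (1 : ℤ) ≤ Fintype.card V := by exact_mod_cast hV1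
      linarith [hEb'.2])
  obtain ⟨κ, hκ⟩ : ∃ κ : ℤ, κ = ∑ w, (m w : ℤ) * δ w + E := ⟨_, rfl⟩
  rw [← hκ] at hf1 hf2 hf3 hf4 hf5
  have hmemA : ∀ y : ℤ, (∀ w, y ≠ κ + δ w) ↔ y - κ ∉ setA δ := by
    intro y
    rw [setA, mem_image]
    constructor
    · rintro h ⟨w, _, hw⟩
      exact h w (by linarith)
    · intro h w hw
      exact h ⟨w, mem_univ _, by linarith⟩
  refine ⟨δ, κ, f, ?_, ?_, ?_⟩
  · intro y hy1 hy2
    by_cases hyB : y - κ ∈ setB r par δ
    · left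
      rw [setB, mem_image] at hyB
      obtain ⟨w, hw, hwy⟩ := hyB
      exact ⟨w, par w, hadj w (mem_erase.1 hw).1, by linarith⟩
    · right
      obtain ⟨z, ⟨hz1, hz2, hz3⟩, hz⟩ := hf1.surjOn ⟨hy1, hy2, hyB⟩
      exact ⟨z, hz1, hz2, (hmemA z).2 hz3, hz⟩
  · intro y hy1 hy2 hy3
    rcases hf2 y hy1 hy2 ((hmemA y).1 hy3) with h | h | ⟨i, h⟩
    · exact ⟨v, by rw [h, hδv, add_zero]⟩
    · exact ⟨u, by rw [h, hδu]⟩
    · exact ⟨i.1, by rw [h, (hδw i.1 i.2.1 i.2.2.1 i.2.2.2).1]; ring⟩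
  · intro w
    have hset : {y : ℤ | 0 ≤ y ∧ y ≤ PP m ∧ (∀ w', y ≠ κ + δ w') ∧ f y = y + δ w} =
        {y : ℤ | 0 ≤ y ∧ y ≤ PP m ∧ y - κ ∉ setA δ ∧ f y = y + δ w} := by
      ext y
      simp only [Set.mem_ofPred_eq, hmemA y]
    rw [hset]
    by_cases hwv : w = v
    · rw [hwv, hδv]
      simp only [add_zero]
      exact hf3.le
    by_cases hwu : w = u
    · rw [hwu, hδu]
      exact hf4.le
    by_cases hwU : w ∈ U
    · have := hf5 ⟨w, hwU, hwv, hwu⟩
      simp only at this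
      rw [(hδw w hwU hwv hwu).1]
      simp only [← sub_eq_add_neg]
      exact this.le
    · rw [hm0 w hwU, Nat.le_zero, Set.ncard_eq_zero
        ((Set.finite_Icc (0 : ℤ) (PP m)).subset (fun y hy => ⟨hy.1, hy.2.1⟩))]
      ext y
      simp only [Set.mem_ofPred_eq, Set.mem_empty_iff_false, iff_false, not_and]
      intro hy1 hy2 hy3 hy4
      rcases hf2 y hy1 hy2 hy3 with h | h | ⟨i, h⟩
      · apply hwU
        have : w = v := hδ (by rw [hδv]; linarith)
        rw [this]; exact hv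
      · apply hwU
        have : w = u := hδ (by rw [hδu]; linarith)
        rw [this]; exact hu
      · apply hwU
        have : w = i.1 := hδ (by rw [(hδw i.1 i.2.1 i.2.2.1 i.2.2.2).1]; linarith)
        rw [this]; exact i.2.1

end Pool.Agent.Lib.MP_8b7544_co.Hv
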