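import Pool.Agent.Lib.MP_8b7544_co.Hv.Ins

set_option autoImplicit false

namespace Pool.Agent.Lib.MP_8b7544_co.Hv

open Finset

private theorem ev6_dep_unique {V : Type} {par : V → V} {v : V} : ∀ (a b : ℕ) (y : V),
    Dep par v a y → Dep par v b y → a = b
  | 0, 0, _, _, _ => rfl
  | 0, b + 1, y, h, h' => absurd h h'.1
  | a + 1, 0, y, h, h' => absurd h' h.1
  | a + 1, b + 1, y, h, h' => by rw [ev6_dep_unique a b (par y) h.2 h'.2]

private theorem ev6_dep_iter {V : Type} {par : V → V} {v : V} : ∀ (k n : ℕ) (y : V),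
    Dep par v (n + k) y → Dep par v n (par^[k] y)
  | 0, n, y, h => h
  | k + 1, n, y, h => by
    rw [Function.iterate_succ_apply]
    exact ev6_dep_iter k n (par y) h.2

private theorem ev6_psi_low {V : Type} [DecidableEq V] (par : V → V) (v : V) (S : Finset V)
    (δ : V → ℤ) (B : ℤ) (hB : ∀ x ∈ S, -B ≤ δ x ∧ (x ≠ v → -B ≤ δ x + δ (par x))) (t : ℤ)
    (ht : t < -B) : psi par v S δ t = 0 := by
  unfold psi
  have h1 : S.filter (fun w => δ w ≤ t) = ∅ := by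
    rw [filter_eq_empty_iff]
    intro x hx hxt
    have := (hB x hx).1
    omega
  have h2 : (S.erase v).filter (fun w => δ w + δ (par w) ≤ t) = ∅ := by
    rw [filter_eq_empty_iff]
    intro x hx hxt
    have := (hB x (mem_of_mem_erase hx)).2 (ne_of_mem_erase hx)
    omega
  rw [h1, h2]
  simp

private theorem ev6_psi_high {V : Type} [DecidableEq V] (par : V → V) (v : V) (S : Finset V)
    (δ : V → ℤ) (B : ℤ) (hv : v ∈ S)
    (hB : ∀ x ∈ S, δ x ≤ B ∧ (x ≠ v → δ x + δ (par x) ≤ B))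
    (t : ℤ) (ht : B ≤ t) : psi par v S δ t = 1 := by
  unfold psi
  have h1 : S.filter (fun w => δ w ≤ t) = S := by
    rw [filter_eq_self]
    intro x hx
    have := (hB x hx).1
    omega
  have h2 : (S.erase v).filter (fun w => δ w + δ (par w) ≤ t) = S.erase v := by
    rw [filter_eq_self]
    intro x hx
    have := (hB x (mem_of_mem_erase hx)).2 (ne_of_mem_erase hx)
    omega
  rw [h1, h2, card_erase_of_mem hv]
  have : 1 ≤ S.card := card_pos.2 ⟨v, hv⟩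
  omega

private theorem ev6_ind (c t : ℤ) : ∃ i : ℤ, (if c ≤ t then (1 : ℤ) else 0) = i ∧
    ((c ≤ t ∧ i = 1) ∨ (t < c ∧ i = 0)) := by
  by_cases h : c ≤ t
  · exact ⟨1, if_pos h, .inl ⟨h, rfl⟩⟩
  · exact ⟨0, if_neg h, .inr ⟨by omega, rfl⟩⟩

private theorem ev6_bin (t R d : ℤ) (hR : 0 ≤ R) (hd : d ≤ 0) (hd' : -R ≤ d) (P p : ℤ)
    (hp : p = 0 ∨ p = 1) (hlow : t < -R → p = 0) (hhigh : R ≤ t → p = 1)
    (h : ∃ i1 i2 i3 i4 i5 i6 i7 i8 i9 i10 i11 : ℤ,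
      P = p + i1 - i2 + i3 - i4 + i5 - i6 + i7 - i8 + i9 - i10 + i6 - i11 ∧
      ((-(6 * R + 30) ≤ t ∧ i7 = 1) ∨ (t < -(6 * R + 30) ∧ i7 = 0)) ∧
      ((-(5 * R + 26) ≤ t ∧ i10 = 1) ∨ (t < -(5 * R + 26) ∧ i10 = 0)) ∧
      ((-(4 * R + 20) ≤ t ∧ i3 = 1) ∨ (t < -(4 * R + 20) ∧ i3 = 0)) ∧
      ((-(2 * R + 9) ≤ t ∧ i8 = 1) ∨ (t < -(2 * R + 9) ∧ i8 = 0)) ∧
      ((R + 2 ≤ t ∧ i4 = 1) ∨ (t < R + 2 ∧ i4 = 0)) ∧
      ((R + 4 ≤ t ∧ i9 = 1) ∨ (t < R + 4 ∧ i9 = 0)) ∧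
      ((R + 5 ≤ t ∧ i11 = 1) ∨ (t < R + 5 ∧ i11 = 0)) ∧
      ((4 * R + 21 ≤ t ∧ i5 = 1) ∨ (t < 4 * R + 21 ∧ i5 = 0)) ∧
      ((5 * R + 22 + d ≤ t ∧ i2 = 1) ∨ (t < 5 * R + 22 + d ∧ i2 = 0)) ∧
      ((5 * R + 22 ≤ t ∧ i1 = 1) ∨ (t < 5 * R + 22 ∧ i1 = 0))) : P = 0 ∨ P = 1 := by
  obtain ⟨i1, i2, i3, i4, i5, i6, i7, i8, i9, i10, i11, e, d7, d10, d3, d8, d4, d9, d11, d5,
    d2, d1⟩ := h
  rcases d7 with d7 | d7
  swap
  · omega
  rcases d10 with d10 | d10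
  swap
  · omega
  rcases d3 with d3 | d3
  swap
  · omega
  rcases d8 with d8 | d8
  swap
  · omega
  rcases d4 with d4 | d4
  swap
  · omega
  rcases d9 with d9 | d9
  swap
  · omega
  rcases d11 with d11 | d11
  swap
  · omega
  rcases d5 with d5 | d5
  swap
  · omega
  rcases d2 with d2 | d2
  swap
  · omega
  omega

/-- The main computation. -/
private theorem ev6_core {V : Type} [DecidableEq V] (par : V → V)
    (v x0 x1 x2 x3 x4 x5 x : V) (S : Finset V) (δ : V → ℤ) (R : ℤ)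
    (hG : Good par v S δ) (hx : x ∈ S) (hδv : δ v = 0) (hδx : δ x ≤ 0) (hR : 0 ≤ R)
    (h0 : par x0 = x1) (h1 : par x1 = x2) (h2 : par x2 = x3) (h3 : par x3 = x4)
    (h4 : par x4 = x5) (h5 : par x5 = x)
    (hS5 : x5 ∉ S) (hS4 : x4 ∉ insert x5 S) (hS3 : x3 ∉ insert x4 (insert x5 S))
    (hS2 : x2 ∉ insert x3 (insert x4 (insert x5 S)))
    (hS1 : x1 ∉ insert x2 (insert x3 (insert x4 (insert x5 S))))
    (hS0 : x0 ∉ insert x1 (insert x2 (insert x3 (insert x4 (insert x5 S)))))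
    (hb : ∀ y ∈ S, (-R ≤ δ y ∧ δ y ≤ R) ∧
      (y ≠ v → (-R ≤ δ y + δ (par y) ∧ δ y + δ (par y) ≤ R)))
    (h5' : ∀ y ∈ S, y ≠ v → (δ y ≤ -5 ∨ 5 ≤ δ y) ∧
      (δ y + δ (par y) ≤ -5 ∨ 5 ≤ δ y + δ (par y))) :
    Ok par v x0 := by
  obtain ⟨hv, hpar, hi, hj, hp, ha⟩ := id hG
  set δ5 := Function.update δ x5 (5 * R + 22) with hδ5
  set δ4 := Function.update δ5 x4 (-(4 * R + 20)) with hδ4
  set δ3 := Function.update δ4 x3 (4 * R + 21) with hδ3
  set δ2 := Function.update δ3 x2 (-(6 * R + 30)) with hδ2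
  set δ1 := Function.update δ2 x1 (R + 4) with hδ1
  set δ0 := Function.update δ1 x0 1 with hδ0
  set S5 := insert x5 S with hS5d
  set S4 := insert x4 S5 with hS4d
  set S3 := insert x3 S4 with hS3d
  set S2 := insert x2 S3 with hS2d
  set S1 := insert x1 S2 with hS1d
  set S0 := insert x0 S1 with hS0d
  -- membership
  have m5 : ∀ {y}, y ∈ S → y ∈ S5 := fun h => mem_insert_of_mem h
  have m4 : ∀ {y}, y ∈ S5 → y ∈ S4 := fun h => mem_insert_of_mem h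
  have m3 : ∀ {y}, y ∈ S4 → y ∈ S3 := fun h => mem_insert_of_mem h
  have m2 : ∀ {y}, y ∈ S3 → y ∈ S2 := fun h => mem_insert_of_mem h
  have m1 : ∀ {y}, y ∈ S2 → y ∈ S1 := fun h => mem_insert_of_mem h
  have m0 : ∀ {y}, y ∈ S1 → y ∈ S0 := fun h => mem_insert_of_mem h
  have i5 : x5 ∈ S5 := mem_insert_self _ _
  have i4 : x4 ∈ S4 := mem_insert_self _ _
  have i3 : x3 ∈ S3 := mem_insert_self _ _
  have i2 : x2 ∈ S2 := mem_insert_self _ _
  have i1 : x1 ∈ S1 := mem_insert_self _ _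
  have i0 : x0 ∈ S0 := mem_insert_self _ _
  -- parent closed
  have step : ∀ (T : Finset V) (z : V), (∀ y ∈ T, y ≠ v → par y ∈ T) → par z ∈ T →
      ∀ y ∈ insert z T, y ≠ v → par y ∈ insert z T := by
    intro T z hT hz y hy hyv
    rcases mem_insert.1 hy with rfl | hy
    · exact mem_insert_of_mem hz
    · exact mem_insert_of_mem (hT y hy hyv)
  have c5 : ∀ y ∈ S5, y ≠ v → par y ∈ S5 := step S x5 hpar (h5 ▸ hx)
  have c4 : ∀ y ∈ S4, y ≠ v → par y ∈ S4 := step S5 x4 c5 (h4 ▸ i5)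
  have c3 : ∀ y ∈ S3, y ≠ v → par y ∈ S3 := step S4 x3 c4 (h3 ▸ i4)
  have c2 : ∀ y ∈ S2, y ≠ v → par y ∈ S2 := step S3 x2 c3 (h2 ▸ i3)
  have c1 : ∀ y ∈ S1, y ≠ v → par y ∈ S1 := step S2 x1 c2 (h1 ▸ i2)
  have c0 : ∀ y ∈ S0, y ≠ v → par y ∈ S0 := step S1 x0 c1 (h0 ▸ i1)
  -- values
  have ne : ∀ {T : Finset V} {y z : V}, z ∉ T → y ∈ T → y ≠ z := fun h h' e => h (e ▸ h')
  have u5 : ∀ y ∈ S, δ5 y = δ y := fun y hy => Function.update_of_ne (ne hS5 hy) _ _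
  have u4 : ∀ y ∈ S5, δ4 y = δ5 y := fun y hy => Function.update_of_ne (ne hS4 hy) _ _
  have u3 : ∀ y ∈ S4, δ3 y = δ4 y := fun y hy => Function.update_of_ne (ne hS3 hy) _ _
  have u2 : ∀ y ∈ S3, δ2 y = δ3 y := fun y hy => Function.update_of_ne (ne hS2 hy) _ _
  have u1 : ∀ y ∈ S2, δ1 y = δ2 y := fun y hy => Function.update_of_ne (ne hS1 hy) _ _
  have u0 : ∀ y ∈ S1, δ0 y = δ1 y := fun y hy => Function.update_of_ne (ne hS0 hy) _ _
  have w5 : δ5 x5 = 5 * R + 22 := Function.update_self _ _ _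
  have w4 : δ4 x4 = -(4 * R + 20) := Function.update_self _ _ _
  have w3 : δ3 x3 = 4 * R + 21 := Function.update_self _ _ _
  have w2 : δ2 x2 = -(6 * R + 30) := Function.update_self _ _ _
  have w1 : δ1 x1 = R + 4 := Function.update_self _ _ _
  have w0 : δ0 x0 = 1 := Function.update_self _ _ _
  have V1 : δ0 x1 = R + 4 := by rw [u0 _ i1, w1]
  have V2 : δ0 x2 = -(6 * R + 30) := by rw [u0 _ (m1 i2), u1 _ i2, w2]
  have V3 : δ0 x3 = 4 * R + 21 := by rw [u0 _ (m1 (m2 i3)), u1 _ (m2 i3), u2 _ i3, w3]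
  have V4 : δ0 x4 = -(4 * R + 20) := by
    rw [u0 _ (m1 (m2 (m3 i4))), u1 _ (m2 (m3 i4)), u2 _ (m3 i4), u3 _ i4, w4]
  have V5 : δ0 x5 = 5 * R + 22 := by
    rw [u0 _ (m1 (m2 (m3 (m4 i5)))), u1 _ (m2 (m3 (m4 i5))), u2 _ (m3 (m4 i5)), u3 _ (m4 i5),
      u4 _ i5, w5]
  have VS : ∀ y ∈ S, δ0 y = δ y := fun y hy => by
    rw [u0 _ (m1 (m2 (m3 (m4 (m5 hy))))), u1 _ (m2 (m3 (m4 (m5 hy)))), u2 _ (m3 (m4 (m5 hy))),
      u3 _ (m4 (m5 hy)), u4 _ (m5 hy), u5 _ hy]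
  have hxb := hb x hx
  -- psi
  have hps : ∀ t, psi par v S0 δ0 t = psi par v S δ t
      + (if 5 * R + 22 ≤ t then 1 else 0) - (if 5 * R + 22 + δ x ≤ t then 1 else 0)
      + (if -(4 * R + 20) ≤ t then 1 else 0) - (if R + 2 ≤ t then 1 else 0)
      + (if 4 * R + 21 ≤ t then 1 else 0) - (if (1 : ℤ) ≤ t then 1 else 0)
      + (if -(6 * R + 30) ≤ t then 1 else 0) - (if -(2 * R + 9) ≤ t then 1 else 0)
      + (if R + 4 ≤ t then 1 else 0) - (if -(5 * R + 26) ≤ t then 1 else 0)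
      + (if (1 : ℤ) ≤ t then 1 else 0) - (if R + 5 ≤ t then 1 else 0) := by
    intro t
    rw [hδ0, psi_insert par v S1 δ1 x0 1 (m1 (m2 (m3 (m4 (m5 hv))))) c1 hS0 (h0 ▸ i1),
      hδ1, psi_insert par v S2 δ2 x1 _ (m2 (m3 (m4 (m5 hv)))) c2 hS1 (h1 ▸ i2),
      hδ2, psi_insert par v S3 δ3 x2 _ (m3 (m4 (m5 hv))) c3 hS2 (h2 ▸ i3),
      hδ3, psi_insert par v S4 δ4 x3 _ (m4 (m5 hv)) c4 hS3 (h3 ▸ i4),
      hδ4, psi_insert par v S5 δ5 x4 _ (m5 hv) c5 hS4 (h4 ▸ i5),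
      hδ5, psi_insert par v S δ x5 _ hv hpar hS5 (h5 ▸ hx),
      ← hδ5, ← hδ4, ← hδ3, ← hδ2, ← hδ1, h0, h1, h2, h3, h4, h5, w1, w2, w3, w4, w5]
    have e1 : (1 : ℤ) + (R + 4) = R + 5 := by ring
    have e2 : R + 4 + -(6 * R + 30) = -(5 * R + 26) := by ring
    have e3 : -(6 * R + 30) + (4 * R + 21) = -(2 * R + 9) := by ring
    have e4 : 4 * R + 21 + -(4 * R + 20) = 1 := by ring
    have e5 : -(4 * R + 20) + (5 * R + 22) = R + 2 := by ring
    rw [e1, e2, e3, e4, e5]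
  have hlow : ∀ t < -R, psi par v S δ t = 0 :=
    ev6_psi_low par v S δ R fun y hy => ⟨(hb y hy).1.1, fun h => ((hb y hy).2 h).1⟩
  have hhigh : ∀ t, R ≤ t → psi par v S δ t = 1 :=
    ev6_psi_high par v S δ R hv fun y hy => ⟨(hb y hy).1.2, fun h => ((hb y hy).2 h).2⟩
  -- description of the values
  have hval : ∀ y ∈ S0, (y = x0 ∧ δ0 y = 1) ∨ (y = x1 ∧ δ0 y = R + 4) ∨
      (y = x2 ∧ δ0 y = -(6 * R + 30)) ∨ (y = x3 ∧ δ0 y = 4 * R + 21) ∨
      (y = x4 ∧ δ0 y = -(4 * R + 20)) ∨ (y = x5 ∧ δ0 y = 5 * R + 22) ∨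
      (y ∈ S ∧ δ0 y = δ y ∧ -R ≤ δ y ∧ δ y ≤ R ∧ (δ y ≤ -5 ∨ δ y = 0 ∨ 5 ≤ δ y)) := by
    intro y hy
    rcases mem_insert.1 hy with h | hy
    · subst h; exact .inl ⟨rfl, w0⟩
    rcases mem_insert.1 hy with h | hy
    · subst h; exact .inr (.inl ⟨rfl, V1⟩)
    rcases mem_insert.1 hy with h | hy
    · subst h; exact .inr (.inr (.inl ⟨rfl, V2⟩))
    rcases mem_insert.1 hy with h | hy
    · subst h; exact .inr (.inr (.inr (.inl ⟨rfl, V3⟩)))
    rcases mem_insert.1 hy with h | hy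
    · subst h; exact .inr (.inr (.inr (.inr (.inl ⟨rfl, V4⟩))))
    rcases mem_insert.1 hy with h | hy
    · subst h; exact .inr (.inr (.inr (.inr (.inr (.inl ⟨rfl, V5⟩)))))
    refine .inr (.inr (.inr (.inr (.inr (.inr ⟨hy, VS y hy, (hb y hy).1.1, (hb y hy).1.2, ?_⟩)))))
    by_cases hyv : y = v
    · rw [hyv, hδv]; exact .inr (.inl rfl)
    · rcases (h5' y hy hyv).1 with h | h
      · exact .inl h
      · exact .inr (.inr h)
  have hedge : ∀ y ∈ S0, y ≠ v → (y = x0 ∧ δ0 y + δ0 (par y) = R + 5) ∨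
      (y = x1 ∧ δ0 y + δ0 (par y) = -(5 * R + 26)) ∨
      (y = x2 ∧ δ0 y + δ0 (par y) = -(2 * R + 9)) ∨ (y = x3 ∧ δ0 y + δ0 (par y) = 1) ∨
      (y = x4 ∧ δ0 y + δ0 (par y) = R + 2) ∨ (y = x5 ∧ δ0 y + δ0 (par y) = 5 * R + 22 + δ x) ∨
      (y ∈ S ∧ δ0 y + δ0 (par y) = δ y + δ (par y) ∧ -R ≤ δ y + δ (par y) ∧
        δ y + δ (par y) ≤ R ∧ (δ y + δ (par y) ≤ -5 ∨ 5 ≤ δ y + δ (par y))) := by
    intro y hy hyv
    rcases mem_insert.1 hy with h | hy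
    · subst h; rw [h0, w0, V1]; exact .inl ⟨rfl, by ring⟩
    rcases mem_insert.1 hy with h | hy
    · subst h; rw [h1, V2, V1]; exact .inr (.inl ⟨rfl, by ring⟩)
    rcases mem_insert.1 hy with h | hy
    · subst h; rw [h2, V3, V2]; exact .inr (.inr (.inl ⟨rfl, by ring⟩))
    rcases mem_insert.1 hy with h | hy
    · subst h; rw [h3, V4, V3]; exact .inr (.inr (.inr (.inl ⟨rfl, by ring⟩)))
    rcases mem_insert.1 hy with h | hy
    · subst h; rw [h4, V5, V4]; exact .inr (.inr (.inr (.inr (.inl ⟨rfl, by ring⟩))))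
    rcases mem_insert.1 hy with h | hy
    · subst h; rw [h5, V5, VS x hx]; exact .inr (.inr (.inr (.inr (.inr (.inl ⟨rfl, rfl⟩)))))
    refine .inr (.inr (.inr (.inr (.inr (.inr ⟨hy, ?_, ((hb y hy).2 hyv).1, ((hb y hy).2 hyv).2,
      (h5' y hy hyv).2⟩)))))
    rw [VS y hy, VS _ (hpar y hy hyv)]
  have hpsi1 : psi par v S δ 1 = 1 := by
    have ha0 : psi par v S δ 0 = 1 := by
      have := ha v hv
      rwa [hδv] at this
    refine Eq.trans ?_ ha0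
    unfold psi
    have e1 : S.filter (fun w => δ w ≤ 1) = S.filter (fun w => δ w ≤ 0) := by
      apply filter_congr
      intro y hy
      by_cases hyv : y = v
      · rw [hyv, hδv]; simp
      · have := (h5' y hy hyv).1
        constructor <;> intro h <;> omega
    have e2 : (S.erase v).filter (fun w => δ w + δ (par w) ≤ 1) =
        (S.erase v).filter (fun w => δ w + δ (par w) ≤ 0) := by
      apply filter_congr
      intro y hy
      have := (h5' y (mem_of_mem_erase hy) (ne_of_mem_erase hy)).2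
      constructor <;> intro h <;> omega
    rw [e1, e2]
  have hform : ∀ t, ∃ i1 i2 i3 i4 i5 i6 i7 i8 i9 i10 i11 : ℤ,
      psi par v S0 δ0 t = psi par v S δ t + i1 - i2 + i3 - i4 + i5 - i6 + i7 - i8 + i9 - i10
        + i6 - i11 ∧
      ((-(6 * R + 30) ≤ t ∧ i7 = 1) ∨ (t < -(6 * R + 30) ∧ i7 = 0)) ∧
      ((-(5 * R + 26) ≤ t ∧ i10 = 1) ∨ (t < -(5 * R + 26) ∧ i10 = 0)) ∧
      ((-(4 * R + 20) ≤ t ∧ i3 = 1) ∨ (t < -(4 * R + 20) ∧ i3 = 0)) ∧
      ((-(2 * R + 9) ≤ t ∧ i8 = 1) ∨ (t < -(2 * R + 9) ∧ i8 = 0)) ∧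
      ((R + 2 ≤ t ∧ i4 = 1) ∨ (t < R + 2 ∧ i4 = 0)) ∧
      ((R + 4 ≤ t ∧ i9 = 1) ∨ (t < R + 4 ∧ i9 = 0)) ∧
      ((R + 5 ≤ t ∧ i11 = 1) ∨ (t < R + 5 ∧ i11 = 0)) ∧
      ((4 * R + 21 ≤ t ∧ i5 = 1) ∨ (t < 4 * R + 21 ∧ i5 = 0)) ∧
      ((5 * R + 22 + δ x ≤ t ∧ i2 = 1) ∨ (t < 5 * R + 22 + δ x ∧ i2 = 0)) ∧
      ((5 * R + 22 ≤ t ∧ i1 = 1) ∨ (t < 5 * R + 22 ∧ i1 = 0)) := by
    intro t
    obtain ⟨i1, e1, d1⟩ := ev6_ind (5 * R + 22) t
    obtain ⟨i2, e2, d2⟩ := ev6_ind (5 * R + 22 + δ x) t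
    obtain ⟨i3, e3, d3⟩ := ev6_ind (-(4 * R + 20)) t
    obtain ⟨i4, e4, d4⟩ := ev6_ind (R + 2) t
    obtain ⟨i5, e5, d5⟩ := ev6_ind (4 * R + 21) t
    obtain ⟨i6, e6, d6⟩ := ev6_ind 1 t
    obtain ⟨i7, e7, d7⟩ := ev6_ind (-(6 * R + 30)) t
    obtain ⟨i8, e8, d8⟩ := ev6_ind (-(2 * R + 9)) t
    obtain ⟨i9, e9, d9⟩ := ev6_ind (R + 4) t
    obtain ⟨i10, e10, d10⟩ := ev6_ind (-(5 * R + 26)) t
    obtain ⟨i11, e11, d11⟩ := ev6_ind (R + 5) t
    refine ⟨i1, i2, i3, i4, i5, i6, i7, i8, i9, i10, i11, ?_, d7, d10, d3, d8, d4, d9, d11, d5,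
      d2, d1⟩
    rw [hps t, e1, e2, e3, e4, e5, e6, e7, e8, e9, e10, e11]
  refine ⟨S0, δ0, ⟨m0 (m1 (m2 (m3 (m4 (m5 hv))))), c0, ?_, ?_, ?_, ?_⟩, i0, ?_, w0⟩
  · intro a haS b hbS hab
    rw [mem_coe] at haS hbS
    rcases hval a haS with h | h | h | h | h | h | h <;>
      rcases hval b hbS with h' | h' | h' | h' | h' | h' | h' <;>
      first
        | exact h.1.trans h'.1.symm
        | (exfalso; omega)
        | exact hi h.1 h'.1 (by rw [← h.2.1, ← h'.2.1]; exact hab)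
  · intro a haS b hbS hab
    rw [mem_coe, mem_erase] at haS hbS
    simp only at hab
    rcases hedge a haS.2 haS.1 with h | h | h | h | h | h | h <;>
      rcases hedge b hbS.2 hbS.1 with h' | h' | h' | h' | h' | h' | h' <;>
      first
        | exact h.1.trans h'.1.symm
        | (exfalso; omega)
        | exact hj (mem_coe.2 (mem_erase.2 ⟨haS.1, h.1⟩)) (mem_coe.2 (mem_erase.2 ⟨hbS.1, h'.1⟩))
            (by simp only; rw [← h.2.1, ← h'.2.1]; exact hab)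
  · intro t
    exact ev6_bin t R (δ x) hR hδx hxb.1.1 _ _ (hp t) (hlow t) (hhigh t) (hform t)
  · intro y hy
    obtain ⟨i1, i2, i3, i4, i5, i6, i7, i8, i9, i10, i11, e, d7, d10, d3, d8, d4, d9, d11, d5,
      d2, d1⟩ := hform (δ0 y)
    rw [e]
    clear hform hedge hps
    have hlt := hlow (δ0 y)
    have hht := hhigh (δ0 y)
    rcases hval y hy with h | h | h | h | h | h | h
    · have hpv : psi par v S δ (δ0 y) = 1 := by rw [h.2]; exact hpsi1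
      omega
    · have hpv := hht (by omega)
      omega
    · have hpv := hlt (by omega)
      omega
    · have hpv := hht (by omega)
      omega
    · have hpv := hlt (by omega)
      omega
    · have hpv := hht (by omega)
      omega
    · obtain ⟨hyS, hyd, hy1, hy2, -⟩ := h
      have hpv : psi par v S δ (δ0 y) = 1 := by rw [hyd]; exact ha y hyS
      omega
  · rw [VS v hv, hδv]

theorem EV6_holds (hCHN : S_CHN) : S_EV6 := by
  intro V _ par v u n hn hu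
  have hx : Dep par v n (par^[6] u) := ev6_dep_iter 6 n u hu
  obtain ⟨S, δ, hG, hxS, hS, hδv, -, h5, -, hev, -⟩ := hCHN V par v n _ hx
  obtain ⟨R, hR0, hRb⟩ : ∃ R : ℤ, 0 ≤ R ∧ ∀ y ∈ S, |δ y| ≤ R ∧ |δ y + δ (par y)| ≤ R := by
    refine ⟨∑ x ∈ S, (|δ x| + |δ x + δ (par x)|), sum_nonneg fun x _ => by positivity,
      fun x hx => ?_⟩
    have h1 : |δ x| + |δ x + δ (par x)| ≤ ∑ x ∈ S, (|δ x| + |δ x + δ (par x)|) :=
      single_le_sum (f := fun x => |δ x| + |δ x + δ (par x)|)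
        (fun x _ => by positivity) hx
    have h2 := abs_nonneg (δ x)
    have h3 := abs_nonneg (δ x + δ (par x))
    omega
  -- depths
  have hdS : ∀ y ∈ S, ∃ k ≤ n, Dep par v k y := by
    intro y hy
    obtain ⟨k, hk, rfl⟩ := hS y hy
    refine ⟨n - k, by omega, ev6_dep_iter k (n - k) _ ?_⟩
    rwa [Nat.sub_add_cancel hk]
  have hd : ∀ j ≤ 6, Dep par v (n + 6 - j) (par^[j] u) := by
    intro j hj
    refine ev6_dep_iter j (n + 6 - j) u ?_
    rwa [Nat.sub_add_cancel (by omega)]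
  have hnS : ∀ j, j < 6 → par^[j] u ∉ S := by
    intro j hj h
    obtain ⟨k, hk, hk'⟩ := hdS _ h
    have := ev6_dep_unique _ _ _ hk' (hd j (by omega))
    omega
  have hne : ∀ i j, i < j → j ≤ 6 → par^[i] u ≠ par^[j] u := by
    intro i j hij hj h
    have h1 := hd i (by omega)
    rw [h] at h1
    have := ev6_dep_unique _ _ _ h1 (hd j hj)
    omega
  have hp : ∀ j, par (par^[j] u) = par^[j + 1] u := fun j =>
    (Function.iterate_succ_apply' par j u).symm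
  refine ev6_core par v (par^[0] u) (par^[1] u) (par^[2] u) (par^[3] u) (par^[4] u) (par^[5] u)
    (par^[6] u) S δ R hG hxS hδv (hev hn) hR0 (hp 0) (hp 1) (hp 2) (hp 3) (hp 4) (hp 5)
    (hnS 5 (by omega)) ?_ ?_ ?_ ?_ ?_ ?_ ?_
  · rw [mem_insert]
    rintro (h | h)
    · exact hne 4 5 (by omega) (by omega) h
    · exact hnS 4 (by omega) h
  · rw [mem_insert, mem_insert]
    rintro (h | h | h)
    · exact hne 3 4 (by omega) (by omega) h
    · exact hne 3 5 (by omega) (by omega) h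
    · exact hnS 3 (by omega) h
  · rw [mem_insert, mem_insert, mem_insert]
    rintro (h | h | h | h)
    · exact hne 2 3 (by omega) (by omega) h
    · exact hne 2 4 (by omega) (by omega) h
    · exact hne 2 5 (by omega) (by omega) h
    · exact hnS 2 (by omega) h
  · rw [mem_insert, mem_insert, mem_insert, mem_insert]
    rintro (h | h | h | h | h)
    · exact hne 1 2 (by omega) (by omega) h
    · exact hne 1 3 (by omega) (by omega) h
    · exact hne 1 4 (by omega) (by omega) h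
    · exact hne 1 5 (by omega) (by omega) h
    · exact hnS 1 (by omega) h
  · rw [mem_insert, mem_insert, mem_insert, mem_insert, mem_insert]
    rintro (h | h | h | h | h | h)
    · exact hne 0 1 (by omega) (by omega) h
    · exact hne 0 2 (by omega) (by omega) h
    · exact hne 0 3 (by omega) (by omega) h
    · exact hne 0 4 (by omega) (by omega) h
    · exact hne 0 5 (by omega) (by omega) h
    · exact hnS 0 (by omega) h
  · intro y hy
    obtain ⟨h1, h2⟩ := hRb y hy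
    rw [abs_le] at h1 h2
    exact ⟨h1, fun _ => h2⟩
  · intro y hy hyv
    obtain ⟨h1, h2⟩ := h5 y hy hyv
    rw [le_abs] at h1 h2
    constructor
    · rcases h1 with h | h
      · right; exact h
      · left; omega
    · rcases h2 with h | h
      · right; exact h
      · left; omega

end Pool.Agent.Lib.MP_8b7544_co.Hv
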