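import Pool.Agent.Lib.MP_8b7544_co.Hv.Stm3

set_option autoImplicit false

namespace Pool.Agent.Lib.MP_8b7544_co.Hv

open Finset
open scoped Pointwise

private theorem ex3_nbr {W : Type} (T : SimpleGraph W) (hT : T.IsTree) (v w : W) (h : w ≠ v) :
    ∃ x, T.Adj w x := by
  obtain ⟨p⟩ := hT.1.preconnected w v
  cases p with
  | nil => exact absurd rfl h
  | cons h' _ => exact ⟨_, h'⟩

theorem EX3_holds (hP3 : S_P3) (hFPR : S_FPR) : S_EX3 := by
  classical
  intro W _ T hT v p u hvu hvp hpu hcov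
  have hvp' : v ≠ p := hvp.ne
  have hpu' : p ≠ u := hpu.ne
  obtain ⟨e, he⟩ : ∃ e : Fin 3 → W, e = ![v, p, u] := ⟨_, rfl⟩
  have e0 : e 0 = v := by rw [he]; rfl
  have e1 : e 1 = p := by rw [he]; rfl
  have e2 : e 2 = u := by rw [he]; rfl
  have hinj : Function.Injective e := by
    intro i j hij
    fin_cases i <;> fin_cases j
    · rfl
    · exact absurd (e0.symm.trans (hij.trans e1)) hvp'
    · exact absurd (e0.symm.trans (hij.trans e2)) hvu
    · exact absurd (e1.symm.trans (hij.trans e0)) hvp'.symm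
    · rfl
    · exact absurd (e1.symm.trans (hij.trans e2)) hpu'
    · exact absurd (e2.symm.trans (hij.trans e0)) hvu.symm
    · exact absurd (e2.symm.trans (hij.trans e1)) hpu'.symm
    · rfl
  have hex : ∀ w, ∃ i : Fin 3, w ∉ Set.range e → T.Adj w (e i) := by
    intro w
    by_cases hw : w ∈ Set.range e
    · exact ⟨0, fun h => absurd hw h⟩
    · have hwv : w ≠ v := fun h => hw ⟨0, by rw [e0, h]⟩
      have hwp : w ≠ p := fun h => hw ⟨1, by rw [e1, h]⟩
      have hwu : w ≠ u := fun h => hw ⟨2, by rw [e2, h]⟩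
      obtain ⟨x, hx⟩ := ex3_nbr T hT v w hwv
      rcases hcov w x hx with h | h | h | h | h | h
      · exact absurd h hwv
      · exact absurd h hwp
      · exact absurd h hwu
      · exact ⟨0, fun _ => by rw [e0, ← h]; exact hx⟩
      · exact ⟨1, fun _ => by rw [e1, ← h]; exact hx⟩
      · exact ⟨2, fun _ => by rw [e2, ← h]; exact hx⟩
  choose π hπ using hex
  refine hFPR W (Fin 3) T (T.comap e) e π
    (fun a => {w | w ∉ Set.range e ∧ π w = a}.ncard) hT hinj (fun a b h => h) hπ
    (fun a => rfl) (hP3 _ _ ?_ ?_)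
  · change T.Adj (e 0) (e 1)
    rw [e0, e1]; exact hvp
  · change T.Adj (e 1) (e 2)
    rw [e1, e2]; exact hpu

end Pool.Agent.Lib.MP_8b7544_co.Hv
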