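import Pool.Agent.Lib.MP_8b7544_co.Hv.Stm3

set_option autoImplicit false

namespace Pool.Agent.Lib.MP_8b7544_co.Hv

open Finset
open scoped Pointwise

private theorem ex5_nbr {W : Type} (T : SimpleGraph W) (hT : T.IsTree) (v w : W) (h : w ≠ v) :
    ∃ x, T.Adj w x := by
  obtain ⟨p⟩ := hT.1.preconnected w v
  cases p with
  | nil => exact absurd rfl h
  | cons h' _ => exact ⟨_, h'⟩

theorem EX5_holds (hP5 : S_P5) (hFPR : S_FPR) : S_EX5 := by
  classical
  intro W _ T hT v x y z u hnd hvx hxy hyz hzu hcov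
  obtain ⟨e, he⟩ : ∃ e : Fin 5 → W, e = ![v, x, y, z, u] := ⟨_, rfl⟩
  have e0 : e 0 = v := by rw [he]; rfl
  have e1 : e 1 = x := by rw [he]; rfl
  have e2 : e 2 = y := by rw [he]; rfl
  have e3 : e 3 = z := by rw [he]; rfl
  have e4 : e 4 = u := by rw [he]; rfl
  have hinj : Function.Injective e := by
    have h1 : e = [v, x, y, z, u].get := by
      funext i
      rw [he]
      fin_cases i <;> rfl
    rw [h1]
    exact List.nodup_iff_injective_get.1 hnd
  obtain ⟨π, hπdef⟩ : ∃ π : W → Fin 5, ∀ w, π w = if T.Adj w v then 0 else 4 :=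
    ⟨fun w => if T.Adj w v then 0 else 4, fun _ => rfl⟩
  have hπ : ∀ w, w ∉ Set.range e → T.Adj w (e (π w)) := by
    intro w hw
    have hwv : w ≠ v := fun h => hw ⟨0, by rw [e0, h]⟩
    have hwx : w ≠ x := fun h => hw ⟨1, by rw [e1, h]⟩
    have hwy : w ≠ y := fun h => hw ⟨2, by rw [e2, h]⟩
    have hwz : w ≠ z := fun h => hw ⟨3, by rw [e3, h]⟩
    have hwu : w ≠ u := fun h => hw ⟨4, by rw [e4, h]⟩
    rw [hπdef]
    by_cases h : T.Adj w v
    · rw [if_pos h, e0]; exact h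
    · rw [if_neg h, e4]
      obtain ⟨t, ht⟩ := ex5_nbr T hT v w hwv
      rcases hcov w hwv hwx hwy hwz hwu t ht with h' | h'
      · rw [h'] at ht; exact absurd ht h
      · rw [h'] at ht; exact ht
  have hz : ∀ a : Fin 5, a ≠ 0 → a ≠ 4 → {w | w ∉ Set.range e ∧ π w = a}.ncard = 0 := by
    intro a ha0 ha4
    have h1 : {w | w ∉ Set.range e ∧ π w = a} = ∅ := by
      ext w
      simp only [Set.mem_setOf_eq, Set.mem_empty_iff_false, iff_false]
      rintro ⟨-, h⟩
      rw [hπdef] at h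
      by_cases hc : T.Adj w v
      · rw [if_pos hc] at h; exact ha0 h.symm
      · rw [if_neg hc] at h; exact ha4 h.symm
    rw [h1, Set.ncard_empty]
  refine hFPR W (Fin 5) T (T.comap e) e π
    (fun a => {w | w ∉ Set.range e ∧ π w = a}.ncard) hT hinj (fun a b h => h) hπ
    (fun a => rfl) (hP5 _ _ ?_ ?_ ?_ ?_ (hz 1 (by decide) (by decide)) (hz 2 (by decide) (by decide))
      (hz 3 (by decide) (by decide)))
  · change T.Adj (e 0) (e 1)
    rw [e0, e1]; exact hvx
  · change T.Adj (e 1) (e 2)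
    rw [e1, e2]; exact hxy
  · change T.Adj (e 2) (e 3)
    rw [e2, e3]; exact hyz
  · change T.Adj (e 3) (e 4)
    rw [e3, e4]; exact hzu

end Pool.Agent.Lib.MP_8b7544_co.Hv
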