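import Pool.Agent.Lib.MP_8b7544_co.Hv.Ins

set_option autoImplicit false

namespace Pool.Agent.Lib.MP_8b7544_co.Hv

open Finset

private theorem ext_low {V : Type} [DecidableEq V] (par : V → V) (v : V) (S : Finset V)
    (δ : V → ℤ) (B : ℤ) (hB : ∀ x ∈ S, |δ x| ≤ B ∧ |δ x + δ (par x)| ≤ B) (t : ℤ) (ht : t < -B) :
    psi par v S δ t = 0 := by
  unfold psi
  have h1 : S.filter (fun w => δ w ≤ t) = ∅ := by
    rw [filter_eq_empty_iff]
    intro x hx hxt
    have := (abs_le.1 (hB x hx).1).1
    omega
  have h2 : (S.erase v).filter (fun w => δ w + δ (par w) ≤ t) = ∅ := by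
    rw [filter_eq_empty_iff]
    intro x hx hxt
    have := (abs_le.1 (hB x (mem_of_mem_erase hx)).2).1
    omega
  rw [h1, h2]
  simp

private theorem ext_high {V : Type} [DecidableEq V] (par : V → V) (v : V) (S : Finset V)
    (δ : V → ℤ) (B : ℤ) (hv : v ∈ S) (hB : ∀ x ∈ S, |δ x| ≤ B ∧ |δ x + δ (par x)| ≤ B)
    (t : ℤ) (ht : B ≤ t) : psi par v S δ t = 1 := by
  unfold psi
  have h1 : S.filter (fun w => δ w ≤ t) = S := by
    rw [filter_eq_self]
    intro x hx
    have := (abs_le.1 (hB x hx).1).2
    omega
  have h2 : (S.erase v).filter (fun w => δ w + δ (par w) ≤ t) = S.erase v := by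
    rw [filter_eq_self]
    intro x hx
    have := (abs_le.1 (hB x (mem_of_mem_erase hx)).2).2
    omega
  rw [h1, h2, card_erase_of_mem hv]
  have : 1 ≤ S.card := card_pos.2 ⟨v, hv⟩
  omega

theorem EXT_holds : S_EXT := by
  intro V _ par v S δ w hG hw hpw R
  obtain ⟨B, hR, hB⟩ : ∃ B : ℤ, |R| ≤ B ∧
      ∀ x ∈ S, |δ x| ≤ B ∧ |δ x + δ (par x)| ≤ B := by
    refine ⟨|R| + ∑ x ∈ S, (|δ x| + |δ x + δ (par x)|), ?_, fun x hx => ?_⟩
    · have : 0 ≤ ∑ x ∈ S, (|δ x| + |δ x + δ (par x)|) := sum_nonneg fun x _ => by positivity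
      omega
    · have h1 : |δ x| + |δ x + δ (par x)| ≤ ∑ x ∈ S, (|δ x| + |δ x + δ (par x)|) :=
        single_le_sum (f := fun x => |δ x| + |δ x + δ (par x)|)
          (fun x _ => by positivity) hx
      have h2 := abs_nonneg (δ x)
      have h3 := abs_nonneg (δ x + δ (par x))
      have h4 := abs_nonneg R
      omega
  have hlow := ext_low par v S δ B hB
  have hhigh := ext_high par v S δ B hG.1 hB
  have hb : ∀ x ∈ S, -B ≤ δ x ∧ δ x ≤ B ∧ -B ≤ δ x + δ (par x) ∧ δ x + δ (par x) ≤ B :=
    fun x hx => ⟨(abs_le.1 (hB x hx).1).1, (abs_le.1 (hB x hx).1).2,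
      (abs_le.1 (hB x hx).2).1, (abs_le.1 (hB x hx).2).2⟩
  have hR1 := neg_abs_le R
  have hR2 := le_abs_self R
  have hpsi := hG.2.2.2.2.1
  have hpsA := hG.2.2.2.2.2
  rcases lt_trichotomy (δ (par w)) 0 with hg | hg | hg
  · refine ⟨B + 1 - δ (par w), fun _ => ⟨by omega, by omega⟩, fun h => absurd h (by omega), ?_⟩
    refine hG.insert hw hpw ?_ ?_ ?_ ?_ ?_
    · intro x hx
      have := hb x hx
      omega
    · intro x hx _
      have := hb x hx
      omega
    · intro t
      rcases hpsi t with h | h
      · have : t < B := by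
          by_contra hc
          have := hhigh t (by omega)
          omega
        rw [if_neg (by omega), if_neg (by omega), h]
        left; ring
      · rw [h]
        by_cases h1 : B + 1 - δ (par w) ≤ t
        · rw [if_pos h1, if_pos (by omega)]
          right; ring
        · rw [if_neg h1]
          by_cases h2 : B + 1 - δ (par w) + δ (par w) ≤ t
          · rw [if_pos h2]; left; ring
          · rw [if_neg h2]; right; ring
    · intro x hx
      have := hb x hx
      rw [hpsA x hx, if_neg (by omega), if_neg (by omega)]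
      ring
    · rw [hhigh _ (by omega), if_pos (by omega)]
      ring
  · refine ⟨B + 1, fun _ => ⟨by omega, by omega⟩, fun h => absurd h (by omega), ?_⟩
    rw [← add_zero (B + 1)] at *
    refine hG.insert hw hpw ?_ ?_ ?_ ?_ ?_
    · intro x hx
      have := hb x hx
      omega
    · intro x hx _
      have := hb x hx
      omega
    · intro t
      rw [hg]
      rcases hpsi t with h | h
      · left
        rw [h]
        split_ifs <;> omega
      · right
        rw [h]
        split_ifs <;> omega
    · intro x hx
      have := hb x hx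
      rw [hpsA x hx, if_neg (by omega), if_neg (by omega)]
      ring
    · rw [hhigh _ (by omega), if_pos (by omega)]
      ring
  · refine ⟨-B - δ (par w) - 1, fun h => absurd h (by omega), fun _ => ⟨by omega, by omega⟩, ?_⟩
    refine hG.insert hw hpw ?_ ?_ ?_ ?_ ?_
    · intro x hx
      have := hb x hx
      omega
    · intro x hx _
      have := hb x hx
      omega
    · intro t
      rcases hpsi t with h | h
      · rw [h]
        by_cases h1 : -B - δ (par w) - 1 ≤ t
        · rw [if_pos h1]
          by_cases h2 : -B - δ (par w) - 1 + δ (par w) ≤ t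
          · rw [if_pos h2]; left; ring
          · rw [if_neg h2]; right; ring
        · rw [if_neg h1, if_neg (by omega)]
          left; ring
      · have : -B ≤ t := by
          by_contra hc
          have := hlow t (by omega)
          omega
        rw [if_pos (by omega), if_pos (by omega), h]
        right; ring
    · intro x hx
      have := hb x hx
      rw [hpsA x hx, if_pos (by omega), if_pos (by omega)]
      ring
    · rw [hlow _ (by omega), if_neg (by omega)]
      ring

end Pool.Agent.Lib.MP_8b7544_co.Hv
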