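import Pool.Agent.Lib.MP_8b7544_co.Hv.Stm3

set_option autoImplicit false

namespace Pool.Agent.Lib.MP_8b7544_co.Hv

open Finset

/-- The thresholds. -/
def tau (Mu : ℕ → ℕ) (k : ℕ) : ℕ → ℕ
  | 0 => 0
  | i + 1 => max (tau Mu k i + 1) (Mu (k + k * tau Mu k i))

theorem tau_strictMono (Mu : ℕ → ℕ) (k : ℕ) : StrictMono (tau Mu k) :=
  strictMono_nat_of_lt_succ (fun i => by
    rw [tau]
    exact lt_of_lt_of_le (Nat.lt_succ_self _) (le_max_left _ _))

theorem FIN_holds (hUNI : S_UNI) (hIND : S_IND) (hGAP : S_GAP) (hEX3 : S_EX3) (hEX5 : S_EX5)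
    (hFPR : S_FPR) : S_FIN := by
  classical
  intro k
  choose Mu hMu using hUNI
  refine ⟨tau Mu k (k + 1) + 2, ?_⟩
  intro W _ T hT hk hxy
  obtain ⟨x0, y0, hxy0, hx0, hy0⟩ := hxy
  -- leaves
  have hleaf : ∀ w, (T.neighborSet w).ncard = 1 → ∃ p, T.Adj w p ∧ ∀ x, T.Adj w x → x = p := by
    intro w hw
    obtain ⟨p, hp⟩ := Set.ncard_eq_one.1 hw
    refine ⟨p, ?_, ?_⟩
    · have : p ∈ T.neighborSet w := by rw [hp]; exact Set.mem_singleton p
      exact this
    · intro x hx
      have : x ∈ T.neighborSet w := hx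
      rw [hp] at this
      exact this
  have hlvle : ∀ w, lv T w ≤ (T.neighborSet w).ncard := by
    intro w
    apply Set.ncard_le_ncard _ (Set.toFinite _)
    intro z hz
    exact hz.1
  let I : Finset W := univ.filter (fun w => (T.neighborSet w).ncard ≠ 1)
  have hmemI : ∀ w, w ∈ I ↔ (T.neighborSet w).ncard ≠ 1 := fun w =>
    ⟨fun h => (mem_filter.1 h).2, fun h => mem_filter.2 ⟨mem_univ _, h⟩⟩
  have hIk : I.card ≤ k := by
    have : {w | (T.neighborSet w).ncard ≠ 1}.ncard = I.card := by
      rw [← Set.ncard_coe_finset]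
      congr 1
      ext w
      simp [I]
    omega
  obtain ⟨i, hik, hi⟩ := hGAP W k (tau Mu k) (lv T) I (tau_strictMono Mu k) hIk
  have htau : tau Mu k (i + 1) ≤ tau Mu k (k + 1) :=
    (tau_strictMono Mu k).monotone (by omega)
  let U : Finset W := I.filter (fun w => tau Mu k (i + 1) ≤ lv T w)
  have hmemU : ∀ w, tau Mu k (k + 1) + 2 ≤ lv T w → w ∈ U := by
    intro w hw
    have h1 := hlvle w
    simp only [U, I, mem_filter, mem_univ, true_and]
    refine ⟨?_, ?_⟩ <;> omega
  have hxU := hmemU x0 hx0
  have hyU := hmemU y0 hy0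
  -- the neighbour of a leaf is not a leaf
  have hI : ∀ w p, (T.neighborSet w).ncard = 1 → T.Adj w p → p ∈ I := by
    intro w p hw hwp
    by_contra hp
    have hp1 : (T.neighborSet p).ncard = 1 := by
      by_contra h
      exact hp ((hmemI p).2 h)
    obtain ⟨q, hq, hq'⟩ := hleaf w hw
    obtain ⟨r, hr, hr'⟩ := hleaf p hp1
    have hqp : p = q := hq' p hwp
    have hrw : w = r := hr' w hwp.symm
    -- every vertex reachable from w is w or p
    have key : ∀ a, T.Reachable w a → a = w ∨ a = p := by
      rintro a ⟨wk⟩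
      have : ∀ (b c : W) (q : T.Walk b c), (b = w ∨ b = p) → (c = w ∨ c = p) := by
        intro b c q
        induction q with
        | nil => exact id
        | cons h q ih =>
          intro hb
          apply ih
          rcases hb with rfl | rfl
          · right; rw [hqp]; exact hq' _ h
          · left; rw [hrw]; exact hr' _ h
      exact this w a wk (Or.inl rfl)
    have h1 : lv T x0 ≤ 1 := by
      refine (hlvle x0).trans ?_
      rcases key x0 (hT.1.preconnected w x0) with h | h
      · rw [h, hw]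
      · rw [h, hp1]
    omega
  let S : Set W := {w | w ∈ I ∨ ∀ p, T.Adj w p → p ∉ U}
  have hSne : S.Nonempty := ⟨x0, Or.inl (mem_filter.1 hxU).1⟩
  have hUS : ∀ w ∈ U, w ∈ S := fun w hw => Or.inl (mem_filter.1 hw).1
  have hout : ∀ w, w ∉ S → ∃ p ∈ U, T.Adj w p ∧ ∀ x, T.Adj w x → x = p := by
    intro w hw
    have hw1 : (T.neighborSet w).ncard = 1 := by
      by_contra h
      exact hw (Or.inl ((hmemI w).2 h))
    obtain ⟨p, hp, hp'⟩ := hleaf w hw1
    refine ⟨p, ?_, hp, hp'⟩
    by_contra hpU
    apply hw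
    right
    intro x hx
    rw [hp' x hx]
    exact hpU
  have hSout : ∀ w, w ∉ S → (T.neighborSet w).ncard = 1 := by
    intro w hw
    by_contra h
    exact hw (Or.inl ((hmemI w).2 h))
  have hTS : (T.induce S).IsTree := hIND W T hT S hSne (fun w hw => by
    obtain ⟨p, hpU, hp, hp'⟩ := hout w hw
    exact ⟨p, hUS p hpU, hp'⟩)
  -- size of S
  have hScard : Fintype.card S ≤ k + k * tau Mu k i := by
    have hsub : S.toFinset ⊆ I ∪ (I \ U).biUnion
        (fun w => (univ.filter (fun z => T.Adj w z ∧ (T.neighborSet z).ncard = 1))) := by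
      intro w hw
      rw [Set.mem_toFinset] at hw
      rw [mem_union]
      by_cases hwI : w ∈ I
      · exact Or.inl hwI
      · right
        have hw1 : (T.neighborSet w).ncard = 1 := by
          by_contra h
          exact hwI ((hmemI w).2 h)
        obtain ⟨p, hp, hp'⟩ := hleaf w hw1
        have hpU : p ∉ U := by
          rcases hw with hw | hw
          · exact absurd hw hwI
          · exact hw p hp
        rw [mem_biUnion]
        exact ⟨p, mem_sdiff.2 ⟨hI w p hw1 hp, hpU⟩, mem_filter.2 ⟨mem_univ _, hp.symm, hw1⟩⟩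
    rw [← Set.toFinset_card]
    refine (card_le_card hsub).trans ((card_union_le _ _).trans ?_)
    refine Nat.add_le_add hIk ?_
    refine card_biUnion_le.trans ?_
    have hb : ∀ w ∈ I \ U, (univ.filter
        (fun z => T.Adj w z ∧ (T.neighborSet z).ncard = 1)).card ≤ tau Mu k i := by
      intro w hw
      rw [mem_sdiff] at hw
      have h1 : (univ.filter (fun z => T.Adj w z ∧ (T.neighborSet z).ncard = 1)).card
          = lv T w := by
        unfold lv
        rw [← Set.ncard_coe_finset]
        congr 1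
        ext z
        simp
      rw [h1]
      rcases hi w hw.1 with h | h
      · exact h.le
      · exact absurd (mem_filter.2 ⟨hw.1, h⟩) hw.2
    refine (sum_le_card_nsmul _ _ _ hb).trans ?_
    rw [smul_eq_mul]
    exact Nat.mul_le_mul_right _ ((card_le_card sdiff_subset).trans hIk)
  -- transport
  let ε : Fin (Fintype.card S) ≃ S := (Fintype.equivFin S).symm
  let e : Fin (Fintype.card S) → W := fun a => (ε a).1
  have hemem : ∀ a, e a ∈ S := fun a => (ε a).2
  have hinj : Function.Injective e := fun a b h => ε.injective (Subtype.ext h)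
  have hrange : ∀ w, w ∈ Set.range e ↔ w ∈ S := by
    intro w
    constructor
    · rintro ⟨a, rfl⟩
      exact hemem a
    · intro hw
      exact ⟨ε.symm ⟨w, hw⟩, by simp [e]⟩
  let G : SimpleGraph (Fin (Fintype.card S)) := (T.induce S).comap ε
  have hGadj : ∀ a b, G.Adj a b ↔ T.Adj (e a) (e b) := fun a b => Iff.rfl
  have hG : G.IsTree := by
    have iso : G ≃g T.induce S := ⟨ε, Iff.rfl⟩
    exact (iso.isTree_iff).2 hTS
  have hch : ∀ w, ∃ a : Fin (Fintype.card S), w ∉ S → T.Adj w (e a) ∧ e a ∈ U ∧
      ∀ x, T.Adj w x → x = e a := by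
    intro w
    by_cases hw : w ∈ S
    · exact ⟨ε.symm ⟨w, hw⟩, fun h => absurd hw h⟩
    · obtain ⟨p, hpU, hp, hp'⟩ := hout w hw
      obtain ⟨a, ha⟩ := (hrange p).2 (hUS p hpU)
      refine ⟨a, fun _ => ?_⟩
      rw [ha]
      exact ⟨hp, hpU, hp'⟩
  choose π hπ using hch
  let m : Fin (Fintype.card S) → ℕ := fun a => {w | w ∉ Set.range e ∧ π w = a}.ncard
  let U' : Finset (Fin (Fintype.card S)) := univ.filter (fun a => e a ∈ U)
  have hmU : ∀ a ∈ U', Mu (k + k * tau Mu k i) ≤ m a := by
    intro a ha
    simp only [U', mem_filter, mem_univ, true_and] at ha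
    have h1 : tau Mu k (i + 1) ≤ lv T (e a) := (mem_filter.1 ha).2
    have h2 : Mu (k + k * tau Mu k i) ≤ tau Mu k (i + 1) := by
      rw [tau]; exact le_max_right _ _
    refine h2.trans (h1.trans ?_)
    apply Set.ncard_le_ncard _ (Set.toFinite _)
    rintro z ⟨hz1, hz2⟩
    have hzS : z ∉ S := by
      rintro (h | h)
      · exact (hmemI z).1 h hz2
      · exact h (e a) hz1.symm ha
    refine ⟨fun h => hzS ((hrange z).1 h), ?_⟩
    exact (hinj ((hπ z hzS).2.2 _ hz1.symm)).symm
  have hm0 : ∀ a, a ∉ U' → m a = 0 := by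
    intro a ha
    simp only [m]
    rw [Set.ncard_eq_zero (Set.toFinite _)]
    ext w
    simp only [Set.mem_ofPred_eq, Set.mem_empty_iff_false, iff_false, not_and]
    intro hw hwa
    apply ha
    have hwS : w ∉ S := fun h => hw ((hrange w).2 h)
    simp only [U', mem_filter, mem_univ, true_and]
    rw [← hwa]
    exact (hπ w hwS).2.1
  have hU'2 : 2 ≤ U'.card := by
    obtain ⟨a, ha⟩ := (hrange x0).2 (hUS x0 hxU)
    obtain ⟨b, hb⟩ := (hrange y0).2 (hUS y0 hyU)
    have hab : a ≠ b := by
      rintro rfl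
      exact hxy0 (ha.symm.trans hb)
    have hsub : ({a, b} : Finset (Fin (Fintype.card S))) ⊆ U' := by
      intro c hc
      simp only [mem_insert, mem_singleton] at hc
      simp only [U', mem_filter, mem_univ, true_and]
      rcases hc with rfl | rfl
      · rw [ha]; exact hxU
      · rw [hb]; exact hyU
    calc 2 = ({a, b} : Finset (Fin (Fintype.card S))).card := (card_pair hab).symm
      _ ≤ U'.card := card_le_card hsub
  by_cases hexc : ∃ v u, U' = {v, u} ∧ Exc G v u
  · obtain ⟨v, u, hvu, hE⟩ := hexc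
    have hUvu : ∀ w ∈ U, w = e v ∨ w = e u := by
      intro w hw
      obtain ⟨c, hc⟩ := (hrange w).2 (hUS w hw)
      have : c ∈ U' := by
        simp only [U', mem_filter, mem_univ, true_and]
        rw [hc]; exact hw
      rw [hvu, mem_insert, mem_singleton] at this
      rcases this with rfl | rfl
      · exact Or.inl hc.symm
      · exact Or.inr hc.symm
    rcases hE with ⟨p, hne, h1, h2, h3⟩ | ⟨x, y, z, hnd, h1, h2, h3, h4, h5⟩
    · refine hEX3 W T hT (e v) (e p) (e u) (fun h => hne (hinj h)) ((hGadj _ _).1 h1)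
        ((hGadj _ _).1 h2) ?_
      intro a b hab
      by_cases ha : a ∈ S
      · by_cases hb : b ∈ S
        · obtain ⟨a', rfl⟩ := (hrange a).2 ha
          obtain ⟨b', rfl⟩ := (hrange b).2 hb
          rcases h3 a' b' ((hGadj _ _).2 hab) with h | h | h | h | h | h <;> simp [h]
        · have := (hπ b hb).2.2 a hab.symm
          have h6 := hUvu _ (hπ b hb).2.1
          rw [← this] at h6
          rcases h6 with h | h <;> simp [h]
      · have := (hπ a ha).2.2 b hab
        have h6 := hUvu _ (hπ a ha).2.1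
        rw [← this] at h6
        rcases h6 with h | h <;> simp [h]
    · refine hEX5 W T hT (e v) (e x) (e y) (e z) (e u) ?_ ((hGadj _ _).1 h1)
        ((hGadj _ _).1 h2) ((hGadj _ _).1 h3) ((hGadj _ _).1 h4) ?_
      · have := List.Nodup.map hinj hnd
        simpa using this
      · intro w hwv hwx hwy hwz hwu w' hww'
        by_cases hw : w ∈ S
        · by_cases hw' : w' ∈ S
          · obtain ⟨a, rfl⟩ := (hrange w).2 hw
            obtain ⟨b, rfl⟩ := (hrange w').2 hw'
            rcases h5 a (fun h => hwv (by rw [h])) (fun h => hwx (by rw [h]))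
              (fun h => hwy (by rw [h])) (fun h => hwz (by rw [h])) (fun h => hwu (by rw [h])) b
              ((hGadj _ _).2 hww') with h | h
            · left; rw [h]
            · right; rw [h]
          · exfalso
            have := (hπ w' hw').2.2 w hww'.symm
            have h6 := hUvu _ (hπ w' hw').2.1
            rw [← this] at h6
            rcases h6 with h | h
            · exact hwv h
            · exact hwu h
        · have := (hπ w hw).2.2 w' hww'
          have h6 := hUvu _ (hπ w hw).2.1
          rw [← this] at h6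
          exact h6
  · have hLab : Lab G m := by
      refine hMu (k + k * tau Mu k i) (Fintype.card S) hScard G hG U' hU'2 ?_ m hm0 hmU
      intro v u hvu hE
      exact hexc ⟨v, u, hvu, hE⟩
    refine hFPR W (Fin (Fintype.card S)) T G e π m hT hinj (fun a b h => (hGadj a b).1 h) ?_
      (fun a => rfl) hLab
    intro w hw
    exact (hπ w (fun h => hw ((hrange w).2 h))).1

end Pool.Agent.Lib.MP_8b7544_co.Hv
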