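import Pool.Agent.Lib.MP_8b7544_co.Hv.Stm3
import Pool.Agent.Lib.MP_8b7544_co.Surj

set_option autoImplicit false

namespace Pool.Agent.Lib.MP_8b7544_co.Hv

open Finset

/-- A large finite set can be mapped onto a small one. -/
theorem fpr_onto {W : Type} (L : Set W) (X : Set ℤ) (hL : L.Finite) (hX : X.Finite)
    (h : X.ncard ≤ L.ncard) : ∃ g : W → ℤ, ∀ x ∈ X, ∃ w ∈ L, g w = x := by
  classical
  have := hL.fintype
  have := hX.fintype
  have h1 : Fintype.card X ≤ Fintype.card L := by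
    rw [← Nat.card_eq_fintype_card, ← Nat.card_eq_fintype_card]
    exact h
  obtain ⟨i⟩ := Function.Embedding.nonempty_of_card_le h1
  have hi : Function.Injective (fun x : X => (i x : W)) :=
    fun a b hab => i.injective (Subtype.ext hab)
  refine ⟨Function.extend (fun x : X => (i x : W)) (fun x => (x : ℤ)) 0, ?_⟩
  intro x hx
  refine ⟨i ⟨x, hx⟩, (i ⟨x, hx⟩).2, ?_⟩
  exact hi.extend_apply (fun x : X => (x : ℤ)) 0 ⟨x, hx⟩

theorem FPR_holds : S_FPR := by
  classical
  intro W V _ _ T G e π m hT he hadj hleaf hm hlab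
  obtain ⟨δ, κ, f, h1, h2, h3⟩ := hlab
  have hne : Nonempty W := hT.connected.nonempty
  have hW : 0 < Fintype.card W := Fintype.card_pos_iff.2 hne
  -- number of leaves
  have hsum : Fintype.card V + ∑ a, m a = Fintype.card W := by
    have hc1 : (univ.filter (fun w : W => w ∈ Set.range e)).card = Fintype.card V := by
      have : univ.filter (fun w : W => w ∈ Set.range e) = univ.image e := by
        ext w
        simp
      rw [this, card_image_of_injective _ he, card_univ]
    have hc2 : (univ.filter (fun w : W => w ∉ Set.range e)).card = ∑ a, m a := by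
      rw [card_eq_sum_card_fiberwise (f := π) (t := univ) (fun _ _ => by simp)]
      refine sum_congr rfl fun a _ => ?_
      rw [hm a, filter_filter, ← Set.ncard_coe_finset]
      congr 1
      ext w
      simp
    rw [← hc1, ← hc2, card_filter_add_card_filter_not, card_univ]
  have hPP : PP m = ((Fintype.card W - 1 : ℕ) : ℤ) := by
    unfold PP
    have : ((Fintype.card V : ℤ)) + ∑ a, (m a : ℤ) = Fintype.card W := by
      rw [← hsum]
      push_cast
      rfl
    rw [Nat.cast_sub hW]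
    push_cast
    linarith
  -- the labels of the leaves
  let X : V → Set ℤ := fun w =>
    {x : ℤ | 0 ≤ x ∧ x ≤ PP m ∧ (∀ w', x ≠ κ + δ w') ∧ f x = x + δ w}
  have hXfin : ∀ a, (X a).Finite := fun a =>
    (Set.finite_Icc (0 : ℤ) (PP m)).subset fun x hx => ⟨hx.1, hx.2.1⟩
  have hg : ∀ a, ∃ g : W → ℤ, ∀ x ∈ X a, ∃ w ∈ {w | w ∉ Set.range e ∧ π w = a}, g w = x :=
    fun a => fpr_onto _ _ (Set.toFinite _) (hXfin a) ((h3 a).trans_eq (hm a))
  choose gl hgl using hg
  let g : W → ℤ := fun w => if h : w ∈ Set.range e then κ + δ h.choose else gl (π w) w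
  have hg1 : ∀ a, g (e a) = κ + δ a := by
    intro a
    have hr : e a ∈ Set.range e := ⟨a, rfl⟩
    simp only [g]
    rw [dif_pos hr, he hr.choose_spec]
  have hg2 : ∀ a, ∀ x ∈ X a, ∃ w, w ∉ Set.range e ∧ π w = a ∧ g w = x := by
    intro a x hx
    obtain ⟨w, ⟨hw1, hw2⟩, hw3⟩ := hgl a x hx
    refine ⟨w, hw1, hw2, ?_⟩
    simp only [g]
    rw [dif_neg hw1, hw2, hw3]
  have hcard : Nat.card (W ⊕ T.edgeSet) ≤ 2 * (Fintype.card W - 1) + 1 := by
    have : Fintype T.edgeSet := Fintype.ofFinite _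
    rw [Nat.card_sum, Nat.card_eq_fintype_card, Nat.card_eq_fintype_card]
    have h4 : Fintype.card T.edgeSet + 1 = Fintype.card W := by
      have h5 := hT.card_edgeFinset
      rw [SimpleGraph.edgeFinset_card] at h5
      exact h5
    omega
  refine edgeMagic_of_surj T (Fintype.card W - 1) hcard g κ ?_
  intro t ht1 ht2
  rw [← hPP] at ht1 ht2
  rcases le_or_gt 0 t with h0 | h0
  · left
    by_cases hv : ∃ w, t = κ + δ w
    · obtain ⟨w, hw⟩ := hv
      exact ⟨e w, by rw [hg1, hw]⟩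
    · push Not at hv
      obtain ⟨w, hw⟩ := h2 t h0 ht2 hv
      obtain ⟨w', -, -, hw'⟩ := hg2 w t ⟨h0, ht2, hv, hw⟩
      exact ⟨w', hw'⟩
  · right
    rcases h1 (-t) (by linarith) (by linarith) with ⟨a, b, hab, hy⟩ | ⟨x, hx0, hx1, hx2, hx3⟩
    · refine ⟨e a, e b, hadj a b hab, ?_⟩
      rw [hg1, hg1]
      linarith
    · obtain ⟨w, hw⟩ := h2 x hx0 hx1 hx2
      obtain ⟨w', hw1, hw2, hw3⟩ := hg2 w x ⟨hx0, hx1, hx2, hw⟩
      refine ⟨w', e w, ?_, ?_⟩
      · have := hleaf w' hw1
        rwa [hw2] at this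
      · rw [hg1, hw3]
        linarith

end Pool.Agent.Lib.MP_8b7544_co.Hv
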