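import Pool.Agent.Lib.MP_8b7544_co.Hv.Stm3

set_option autoImplicit false

namespace Pool.Agent.Lib.MP_8b7544_co.Hv

open Finset

theorem FUL_holds (hEXT : S_EXT) : S_FUL := by
  intro V _ _ par d v hd S δ hG
  induction hn : (univ \ S).card generalizing S δ with
  | zero =>
    have hS : S = univ := by
      rw [Finset.card_eq_zero, Finset.sdiff_eq_empty_iff_subset] at hn
      exact Finset.univ_subset_iff.1 hn
    subst hS
    exact ⟨δ, hG, fun _ _ => rfl⟩
  | succ n ih =>
    have hne : (univ \ S).Nonempty := by
      rw [← Finset.card_pos, hn]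
      omega
    obtain ⟨w, hw, hmin⟩ := Finset.exists_min_image (univ \ S) d hne
    have hwS : w ∉ S := (Finset.mem_sdiff.1 hw).2
    have hwv : w ≠ v := by
      rintro rfl
      exact hwS hG.1
    have hpar : par w ∈ S := by
      by_contra h
      have h1 := hmin (par w) (Finset.mem_sdiff.2 ⟨Finset.mem_univ _, h⟩)
      have h2 := hd w hwv
      omega
    obtain ⟨y, _, _, hG'⟩ := hEXT V par v S δ w hG hwS hpar 0
    have hcard : (univ \ insert w S).card = n := by
      have h1 : univ \ insert w S = (univ \ S).erase w := by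
        ext x
        simp only [Finset.mem_sdiff, Finset.mem_univ, Finset.mem_insert, Finset.mem_erase,
          true_and, not_or]
      rw [h1, Finset.card_erase_of_mem hw, hn]
      rfl
    obtain ⟨δ', h1, h2⟩ := ih (insert w S) (Function.update δ w y) hG' hcard
    refine ⟨δ', h1, fun x hx => ?_⟩
    rw [h2 x (Finset.mem_insert_of_mem hx)]
    have hxw : x ≠ w := fun h => hwS (h ▸ hx)
    exact Function.update_of_ne hxw _ _

end Pool.Agent.Lib.MP_8b7544_co.Hv
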