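import Pool.Agent.Lib.MP_8b7544_co.Hv.Stm3

set_option autoImplicit false

namespace Pool.Agent.Lib.MP_8b7544_co.Hv

open Finset

theorem G2_holds (hHIT : S_HIT) (hA : S_C2A) (hB : S_C2B) (hC : S_C2C) : S_G2 := by
  intro V _ G par d v u hpar hadj hdep hexc
  have hu : u ≠ v := hdep.1
  have hp : par u ≠ v := hdep.2.1
  have hpp : par (par u) = v := hdep.2.2
  obtain ⟨p, hpd⟩ : ∃ p, p = par u := ⟨_, rfl⟩
  rw [← hpd] at hp hpp
  have hpu : p ≠ u := by
    intro h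
    have h1 := (hpar u hu).2
    rw [← hpd, h] at h1
    exact lt_irrefl _ h1
  have hAu : G.Adj p u := by
    have h1 := (hpar u hu).1
    rw [← hpd] at h1
    exact h1.symm
  have hAp : G.Adj v p := by
    have h1 := (hpar p hp).1
    rw [hpp] at h1
    exact h1.symm
  have hex : ∃ a b, G.Adj a b ∧ (a ≠ v ∧ a ≠ p ∧ a ≠ u) ∧ (b ≠ v ∧ b ≠ p ∧ b ≠ u) := by
    by_contra hno
    refine hexc (Or.inl ⟨p, hu.symm, hAp, hAu, fun a b hab => ?_⟩)
    by_contra hcon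
    simp only [not_or] at hcon
    exact hno ⟨a, b, hab, ⟨hcon.1, hcon.2.1, hcon.2.2.1⟩, ⟨hcon.2.2.2.1, hcon.2.2.2.2.1,
      hcon.2.2.2.2.2⟩⟩
  have hex2 : ∃ a, a ∉ ({v, p, u} : Finset V) ∧ par a ∉ ({v, p, u} : Finset V) := by
    obtain ⟨a, b, hab, h1, h2⟩ := hex
    rcases hadj a b hab with ⟨_, h⟩ | ⟨_, h⟩
    · exact ⟨a, by simp [h1.1, h1.2.1, h1.2.2], by simp [h, h2.1, h2.2.1, h2.2.2]⟩
    · exact ⟨b, by simp [h2.1, h2.2.1, h2.2.2], by simp [h, h1.1, h1.2.1, h1.2.2]⟩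
  obtain ⟨a, ha, ha'⟩ := hex2
  obtain ⟨z, w, hz, hw, hwz, hzs⟩ := hHIT V par d v (fun x hx => (hpar x hx).2) {v, p, u}
    (by simp) a ha ha'
  simp only [Finset.mem_insert, Finset.mem_singleton, not_or] at hz hw hzs
  have hzw : z ≠ w := by
    intro h
    have h1 := (hpar w hw.1).2
    rw [hwz, h] at h1
    exact lt_irrefl _ h1
  have hnd : [v, p, u, z, w].Nodup := by
    simp only [List.nodup_cons, List.mem_cons, List.not_mem_nil, or_false, not_or,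
      not_false_eq_true, List.nodup_nil, and_true]
    exact ⟨⟨hp.symm, hu.symm, fun h => hz.1 h.symm, fun h => hw.1 h.symm⟩,
      ⟨hpu, fun h => hz.2.1 h.symm, fun h => hw.2.1 h.symm⟩,
      ⟨fun h => hz.2.2 h.symm, fun h => hw.2.2 h.symm⟩, hzw⟩
  rcases hzs with h | h | h
  · exact hC V par v p u z w hnd hpp hpd.symm h hwz
  · exact hA V par v p u z w hnd hpp hpd.symm h hwz
  · exact hB V par v p u z w hnd hpp hpd.symm h hwz

end Pool.Agent.Lib.MP_8b7544_co.Hv
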