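import Pool.Agent.Lib.MP_8b7544_co.Hv.Stm3

set_option autoImplicit false

namespace Pool.Agent.Lib.MP_8b7544_co.Hv

open Finset

theorem G4_holds (hHIT : S_HIT) (hA : S_C4A) (hB : S_C4B) (hC : S_C4C) (hD : S_C4D)
    (hE : S_C4E) : S_G4 := by
  intro V _ G par d v u hpar hadj hdep hexc
  obtain ⟨huv, h3v, h2v, h1v, h0⟩ : u ≠ v ∧ par u ≠ v ∧ par (par u) ≠ v ∧
      par (par (par u)) ≠ v ∧ par (par (par (par u))) = v := hdep
  obtain ⟨x3, hx3⟩ : ∃ x3, par u = x3 := ⟨_, rfl⟩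
  rw [hx3] at h3v h2v h1v h0
  obtain ⟨x2, hx2⟩ : ∃ x2, par x3 = x2 := ⟨_, rfl⟩
  rw [hx2] at h2v h1v h0
  obtain ⟨x1, hx1⟩ : ∃ x1, par x2 = x1 := ⟨_, rfl⟩
  rw [hx1] at h1v h0
  have a4 := hpar u huv
  have a3 := hpar x3 h3v
  have a2 := hpar x2 h2v
  have a1 := hpar x1 h1v
  rw [hx3] at a4
  rw [hx2] at a3
  rw [hx1] at a2
  rw [h0] at a1
  -- distinctness
  have hne : ∀ a b : V, d a < d b → a ≠ b := by
    intro a b h hab
    rw [hab] at h
    exact lt_irrefl _ h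
  have l1 := a1.2
  have l2 := a2.2
  have l3 := a3.2
  have l4 := a4.2
  have nv1 : v ≠ x1 := hne _ _ l1
  have nv2 : v ≠ x2 := hne _ _ (by omega)
  have nv3 : v ≠ x3 := hne _ _ (by omega)
  have nvu : v ≠ u := hne _ _ (by omega)
  have n12 : x1 ≠ x2 := hne _ _ l2
  have n13 : x1 ≠ x3 := hne _ _ (by omega)
  have n1u : x1 ≠ u := hne _ _ (by omega)
  have n23 : x2 ≠ x3 := hne _ _ l3
  have n2u : x2 ≠ u := hne _ _ (by omega)
  have n3u : x3 ≠ u := hne _ _ l4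
  have nod5 : [v, x1, x2, x3, u].Nodup := by
    simp [nv1, nv2, nv3, nvu, n12, n13, n1u, n23, n2u, n3u]
  have nod6 : ∀ z : V, z ≠ v → z ≠ x1 → z ≠ x2 → z ≠ x3 → z ≠ u →
      [v, x1, x2, x3, u, z].Nodup := by
    intro z z1 z2 z3 z4 z5
    simp [nv1, nv2, nv3, nvu, n12, n13, n1u, n23, n2u, n3u, z1.symm, z2.symm, z3.symm, z4.symm,
      z5.symm]
  have nod7 : ∀ z w : V, z ≠ v → z ≠ x1 → z ≠ x2 → z ≠ x3 → z ≠ u →
      w ≠ v → w ≠ x1 → w ≠ x2 → w ≠ x3 → w ≠ u → z ≠ w →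
      [v, x1, x2, x3, u, z, w].Nodup := by
    intro z w z1 z2 z3 z4 z5 w1 w2 w3 w4 w5 hzw
    simp [nv1, nv2, nv3, nvu, n12, n13, n1u, n23, n2u, n3u, z1.symm, z2.symm, z3.symm, z4.symm,
      z5.symm, w1.symm, w2.symm, w3.symm, w4.symm, w5.symm, hzw]
  -- the three cores with one vertex
  have core : ∀ z : V, z ≠ v → z ≠ x1 → z ≠ x2 → z ≠ x3 → z ≠ u →
      (par z = x1 ∨ par z = x2 ∨ par z = x3) → Ok par v u := by
    intro z z1 z2 z3 z4 z5 h
    have hn := nod6 z z1 z2 z3 z4 z5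
    rcases h with h | h | h
    · exact hA V par v x1 x2 x3 u z hn h0 hx1 hx2 hx3 h
    · exact hB V par v x1 x2 x3 u z hn h0 hx1 hx2 hx3 h
    · exact hC V par v x1 x2 x3 u z hn h0 hx1 hx2 hx3 h
  -- failure of the exceptional case
  have hex : ∃ w w', w ≠ v ∧ w ≠ x1 ∧ w ≠ x2 ∧ w ≠ x3 ∧ w ≠ u ∧ G.Adj w w' ∧ w' ≠ v ∧ w' ≠ u := by
    by_contra hcon
    apply hexc
    right
    refine ⟨x1, x2, x3, nod5, a1.1.symm, a2.1.symm, a3.1.symm, a4.1.symm, ?_⟩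
    intro w w1 w2 w3 w4 w5 w' hww
    by_contra hw'
    rw [not_or] at hw'
    exact hcon ⟨w, w', w1, w2, w3, w4, w5, hww, hw'.1, hw'.2⟩
  obtain ⟨w, w', w1, w2, w3, w4, w5, hww, hw'v, hw'u⟩ := hex
  -- hit
  have hit : ∀ a : V, a ∉ ({v, x1, x2, x3, u} : Finset V) →
      par a ∉ ({v, x1, x2, x3, u} : Finset V) → Ok par v u := by
    intro a ha hpa
    obtain ⟨z, y, hz, hy, hyz, hpz⟩ := hHIT V par d v (fun x hx => (hpar x hx).2)
      ({v, x1, x2, x3, u} : Finset V) (by simp) a ha hpa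
    simp only [mem_insert, mem_singleton, not_or] at hz hy hpz
    obtain ⟨z1, z2, z3, z4, z5⟩ := hz
    obtain ⟨y1, y2, y3, y4, y5⟩ := hy
    have hzy : z ≠ y := by
      apply hne
      have := (hpar y y1).2
      rw [hyz] at this
      exact this
    have hn := nod7 z y z1 z2 z3 z4 z5 y1 y2 y3 y4 y5 hzy
    rcases hpz with h | h | h | h | h
    · exact hD V par v x1 x2 x3 u z y hn h0 hx1 hx2 hx3 h hyz
    · exact core z z1 z2 z3 z4 z5 (Or.inl h)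
    · exact core z z1 z2 z3 z4 z5 (Or.inr (Or.inl h))
    · exact core z z1 z2 z3 z4 z5 (Or.inr (Or.inr h))
    · exact hE V par v x1 x2 x3 u z y hn h0 hx1 hx2 hx3 h hyz
  have hwS : w ∉ ({v, x1, x2, x3, u} : Finset V) := by
    simp only [mem_insert, mem_singleton, not_or]
    exact ⟨w1, w2, w3, w4, w5⟩
  by_cases hw'S : w' = x1 ∨ w' = x2 ∨ w' = x3
  · rcases hadj w w' hww with ⟨-, h⟩ | ⟨-, h⟩
    · apply core w w1 w2 w3 w4 w5
      rw [h]
      exact hw'S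
    · exfalso
      rcases hw'S with e | e | e
      · rw [e, h0] at h
        exact w1 h.symm
      · rw [e, hx1] at h
        exact w2 h.symm
      · rw [e, hx2] at h
        exact w3 h.symm
  · have hw'S' : w' ∉ ({v, x1, x2, x3, u} : Finset V) := by
      simp only [not_or] at hw'S
      simp only [mem_insert, mem_singleton, not_or]
      exact ⟨hw'v, hw'S.1, hw'S.2.1, hw'S.2.2, hw'u⟩
    rcases hadj w w' hww with ⟨-, h⟩ | ⟨-, h⟩
    · apply hit w hwS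
      rw [h]
      exact hw'S'
    · apply hit w' hw'S'
      rw [h]
      exact hwS

end Pool.Agent.Lib.MP_8b7544_co.Hv
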