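import Pool.Agent.Lib.MP_8b7544_co.Hv.Stm3
import Pool.Agent.Lib.MP_8b7544_co.Chain

set_option autoImplicit false

namespace Pool.Agent.Lib.MP_8b7544_co.Hv

open Finset
open scoped Pointwise

private theorem gex_dep {V : Type} (par : V → V) (d : V → ℕ) (v : V)
    (h : ∀ x, x ≠ v → d (par x) < d x) (k : ℕ) : ∀ x, d x < k → ∃ n, Dep par v n x := by
  induction k with
  | zero => intro x hx; exact absurd hx (Nat.not_lt_zero _)
  | succ k ih =>
    intro x hx
    by_cases hxv : x = v
    · exact ⟨0, hxv⟩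
    · obtain ⟨n, hn⟩ := ih (par x) (by have := h x hxv; omega)
      exact ⟨n + 1, hxv, hn⟩

theorem GEX_holds (hONE : S_ONE) (hODD : S_ODD) (hEV6 : S_EV6) (hG2 : S_G2) (hG4 : S_G4)
    (hFUL : S_FUL) : S_GEX := by
  intro V _ _ G hG v u hvu hexc
  obtain ⟨par, d, h1, h2⟩ := exists_par G hG v
  have hd : ∀ x, x ≠ v → d (par x) < d x := fun x hx => (h1 x hx).2
  obtain ⟨n, hn⟩ := gex_dep par d v hd (d u + 1) u (Nat.lt_succ_self _)
  have hok : Ok par v u := by
    rcases n with _ | _ | _ | _ | _ | _ | n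
    · exact absurd hn.symm hvu
    · exact hONE V par v u hn
    · exact hG2 V G par d v u h1 h2 hn hexc
    · exact hODD V par v u 1 (by decide) hn
    · exact hG4 V G par d v u h1 h2 hn hexc
    · exact hODD V par v u 3 (by decide) hn
    · rcases Nat.even_or_odd n with he | ho
      · exact hEV6 V par v u n he hn
      · refine hODD V par v u (n + 4) ?_ hn
        exact ho.add_even (by decide)
  obtain ⟨S, δ, hgood, hu, hv0, hu1⟩ := hok
  obtain ⟨δ', hgood', hδ'⟩ := hFUL V par d v hd S δ hgood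
  refine ⟨par, δ', fun w hw => (h1 w hw).1, hgood', ?_, ?_⟩
  · rw [hδ' v hgood.1, hv0]
  · rw [hδ' u hu, hu1]

end Pool.Agent.Lib.MP_8b7544_co.Hv
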