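import Pool.Agent.Lib.MP_8b7544_co.Hv.Stm3

set_option autoImplicit false

namespace Pool.Agent.Lib.MP_8b7544_co.Hv

open Finset
open scoped Pointwise

theorem GL_holds : S_GL := by
  intro X r b hb hfull
  have hb' : (0 : ℤ) < b := by exact_mod_cast hb
  have hmin : ∀ c : ℕ, c < b → ∃ y : ℤ, y ∈ X ∧ y - b < r ∧ y - (b : ℤ) ∉ X ∧
      (b : ℤ) ∣ y - (r + c) := by
    intro c hc
    have hic : r + c ∈ X := hfull _ (by omega) (by omega)
    have hne : (X.filter (fun y => (b : ℤ) ∣ y - (r + c))).Nonempty :=
      ⟨r + c, by rw [mem_filter]; exact ⟨hic, by simp⟩⟩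
    obtain ⟨y, hy, hy'⟩ := exists_min_image _ (fun y => y) hne
    rw [mem_filter] at hy
    refine ⟨y, hy.1, ?_, ?_, hy.2⟩
    · have h1 := hy' (r + c) (by rw [mem_filter]; exact ⟨hic, by simp⟩)
      omega
    · intro h1
      have h2 := hy' (y - b) (by
        rw [mem_filter]
        refine ⟨h1, ?_⟩
        have e : y - b - (r + c) = (y - (r + c)) - b := by ring
        rw [e]
        exact dvd_sub hy.2 (dvd_refl _))
      omega
  choose! m hm1 hm2 hm3 hm4 using hmin
  have hinj : Set.InjOn (fun c => m c - (b : ℤ)) (Finset.range b : Finset ℕ) := by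
    intro c hc c' hc' heq
    rw [mem_coe, Finset.mem_range] at hc hc'
    have h1 := hm4 c hc
    have h2 := hm4 c' hc'
    have h3 : m c = m c' := by
      have : m c - (b : ℤ) = m c' - (b : ℤ) := heq
      linarith
    rw [h3] at h1
    have h4 : (b : ℤ) ∣ (c : ℤ) - c' := by
      have := dvd_sub h2 h1
      have e : (m c' - (r + c')) - (m c' - (r + c)) = (c : ℤ) - c' := by ring
      rwa [e] at this
    have h5 : |(c : ℤ) - c'| < b := by
      rw [abs_lt]
      constructor <;> omega
    have h6 := Int.eq_zero_of_abs_lt_dvd h4 h5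
    omega
  have hdisj : Disjoint (X.filter (fun x => x < r))
      ((Finset.range b).image (fun c => m c - (b : ℤ))) := by
    rw [Finset.disjoint_left]
    intro z hz hz'
    rw [mem_filter] at hz
    rw [mem_image] at hz'
    obtain ⟨c, hc, rfl⟩ := hz'
    rw [Finset.mem_range] at hc
    exact hm3 c hc hz.1
  have hsub : (X.filter (fun x => x < r)) ∪ ((Finset.range b).image (fun c => m c - (b : ℤ))) ⊆
      ((X ∪ X.image (fun x => x - (b : ℤ))).filter (fun x => x < r)) := by
    intro z hz
    rw [mem_union] at hz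
    rw [mem_filter, mem_union]
    rcases hz with hz | hz
    · rw [mem_filter] at hz
      exact ⟨Or.inl hz.1, hz.2⟩
    · rw [mem_image] at hz
      obtain ⟨c, hc, rfl⟩ := hz
      rw [Finset.mem_range] at hc
      exact ⟨Or.inr (mem_image_of_mem _ (hm1 c hc)), hm2 c hc⟩
  have h := card_le_card hsub
  rw [card_union_of_disjoint hdisj, card_image_of_injOn hinj, card_range] at h
  exact h

end Pool.Agent.Lib.MP_8b7544_co.Hv
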