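import Pool.Agent.Lib.MP_8b7544_co.Hv.Stm3

set_option autoImplicit false

namespace Pool.Agent.Lib.MP_8b7544_co.Hv

open Finset
open scoped Pointwise

private theorem hc_sum3 (N P1 P2 P3 : Finset ℤ) (c1 c2 : ℤ) (h12 : c1 ≤ c2)
    (h1 : ∀ x ∈ P1, x ∈ N ∧ x < c1) (h2 : ∀ x ∈ P2, x ∈ N ∧ c1 ≤ x ∧ x < c2)
    (h3 : ∀ x ∈ P3, x ∈ N ∧ c2 ≤ x) : P1.card + P2.card + P3.card ≤ N.card := by
  have hd1 : Disjoint P1 P2 := by
    rw [Finset.disjoint_left]
    intro x hx hx'
    have := (h1 x hx).2
    have := (h2 x hx').2.1
    omega
  have hd2 : Disjoint (P1 ∪ P2) P3 := by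
    rw [Finset.disjoint_left]
    intro x hx hx'
    have h4 := (h3 x hx').2
    rcases Finset.mem_union.1 hx with h | h
    · have := (h1 x h).2
      omega
    · have := (h2 x h).2.2
      omega
  rw [← Finset.card_union_of_disjoint hd1, ← Finset.card_union_of_disjoint hd2]
  apply Finset.card_le_card
  intro x hx
  rcases Finset.mem_union.1 hx with h | h
  · rcases Finset.mem_union.1 h with h | h
    · exact (h1 x h).1
    · exact (h2 x h).1
  · exact (h3 x h).1

private theorem hc_split3 (X : Finset ℤ) (c1 c2 : ℤ) (h12 : c1 ≤ c2) :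
    X.card = (X.filter (fun x => x < c1)).card + (X.filter (fun x => c1 ≤ x ∧ x < c2)).card +
      (X.filter (fun x => c2 ≤ x)).card := by
  have hd1 : Disjoint (X.filter (fun x => x < c1)) (X.filter (fun x => c1 ≤ x ∧ x < c2)) := by
    rw [Finset.disjoint_left]
    intro x hx hx'
    rw [Finset.mem_filter] at hx hx'
    omega
  have hd2 : Disjoint (X.filter (fun x => x < c1) ∪ X.filter (fun x => c1 ≤ x ∧ x < c2))
      (X.filter (fun x => c2 ≤ x)) := by
    rw [Finset.disjoint_left]
    intro x hx hx'
    rw [Finset.mem_union, Finset.mem_filter, Finset.mem_filter] at hx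
    rw [Finset.mem_filter] at hx'
    omega
  rw [← Finset.card_union_of_disjoint hd1, ← Finset.card_union_of_disjoint hd2]
  congr 1
  ext x
  rw [Finset.mem_union, Finset.mem_union, Finset.mem_filter, Finset.mem_filter,
    Finset.mem_filter]
  constructor
  · intro hx
    by_cases h1 : x < c1
    · exact Or.inl (Or.inl ⟨hx, h1⟩)
    · by_cases h2 : x < c2
      · exact Or.inl (Or.inr ⟨hx, by omega, h2⟩)
      · exact Or.inr ⟨hx, by omega⟩
  · rintro ((h | h) | h)
    · exact h.1
    · exact h.1
    · exact h.1

private theorem hc_left (N X : Finset ℤ) (R l : ℤ) (a : ℕ) (ha : 1 ≤ a)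
    (h1 : ∀ x ∈ X, -R < x → x < l → x ∈ N) (h2 : ∀ x ∈ X, -R ≤ x)
    (h3 : ∀ x ∈ X, x < l → x + a ∈ N) :
    ∃ P : Finset ℤ, (∀ x ∈ P, x ∈ N ∧ x < l + a) ∧
      (X.filter (fun x => x < l)).card ≤ P.card := by
  by_cases hne : (X.filter (fun x => x < l)).Nonempty
  · refine ⟨insert ((X.filter (fun x => x < l)).max' hne + a)
      ((X.filter (fun x => x < l)).erase (-R)), ?_, ?_⟩
    · intro x hx
      rcases Finset.mem_insert.1 hx with h | h
      · have hm := Finset.max'_mem _ hne
        rw [Finset.mem_filter] at hm
        refine ⟨?_, ?_⟩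
        · rw [h]
          exact h3 _ hm.1 hm.2
        · have := hm.2
          omega
      · rw [Finset.mem_erase, Finset.mem_filter] at h
        have h4 := h2 x h.2.1
        refine ⟨h1 x h.2.1 ?_ h.2.2, by have := h.2.2; omega⟩
        have := h.1
        omega
    · rw [Finset.card_insert_of_notMem]
      · have := Finset.pred_card_le_card_erase (s := X.filter (fun x => x < l)) (a := -R)
        omega
      · intro h
        rw [Finset.mem_erase] at h
        have := Finset.le_max' _ _ h.2
        omega
  · refine ⟨∅, by simp, ?_⟩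
    rw [Finset.not_nonempty_iff_eq_empty.1 hne]

theorem HC_holds (hTRI : S_TRI) (hGR : S_GR) (hGL : S_GL) : S_HC := by
  intro A B D a b Dm R1 R ha hb hab h0 haD hbD hAB hAa hAb hD hA hB hCI hCI' hR X hX
  obtain ⟨L, hL⟩ : ∃ L : ℕ, L = 2 * Dm + a + b := ⟨_, rfl⟩
  obtain ⟨M, hM⟩ : ∃ M : ℤ, M = (A.card : ℤ) * (L : ℤ) := ⟨_, rfl⟩
  rw [← hL] at hR
  have hR' : (R1 : ℤ) + M + 3 * L ≤ R := by
    rw [hM]
    have : ((R1 + (A.card + 3) * L : ℕ) : ℤ) ≤ (R : ℤ) := by exact_mod_cast hR
    push_cast at this
    linarith [this, add_mul (A.card : ℤ) 3 (L : ℤ)]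
  have hM0 : 0 ≤ M := by rw [hM]; positivity
  have haDm : (a : ℤ) ≤ Dm := by
    have := hD _ haD
    rw [abs_le] at this
    exact this.2
  have hbDm : (b : ℤ) ≤ Dm := by
    have := hD _ hbD
    rw [abs_le] at this
    linarith [this.1]
  have hXp : ∀ x ∈ X, -(R : ℤ) ≤ x ∧ x ≤ R ∧ x ∉ A := by
    intro x hx
    have := hX hx
    rw [Finset.mem_sdiff, Finset.mem_Icc] at this
    exact ⟨this.1.1, this.1.2, this.2⟩
  have hself : ∀ x ∈ X, x ∈ X + D := fun x hx =>
    Finset.mem_add.2 ⟨x, hx, 0, h0, by ring⟩
  have haX : ∀ x ∈ X, x + a ∈ X + D := fun x hx =>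
    Finset.mem_add.2 ⟨x, hx, a, haD, rfl⟩
  have hbX : ∀ x ∈ X, x - b ∈ X + D := fun x hx =>
    Finset.mem_add.2 ⟨x, hx, -b, hbD, by ring⟩
  have hAR : ∀ x ∈ A, -(R1 : ℤ) < x ∧ x < R1 := fun x hx => abs_lt.1 (hA x hx)
  have hBR : ∀ x ∈ B, -(R1 : ℤ) < x ∧ x < R1 := fun x hx => abs_lt.1 (hB x hx)
  obtain ⟨N, hNdef⟩ : ∃ N : Finset ℤ, N = (X + D) ∩ (Ioc (-(R : ℤ)) R \ B) := ⟨_, rfl⟩
  rw [← hNdef]
  have hN : ∀ y, y ∈ N ↔ y ∈ X + D ∧ -(R : ℤ) < y ∧ y ≤ R ∧ y ∉ B := by
    intro y
    rw [hNdef, Finset.mem_inter, Finset.mem_sdiff, Finset.mem_Ioc]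
    tauto
  by_cases hcase : A.card ≤ (((X + D) ∩ Icc (-(R : ℤ)) R) \ X).card
  · -- many new points
    have h1 : X ⊆ (X + D) ∩ Icc (-(R : ℤ)) R := by
      intro x hx
      rw [Finset.mem_inter, Finset.mem_Icc]
      exact ⟨hself x hx, (hXp x hx).1, (hXp x hx).2.1⟩
    have h2 := Finset.card_sdiff_add_card_eq_card h1
    have h3 : ((X + D) ∩ Icc (-(R : ℤ)) R) \ (insert (-(R : ℤ)) B) ⊆ N := by
      intro y hy
      rw [Finset.mem_sdiff, Finset.mem_inter, Finset.mem_Icc, Finset.mem_insert, not_or] at hy
      rw [hN]
      refine ⟨hy.1.1, ?_, hy.1.2.2, hy.2.2⟩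
      have := hy.1.2.1
      have := hy.2.1
      omega
    have h4 := Finset.card_le_card h3
    have h5 := Finset.card_le_card_sdiff_add_card
      (t := insert (-(R : ℤ)) B) (s := (X + D) ∩ Icc (-(R : ℤ)) R)
    have h6 := Finset.card_insert_le (-(R : ℤ)) B
    omega
  · -- few new points
    have hfew : ∀ lo : ℤ, -(R : ℤ) ≤ lo → lo + M ≤ R →
        {y : ℤ | lo ≤ y ∧ y < lo + (A.card : ℤ) * (L : ℤ) ∧ y ∉ X ∧
          (y - a ∈ X ∨ y + b ∈ X)}.ncard < A.card := by
      intro lo hlo hlo'
      have h1 : {y : ℤ | lo ≤ y ∧ y < lo + (A.card : ℤ) * (L : ℤ) ∧ y ∉ X ∧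
          (y - a ∈ X ∨ y + b ∈ X)} ⊆ ((((X + D) ∩ Icc (-(R : ℤ)) R) \ X : Finset ℤ) : Set ℤ) := by
        rintro y ⟨hy1, hy2, hy3, hy4⟩
        rw [← hM] at hy2
        rw [Finset.mem_coe, Finset.mem_sdiff, Finset.mem_inter, Finset.mem_Icc]
        refine ⟨⟨?_, by omega, by omega⟩, hy3⟩
        rcases hy4 with h | h
        · have := haX _ h
          rwa [sub_add_cancel] at this
        · have := hbX _ h
          rwa [add_sub_cancel_right] at this
      have h2 := Set.ncard_le_ncard h1 (Finset.finite_toSet _)
      rw [Set.ncard_coe_finset] at h2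
      omega
    obtain ⟨l, hl1, hl2, hl⟩ := hTRI X (-(R : ℤ) + Dm) L A.card a b ha hb hab (by omega)
      (hfew _ (by omega) (by omega))
    obtain ⟨r, hr1, hr2, hr⟩ := hTRI X ((R1 : ℤ) + Dm) L A.card a b ha hb hab (by omega)
      (hfew _ (by omega) (by omega))
    rw [← hM] at hl2 hr2
    have hlr : l + L ≤ r := by omega
    rcases hl with hl | hl
    · -- left window empty
      rcases hr with hr | hr
      · -- right window empty
        obtain ⟨P, hP1, hP2⟩ := hc_left N X R l a ha
          (fun x hx h1 h2 => (hN x).2 ⟨hself x hx, h1, (hXp x hx).2.1, fun hb => by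
            have := (hBR x hb).1
            omega⟩)
          (fun x hx => (hXp x hx).1)
          (fun x hx h2 => (hN _).2 ⟨haX x hx, by have := (hXp x hx).1; omega, by omega,
            fun hb => by
              have := (hBR _ hb).1
              omega⟩)
        have hXM := hCI (X.filter (fun x => l ≤ x ∧ x < r)) (by
          rw [Finset.disjoint_left]
          intro x hx
          exact (hXp x (Finset.mem_filter.1 hx).1).2.2)
        have hsd := Finset.card_sdiff_add_card_inter
          (X.filter (fun x => l ≤ x ∧ x < r) + D) B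
        rw [Finset.inter_comm] at hsd
        have h3 := hc_sum3 N P ((X.filter (fun x => l ≤ x ∧ x < r) + D) \ B)
          (X.filter (fun x => r ≤ x)) (l + L - Dm) (r + Dm) (by omega)
          (fun x hx => ⟨(hP1 x hx).1, by have := (hP1 x hx).2; omega⟩)
          (by
            intro y hy
            rw [Finset.mem_sdiff] at hy
            obtain ⟨x, hx, d, hd, hxd⟩ := Finset.mem_add.1 hy.1
            rw [Finset.mem_filter] at hx
            have hd' := abs_le.1 (hD d hd)
            have hx' : ¬ (l ≤ x ∧ x < l + L) := hl x hx.1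
            have hx3 : l + L ≤ x := by omega
            refine ⟨(hN y).2 ⟨Finset.mem_add.2 ⟨x, hx.1, d, hd, hxd⟩, by omega, by omega, hy.2⟩,
              by omega, by omega⟩)
          (by
            intro x hx
            rw [Finset.mem_filter] at hx
            have hx' : ¬ (r ≤ x ∧ x < r + L) := hr x hx.1
            refine ⟨(hN x).2 ⟨hself x hx.1, by omega, (hXp x hx.1).2.1, fun hb => by
              have := (hBR x hb).2
              omega⟩, by omega⟩)
        have h4 := hc_split3 X l r (by omega)
        omega
      · -- right window full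
        have h5 := hGL (X.filter (fun x => l ≤ x)) r b hb (by
          intro x hx1 hx2
          rw [Finset.mem_filter]
          exact ⟨hr x hx1 (by omega), by omega⟩)
        have hX1 : (X.filter (fun x => l ≤ x)).filter (fun x => x < r) =
            X.filter (fun x => l ≤ x ∧ x < r) := by
          rw [Finset.filter_filter]
        rw [hX1] at h5
        have h6 := Finset.card_le_card_sdiff_add_card (t := B)
          (s := (X.filter (fun x => l ≤ x) ∪
            (X.filter (fun x => l ≤ x)).image (fun x => x - (b : ℤ))).filter (fun x => x < r))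
        have h7 := Finset.pred_card_le_card_erase (s := X.filter (fun x => x < l)) (a := -(R : ℤ))
        have h3 := hc_sum3 N ((X.filter (fun x => x < l)).erase (-(R : ℤ)))
          (((X.filter (fun x => l ≤ x) ∪
            (X.filter (fun x => l ≤ x)).image (fun x => x - (b : ℤ))).filter
              (fun x => x < r)) \ B)
          (X.filter (fun x => r ≤ x)) l r (by omega)
          (by
            intro x hx
            rw [Finset.mem_erase, Finset.mem_filter] at hx
            have h8 := hXp x hx.2.1
            have h9 := hx.1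
            have h10 := hx.2.2
            refine ⟨(hN x).2 ⟨hself x hx.2.1, by omega, h8.2.1, fun hb => by
              have := (hBR x hb).1
              omega⟩, h10⟩)
          (by
            intro y hy
            rw [Finset.mem_sdiff, Finset.mem_filter, Finset.mem_union, Finset.mem_filter,
              Finset.mem_image] at hy
            obtain ⟨⟨hy1, hy2⟩, hy3⟩ := hy
            rcases hy1 with hy1 | ⟨x, hx, hxy⟩
            · have hy' : ¬ (l ≤ y ∧ y < l + L) := hl y hy1.1
              exact ⟨(hN y).2 ⟨hself y hy1.1, by omega, by omega, hy3⟩, hy1.2, hy2⟩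
            · rw [Finset.mem_filter] at hx
              have hx' : ¬ (l ≤ x ∧ x < l + L) := hl x hx.1
              have hbb := hbX x hx.1
              rw [hxy] at hbb
              exact ⟨(hN y).2 ⟨hbb, by omega, by omega, hy3⟩, by omega, hy2⟩)
          (by
            intro x hx
            rw [Finset.mem_filter] at hx
            refine ⟨(hN x).2 ⟨hself x hx.1, by omega, (hXp x hx.1).2.1, fun hb => by
              have := (hBR x hb).2
              omega⟩, by omega⟩)
        have h4 := hc_split3 X l r (by omega)
        omega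
    · -- left window full
      rcases hr with hr | hr
      · -- right window empty
        have h5 := hGR (X.filter (fun x => x < r)) (l + L - 1) a ha (by
          intro x hx1 hx2
          rw [Finset.mem_filter]
          exact ⟨hl x (by omega) (by omega), by omega⟩)
        have hX1 : (X.filter (fun x => x < r)).filter (fun x => l + L - 1 < x) =
            X.filter (fun x => l + L ≤ x ∧ x < r) := by
          rw [Finset.filter_filter]
          apply Finset.filter_congr
          intro x _
          constructor
          · intro h; omega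
          · intro h; omega
        rw [hX1] at h5
        have h6 := Finset.card_le_card_sdiff_add_card (t := B)
          (s := (X.filter (fun x => x < r) ∪
            (X.filter (fun x => x < r)).image (fun x => x + (a : ℤ))).filter
              (fun x => l + L - 1 < x))
        have h7 := Finset.pred_card_le_card_erase (s := X.filter (fun x => x < l + L))
          (a := -(R : ℤ))
        have h3 := hc_sum3 N ((X.filter (fun x => x < l + L)).erase (-(R : ℤ)))
          (((X.filter (fun x => x < r) ∪
            (X.filter (fun x => x < r)).image (fun x => x + (a : ℤ))).filter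
              (fun x => l + L - 1 < x)) \ B)
          (X.filter (fun x => r ≤ x)) (l + L) (r + L) (by omega)
          (by
            intro x hx
            rw [Finset.mem_erase, Finset.mem_filter] at hx
            have h8 := hXp x hx.2.1
            have h9 := hx.1
            have h10 := hx.2.2
            refine ⟨(hN x).2 ⟨hself x hx.2.1, by omega, h8.2.1, fun hb => by
              have := (hBR x hb).1
              omega⟩, h10⟩)
          (by
            intro y hy
            rw [Finset.mem_sdiff, Finset.mem_filter, Finset.mem_union, Finset.mem_filter,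
              Finset.mem_image] at hy
            obtain ⟨⟨hy1, hy2⟩, hy3⟩ := hy
            rcases hy1 with hy1 | ⟨x, hx, hxy⟩
            · exact ⟨(hN y).2 ⟨hself y hy1.1, by omega, by omega, hy3⟩, by omega, by omega⟩
            · rw [Finset.mem_filter] at hx
              have hbb := haX x hx.1
              rw [hxy] at hbb
              exact ⟨(hN y).2 ⟨hbb, by omega, by omega, hy3⟩, by omega, by omega⟩)
          (by
            intro x hx
            rw [Finset.mem_filter] at hx
            have hx' : ¬ (r ≤ x ∧ x < r + L) := hr x hx.1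
            refine ⟨(hN x).2 ⟨hself x hx.1, by omega, (hXp x hx.1).2.1, fun hb => by
              have := (hBR x hb).2
              omega⟩, by omega⟩)
        have h4 := hc_split3 X (l + L) r (by omega)
        omega
      · -- right window full: count the complement
        have hAW : A ⊆ Icc (-(R : ℤ)) R := by
          intro x hx
          have := hAR x hx
          rw [Finset.mem_Icc]
          omega
        have hBW : B ⊆ Ioc (-(R : ℤ)) R := by
          intro x hx
          have := hBR x hx
          rw [Finset.mem_Ioc]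
          omega
        have hS := Finset.card_sdiff_add_card_eq_card hAW
        have hT := Finset.card_sdiff_add_card_eq_card hBW
        rw [Int.card_Icc] at hS
        rw [Int.card_Ioc] at hT
        have hNT : N ⊆ Ioc (-(R : ℤ)) R \ B := by
          rw [hNdef]
          exact Finset.inter_subset_right
        have hSX := Finset.card_sdiff_add_card_eq_card hX
        have hTN := Finset.card_sdiff_add_card_eq_card hNT
        -- the middle part
        obtain ⟨Y, hYdef⟩ : ∃ Y : Finset ℤ, Y = ((Ioc (-(R : ℤ)) R \ B) \ N).filter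
          (fun y => l + L ≤ y ∧ y < r) := ⟨_, rfl⟩
        have hYm : ∀ y ∈ Y, y ∉ B ∧ y ∉ X + D ∧ l + L ≤ y ∧ y < r := by
          intro y hy
          rw [hYdef, Finset.mem_filter, Finset.mem_sdiff, Finset.mem_sdiff, Finset.mem_Ioc,
            hN] at hy
          refine ⟨hy.1.1.2, ?_, hy.2.1, hy.2.2⟩
          intro hXD
          exact hy.1.2 ⟨hXD, hy.1.1.1.1, hy.1.1.1.2, hy.1.1.2⟩
        have hY1 := hCI' Y (by
          rw [Finset.disjoint_left]
          intro y hy
          exact (hYm y hy).1)
        have hsd := Finset.card_sdiff_add_card_inter (Y + -D) A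
        rw [Finset.inter_comm] at hsd
        have h3 := hc_sum3 ((Icc (-(R : ℤ)) R \ A) \ X)
          (((Ioc (-(R : ℤ)) R \ B) \ N).filter (fun y => y < l + L)) ((Y + -D) \ A)
          (((Ioc (-(R : ℤ)) R \ B) \ N).filter (fun y => r ≤ y)) (l + L) r hlr
          (by
            intro y hy
            rw [Finset.mem_filter, Finset.mem_sdiff, Finset.mem_sdiff, Finset.mem_Ioc,
              hN] at hy
            refine ⟨?_, hy.2⟩
            rw [Finset.mem_sdiff, Finset.mem_sdiff, Finset.mem_Icc]
            refine ⟨⟨by omega, fun hyA => ?_⟩, fun hyX => ?_⟩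
            · have := (hAR y hyA).1
              omega
            · exact hy.1.2 ⟨hself y hyX, hy.1.1.1.1, hy.1.1.1.2, hy.1.1.2⟩)
          (by
            intro z hz
            rw [Finset.mem_sdiff] at hz
            obtain ⟨y, hy, d, hd, hyd⟩ := Finset.mem_add.1 hz.1
            rw [Finset.mem_neg] at hd
            obtain ⟨d', hd', hdd⟩ := hd
            have hdm := abs_le.1 (hD d' hd')
            have hy' := hYm y hy
            have hzX : z ∉ X := by
              intro hzX
              apply hy'.2.1
              exact Finset.mem_add.2 ⟨z, hzX, d', hd', by omega⟩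
            have hz1 : l + L ≤ z := by
              by_contra hlt
              exact hzX (hl z (by omega) (by omega))
            have hz2 : z < r := by
              by_contra hlt
              exact hzX (hr z (by omega) (by omega))
            refine ⟨?_, hz1, hz2⟩
            rw [Finset.mem_sdiff, Finset.mem_sdiff, Finset.mem_Icc]
            exact ⟨⟨by omega, hz.2⟩, hzX⟩)
          (by
            intro y hy
            rw [Finset.mem_filter, Finset.mem_sdiff, Finset.mem_sdiff, Finset.mem_Ioc,
              hN] at hy
            refine ⟨?_, hy.2⟩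
            rw [Finset.mem_sdiff, Finset.mem_sdiff, Finset.mem_Icc]
            refine ⟨⟨by omega, fun hyA => ?_⟩, fun hyX => ?_⟩
            · have := (hAR y hyA).2
              omega
            · exact hy.1.2 ⟨hself y hyX, hy.1.1.1.1, hy.1.1.1.2, hy.1.1.2⟩)
        have h4 := hc_split3 ((Ioc (-(R : ℤ)) R \ B) \ N) (l + L) r hlr
        rw [← hYdef] at h4
        omega

end Pool.Agent.Lib.MP_8b7544_co.Hv
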