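import Pool.Agent.Lib.MP_8b7544_co.Hv.Stm2

set_option autoImplicit false

namespace Pool.Agent.Lib.MP_8b7544_co.Hv

open Finset
open scoped Pointwise

/-- A good labelling of some parent closed set containing `u` with `δ v = 0`, `δ u = 1`. -/
def Ok {V : Type} [DecidableEq V] (par : V → V) (v u : V) : Prop :=
  ∃ (S : Finset V) (δ : V → ℤ), Good par v S δ ∧ u ∈ S ∧ δ v = 0 ∧ δ u = 1

/-- [ONE] `S = {v, u}`, `δ u = 1`. -/
def S_ONE : Prop := ∀ (V : Type) [DecidableEq V] (par : V → V) (v u : V), Dep par v 1 u →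
    Ok par v u

/-- [ODD] Odd distance `n + 2`. Let `w = par u`, `x = par w`, `S, δ` from [CHN] for `x`,
`g = δ x > 0`. Put `δ w = 1 - g`, `δ u = 1`: the new vertex offsets are `1 - g, 1`, the new edge
offsets `1, 2 - g`, so `ψ` changes by `1` at `t = 1 - g` only, where it was `0`, because all other
old offsets are `> 1 - g`. The numbers `1 - g, 1, 2 - g` are new; `ψ 1 = ψ 0 = 1`. -/
def S_ODD : Prop := ∀ (V : Type) [DecidableEq V] (par : V → V) (v u : V) (n : ℕ), Odd n →
    Dep par v (n + 2) u → Ok par v u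

/-- [EV6] Even distance `n + 6`. Let `x = par^[6] u`, `S, δ` from [CHN] for `x`, `- b = δ x ≤ 0`,
`R ≥ 0` a bound of all `|δ y|`, `|δ y + δ (par y)|`, `y ∈ S`. The vertices on the path from `x` to
`u` get `a2 + ε, -a2, 1 + a2, -a4, a5, 1` with `ε = R + 2`, `a5 = R + 4`, `a2 = 4 R + 20`,
`a4 = 6 R + 30`; the new edge offsets are
`a2 + ε - b, ε, 1, 1 + a2 - a4, a5 - a4, a5 + 1`. In increasing order:
`-6R-30 (vertex), -5R-26 (edge), -4R-20 (vertex), -2R-9 (edge)`, the old ones in `[-R, R]`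
together with `1 (vertex and edge)`, `R+2 (edge), R+4 (vertex), R+5 (edge), 4R+21 (vertex),
5R+22-b (edge), 5R+22 (vertex)`. (For `n = 0`: `S = {v}`, `b = 0`; `1` is not an old offset as
those are `0` or of absolute value `≥ 5`.) -/
def S_EV6 : Prop := ∀ (V : Type) [DecidableEq V] (par : V → V) (v u : V) (n : ℕ), Even n →
    Dep par v (n + 6) u → Ok par v u

/-- [C2A] `p = -1, z = 3, w = -2`, `v = 0`, `u = 1`. -/
def S_C2A : Prop := ∀ (V : Type) [DecidableEq V] (par : V → V) (v p u z w : V),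
    [v, p, u, z, w].Nodup → par p = v → par u = p → par z = p → par w = z → Ok par v u

/-- [C2B] `p = 2, z = -2, w = 3`. -/
def S_C2B : Prop := ∀ (V : Type) [DecidableEq V] (par : V → V) (v p u z w : V),
    [v, p, u, z, w].Nodup → par p = v → par u = p → par z = u → par w = z → Ok par v u

/-- [C2C] `p = -1, z = 3, w = -2`. -/
def S_C2C : Prop := ∀ (V : Type) [DecidableEq V] (par : V → V) (v p u z w : V),
    [v, p, u, z, w].Nodup → par p = v → par u = p → par z = v → par w = z → Ok par v u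

/-- [C4A] `x1 = 3, x2 = -2, x3 = -1, z = -4`. -/
def S_C4A : Prop := ∀ (V : Type) [DecidableEq V] (par : V → V) (v x1 x2 x3 u z : V),
    [v, x1, x2, x3, u, z].Nodup → par x1 = v → par x2 = x1 → par x3 = x2 → par u = x3 →
    par z = x1 → Ok par v u

/-- [C4B] `x1 = -1, x2 = 3, x3 = -3, z = -2`. -/
def S_C4B : Prop := ∀ (V : Type) [DecidableEq V] (par : V → V) (v x1 x2 x3 u z : V),
    [v, x1, x2, x3, u, z].Nodup → par x1 = v → par x2 = x1 → par x3 = x2 → par u = x3 →
    par z = x2 → Ok par v u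

/-- [C4C] `x1 = 2, x2 = 3, x3 = -2, z = 5`. -/
def S_C4C : Prop := ∀ (V : Type) [DecidableEq V] (par : V → V) (v x1 x2 x3 u z : V),
    [v, x1, x2, x3, u, z].Nodup → par x1 = v → par x2 = x1 → par x3 = x2 → par u = x3 →
    par z = x3 → Ok par v u

/-- [C4D] `x1 = -1, x2 = 4, x3 = -3, z = 2, w = -2`. -/
def S_C4D : Prop := ∀ (V : Type) [DecidableEq V] (par : V → V) (v x1 x2 x3 u z w : V),
    [v, x1, x2, x3, u, z, w].Nodup → par x1 = v → par x2 = x1 → par x3 = x2 → par u = x3 →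
    par z = v → par w = z → Ok par v u

/-- [C4E] `x1 = -1, x2 = 4, x3 = -4, z = 3, w = -2`. -/
def S_C4E : Prop := ∀ (V : Type) [DecidableEq V] (par : V → V) (v x1 x2 x3 u z w : V),
    [v, x1, x2, x3, u, z, w].Nodup → par x1 = v → par x2 = x1 → par x3 = x2 → par u = x3 →
    par z = u → par w = z → Ok par v u

/-- The exceptional position: every edge meets a path `v, p, u`; or there is a path
`v, x, y, z, u` and all other vertices are adjacent to `v` or `u` only. -/
def Exc {V : Type} (G : SimpleGraph V) (v u : V) : Prop :=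
  (∃ p, v ≠ u ∧ G.Adj v p ∧ G.Adj p u ∧
    ∀ a b, G.Adj a b → a = v ∨ a = p ∨ a = u ∨ b = v ∨ b = p ∨ b = u) ∨
  (∃ x y z, [v, x, y, z, u].Nodup ∧ G.Adj v x ∧ G.Adj x y ∧ G.Adj y z ∧ G.Adj z u ∧
    ∀ w, w ≠ v → w ≠ x → w ≠ y → w ≠ z → w ≠ u → ∀ w', G.Adj w w' → w' = v ∨ w' = u)

/-- [HIT] Proof: strong induction on `d a`: if `par (par a) ∈ S` take `z = par a`, `w = a`,
otherwise replace `a` by `par a` (not in `S`, so not `v`). -/
def S_HIT : Prop := ∀ (V : Type) [DecidableEq V] (par : V → V) (d : V → ℕ) (v : V),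
    (∀ x, x ≠ v → d (par x) < d x) → ∀ (S : Finset V), v ∈ S → ∀ a, a ∉ S → par a ∉ S →
    ∃ z w, z ∉ S ∧ w ∉ S ∧ par w = z ∧ par z ∈ S

/-- [G2] Distance 2: `p = par u`. As `Exc` fails there is an edge `a (par a)` not meeting
`{v, p, u}`; use [HIT] with `S = {v, p, u}` (parent closed) and [C2A], [C2B], [C2C]. -/
def S_G2 : Prop := ∀ (V : Type) [DecidableEq V] (G : SimpleGraph V) (par : V → V) (d : V → ℕ)
    (v u : V), (∀ x, x ≠ v → G.Adj x (par x) ∧ d (par x) < d x) →
    (∀ a b, G.Adj a b → (a ≠ v ∧ par a = b) ∨ (b ≠ v ∧ par b = a)) →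
    Dep par v 2 u → ¬ Exc G v u → Ok par v u

/-- [G4] Distance 4: `x3 = par u`, `x2 = par x3`, `x1 = par x2`, `S = {v, x1, x2, x3, u}`. As `Exc`
fails there is `w ∉ S` with a neighbour `w' ∉ {v, u}`. If `w' ∈ {x1, x2, x3}` then `par w = w'`
(`S` is parent closed): [C4A], [C4B], [C4C]. Otherwise `w, w' ∉ S` and one is the parent of the
other; [HIT] and all five cores. -/
def S_G4 : Prop := ∀ (V : Type) [DecidableEq V] (G : SimpleGraph V) (par : V → V) (d : V → ℕ)
    (v u : V), (∀ x, x ≠ v → G.Adj x (par x) ∧ d (par x) < d x) →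
    (∀ a b, G.Adj a b → (a ≠ v ∧ par a = b) ∨ (b ≠ v ∧ par b = a)) →
    Dep par v 4 u → ¬ Exc G v u → Ok par v u

/-- [GEX] Proof: `exists_par` (Chain.lean) at `v`; every vertex has a depth (`Dep`; strong
induction on `d`); [ONE], [ODD], [EV6], [G2], [G4] according to the depth of `u`; [FUL]. -/
def S_GEX : Prop := ∀ (V : Type) [Fintype V] [DecidableEq V] (G : SimpleGraph V), G.IsTree →
    ∀ v u : V, v ≠ u → ¬ Exc G v u →
    ∃ (par : V → V) (δ : V → ℤ), (∀ w, w ≠ v → G.Adj w (par w)) ∧ Good par v univ δ ∧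
      δ v = 0 ∧ δ u = 1

/-- [UNI] One bound for all small trees. Proof: [THR] if `3 ≤ |U|`; [GEX] and [TWO] if `|U| = 2`;
take the maximum over the finitely many `n, G, U`. -/
def S_UNI : Prop := ∀ N : ℕ, ∃ M : ℕ, ∀ n ≤ N, ∀ G : SimpleGraph (Fin n), G.IsTree →
    ∀ U : Finset (Fin n), 2 ≤ U.card → (∀ v u, U = {v, u} → ¬ Exc G v u) →
    ∀ m : Fin n → ℕ, (∀ w, w ∉ U → m w = 0) → (∀ w ∈ U, M ≤ m w) → Lab G m

/-- [EX3] The first exceptional case. Proof: each vertex outside `{v, p, u}` has a neighbour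
(connectedness), all its neighbours are in `{v, p, u}`, and only one (`T` is a tree). So [P3] with
`V = Fin 3` and [FPR] apply, `m i` the numbers of other neighbours of `v, p, u`. -/
def S_EX3 : Prop := ∀ (W : Type) [Fintype W] (T : SimpleGraph W), T.IsTree → ∀ v p u : W,
    v ≠ u → T.Adj v p → T.Adj p u →
    (∀ a b, T.Adj a b → a = v ∨ a = p ∨ a = u ∨ b = v ∨ b = p ∨ b = u) → EdgeMagic T

/-- [EX5] The second exceptional case; likewise with [P5] (here `m 1 = m 2 = m 3 = 0`). -/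
def S_EX5 : Prop := ∀ (W : Type) [Fintype W] (T : SimpleGraph W), T.IsTree → ∀ v x y z u : W,
    [v, x, y, z, u].Nodup → T.Adj v x → T.Adj x y → T.Adj y z → T.Adj z u →
    (∀ w, w ≠ v → w ≠ x → w ≠ y → w ≠ z → w ≠ u → ∀ w', T.Adj w w' → w' = v ∨ w' = u) →
    EdgeMagic T

/-- [IND] Removing leaves. Proof: the map `W → S`, `w ↦ w` on `S` and `w ↦` its neighbour outside,
sends adjacent vertices to adjacent or equal ones, so `T.induce S` is connected. -/
def S_IND : Prop := ∀ (W : Type) [Fintype W] (T : SimpleGraph W), T.IsTree → ∀ S : Set W,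
    S.Nonempty → (∀ w, w ∉ S → ∃ p ∈ S, ∀ x, T.Adj w x → x = p) → (T.induce S).IsTree

/-- [GAP] Pigeonhole. -/
def S_GAP : Prop := ∀ (W : Type) (k : ℕ) (τ : ℕ → ℕ) (f : W → ℕ) (I : Finset W), StrictMono τ →
    I.card ≤ k → ∃ i ≤ k, ∀ w ∈ I, f w < τ i ∨ τ (i + 1) ≤ f w

/-- Number of leaves adjacent to `x`. -/
noncomputable def lv {W : Type} (T : SimpleGraph W) (x : W) : ℕ :=
  {z | T.Adj x z ∧ (T.neighborSet z).ncard = 1}.ncard

/-- [FIN] The theorem. Proof. Let `Mu N` be the bound of [UNI], `τ 0 = 0`,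
`τ (i + 1) = max (τ i + 1) (Mu (k + k τ i))`, `M = τ (k + 1) + 2`. Let `I` be the set of the
non-leaves, `i` as in [GAP] for `f = lv T`, `U` the set of the `w ∈ I` with `τ (i + 1) ≤ lv T w`
(it contains `x, y`), `S` the set of all vertices except the leaves with neighbour in `U`. The
neighbour of a leaf is in `I` (otherwise `W` has two vertices only, both leaves). So
`|S| ≤ k + k τ i`, and the leaves at `w ∈ U` are outside `S`. Let `e : Fin n → W` be injective
with range `S`, `G = T.comap e`, a tree by [IND]. If `|U| = 2` and `G` is exceptional then so is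
`T`, as the vertices outside `S` have their only neighbour in `U = {v, u}`: [EX3], [EX5].
Otherwise [UNI] and [FPR]. -/
def S_FIN : Prop := ∀ k : ℕ, ∃ M : ℕ, ∀ (W : Type) [Fintype W] (T : SimpleGraph W), T.IsTree →
    {w | (T.neighborSet w).ncard ≠ 1}.ncard ≤ k →
    (∃ x y, x ≠ y ∧ M ≤ lv T x ∧ M ≤ lv T y) → EdgeMagic T

end Pool.Agent.Lib.MP_8b7544_co.Hv
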