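/-
MP_8b7544_co, [HIT] (helper28).
-/
import Pool.Agent.Lib.MP_8b7544_co.Hv.Stm3

set_option autoImplicit false

namespace Pool.Agent.Lib.MP_8b7544_co.Hv

open Finset

theorem HIT_holds : S_HIT := by
  intro V _ par d v hd S hv
  have key : ∀ n : ℕ, ∀ a, d a ≤ n → a ∉ S → par a ∉ S →
      ∃ z w, z ∉ S ∧ w ∉ S ∧ par w = z ∧ par z ∈ S := by
    intro n
    induction n with
    | zero =>
      intro a ha haS _
      have hav : a ≠ v := fun h => haS (h ▸ hv)
      have := hd a hav
      omega
    | succ n ih =>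
      intro a ha haS hpa
      by_cases hpp : par (par a) ∈ S
      · exact ⟨par a, a, hpa, haS, rfl, hpp⟩
      · have hav : a ≠ v := fun h => haS (h ▸ hv)
        have := hd a hav
        exact ih (par a) (by omega) hpa hpp
  intro a haS hpa
  exact key (d a) a le_rfl haS hpa

end Pool.Agent.Lib.MP_8b7544_co.Hv
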