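import Pool.Agent.Lib.MP_8b7544_co.Hv.Stm3

set_option autoImplicit false

namespace Pool.Agent.Lib.MP_8b7544_co.Hv

open Finset
open scoped Pointwise

theorem IND_holds : S_IND := by
  classical
  intro W _ T hT S hne hS
  have hex : ∀ w, ∃ p : S, (w ∈ S → p.1 = w) ∧ (w ∉ S → ∀ x, T.Adj w x → x = p.1) := by
    intro w
    by_cases hw : w ∈ S
    · exact ⟨⟨w, hw⟩, fun _ => rfl, fun h => absurd hw h⟩
    · obtain ⟨p, hp, h⟩ := hS w hw
      exact ⟨⟨p, hp⟩, fun h' => absurd h' hw, fun _ => h⟩
  choose f hf1 hf2 using hex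
  have hadj : ∀ a b, T.Adj a b → (T.induce S).Reachable (f a) (f b) := by
    intro a b hab
    by_cases ha : a ∈ S
    · by_cases hb : b ∈ S
      · apply SimpleGraph.Adj.reachable
        rw [SimpleGraph.comap_adj]
        change T.Adj (f a).1 (f b).1
        rw [hf1 a ha, hf1 b hb]
        exact hab
      · have h1 : a = (f b).1 := hf2 b hb a hab.symm
        have h2 : f a = f b := Subtype.ext ((hf1 a ha).trans h1)
        rw [h2]
    · have h1 : b = (f a).1 := hf2 a ha b hab
      have hb : b ∈ S := by rw [h1]; exact (f a).2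
      have h2 : f b = f a := Subtype.ext ((hf1 b hb).trans h1)
      rw [h2]
  have hwalk : ∀ a b, T.Walk a b → (T.induce S).Reachable (f a) (f b) := by
    intro a b p
    induction p with
    | nil => exact SimpleGraph.Reachable.refl _
    | cons h _ ih => exact (hadj _ _ h).trans ih
  constructor
  · have : Nonempty S := hne.to_subtype
    refine SimpleGraph.Connected.mk fun a b => ?_
    obtain ⟨p⟩ := hT.1.preconnected a.1 b.1
    have h := hwalk a.1 b.1 p
    have h1 : f a.1 = a := Subtype.ext (hf1 a.1 a.2)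
    have h2 : f b.1 = b := Subtype.ext (hf1 b.1 b.2)
    rwa [h1, h2] at h
  · exact hT.2.induce S

end Pool.Agent.Lib.MP_8b7544_co.Hv
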