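import Pool.Agent.Lib.MP_8b7544_co.Hv.Stm3

set_option autoImplicit false

namespace Pool.Agent.Lib.MP_8b7544_co.Hv

open Finset
open scoped Pointwise

theorem LAN_holds : S_LAN := by
  intro X a b K ha hab hKb hF hG
  have hK : 0 < K := by omega
  have hb : 0 < b := by omega
  -- every element of `X` is soon followed by a missing element
  have key : ∀ x ∈ X, ∃ t : ℕ, t < K ∧ x + (t : ℤ) * a ∈ X ∧ x + (t : ℤ) * a + a ∉ X := by
    intro x hx
    by_contra hcon
    push Not at hcon
    have hall : ∀ t : ℕ, t ≤ K → x + (t : ℤ) * a ∈ X := by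
      intro t
      induction t with
      | zero => intro _; simpa using hx
      | succ t ih =>
        intro ht
        have := hcon t (by omega) (ih (by omega))
        have e : x + ((t + 1 : ℕ) : ℤ) * a = x + (t : ℤ) * a + a := by push_cast; ring
        rw [e]
        exact this
    -- least element in the class
    have hmin : ∀ t : ℕ, t < K → ∃ y ∈ X.filter (fun x => x - (b : ℤ) ∉ X),
        (b : ℤ) ∣ (x + (t : ℤ) * a) - y := by
      intro t ht
      have hne : (X.filter (fun y => (b : ℤ) ∣ (x + (t : ℤ) * a) - y)).Nonempty :=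
        ⟨x + (t : ℤ) * a, by
          rw [mem_filter]
          exact ⟨hall t ht.le, by simp⟩⟩
      obtain ⟨y, hy, hy'⟩ := exists_min_image _ (fun y => y) hne
      rw [mem_filter] at hy
      refine ⟨y, ?_, hy.2⟩
      rw [mem_filter]
      refine ⟨hy.1, fun hmem => ?_⟩
      have h1 := hy' (y - b) (by
        rw [mem_filter]
        refine ⟨hmem, ?_⟩
        have e : (x + (t : ℤ) * a) - (y - b) = ((x + (t : ℤ) * a) - y) + b := by ring
        rw [e]
        exact dvd_add hy.2 (dvd_refl _))
      have h2 : (0 : ℤ) < b := by exact_mod_cast hb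

      linarith
    choose! m hm1 hm2 using hmin
    have hinj : Set.InjOn m (Finset.range K : Finset ℕ) := by
      intro t ht t' ht' heq
      rw [mem_coe, Finset.mem_range] at ht ht'
      have h1 := hm2 t ht
      have h2 := hm2 t' ht'
      rw [heq] at h1
      have h3 : (b : ℤ) ∣ ((t : ℤ) - t') * a := by
        have := dvd_sub h1 h2
        have e : (x + (t : ℤ) * a - m t') - (x + (t' : ℤ) * a - m t') = ((t : ℤ) - t') * a := by
          ring
        rwa [e] at this
      have hcop : IsCoprime (b : ℤ) (a : ℤ) := by
        rw [Nat.isCoprime_iff_coprime]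
        exact hab.symm
      have h4 : (b : ℤ) ∣ ((t : ℤ) - t') := hcop.dvd_of_dvd_mul_right h3
      have h5 : |(t : ℤ) - t'| < b := by
        rw [abs_lt]
        constructor <;> omega
      have h6 := Int.eq_zero_of_abs_lt_dvd h4 h5
      omega
    have hcard : K ≤ (X.filter (fun x => x - (b : ℤ) ∉ X)).card := by
      have := card_le_card_of_injOn m
        (fun t ht => hm1 t (by rw [mem_coe, Finset.mem_range] at ht; exact ht)) hinj
      rwa [card_range] at this
    omega
  have hsub : X ⊆ (Finset.range K).biUnion (fun t =>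
      (X.filter (fun x => x + (a : ℤ) ∉ X)).image (fun y => y - (t : ℤ) * a)) := by
    intro x hx
    obtain ⟨t, ht, h1, h2⟩ := key x hx
    rw [mem_biUnion]
    refine ⟨t, by rw [Finset.mem_range]; exact ht, ?_⟩
    rw [mem_image]
    exact ⟨x + (t : ℤ) * a, by rw [mem_filter]; exact ⟨h1, h2⟩, by ring⟩
  calc X.card ≤ _ := card_le_card hsub
    _ ≤ (Finset.range K).card * K := by
        refine card_biUnion_le_card_mul _ _ _ fun t _ => ?_
        exact le_trans card_image_le hF.le
    _ = K * K := by rw [card_range]

end Pool.Agent.Lib.MP_8b7544_co.Hv
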