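import Pool.Agent.Lib.MP_8b7544_co.Hv.Stm3

set_option autoImplicit false

namespace Pool.Agent.Lib.MP_8b7544_co.Hv

open Finset
open scoped Pointwise

/-- [LH] Local Hall lemma from Hall's condition. -/
theorem LH_holds (hHC : S_HC) : S_LH := by
  classical
  intro A B D a b Dm R1 ha hb hab h0 haD hbD hAB hAa hAb hDm hA hB hCI hCI'
  set R : ℕ := R1 + (A.card + 3) * (2 * Dm + a + b) with hR
  have hR1 : R1 ≤ R := by rw [hR]; exact Nat.le_add_right _ _
  have hall := hHC A B D a b Dm R1 R ha hb hab h0 haD hbD hAB hAa hAb hDm hA hB hCI hCI' hR.ge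
  set S : Finset ℤ := Icc (-(R : ℤ)) R \ A with hS
  set T : Finset ℤ := Ioc (-(R : ℤ)) R \ B with hT
  let t : S → Finset ℤ := fun x => (D.image (fun d => (x : ℤ) + d)) ∩ T
  have hH : ∀ s : Finset S, s.card ≤ (s.biUnion t).card := by
    intro s
    have h1 := hall (s.map (Function.Embedding.subtype _)) (by
      intro x hx
      rw [Finset.mem_map] at hx
      obtain ⟨y, -, rfl⟩ := hx
      exact y.2)
    rw [Finset.card_map] at h1
    refine h1.trans (Finset.card_le_card ?_)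
    intro y hy
    rw [Finset.mem_inter] at hy
    obtain ⟨hy1, hy2⟩ := hy
    rw [Finset.mem_add] at hy1
    obtain ⟨x, hx, d, hd, rfl⟩ := hy1
    rw [Finset.mem_map] at hx
    obtain ⟨z, hz, rfl⟩ := hx
    rw [Finset.mem_biUnion]
    refine ⟨z, hz, ?_⟩
    show _ ∈ (D.image (fun d => (z : ℤ) + d)) ∩ T
    rw [Finset.mem_inter, Finset.mem_image]
    exact ⟨⟨d, hd, rfl⟩, hy2⟩
  obtain ⟨f, hf, hft⟩ := (Finset.all_card_le_biUnion_card_iff_exists_injective t).1 hH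
  have hft1 : ∀ x : S, f x ∈ T := fun x => (Finset.mem_inter.1 (hft x)).2
  have hft2 : ∀ x : S, f x - x ∈ D := by
    intro x
    obtain ⟨d, hd, hd2⟩ := Finset.mem_image.1 (Finset.mem_inter.1 (hft x)).1
    have hd3 : (x : ℤ) + d = f x := hd2
    have : f x - x = d := by omega
    rw [this]; exact hd
  have hAs : A ⊆ Icc (-(R : ℤ)) R := by
    intro x hx
    have h1 := abs_lt.1 (hA x hx)
    rw [Finset.mem_Icc]
    have h2 : (R1 : ℤ) ≤ R := by exact_mod_cast hR1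
    constructor <;> linarith [h1.1, h1.2]
  have hBs : B ⊆ Ioc (-(R : ℤ)) R := by
    intro x hx
    have h1 := abs_lt.1 (hB x hx)
    rw [Finset.mem_Ioc]
    have h2 : (R1 : ℤ) ≤ R := by exact_mod_cast hR1
    constructor <;> linarith [h1.1, h1.2]
  have hcS : S.card = 2 * R + 1 - A.card := by
    rw [hS, Finset.card_sdiff_of_subset hAs, Int.card_Icc]
    congr 1
    omega
  have hcT : T.card = 2 * R - B.card := by
    rw [hT, Finset.card_sdiff_of_subset hBs, Int.card_Ioc]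
    congr 1
    omega
  have hST : S.card = T.card := by omega
  have himg : (Finset.univ : Finset S).image f = T := by
    apply Finset.eq_of_subset_of_card_le
    · intro y hy
      obtain ⟨x, -, rfl⟩ := Finset.mem_image.1 hy
      exact hft1 x
    · rw [Finset.card_image_of_injective _ hf, Finset.card_univ, Fintype.card_coe, hST]
  have hmS : ∀ x : ℤ, (-(R : ℤ) ≤ x ∧ x ≤ R ∧ x ∉ A) ↔ x ∈ S := by
    intro x
    rw [hS, Finset.mem_sdiff, Finset.mem_Icc, and_assoc]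
  have hmT : ∀ x : ℤ, (-(R : ℤ) < x ∧ x ≤ R ∧ x ∉ B) ↔ x ∈ T := by
    intro x
    rw [hT, Finset.mem_sdiff, Finset.mem_Ioc, and_assoc]
  refine ⟨R, fun x => if h : x ∈ S then f ⟨x, h⟩ else 0, hR1, ⟨?_, ?_, ?_⟩, ?_⟩
  · intro x hx
    have hx' : x ∈ S := (hmS x).1 hx
    have : (if h : x ∈ S then f ⟨x, h⟩ else 0) = f ⟨x, hx'⟩ := dif_pos hx'
    show (if h : x ∈ S then f ⟨x, h⟩ else 0) ∈ {y : ℤ | -(R : ℤ) < y ∧ y ≤ R ∧ y ∉ B}
    rw [this]
    exact (hmT _).2 (hft1 _)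
  · intro x hx y hy hxy
    have hx' : x ∈ S := (hmS x).1 hx
    have hy' : y ∈ S := (hmS y).1 hy
    have e1 : (if h : x ∈ S then f ⟨x, h⟩ else 0) = f ⟨x, hx'⟩ := dif_pos hx'
    have e2 : (if h : y ∈ S then f ⟨y, h⟩ else 0) = f ⟨y, hy'⟩ := dif_pos hy'
    have e3 : (if h : x ∈ S then f ⟨x, h⟩ else 0) = (if h : y ∈ S then f ⟨y, h⟩ else 0) := hxy
    rw [e1, e2] at e3
    exact congrArg Subtype.val (hf e3)
  · intro y hy
    have hy' : y ∈ T := (hmT y).1 hy
    rw [← himg] at hy'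
    obtain ⟨x, -, hx⟩ := Finset.mem_image.1 hy'
    refine ⟨x.1, (hmS _).2 x.2, ?_⟩
    show (if h : x.1 ∈ S then f ⟨x.1, h⟩ else 0) = y
    rw [dif_pos x.2]
    exact hx
  · intro x h1 h2 h3
    have hx' : x ∈ S := (hmS x).1 ⟨h1, h2, h3⟩
    show (if h : x ∈ S then f ⟨x, h⟩ else 0) - x ∈ D
    rw [dif_pos hx']
    exact hft2 ⟨x, hx'⟩

end Pool.Agent.Lib.MP_8b7544_co.Hv
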