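import Pool.Agent.Lib.MP_8b7544_co.Hv.Stm3

set_option autoImplicit false

namespace Pool.Agent.Lib.MP_8b7544_co.Hv

open Finset
open scoped Pointwise

/-- A set of integers with only one end of runs of difference `h`. -/
private theorem NAP_ends (D : Finset ℤ) (a b : ℕ) (hab : Nat.Coprime a b)
    (h0 : (0 : ℤ) ∈ D) (hDa : (a : ℤ) ∈ D) (hDb : -(b : ℤ) ∈ D) (hcard : D.card ≤ a + b)
    (h : ℤ) (hh : 0 < h) : 2 ≤ (D.filter (fun d => d + h ∉ D)).card := by
  obtain ⟨M, hM, hMax⟩ := exists_max_image D (fun d => d) ⟨0, h0⟩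
  by_contra hcon
  have hMend : M ∈ D.filter (fun d => d + h ∉ D) := by
    rw [mem_filter]
    refine ⟨hM, fun h1 => ?_⟩
    have := hMax _ h1
    linarith
  have hone : ∀ d ∈ D, d ≠ M → d + h ∈ D := by
    intro d hd hne
    by_contra h1
    have h2 : d ∈ D.filter (fun d => d + h ∉ D) := by
      rw [mem_filter]; exact ⟨hd, h1⟩
    have h3 : ({d, M} : Finset ℤ) ⊆ D.filter (fun d => d + h ∉ D) := by
      intro z hz
      rw [mem_insert, mem_singleton] at hz
      rcases hz with rfl | rfl
      · exact h2
      · exact hMend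
    have h4 := card_le_card h3
    rw [card_pair hne] at h4
    exact hcon h4
  have hdvd : ∀ n : ℕ, ∀ d ∈ D, (M - d).toNat ≤ n → h ∣ M - d := by
    intro n
    induction n with
    | zero =>
      intro d hd hn
      have := hMax d hd
      have e : M - d = 0 := by omega
      rw [e]
      exact dvd_zero _
    | succ n ih =>
      intro d hd hn
      by_cases hdM : d = M
      · rw [hdM, sub_self]; exact dvd_zero _
      · have h1 := hone d hd hdM
        have h2 := hMax _ h1
        have h3 := ih (d + h) h1 (by omega)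
        have e : M - d = (M - (d + h)) + h := by ring
        rw [e]
        exact dvd_add h3 (dvd_refl _)
  have hdvd' : ∀ d ∈ D, h ∣ M - d := fun d hd => hdvd _ d hd le_rfl
  have h1 : h ∣ (a : ℤ) := by
    have := dvd_sub (hdvd' 0 h0) (hdvd' a hDa)
    simpa using this
  have h2 : h ∣ (b : ℤ) := by
    have := dvd_sub (hdvd' _ hDb) (hdvd' 0 h0)
    simpa using this
  have h3 : h = 1 := by
    have hcop : IsCoprime (a : ℤ) (b : ℤ) := by
      rw [Nat.isCoprime_iff_coprime]
      exact hab
    have h4 := hcop.isUnit_of_dvd' h1 h2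
    rcases Int.isUnit_iff.1 h4 with h5 | h5 <;> omega
  subst h3
  have hall : ∀ n : ℕ, -(b : ℤ) + n ≤ M → -(b : ℤ) + n ∈ D := by
    intro n
    induction n with
    | zero => intro _; simpa using hDb
    | succ n ih =>
      intro hn
      have h5 := ih (by push_cast at hn; linarith)
      have h6 := hone _ h5 (by push_cast at hn; intro h7; omega)
      have e : -(b : ℤ) + ((n + 1 : ℕ) : ℤ) = -(b : ℤ) + n + 1 := by push_cast; ring
      rw [e]
      exact h6
  have hsub : Finset.Icc (-(b : ℤ)) a ⊆ D := by
    intro z hz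
    rw [mem_Icc] at hz
    have h5 := hMax _ hDa
    have h6 := hall (z + b).toNat (by omega)
    rw [Int.toNat_of_nonneg (by omega)] at h6
    have e : -(b : ℤ) + (z + b) = z := by ring
    rwa [e] at h6
  have h7 := card_le_card hsub
  rw [Int.card_Icc] at h7
  omega

theorem NAP_holds : S_NAP := by
  intro X D a b ha hb hab h0 hDa hDb hcard hX
  obtain ⟨x1, hx1, hmin1⟩ := exists_min_image X (fun x => x) (card_pos.1 (by omega))
  have hX1 : (X.erase x1).card = X.card - 1 := card_erase_of_mem hx1
  obtain ⟨x2, hx2, hmin2⟩ := exists_min_image (X.erase x1) (fun x => x) (card_pos.1 (by omega))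
  have hX2 : ((X.erase x1).erase x2).card = X.card - 2 := by
    rw [card_erase_of_mem hx2, hX1]
    omega
  rw [mem_erase] at hx2
  have hlt : x1 < x2 := lt_of_le_of_ne (hmin1 x2 hx2.2) (Ne.symm hx2.1)
  obtain ⟨M, hM, hMax⟩ := exists_max_image D (fun d => d) ⟨0, h0⟩
  have hends := NAP_ends D a b hab h0 hDa hDb hcard (x2 - x1) (by linarith)
  set E := D.filter (fun d => d + (x2 - x1) ∉ D) with hE
  set S1 := D.image (fun d => x1 + d) with hS1
  set S2 := E.image (fun d => x2 + d) with hS2
  set S3 := ((X.erase x1).erase x2).image (fun x => x + M) with hS3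
  have hc1 : S1.card = D.card := card_image_of_injective _ (add_right_injective x1)
  have hc2 : S2.card = E.card := card_image_of_injective _ (add_right_injective x2)
  have hc3 : S3.card = X.card - 2 := by
    rw [hS3, card_image_of_injective _ (add_left_injective M), hX2]
  have hd12 : Disjoint S1 S2 := by
    rw [Finset.disjoint_left]
    intro z hz1 hz2
    rw [hS1, mem_image] at hz1
    rw [hS2, mem_image] at hz2
    obtain ⟨d, hd, rfl⟩ := hz1
    obtain ⟨d', hd', h⟩ := hz2
    rw [hE, mem_filter] at hd'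
    apply hd'.2
    have e : d' + (x2 - x1) = d := by linarith
    rw [e]
    exact hd
  have hle : ∀ z ∈ S1 ∪ S2, z ≤ x2 + M := by
    intro z hz
    rw [mem_union] at hz
    rcases hz with hz | hz
    · rw [hS1, mem_image] at hz
      obtain ⟨d, hd, rfl⟩ := hz
      have := hMax d hd
      linarith
    · rw [hS2, mem_image] at hz
      obtain ⟨d, hd, rfl⟩ := hz
      rw [hE, mem_filter] at hd
      have := hMax d hd.1
      linarith
  have hd3 : Disjoint (S1 ∪ S2) S3 := by
    rw [Finset.disjoint_left]
    intro z hz hz3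
    have h1 := hle z hz
    rw [hS3, mem_image] at hz3
    obtain ⟨x, hx, rfl⟩ := hz3
    rw [mem_erase] at hx
    have h2 := hmin2 x hx.2
    have h3 : x2 < x := lt_of_le_of_ne h2 (Ne.symm hx.1)
    linarith
  have hsub : (S1 ∪ S2) ∪ S3 ⊆ X + D := by
    intro z hz
    rw [mem_union, mem_union] at hz
    rcases hz with (hz | hz) | hz
    · rw [hS1, mem_image] at hz
      obtain ⟨d, hd, rfl⟩ := hz
      exact add_mem_add hx1 hd
    · rw [hS2, mem_image] at hz
      obtain ⟨d, hd, rfl⟩ := hz
      rw [hE, mem_filter] at hd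
      exact add_mem_add hx2.2 hd.1
    · rw [hS3, mem_image] at hz
      obtain ⟨x, hx, rfl⟩ := hz
      rw [mem_erase, mem_erase] at hx
      exact add_mem_add hx.2.2 hM
  have h1 := card_le_card hsub
  rw [card_union_of_disjoint hd3, card_union_of_disjoint hd12, hc1, hc2, hc3] at h1
  omega

end Pool.Agent.Lib.MP_8b7544_co.Hv
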