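import Pool.Agent.Lib.MP_8b7544_co.Hv.Stm3

set_option autoImplicit false

namespace Pool.Agent.Lib.MP_8b7544_co.Hv

open Finset

/-- How `psi` changes when one vertex is added. -/
theorem psi_insert {V : Type} [DecidableEq V] (par : V → V) (v : V) (S : Finset V) (δ : V → ℤ)
    (w : V) (y : ℤ) (hv : v ∈ S) (hpar : ∀ x ∈ S, x ≠ v → par x ∈ S) (hw : w ∉ S)
    (hpw : par w ∈ S) (t : ℤ) :
    psi par v (insert w S) (Function.update δ w y) t =
      psi par v S δ t + (if y ≤ t then 1 else 0) - (if y + δ (par w) ≤ t then 1 else 0) := by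
  have hwv : w ≠ v := fun h => hw (h ▸ hv)
  have hpw' : par w ≠ w := fun h => hw (h ▸ hpw)
  have h1 : (insert w S).filter (fun x => Function.update δ w y x ≤ t) =
      if y ≤ t then insert w (S.filter (fun x => δ x ≤ t)) else S.filter (fun x => δ x ≤ t) := by
    rw [filter_insert]
    have : S.filter (fun x => Function.update δ w y x ≤ t) = S.filter (fun x => δ x ≤ t) := by
      apply filter_congr
      intro x hx
      have hxw : x ≠ w := fun h => hw (h ▸ hx)
      rw [Function.update_of_ne hxw]
    rw [this]
    simp [Function.update_self]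
  have h2 : ((insert w S).erase v).filter
      (fun x => Function.update δ w y x + Function.update δ w y (par x) ≤ t) =
      if y + δ (par w) ≤ t then
        insert w ((S.erase v).filter (fun x => δ x + δ (par x) ≤ t))
      else (S.erase v).filter (fun x => δ x + δ (par x) ≤ t) := by
    rw [erase_insert_of_ne hwv, filter_insert]
    have : (S.erase v).filter
        (fun x => Function.update δ w y x + Function.update δ w y (par x) ≤ t) =
        (S.erase v).filter (fun x => δ x + δ (par x) ≤ t) := by
      apply filter_congr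
      intro x hx
      rw [mem_erase] at hx
      have hxw : x ≠ w := fun h => hw (h ▸ hx.2)
      have hxw' : par x ≠ w := fun h => hw (h ▸ hpar x hx.2 hx.1)
      rw [Function.update_of_ne hxw, Function.update_of_ne hxw']
    rw [this]
    simp [Function.update_self, Function.update_of_ne hpw']
  unfold psi
  rw [h1, h2]
  have h3 : w ∉ S.filter (fun x => δ x ≤ t) := fun h => hw (mem_filter.1 h).1
  have h4 : w ∉ (S.erase v).filter (fun x => δ x + δ (par x) ≤ t) :=
    fun h => hw (mem_erase.1 (mem_filter.1 h).1).2
  split_ifs <;> (try rw [card_insert_of_notMem h3]) <;> (try rw [card_insert_of_notMem h4]) <;>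
    push_cast <;> ring

/-- Criterion for `Good` after adding one vertex. -/
theorem Good.insert {V : Type} [DecidableEq V] {par : V → V} {v : V} {S : Finset V} {δ : V → ℤ}
    {w : V} {y : ℤ} (hG : Good par v S δ) (hw : w ∉ S) (hpw : par w ∈ S)
    (hy : ∀ x ∈ S, δ x ≠ y) (he : ∀ x ∈ S, x ≠ v → δ x + δ (par x) ≠ y + δ (par w))
    (hpsi : ∀ t, psi par v S δ t + (if y ≤ t then 1 else 0) -
        (if y + δ (par w) ≤ t then 1 else 0) = 0 ∨
      psi par v S δ t + (if y ≤ t then 1 else 0) - (if y + δ (par w) ≤ t then 1 else 0) = 1)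
    (hA : ∀ x ∈ S, psi par v S δ (δ x) + (if y ≤ δ x then 1 else 0) -
      (if y + δ (par w) ≤ δ x then 1 else 0) = 1)
    (hAy : psi par v S δ y + 1 - (if y + δ (par w) ≤ y then 1 else 0) = 1) :
    Good par v (Insert.insert w S) (Function.update δ w y) := by
  obtain ⟨hv, hpar, hi, hj, hp, ha⟩ := hG
  have hwv : w ≠ v := fun h => hw (h ▸ hv)
  have hpw' : par w ≠ w := fun h => hw (h ▸ hpw)
  have hu : ∀ x ∈ S, Function.update δ w y x = δ x := by
    intro x hx
    have hxw : x ≠ w := fun h => hw (h ▸ hx)
    exact Function.update_of_ne hxw _ _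
  refine ⟨mem_insert_of_mem hv, ?_, ?_, ?_, ?_, ?_⟩
  · intro x hx hxv
    rcases mem_insert.1 hx with rfl | hx
    · exact mem_insert_of_mem hpw
    · exact mem_insert_of_mem (hpar x hx hxv)
  · intro a ha' b hb hab
    simp only [coe_insert, Set.mem_insert_iff, mem_coe] at ha' hb
    rcases ha' with rfl | ha' <;> rcases hb with rfl | hb
    · rfl
    · exfalso
      rw [Function.update_self, hu b hb] at hab
      exact hy b hb hab.symm
    · exfalso
      rw [Function.update_self, hu a ha'] at hab
      exact hy a ha' hab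
    · rw [hu a ha', hu b hb] at hab
      exact hi ha' hb hab
  · intro a ha' b hb hab
    simp only [coe_erase, coe_insert, Set.mem_sdiff, Set.mem_insert_iff, mem_coe,
      Set.mem_singleton_iff] at ha' hb
    simp only at hab
    have hu2 : ∀ x ∈ S, x ≠ v → Function.update δ w y (par x) = δ (par x) := fun x hx hxv =>
      hu _ (hpar x hx hxv)
    obtain ⟨ha1, ha2⟩ := ha'
    obtain ⟨hb1, hb2⟩ := hb
    rcases ha1 with rfl | ha1 <;> rcases hb1 with rfl | hb1
    · rfl
    · exfalso
      rw [Function.update_self, hu b hb1, hu _ hpw, hu2 b hb1 hb2] at hab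
      exact he b hb1 hb2 hab.symm
    · exfalso
      rw [Function.update_self, hu a ha1, hu _ hpw, hu2 a ha1 ha2] at hab
      exact he a ha1 ha2 hab
    · rw [hu a ha1, hu b hb1, hu2 a ha1 ha2, hu2 b hb1 hb2] at hab
      exact hj (by simp [ha1, ha2]) (by simp [hb1, hb2]) hab
  · intro t
    rw [psi_insert par v S δ w y hv hpar hw hpw]
    exact hpsi t
  · intro x hx
    rcases mem_insert.1 hx with rfl | hx
    · rw [Function.update_self, psi_insert par v S δ x y hv hpar hw hpw]
      simpa using hAy
    · rw [hu x hx, psi_insert par v S δ w y hv hpar hw hpw]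
      exact hA x hx

/-- The one point labelling. -/
theorem good_singleton {V : Type} [DecidableEq V] (par : V → V) (v : V) (δ : V → ℤ) :
    Good par v {v} δ := by
  refine ⟨mem_singleton_self v, ?_, ?_, ?_, ?_, ?_⟩
  · intro x hx hxv
    exact absurd (mem_singleton.1 hx) hxv
  · simp
  · simp
  · intro t
    unfold psi
    by_cases h : δ v ≤ t <;> simp [filter_singleton, h]
  · intro x hx
    rw [mem_singleton.1 hx]
    unfold psi
    simp [filter_singleton]

/-- `psi` does not depend on the values of `δ` outside `S` (for parent closed `S`). -/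
theorem psi_congr {V : Type} [DecidableEq V] (par : V → V) (v : V) (S : Finset V) (δ δ' : V → ℤ)
    (hpar : ∀ x ∈ S, x ≠ v → par x ∈ S) (h : ∀ x ∈ S, δ x = δ' x) (t : ℤ) :
    psi par v S δ t = psi par v S δ' t := by
  have h1 : S.filter (fun w => δ w ≤ t) = S.filter (fun w => δ' w ≤ t) :=
    filter_congr (fun x hx => by rw [h x hx])
  have h2 : (S.erase v).filter (fun w => δ w + δ (par w) ≤ t) =
      (S.erase v).filter (fun w => δ' w + δ' (par w) ≤ t) :=
    filter_congr (fun x hx => by
      rw [mem_erase] at hx
      rw [h x hx.2, h _ (hpar x hx.2 hx.1)])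
  unfold psi
  rw [h1, h2]

end Pool.Agent.Lib.MP_8b7544_co.Hv
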