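import Pool.Agent.Lib.MP_8b7544_co.Hv.Stm3
import Pool.Agent.Lib.MP_8b7544_co.Hv.Ins

set_option autoImplicit false

namespace Pool.Agent.Lib.MP_8b7544_co.Hv

open Finset

private theorem odd_dep_unique {V : Type} {par : V → V} {v : V} :
    ∀ (m m' : ℕ) (y : V), Dep par v m y → Dep par v m' y → m = m'
  | 0, 0, _, _, _ => rfl
  | 0, _ + 1, _, h, h' => (h'.1 h).elim
  | _ + 1, 0, _, h, h' => (h.1 h').elim
  | m + 1, m' + 1, y, h, h' => by rw [odd_dep_unique m m' (par y) h.2 h'.2]

private theorem odd_dep_iter {V : Type} {par : V → V} {v : V} :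
    ∀ (k m : ℕ) (y : V), k ≤ m → Dep par v m y → Dep par v (m - k) (par^[k] y)
  | 0, _, _, _, h => h
  | k + 1, 0, _, hk, _ => by omega
  | k + 1, m + 1, y, hk, h => by
    rw [Function.iterate_succ_apply, Nat.add_sub_add_right]
    exact odd_dep_iter k m (par y) (by omega) h.2

theorem ODD_holds (hCHN : S_CHN) : S_ODD := by
  intro V _ par v u n hn hdep
  obtain ⟨huv, hwv, hx⟩ : u ≠ v ∧ par u ≠ v ∧ Dep par v n (par (par u)) := hdep
  have hdu : Dep par v (n + 2) u := ⟨huv, hwv, hx⟩
  have hdw : Dep par v (n + 1) (par u) := ⟨hwv, hx⟩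
  generalize hw : par u = w at *
  generalize hxx : par w = x at *
  obtain ⟨S, δ, hG, hxS, hSk, hδv, -, h5, hpos, -, hbig⟩ := hCHN V par v n x hx
  have hg : 0 < δ x := hpos hn
  have hn0 : 0 < n := hn.pos
  have hxv : x ≠ v := by
    intro e
    have h1 : Dep par v 0 x := e
    have := odd_dep_unique _ _ _ h1 hx
    omega
  obtain ⟨hv, hpar, hi, hj, hp, ha⟩ := hG
  have hdS : ∀ y ∈ S, ∃ m, m ≤ n ∧ Dep par v m y := by
    intro y hy
    obtain ⟨k, hk, rfl⟩ := hSk y hy
    exact ⟨n - k, by omega, odd_dep_iter k n x hk hx⟩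
  have hwS : w ∉ S := by
    intro h
    obtain ⟨m, hm, hm'⟩ := hdS w h
    have := odd_dep_unique _ _ _ hm' hdw
    omega
  have huS : u ∉ S := by
    intro h
    obtain ⟨m, hm, hm'⟩ := hdS u h
    have := odd_dep_unique _ _ _ hm' hdu
    omega
  have huw : u ≠ w := by
    intro h
    have h1 : Dep par v (n + 1) u := by rw [h]; exact hdw
    have := odd_dep_unique _ _ _ h1 hdu
    omega
  have hpxx : par x ≠ x := by
    intro h
    obtain ⟨k, rfl⟩ : ∃ k, n = k + 1 := ⟨n - 1, by omega⟩
    have h1 : Dep par v k (par x) := hx.2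
    rw [h] at h1
    have := odd_dep_unique _ _ _ h1 hx
    omega
  have hgS : 5 ≤ δ x := by
    have := (h5 x hxS hxv).1
    rwa [abs_of_pos hg] at this
  have hbig' := hbig hn0
  rw [abs_of_pos hg] at hbig'
  -- old offsets
  have hold : ∀ y ∈ S, 1 - δ x < δ y ∧ δ y ≠ 1 ∧ (δ y ≤ 1 → δ y ≤ 0) := by
    intro y hy
    by_cases hyv : y = v
    · rw [hyv, hδv]
      exact ⟨by omega, by omega, fun _ => le_refl _⟩
    · have h1 := (h5 y hy hyv).1
      by_cases hyx : y = x
      · rw [hyx]
        exact ⟨by omega, by omega, by omega⟩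
      · have h2 := (hbig' y hy).1 hyx
        rcases abs_cases (δ y) with ⟨h3, _⟩ | ⟨h3, _⟩ <;> rw [h3] at h1 h2 <;>
          exact ⟨by omega, by omega, by omega⟩
  have holde : ∀ y ∈ S, y ≠ v → 2 - δ x < δ y + δ (par y) ∧ δ y + δ (par y) ≠ 1 ∧
      (δ y + δ (par y) ≤ 1 → δ y + δ (par y) ≤ 0) := by
    intro y hy hyv
    have h1 := (h5 y hy hyv).2
    by_cases hyx : y = x
    · have h2 : 5 ≤ δ x + δ (par x) := by
        by_cases hpv : par x = v
        · rw [hpv, hδv]
          omega
        · have h3 := (hbig' (par x) (hpar x hxS hxv)).1 hpxx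
          have h4 := neg_abs_le (δ (par x))
          omega
      rw [hyx]
      exact ⟨by omega, by omega, by omega⟩
    · have h2 := (hbig' y hy).2 hyv hyx
      rcases abs_cases (δ y + δ (par y)) with ⟨h3, _⟩ | ⟨h3, _⟩ <;> rw [h3] at h1 h2 <;>
        exact ⟨by omega, by omega, by omega⟩
  -- values of psi
  have hpsi1 : psi par v S δ (1 - δ x) = 0 := by
    unfold psi
    rw [filter_false_of_mem (fun y hy => by have := hold y hy; omega),
      filter_false_of_mem (fun y hy => by
        have := holde y (mem_of_mem_erase hy) (ne_of_mem_erase hy); omega)]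
    simp
  have hpsi2 : psi par v S δ 1 = 1 := by
    have h0 : psi par v S δ 0 = 1 := by rw [← hδv]; exact ha v hv
    refine Eq.trans ?_ h0
    unfold psi
    have e1 : S.filter (fun y => δ y ≤ 1) = S.filter (fun y => δ y ≤ 0) :=
      filter_congr fun y hy => ⟨(hold y hy).2.2, fun h => by omega⟩
    have e2 : (S.erase v).filter (fun y => δ y + δ (par y) ≤ 1) =
        (S.erase v).filter (fun y => δ y + δ (par y) ≤ 0) :=
      filter_congr fun y hy => ⟨(holde y (mem_of_mem_erase hy) (ne_of_mem_erase hy)).2.2,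
        fun h => by omega⟩
    rw [e1, e2]
  -- the new labelling
  have hparS1 : ∀ y ∈ insert w S, y ≠ v → par y ∈ insert w S := by
    intro y hy hyv
    rcases mem_insert.1 hy with rfl | hy
    · rw [hxx]; exact mem_insert_of_mem hxS
    · exact mem_insert_of_mem (hpar y hy hyv)
  have huS1 : u ∉ insert w S := by
    rw [mem_insert]
    rintro (h | h)
    · exact huw h
    · exact huS h
  set δ1 : V → ℤ := Function.update δ w (1 - δ x) with hδ1
  have hpsi : ∀ t, psi par v (insert u (insert w S)) (Function.update δ1 u 1) t =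
      psi par v S δ t + (if t = 1 - δ x then 1 else 0) := by
    intro t
    rw [psi_insert par v (insert w S) δ1 u 1 (mem_insert_of_mem hv) hparS1 huS1
      (by rw [hw]; exact mem_insert_self _ _) t,
      psi_insert par v S δ w (1 - δ x) hv hpar hwS (by rw [hxx]; exact hxS) t, hw, hxx]
    have e1 : δ1 w = 1 - δ x := Function.update_self _ _ _
    rw [e1]
    split_ifs <;> omega
  set δ2 : V → ℤ := Function.update δ1 u 1 with hδ2
  have v0 : ∀ y ∈ S, δ2 y = δ y := by
    intro y hy
    have h1 : y ≠ u := fun h => huS (h ▸ hy)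
    have h2 : y ≠ w := fun h => hwS (h ▸ hy)
    rw [hδ2, Function.update_of_ne h1, hδ1, Function.update_of_ne h2]
  have vw : δ2 w = 1 - δ x := by
    rw [hδ2, Function.update_of_ne huw.symm, hδ1, Function.update_self]
  have vu : δ2 u = 1 := Function.update_self _ _ _
  refine ⟨insert u (insert w S), δ2, ⟨?_, ?_, ?_, ?_, ?_, ?_⟩, mem_insert_self _ _,
    by rw [v0 v hv]; exact hδv, vu⟩
  · exact mem_insert_of_mem (mem_insert_of_mem hv)
  · intro y hy hyv
    rcases mem_insert.1 hy with rfl | hy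
    · rw [hw]; exact mem_insert_of_mem (mem_insert_self _ _)
    · exact mem_insert_of_mem (hparS1 y hy hyv)
  · intro a ha' b hb' hab
    simp only [coe_insert, Set.mem_insert_iff, mem_coe] at ha' hb'
    rcases ha' with rfl | rfl | h1 <;> rcases hb' with rfl | rfl | h2
    · rfl
    · rw [vu, vw] at hab; omega
    · rw [vu, v0 b h2] at hab; exact ((hold b h2).2.1 hab.symm).elim
    · rw [vu, vw] at hab; omega
    · rfl
    · rw [vw, v0 b h2] at hab; have := (hold b h2).1; omega
    · rw [vu, v0 a h1] at hab; exact ((hold a h1).2.1 hab).elim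
    · rw [vw, v0 a h1] at hab; have := (hold a h1).1; omega
    · rw [v0 a h1, v0 b h2] at hab; exact hi h1 h2 hab
  · have ew : δ2 w + δ2 (par w) = 1 := by rw [hxx, vw, v0 x hxS]; ring
    have eu : δ2 u + δ2 (par u) = 2 - δ x := by rw [hw, vw, vu]; ring
    have eo : ∀ y ∈ S, y ≠ v → δ2 y + δ2 (par y) = δ y + δ (par y) := fun y hy hyv => by
      rw [v0 y hy, v0 _ (hpar y hy hyv)]
    intro a ha' b hb' hab
    simp only [coe_erase, coe_insert, Set.mem_sdiff, Set.mem_insert_iff, mem_coe,
      Set.mem_singleton_iff] at ha' hb'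
    obtain ⟨ha1, ha2⟩ := ha'
    obtain ⟨hb1, hb2⟩ := hb'
    simp only at hab
    rcases ha1 with rfl | rfl | h1 <;> rcases hb1 with rfl | rfl | h2
    · rfl
    · rw [eu, ew] at hab; omega
    · rw [eu, eo b h2 hb2] at hab; have := (holde b h2 hb2).1; omega
    · rw [eu, ew] at hab; omega
    · rfl
    · rw [ew, eo b h2 hb2] at hab; exact ((holde b h2 hb2).2.1 hab.symm).elim
    · rw [eu, eo a h1 ha2] at hab; have := (holde a h1 ha2).1; omega
    · rw [ew, eo a h1 ha2] at hab; exact ((holde a h1 ha2).2.1 hab).elim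
    · rw [eo a h1 ha2, eo b h2 hb2] at hab
      exact hj (by simp [h1, ha2]) (by simp [h2, hb2]) hab
  · intro t
    rw [hpsi]
    by_cases ht : t = 1 - δ x
    · rw [if_pos ht, ht, hpsi1]
      exact Or.inr rfl
    · rw [if_neg ht, add_zero]
      exact hp t
  · intro y hy
    rw [hpsi]
    rcases mem_insert.1 hy with rfl | hy
    · rw [vu, hpsi2, if_neg (by omega)]
      rfl
    · rcases mem_insert.1 hy with rfl | hy
      · rw [vw, if_pos rfl, hpsi1]
        rfl
      · rw [v0 y hy, ha y hy, if_neg (by have := (hold y hy).1; omega)]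
        rfl

end Pool.Agent.Lib.MP_8b7544_co.Hv
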