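/-
MP_8b7544_co, [ONE] (helper28).
-/
import Pool.Agent.Lib.MP_8b7544_co.Hv.Stm3
import Pool.Agent.Lib.MP_8b7544_co.Hv.Ins

set_option autoImplicit false

namespace Pool.Agent.Lib.MP_8b7544_co.Hv

open Finset

theorem ONE_holds : S_ONE := by
  intro V _ par v u hD
  obtain ⟨huv, hpu⟩ := hD
  have hpu : par u = v := hpu
  have h0 : Good par v {v} (fun _ : V => (0 : ℤ)) := good_singleton par v _
  have hpsi1 : psi par v {v} (fun _ : V => (0 : ℤ)) 1 = 1 := by
    unfold psi
    simp
  have hw : u ∉ ({v} : Finset V) := by simpa using huv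
  have hpw : par u ∈ ({v} : Finset V) := by simp [hpu]
  refine ⟨insert u {v}, Function.update (fun _ : V => (0 : ℤ)) u 1, ?_, mem_insert_self _ _, ?_, ?_⟩
  · refine Good.insert h0 hw hpw (fun x _ => by norm_num) ?_ ?_ ?_ ?_
    · intro x hx hxv
      exact absurd (mem_singleton.1 hx) hxv
    · intro t
      have h := h0.2.2.2.2.1 t
      simpa using h
    · intro x hx
      have h := h0.2.2.2.2.2 x hx
      simpa using h
    · rw [hpsi1]
      simp
  · exact Function.update_of_ne (Ne.symm huv) _ _
  · exact Function.update_self _ _ _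

end Pool.Agent.Lib.MP_8b7544_co.Hv
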