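import Pool.Agent.Lib.MP_8b7544_co.Hv.Stm3

set_option autoImplicit false

namespace Pool.Agent.Lib.MP_8b7544_co.Hv

open Finset

private theorem p3_ncard_le {S : Set ℤ} {a b : ℤ} {k : ℕ} (h : ∀ x ∈ S, a ≤ x ∧ x < b)
    (hk : b ≤ a + k) : S.ncard ≤ k := by
  have h1 : S ⊆ ((Finset.Ico a b : Finset ℤ) : Set ℤ) := by
    intro x hx
    rw [Finset.coe_Ico]
    exact h x hx
  have h2 := Set.ncard_le_ncard h1 (Finset.finite_toSet _)
  rw [Set.ncard_coe_finset, Int.card_Ico] at h2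
  omega

theorem P3_holds : S_P3 := by
  intro G m h01 h12
  have hP : PP m = (m 0 : ℤ) + m 1 + m 2 + 2 := by
    simp only [PP, Fin.sum_univ_three, Fintype.card_fin]
    push_cast
    ring
  have hN : (0 : ℤ) ≤ m 0 := Int.natCast_nonneg _
  have hq : (0 : ℤ) ≤ m 1 := Int.natCast_nonneg _
  have hn : (0 : ℤ) ≤ m 2 := Int.natCast_nonneg _
  unfold Lab
  rw [hP]
  refine ⟨![(m 1 : ℤ) + 2, -(m 0 : ℤ), 1], (m 0 : ℤ) + m 2, fun x => if x < m 2 then x + 1 else
    if x ≤ (m 2 : ℤ) + m 0 then x + m 1 + 2 else x - m 0, ?_, ?_, ?_⟩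
  · intro y h1 h2
    simp only [Fin.forall_fin_succ, Fin.exists_fin_succ, Matrix.cons_val_zero,
      Matrix.cons_val_succ, Matrix.cons_val_fin_one, Fin.succ_zero_eq_one, Fin.succ_one_eq_two,
      IsEmpty.forall_iff, and_true, IsEmpty.exists_iff, or_false]
    by_cases c1 : y ≤ m 2
    · right
      refine ⟨y - 1, by omega, by omega, ⟨by omega, by omega, by omega⟩, ?_⟩
      rw [if_pos (by omega)]
      ring
    by_cases c2 : y = (m 2 : ℤ) + 1
    · left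
      right; left; right; right
      exact ⟨h12, by rw [c2]; ring⟩
    by_cases c3 : y ≤ (m 2 : ℤ) + m 1 + 1
    · right
      refine ⟨y + m 0, by omega, by omega, ⟨by omega, by omega, by omega⟩, ?_⟩
      rw [if_neg (by omega), if_neg (by omega)]
      ring
    by_cases c4 : y = (m 2 : ℤ) + m 1 + 2
    · left
      left; right; left
      exact ⟨h01, by rw [c4]; ring⟩
    right
    refine ⟨y - m 1 - 2, by omega, by omega, ⟨by omega, by omega, by omega⟩, ?_⟩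
    rw [if_neg (by omega), if_pos (by omega)]
    ring
  · intro x h1 h2 _
    by_cases c1 : x < m 2
    · exact ⟨2, by simp [c1]⟩
    by_cases c2 : x ≤ (m 2 : ℤ) + m 0
    · exact ⟨0, by simp only [c1, c2, if_false, if_true, Matrix.cons_val_zero]; ring⟩
    · exact ⟨1, by simp [c1, c2, sub_eq_add_neg]⟩
  · intro w
    have key : ∀ x : ℤ, (∀ w', x ≠ (m 0 : ℤ) + m 2 + (![(m 1 : ℤ) + 2, -(m 0 : ℤ), 1] : Fin 3 → ℤ) w') →
        x ≠ (m 0 : ℤ) + m 2 + (m 1 + 2) ∧ x ≠ m 2 ∧ x ≠ (m 0 : ℤ) + m 2 + 1 := by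
      intro x hx
      refine ⟨by simpa using hx 0, fun h => hx 1 ?_, by simpa using hx 2⟩
      simp [h]
    fin_cases w
    · refine p3_ncard_le (a := (m 2 : ℤ) + 1) (b := (m 2 : ℤ) + m 0 + 1) ?_ (show (m 2 : ℤ) + m 0 + 1 ≤ (m 2 : ℤ) + 1 + m 0 by omega)
      rintro x ⟨g1, g2, g3, g4⟩
      have g5 := key x g3
      have g4 : (if x < m 2 then x + 1 else
        if x ≤ (m 2 : ℤ) + m 0 then x + m 1 + 2 else x - m 0) = x + ((m 1 : ℤ) + 2) := g4
      split_ifs at g4 <;> omega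
    · refine p3_ncard_le (a := (m 2 : ℤ) + m 0 + 2) (b := (m 2 : ℤ) + m 0 + m 1 + 2) ?_ (show (m 2 : ℤ) + m 0 + m 1 + 2 ≤ (m 2 : ℤ) + m 0 + 2 + m 1 by omega)
      rintro x ⟨g1, g2, g3, g4⟩
      have g5 := key x g3
      have g4 : (if x < m 2 then x + 1 else
        if x ≤ (m 2 : ℤ) + m 0 then x + m 1 + 2 else x - m 0) = x + -(m 0 : ℤ) := g4
      split_ifs at g4 <;> omega
    · refine p3_ncard_le (a := 0) (b := (m 2 : ℤ)) ?_ (show (m 2 : ℤ) ≤ 0 + m 2 by omega)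
      rintro x ⟨g1, g2, g3, g4⟩
      have g5 := key x g3
      have g4 : (if x < m 2 then x + 1 else
        if x ≤ (m 2 : ℤ) + m 0 then x + m 1 + 2 else x - m 0) = x + 1 := g4
      split_ifs at g4 <;> omega

end Pool.Agent.Lib.MP_8b7544_co.Hv
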