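import Pool.Agent.Lib.MP_8b7544_co.Hv.Stm3

set_option autoImplicit false

namespace Pool.Agent.Lib.MP_8b7544_co.Hv

open Finset

private theorem p5_card (s : Set ℤ) (a b : ℤ) (k : ℕ) (h : ∀ x ∈ s, a ≤ x ∧ x < b)
    (hk : b - a ≤ k) : s.ncard ≤ k := by
  have h1 : s ⊆ ((Finset.Ico a b : Finset ℤ) : Set ℤ) := by
    intro x hx
    rw [Finset.mem_coe, Finset.mem_Ico]
    exact h x hx
  have h2 := Set.ncard_le_ncard h1 (Finset.finite_toSet _)
  rw [Set.ncard_coe_finset, Int.card_Ico] at h2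
  omega

theorem P5_holds : S_P5 := by
  intro G m h01 h12 h23 h34 hm1 hm2 hm3
  have hPP : PP m = m 0 + m 4 + 4 := by
    unfold PP
    rw [Fin.sum_univ_five, hm1, hm2, hm3]
    simp
    ring
  let δ : Fin 5 → ℤ := ![3, -(m 0 : ℤ), 2, -(m 0 : ℤ) - 1, 1]
  have d0 : δ 0 = 3 := rfl
  have d1 : δ 1 = -(m 0 : ℤ) := rfl
  have d2 : δ 2 = 2 := rfl
  have d3 : δ 3 = -(m 0 : ℤ) - 1 := rfl
  have d4 : δ 4 = 1 := rfl
  let κ : ℤ := m 0 + m 4 + 1
  let f : ℤ → ℤ := fun x => if x < m 4 then x + 1 else x + 3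
  have hfree : ∀ x : ℤ, (∀ w, x ≠ κ + δ w) ↔ x ≠ m 0 + m 4 + 4 ∧ x ≠ m 4 + 1 ∧
      x ≠ m 0 + m 4 + 3 ∧ x ≠ m 4 ∧ x ≠ m 0 + m 4 + 2 := by
    intro x
    constructor
    · intro h
      have h0 := h 0
      have h1 := h 1
      have h2 := h 2
      have h3 := h 3
      have h4 := h 4
      rw [d0] at h0
      rw [d1] at h1
      rw [d2] at h2
      rw [d3] at h3
      rw [d4] at h4
      simp only [κ] at h0 h1 h2 h3 h4
      refine ⟨?_, ?_, ?_, ?_, ?_⟩ <;> omega
    · rintro ⟨h0, h1, h2, h3, h4⟩ w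
      have hw : δ w = 3 ∨ δ w = -(m 0 : ℤ) ∨ δ w = 2 ∨ δ w = -(m 0 : ℤ) - 1 ∨ δ w = 1 := by
        fin_cases w
        · exact Or.inl rfl
        · exact Or.inr (Or.inl rfl)
        · exact Or.inr (Or.inr (Or.inl rfl))
        · exact Or.inr (Or.inr (Or.inr (Or.inl rfl)))
        · exact Or.inr (Or.inr (Or.inr (Or.inr rfl)))
      simp only [κ]
      rcases hw with h | h | h | h | h <;> rw [h] <;> omega
  have hf1 : ∀ x : ℤ, x < m 4 → f x = x + 1 := fun x hx => if_pos hx
  have hf2 : ∀ x : ℤ, ¬ x < m 4 → f x = x + 3 := fun x hx => if_neg hx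
  refine ⟨δ, κ, f, ?_, ?_, ?_⟩
  · intro y hy1 hy2
    rw [hPP] at hy2
    rw [hPP]
    by_cases hy3 : y ≤ m 4
    · right
      refine ⟨y - 1, by omega, by omega, ?_, ?_⟩
      · rw [hfree]
        refine ⟨?_, ?_, ?_, ?_, ?_⟩ <;> omega
      · rw [hf1 _ (by omega)]
        ring
    by_cases hy4 : (m 4 : ℤ) + 5 ≤ y
    · right
      refine ⟨y - 3, by omega, by omega, ?_, ?_⟩
      · rw [hfree]
        refine ⟨?_, ?_, ?_, ?_, ?_⟩ <;> omega
      · rw [hf2 _ (by omega)]
        ring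
    left
    have hy5 : y = m 4 + 1 ∨ y = m 4 + 2 ∨ y = m 4 + 3 ∨ y = m 4 + 4 := by omega
    rcases hy5 with h | h | h | h
    · refine ⟨3, 4, h34, ?_⟩
      rw [d3, d4, h]
      simp only [κ]
      ring
    · refine ⟨2, 3, h23, ?_⟩
      rw [d2, d3, h]
      simp only [κ]
      ring
    · refine ⟨1, 2, h12, ?_⟩
      rw [d1, d2, h]
      simp only [κ]
      ring
    · refine ⟨0, 1, h01, ?_⟩
      rw [d0, d1, h]
      simp only [κ]
      ring
  · intro x _ _ hx
    by_cases h : x < m 4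
    · exact ⟨4, by rw [hf1 _ h, d4]⟩
    · exact ⟨0, by rw [hf2 _ h, d0]⟩
  · intro w
    fin_cases w
    · apply p5_card _ (m 4 + 2) (m 0 + m 4 + 2)
      · rintro x ⟨hx1, hx2, hx3, hx4⟩
        rw [hPP] at hx2
        rw [hfree] at hx3
        have hx4 : f x = x + δ 0 := hx4
        rw [d0] at hx4
        by_cases h : x < m 4
        · rw [hf1 _ h] at hx4
          omega
        · omega
      · show (m 0 : ℤ) + m 4 + 2 - (m 4 + 2) ≤ m 0
        omega
    · apply p5_card _ 0 0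
      · rintro x ⟨hx1, hx2, hx3, hx4⟩
        exfalso
        have hx4 : f x = x + δ 1 := hx4
        rw [d1] at hx4
        by_cases h : x < m 4
        · rw [hf1 _ h] at hx4
          omega
        · rw [hf2 _ h] at hx4
          omega
      · omega
    · apply p5_card _ 0 0
      · rintro x ⟨hx1, hx2, hx3, hx4⟩
        exfalso
        have hx4 : f x = x + δ 2 := hx4
        rw [d2] at hx4
        by_cases h : x < m 4
        · rw [hf1 _ h] at hx4
          omega
        · rw [hf2 _ h] at hx4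
          omega
      · omega
    · apply p5_card _ 0 0
      · rintro x ⟨hx1, hx2, hx3, hx4⟩
        exfalso
        have hx4 : f x = x + δ 3 := hx4
        rw [d3] at hx4
        by_cases h : x < m 4
        · rw [hf1 _ h] at hx4
          omega
        · rw [hf2 _ h] at hx4
          omega
      · omega
    · apply p5_card _ 0 (m 4)
      · rintro x ⟨hx1, hx2, hx3, hx4⟩
        refine ⟨hx1, ?_⟩
        have hx4 : f x = x + δ 4 := hx4
        rw [d4] at hx4
        by_contra h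
        rw [hf2 _ h] at hx4
        omega
      · show (m 4 : ℤ) - 0 ≤ m 4
        omega

end Pool.Agent.Lib.MP_8b7544_co.Hv
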