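import Pool.Agent.Lib.MP_8b7544_co.Hv.Stm3

set_option autoImplicit false

namespace Pool.Agent.Lib.MP_8b7544_co.Hv

open Finset
open scoped Pointwise

private theorem red_gap (X : Finset ℤ) (m0 : ℤ) (hm : m0 ∈ X) (N g : ℕ) (hN : X.card ≤ N) :
    ∃ i : ℕ, i < N ∧ ∀ x ∈ X, x ≤ m0 + g * i ∨ m0 + g * (i + 1 : ℕ) < x := by
  by_contra hcon
  push Not at hcon
  have h1 : ∀ i : ℕ, ∃ x : ℤ, i < N → x ∈ X ∧ m0 + g * i < x ∧ x ≤ m0 + g * (i + 1 : ℕ) := by
    intro i
    by_cases hi : i < N
    · obtain ⟨x, hx, h2, h3⟩ := hcon i hi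
      exact ⟨x, fun _ => ⟨hx, h2, h3⟩⟩
    · exact ⟨0, fun h => absurd h hi⟩
  choose f hf using h1
  have h2 : (range N).card ≤ (X.erase m0).card := by
    refine Finset.card_le_card_of_injOn f ?_ ?_
    · intro i hi
      have hi' : i < N := by simpa using hi
      obtain ⟨e1, e2, e3⟩ := hf i hi'
      have : f i ≠ m0 := by
        intro h
        rw [h] at e2
        have : (0 : ℤ) ≤ g * i := by positivity
        linarith
      exact Finset.mem_coe.2 (mem_erase.2 ⟨this, e1⟩)
    · have key : ∀ i j : ℕ, i < N → j < N → i < j → f i < f j := by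
        intro i j hi hj hij
        obtain ⟨_, _, e3⟩ := hf i hi
        obtain ⟨_, e2, _⟩ := hf j hj
        have : (g : ℤ) * ((i + 1 : ℕ) : ℤ) ≤ g * (j : ℤ) := by
          have h4 : ((i + 1 : ℕ) : ℤ) ≤ (j : ℤ) := by exact_mod_cast hij
          exact mul_le_mul_of_nonneg_left h4 (by positivity)
        linarith
      intro i hi j hj hij
      have hi' : i < N := by simpa using hi
      have hj' : j < N := by simpa using hj
      rcases lt_trichotomy i j with h | h | h
      · exact absurd hij (key i j hi' hj' h).ne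
      · exact h
      · exact absurd hij (key j i hj' hi' h).ne'
  rw [card_range, card_erase_of_mem hm] at h2
  have h3 : 0 < X.card := card_pos.2 ⟨m0, hm⟩
  omega

theorem RED_holds (hLAN : S_LAN) : S_RED := by
  intro A B D a b K Dm ha hab h0 haD hbD hKb hBK hDm hsmall X
  -- strong induction
  induction hn : X.card using Nat.strong_induction_on generalizing X with
  | _ n ih =>
  intro hXA
  rcases X.eq_empty_or_nonempty with rfl | hX
  · simp at hn
    subst hn
    simp
  have hsub : X ⊆ X + D := by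
    intro x hx
    rw [← add_zero x]
    exact add_mem_add hx h0
  have hcard : ((X + D) \ X).card + X.card = (X + D).card := card_sdiff_add_card_eq_card hsub
  have hBc : (B ∩ (X + D)).card ≤ K := (card_le_card inter_subset_left).trans hBK
  rcases le_or_gt (X.card + K) (X + D).card with hbig | hbig
  · omega
  have hlt : ((X + D) \ X).card < K := by omega
  -- the lanes
  have hKK : X.card ≤ K * K := by
    refine hLAN X a b K ha hab hKb (lt_of_le_of_lt ?_ hlt) (lt_of_le_of_lt ?_ hlt)
    · refine Finset.card_le_card_of_injOn (fun x => x + (a : ℤ)) ?_ ?_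
      · intro x hx
        have hx' := mem_filter.1 (Finset.mem_coe.1 hx)
        exact Finset.mem_coe.2 (mem_sdiff.2 ⟨add_mem_add hx'.1 haD, hx'.2⟩)
      · intro x _ y _ h
        exact add_right_cancel h
    · refine Finset.card_le_card_of_injOn (fun x => x - (b : ℤ)) ?_ ?_
      · intro x hx
        have hx' := mem_filter.1 (Finset.mem_coe.1 hx)
        refine Finset.mem_coe.2 (mem_sdiff.2 ⟨?_, hx'.2⟩)
        change x - (b : ℤ) ∈ X + D
        rw [sub_eq_add_neg]
        exact add_mem_add hx'.1 hbD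
      · intro x _ y _ h
        exact sub_left_injective h
  by_cases hd : ∀ x ∈ X, ∀ y ∈ X, x - y ≤ 2 * Dm * (K * K)
  · have h := hsmall X hX hXA hd
    omega
  push Not at hd
  obtain ⟨x, hx, y, hy, hxy⟩ := hd
  obtain ⟨i, hi, hgap⟩ := red_gap X y hy (K * K) (2 * Dm) hKK
  set t : ℤ := y + ((2 * Dm : ℕ) : ℤ) * i with ht
  have ht0 : (0 : ℤ) ≤ ((2 * Dm : ℕ) : ℤ) * i := by positivity
  set X1 := X.filter (fun z => z ≤ t) with hX1
  set X2 := X.filter (fun z => ¬ z ≤ t) with hX2
  have hgap2 : ∀ z ∈ X2, t + 2 * Dm < z := by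
    intro z hz
    have hz' := mem_filter.1 hz
    rcases hgap z hz'.1 with h | h
    · exact absurd h hz'.2
    · push_cast at h
      rw [ht]
      push_cast
      linarith
  have hcX : X1.card + X2.card = X.card := card_filter_add_card_filter_not _
  have hy1 : y ∈ X1 := mem_filter.2 ⟨hy, by rw [ht]; linarith⟩
  have hx2 : x ∈ X2 := by
    refine mem_filter.2 ⟨hx, fun hxt => ?_⟩
    have h1 : ((2 * Dm : ℕ) : ℤ) * i ≤ ((2 * Dm : ℕ) : ℤ) * (K * K) := by
      have h4 : (i : ℤ) ≤ ((K * K : ℕ) : ℤ) := by exact_mod_cast hi.le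
      have h5 : ((K * K : ℕ) : ℤ) = K * K := by push_cast; ring
      rw [← h5]
      exact mul_le_mul_of_nonneg_left h4 (by positivity)
    push_cast at h1 hxt ht
    rw [ht] at hxt
    linarith
  have c1 : 0 < X1.card := card_pos.2 ⟨y, hy1⟩
  have c2 : 0 < X2.card := card_pos.2 ⟨x, hx2⟩
  have i1 := ih X1.card (by omega) X1 rfl (hXA.mono_left (filter_subset _ _))
  have i2 := ih X2.card (by omega) X2 rfl (hXA.mono_left (filter_subset _ _))
  have hun : X + D = (X1 + D) ∪ (X2 + D) := by
    rw [← union_add, filter_union_filter_not_eq]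
  have hdis : Disjoint (X1 + D) (X2 + D) := by
    rw [disjoint_left]
    intro z hz1 hz2
    obtain ⟨x1, hx1, d1, hd1, e1⟩ := mem_add.1 hz1
    obtain ⟨x2', hx2', d2, hd2, e2⟩ := mem_add.1 hz2
    have g1 := (mem_filter.1 hx1).2
    have g2 := hgap2 x2' hx2'
    have b1 := abs_le.1 (hDm d1 hd1)
    have b2 := abs_le.1 (hDm d2 hd2)
    linarith [b1.2, b2.1]
  have e1 : (X + D).card = (X1 + D).card + (X2 + D).card := by
    rw [hun, card_union_of_disjoint hdis]
  have e2 : (B ∩ (X + D)).card = (B ∩ (X1 + D)).card + (B ∩ (X2 + D)).card := by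
    rw [hun, inter_union_distrib_left, card_union_of_disjoint]
    exact hdis.mono inter_subset_right inter_subset_right
  omega

end Pool.Agent.Lib.MP_8b7544_co.Hv
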