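import Pool.Agent.Lib.MP_8b7544_co.Hv.Stm3
import Pool.Agent.Lib.MP_8b7544_co.Chain

set_option autoImplicit false

namespace Pool.Agent.Lib.MP_8b7544_co.Hv

open Finset

theorem ROL_holds (hDEL : S_DEL) (hCIM : S_CIM) (hCOR : S_COR) : S_ROL := by
  intro V _ _ G hG U v u x a β hv hu hx hvu hxv hxu hβ hβinj h2 h3 hcop ha hVa hVb
  classical
  obtain ⟨par, d, hpar, hpar2⟩ := exists_par G hG v
  obtain ⟨e, he⟩ : ∃ e : V → ℕ, Function.Injective e := by
    refine ⟨fun w => (Fintype.equivFin V w).val, ?_⟩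
    intro a b hab
    exact (Fintype.equivFin V).injective (Fin.ext hab)
  obtain ⟨Γ, hΓ⟩ : ∃ Γ : ℤ, Γ = 2 * a * (Fintype.card V * Fintype.card V : ℤ) + 6 * a + 1 :=
    ⟨_, rfl⟩
  obtain ⟨δ, hδ⟩ : ∃ δ : V → ℤ, δ = fun w => if w = v then 0 else if w = u then (a : ℤ) else
    if w ∈ U then -(β w : ℤ) else Γ * 4 ^ (e w) := ⟨_, rfl⟩
  have hδv : δ v = 0 := by rw [hδ]; simp
  have hδu : δ u = a := by rw [hδ]; simp [Ne.symm hvu]
  have hδw : ∀ w ∈ U, w ≠ v → w ≠ u → δ w = -(β w : ℤ) := by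
    intro w hw h1 h2
    rw [hδ]; simp [h1, h2, hw]
  have hδl : ∀ w, w ∉ U → δ w = Γ * 4 ^ (e w) := by
    intro w hw
    have h1 : w ≠ v := fun h => hw (h ▸ hv)
    have h2 : w ≠ u := fun h => hw (h ▸ hu)
    rw [hδ]; simp [h1, h2, hw]
  have hapos : (0 : ℤ) < a := by
    have : 0 < a := by omega
    exact_mod_cast this
  have hKK : (0 : ℤ) ≤ 2 * a * (Fintype.card V * Fintype.card V : ℤ) := by positivity
  have hparne : ∀ w, w ≠ v → par w ≠ w := by
    intro w hw h
    have := (hpar w hw).2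
    rw [h] at this
    omega
  obtain ⟨hinj, hinjOn⟩ := hDEL V v par U δ e a Γ v u β hv hu hvu hδv hδu (by omega)
    (fun w hw h1 h2 => ⟨hδw w hw h1 h2, (hβ w hw h1 h2).1, (hβ w hw h1 h2).2⟩) hδl he
    (by rw [hΓ]; linarith)
    hβinj h2 h3 hparne
    (by
      rintro w w' hw hw' _ ⟨h5, h6⟩
      have g1 := (hpar w hw).2
      have g2 := (hpar w' hw').2
      rw [← h5] at g2
      rw [h6] at g1
      omega)
  have hU3 : 3 ≤ U.card := by
    have hsub : ({v, u, x} : Finset V) ⊆ U := by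
      intro w hw
      simp only [mem_insert, mem_singleton] at hw
      rcases hw with rfl | rfl | rfl
      · exact hv
      · exact hu
      · exact hx
    have h4 := card_le_card hsub
    rw [card_insert_of_notMem (by simp [hvu, Ne.symm hxv]), card_pair (Ne.symm hxu)] at h4
    exact h4
  obtain ⟨hci1, hci2⟩ := hCIM V v par U δ e a (β x) Γ v u x hv hv hu hx hU3 hδv hδu
    (hδw x hx hxv hxu) hcop hVa hVb
    (by
      intro w hw hwu
      by_cases h : w = v
      · rw [h, hδv]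
        constructor <;> linarith
      · rw [hδw w hw h hwu]
        have := hβ w hw h hwu
        constructor <;> omega)
    hδl he (by rw [hΓ]; linarith) hinj hinjOn hparne
  obtain ⟨C, hC⟩ := hCOR V G v par U δ v u x a β (fun w hw => (hpar w hw).1) hinj hinjOn hv hu hx
    hvu hxv hxu hδv hδu (fun w hw h1 h2 => ⟨hδw w hw h1 h2, (hβ w hw h1 h2).1⟩) hcop ha hVa hVb
    hci1 hci2
  refine ⟨C, ?_⟩
  intro m hm0 hm hc1 hc2
  have hsum : ∑ w, (m w : ℤ) * δ w =
      (a : ℤ) * m u - ∑ w ∈ (U.erase v).erase u, (β w : ℤ) * m w := by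
    have h1 : ∑ w, (m w : ℤ) * δ w = ∑ w ∈ U, (m w : ℤ) * δ w :=
      (sum_subset (subset_univ U) (fun w _ hw => by simp [hm0 w hw])).symm
    rw [h1, ← add_sum_erase U _ hv, ← add_sum_erase (U.erase v) _
      (mem_erase.2 ⟨Ne.symm hvu, hu⟩), hδv, hδu]
    have h2 : ∑ w ∈ (U.erase v).erase u, (m w : ℤ) * δ w =
        - ∑ w ∈ (U.erase v).erase u, (β w : ℤ) * m w := by
      rw [← sum_neg_distrib]
      apply sum_congr rfl
      intro w hw
      have g1 := mem_erase.1 hw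
      have g2 := mem_erase.1 g1.2
      rw [hδw w g2.2 g2.1 g1.1]
      ring
    rw [h2]
    ring
  rw [← hsum] at hc1 hc2
  exact hC m hm0 hm hc1 hc2

end Pool.Agent.Lib.MP_8b7544_co.Hv
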