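import Pool.Agent.Lib.MP_8b7544_co.Hv.Stm3

set_option autoImplicit false

namespace Pool.Agent.Lib.MP_8b7544_co.Hv

open Finset
open scoped Pointwise

theorem STR_holds (hRED : S_RED) (hCD : S_CD) (hNAP : S_NAP) : S_STR := by
  intro A B D a b K Dm ha hb hab h0 hDa hDb hKb hB hDm hDcard hcl
  refine hRED A B D a b K Dm ha hab h0 hDa hDb hKb hB hDm ?_
  intro X hXne hXA hdiam
  obtain ⟨x0, hx0, hmin⟩ := exists_min_image X (fun x => x) hXne
  have hDne : D.Nonempty := ⟨0, h0⟩
  have hsub : B ∩ (X + D) ⊆ B.filter (fun z => (x0 - Dm) ≤ z ∧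
      z ≤ (x0 - Dm) + (2 * Dm * (K * K) + 2 * Dm)) := by
    intro z hz
    rw [mem_inter, mem_add] at hz
    obtain ⟨hzB, x, hx, d, hd, rfl⟩ := hz
    rw [mem_filter]
    have h1 := hmin x hx
    have h2 := hdiam x hx x0 hx0
    have h3 := hDm d hd
    rw [abs_le] at h3
    refine ⟨hzB, ?_, ?_⟩ <;> linarith
  have hle := card_le_card hsub
  rcases hcl (x0 - Dm) with h | ⟨E, hE, hBE, hne⟩
  · have h1 := hCD X D hXne hDne
    omega
  · have hle2 := card_le_card hBE
    by_cases h2 : 2 ≤ X.card
    · have h3 := hNAP X D a b ha hb hab h0 hDa hDb hDcard h2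
      omega
    · have h1 : X.card = 1 := by
        have := card_pos.2 hXne
        omega
      obtain ⟨x, rfl⟩ := card_eq_one.1 h1
      have hxA : x ∉ A := by
        rw [disjoint_singleton_left] at hXA
        exact hXA
      have hXD : ({x} : Finset ℤ) + D = D.image (fun d => x + d) := by
        rw [singleton_add]
        rfl
      have hcD : (D.image (fun d => x + d)).card = D.card :=
        card_image_of_injective _ (add_right_injective x)
      rw [hXD, hcD, card_singleton]
      rw [hXD] at hsub
      by_contra hcon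
      have h3 : (B ∩ D.image (fun d => x + d)).card ≤ (D.image (fun d => x + d)).card :=
        card_le_card inter_subset_right
      have h4 : B ∩ D.image (fun d => x + d) = D.image (fun d => x + d) :=
        eq_of_subset_of_card_le inter_subset_right (by omega)
      have h5 : D.image (fun d => x + d) ⊆ E := by
        rw [← h4]
        exact hsub.trans hBE
      have h6 : D.image (fun d => x + d) = E := eq_of_subset_of_card_le h5 (by omega)
      exact hne x hxA h6

end Pool.Agent.Lib.MP_8b7544_co.Hv
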