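import Pool.Agent.Lib.MP_8b7544_co.Hv.Stm3

set_option autoImplicit false

namespace Pool.Agent.Lib.MP_8b7544_co.Hv

open Finset

theorem TC_holds : S_TC := by
  classical
  intro ι a β s ℓ ℓ' c c' hs0 hs1 ⟨g, hg1, hg2, hg3⟩ ⟨g', hg1', hg2', hg3'⟩
  have hm : ∀ x : ℤ, 0 ≤ x → x < ℓ → s ≤ g x ∧ g x < ℓ + s := fun x h1 h2 =>
    hg1.mapsTo ⟨h1, h2⟩
  have hm' : ∀ x : ℤ, 0 ≤ x → x < ℓ' → s ≤ g' x ∧ g' x < ℓ' + s := fun x h1 h2 =>
    hg1'.mapsTo ⟨h1, h2⟩
  refine ⟨fun x => if x < ℓ then g x else g' (x - ℓ) + ℓ, ⟨?_, ?_, ?_⟩, ?_, ?_⟩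
  · rintro x ⟨h1, h2⟩
    push_cast at h2 ⊢
    by_cases h : x < ℓ
    · simp only [h, if_true]
      have := hm x h1 h
      constructor
      · exact this.1
      · linarith [this.2]
    · simp only [h, if_false]
      have := hm' (x - ℓ) (by omega) (by omega)
      constructor <;> linarith [this.1, this.2]
  · rintro x ⟨h1, h2⟩ y ⟨h3, h4⟩ hxy
    push_cast at h2 h4
    by_cases h : x < ℓ <;> by_cases h' : y < ℓ
    · simp only [h, h', if_true] at hxy
      exact hg1.injOn ⟨h1, h⟩ ⟨h3, h'⟩ hxy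
    · simp only [h, h', if_true, if_false] at hxy
      have e1 := hm x h1 h
      have e2 := hm' (y - ℓ) (by omega) (by omega)
      omega
    · simp only [h, h', if_true, if_false] at hxy
      have e1 := hm y h3 h'
      have e2 := hm' (x - ℓ) (by omega) (by omega)
      omega
    · simp only [h, h', if_false] at hxy
      have hx : x - ℓ ∈ Set.Ico 0 (ℓ' : ℤ) := ⟨by omega, by omega⟩
      have hy : y - ℓ ∈ Set.Ico 0 (ℓ' : ℤ) := ⟨by omega, by omega⟩
      have := hg1'.injOn hx hy (by linarith)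
      linarith
  · rintro y ⟨h1, h2⟩
    push_cast at h2
    by_cases h : y < ℓ + s
    · obtain ⟨x, ⟨hx1, hx2⟩, hx3⟩ := hg1.surjOn ⟨h1, h⟩
      refine ⟨x, ⟨hx1, ?_⟩, ?_⟩
      · push_cast; omega
      · simp only [hx2, if_true]
        exact hx3
    · obtain ⟨x, ⟨hx1, hx2⟩, hx3⟩ := hg1'.surjOn (a := y - ℓ) ⟨by omega, by omega⟩
      refine ⟨x + ℓ, ⟨by omega, by push_cast; omega⟩, ?_⟩
      have : ¬ (x + ℓ < ℓ) := by omega
      simp only [this, if_false]
      rw [add_sub_cancel_right, hx3]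
      ring
  · intro x h1 h2
    push_cast at h2
    by_cases h : x < ℓ
    · simp only [h, if_true]
      exact hg2 x h1 h
    · simp only [h, if_false]
      rcases hg2' (x - ℓ) (by omega) (by omega) with h3 | h3 | ⟨i, h3⟩
      · left; rw [h3]; ring
      · right; left; rw [h3]; ring
      · right; right; exact ⟨i, by rw [h3]; ring⟩
  · intro i
    have e : {x : ℤ | 0 ≤ x ∧ x < ((ℓ + ℓ' : ℕ) : ℤ) ∧
        (if x < ℓ then g x else g' (x - ℓ) + ℓ) = x - β i} =
        {x : ℤ | 0 ≤ x ∧ x < ℓ ∧ g x = x - β i} ∪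
          (fun x : ℤ => x + ℓ) '' {x : ℤ | 0 ≤ x ∧ x < ℓ' ∧ g' x = x - β i} := by
      ext x
      simp only [Set.mem_ofPred_eq, Set.mem_union, Set.mem_image]
      push_cast
      constructor
      · rintro ⟨h1, h2, h3⟩
        by_cases h : x < ℓ
        · left
          rw [if_pos h] at h3
          exact ⟨h1, h, h3⟩
        · right
          rw [if_neg h] at h3
          exact ⟨x - ℓ, ⟨by omega, by omega, by linarith⟩, by ring⟩
      · rintro (⟨h1, h2, h3⟩ | ⟨y, ⟨h1, h2, h3⟩, rfl⟩)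
        · refine ⟨h1, by omega, ?_⟩
          rw [if_pos h2]; exact h3
        · refine ⟨by omega, by omega, ?_⟩
          rw [if_neg (by omega), add_sub_cancel_right, h3]
          ring
    have hfin : ∀ (n : ℕ) (f : ℤ → ℤ), {x : ℤ | 0 ≤ x ∧ x < n ∧ f x = x - β i}.Finite := by
      intro n f
      refine (Set.finite_Ico (0 : ℤ) n).subset ?_
      rintro x ⟨h1, h2, _⟩
      exact ⟨h1, h2⟩
    rw [e, Set.ncard_union_eq ?_ (hfin ℓ g) ((hfin ℓ' g').image _),
      Set.ncard_image_of_injective _ (add_left_injective _), hg3, hg3']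
    rw [Set.disjoint_left]
    rintro x ⟨_, h2, _⟩ ⟨y, ⟨h3, _, _⟩, rfl⟩
    simp only at h2
    omega

end Pool.Agent.Lib.MP_8b7544_co.Hv
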