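import Pool.Agent.Lib.MP_8b7544_co.Hv.Stm3

set_option autoImplicit false

namespace Pool.Agent.Lib.MP_8b7544_co.Hv

open Finset

theorem thr_dig1 {a b c : ℕ} (h : a ≠ b) : 4 ^ a + 4 ^ b ≠ 4 ^ c := by
  have key : ∀ a b : ℕ, a < b → 4 ^ a + 4 ^ b ≠ 4 ^ c := by
    intro a b hab heq
    have h1 : 4 ^ a < 4 ^ b := Nat.pow_lt_pow_right (by norm_num) hab
    have h0 : 0 < 4 ^ a := by positivity
    rcases Nat.lt_or_ge b c with h2 | h2
    · have h3 : 4 ^ (b + 1) ≤ 4 ^ c := Nat.pow_le_pow_right (by norm_num) h2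
      rw [pow_succ] at h3
      omega
    · have h3 : 4 ^ c ≤ 4 ^ b := Nat.pow_le_pow_right (by norm_num) h2
      omega
  rcases Nat.lt_or_gt_of_ne h with h | h
  · exact key a b h
  · rw [add_comm]; exact key b a h

theorem thr_dig2 {a b c d : ℕ} (h : a ≠ b) (h' : c ≠ d) (heq : 4 ^ a + 4 ^ b = 4 ^ c + 4 ^ d) :
    (a = c ∧ b = d) ∨ (a = d ∧ b = c) := by
  have key : ∀ a b c d : ℕ, a < b → c < d → 4 ^ a + 4 ^ b = 4 ^ c + 4 ^ d → a = c ∧ b = d := by
    intro a b c d hab hcd heq
    have h1 : 4 ^ a < 4 ^ b := Nat.pow_lt_pow_right (by norm_num) hab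
    have h2 : 4 ^ c < 4 ^ d := Nat.pow_lt_pow_right (by norm_num) hcd
    have hp1 : 0 < 4 ^ a := by positivity
    have hp2 : 0 < 4 ^ b := by positivity
    have hp3 : 0 < 4 ^ c := by positivity
    have hp4 : 0 < 4 ^ d := by positivity
    have h3 : ¬ b < d := by
      intro h
      have h3 : 4 ^ (b + 1) ≤ 4 ^ d := Nat.pow_le_pow_right (by norm_num) h
      rw [pow_succ] at h3
      omega
    have h4 : ¬ d < b := by
      intro h
      have h3 : 4 ^ (d + 1) ≤ 4 ^ b := Nat.pow_le_pow_right (by norm_num) h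
      rw [pow_succ] at h3
      omega
    have h5 : b = d := by omega
    subst h5
    have h6 : 4 ^ a = 4 ^ c := by omega
    exact ⟨Nat.pow_right_injective (le_refl 2 |>.trans (by norm_num)) h6, rfl⟩
  rcases Nat.lt_or_gt_of_ne h with h | h <;> rcases Nat.lt_or_gt_of_ne h' with h' | h'
  · exact Or.inl (key a b c d h h' heq)
  · exact Or.inr (key a b d c h h' (by rw [heq, add_comm]))
  · have := key b a c d h h' (by rw [← heq, add_comm])
    exact Or.inr ⟨this.2, this.1⟩
  · have := key b a d c h h' (by rw [add_comm, heq, add_comm])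
    exact Or.inl ⟨this.2, this.1⟩

theorem THR_holds (hROL : S_ROL) : S_THR := by
  intro V _ _ G hG U hU
  classical
  obtain ⟨v0, hv0⟩ : U.Nonempty := card_pos.1 (by omega)
  obtain ⟨K, hK⟩ : ∃ K, K = Fintype.card V := ⟨_, rfl⟩
  have hK1 : 1 ≤ K := by rw [hK]; exact Fintype.card_pos_iff.2 ⟨v0⟩
  obtain ⟨e, he, heK⟩ : ∃ e : V → ℕ, Function.Injective e ∧ ∀ w, e w < K := by
    refine ⟨fun w => (Fintype.equivFin V w).val, ?_, ?_⟩
    · intro a b hab
      exact (Fintype.equivFin V).injective (Fin.ext hab)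
    · intro w
      rw [hK]
      exact (Fintype.equivFin V w).isLt
  obtain ⟨s, hs⟩ : ∃ s : V → ℕ, ∀ w, s w = 4 * K * 4 ^ (e w) := ⟨_, fun _ => rfl⟩
  obtain ⟨S, hS⟩ : ∃ S : ℕ, S = 4 * K * 4 ^ K := ⟨_, rfl⟩
  have hsK : ∀ w, K ≤ s w := by
    intro w
    rw [hs]
    have : 1 ≤ 4 ^ e w := Nat.one_le_pow _ _ (by norm_num)
    nlinarith
  have hs1 : ∀ w, 1 ≤ s w := fun w => hK1.trans (hsK w)
  have hsS : ∀ w, 4 * s w ≤ S := by
    intro w
    rw [hs, hS]
    have : 4 ^ (e w + 1) ≤ 4 ^ K := Nat.pow_le_pow_right (by norm_num) (heK w)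
    rw [pow_succ] at this
    nlinarith
  have hsinj : ∀ w w', s w = s w' → w = w' := by
    intro w w' h
    rw [hs, hs] at h
    have h1 : 4 ^ e w = 4 ^ e w' := Nat.eq_of_mul_eq_mul_left (by omega) h
    exact he (Nat.pow_right_injective (le_refl 2 |>.trans (by norm_num)) h1)
  have hs2 : ∀ w w' z, w ≠ w' → s w + s w' ≠ s z := by
    intro w w' z hww h
    rw [hs, hs, hs, ← mul_add] at h
    exact thr_dig1 (fun h => hww (he h)) (Nat.eq_of_mul_eq_mul_left (by omega) h)
  have hs3 : ∀ w w' z z', w ≠ w' → z ≠ z' → s w + s w' = s z + s z' →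
      (w = z ∧ w' = z') ∨ (w = z' ∧ w' = z) := by
    intro w w' z z' hw hz h
    rw [hs, hs, hs, hs, ← mul_add, ← mul_add] at h
    rcases thr_dig2 (fun h => hw (he h)) (fun h => hz (he h))
      (Nat.eq_of_mul_eq_mul_left (by omega) h) with h | h
    · exact Or.inl ⟨he h.1, he h.2⟩
    · exact Or.inr ⟨he h.1, he h.2⟩
  obtain ⟨aB, haB⟩ : ∃ aB : ℕ, aB = 4 * ((K + 1) * S) + 1 := ⟨_, rfl⟩
  have hS1 : 1 ≤ S := by have := hsS v0; have := hs1 v0; omega
  have hcop : ∀ w, Nat.Coprime aB (s w) := by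
    intro w
    have h1 : s w ∣ S * S := by
      rw [hs, hS]
      have h2 : 4 ^ e w ∣ 4 ^ K := pow_dvd_pow _ (heK w).le
      exact (mul_dvd_mul_left (4 * K) h2).mul_right _
    have h3 : Nat.Coprime aB S := by
      rw [haB]
      have : 4 * ((K + 1) * S) + 1 = (4 * (K + 1)) * S + 1 := by ring
      rw [this]
      rw [Nat.coprime_comm]
      simp
    exact Nat.Coprime.coprime_dvd_right h1 (Nat.Coprime.mul_right h3 h3)
  obtain ⟨q, hq1, hq⟩ := Nat.exists_infinite_primes (2 * S + K + 1)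
  obtain ⟨Λ, hΛ⟩ : ∃ Λ : ℕ, Λ = 2 * aB := ⟨_, rfl⟩
  obtain ⟨Amax, hAmax⟩ : ∃ Amax : ℕ, Amax = q * Λ + K * S + 3 + aB := ⟨_, rfl⟩
  let βf : V → Bool → V → ℕ := fun x b w => if b = true ∧ w = x then q else s w
  have key : ∀ i : Fin (Amax + 1) × V × V × V × Bool, ∃ C : ℕ,
      i.2.1 ∈ U → i.2.2.1 ∈ U → i.2.2.2.1 ∈ U → i.2.1 ≠ i.2.2.1 → i.2.2.2.1 ≠ i.2.1 →
      i.2.2.2.1 ≠ i.2.2.1 →
      (∀ w ∈ U, w ≠ i.2.1 → w ≠ i.2.2.1 → 1 ≤ βf i.2.2.2.1 i.2.2.2.2 w ∧
        βf i.2.2.2.1 i.2.2.2.2 w < i.1.val) →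
      Nat.Coprime i.1.val (βf i.2.2.2.1 i.2.2.2.2 i.2.2.2.1) → K ≤ i.1.val → 2 ≤ i.1.val →
      ∀ m : V → ℕ, (∀ w, w ∉ U → m w = 0) → (∀ w ∈ U, C ≤ m w) →
        (C : ℤ) ≤ (i.1.val : ℤ) * m i.2.2.1 -
          ∑ w ∈ (U.erase i.2.1).erase i.2.2.1, (βf i.2.2.2.1 i.2.2.2.2 w : ℤ) * m w →
        (i.1.val : ℤ) * m i.2.2.1 -
          ∑ w ∈ (U.erase i.2.1).erase i.2.2.1, (βf i.2.2.2.1 i.2.2.2.2 w : ℤ) * m w + C
            ≤ ∑ w, (m w : ℤ) → Lab G m := by
    rintro ⟨a, v, u, x, b⟩
    simp only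
    by_cases hc : v ∈ U ∧ u ∈ U ∧ x ∈ U ∧ v ≠ u ∧ x ≠ v ∧ x ≠ u ∧
      (∀ w ∈ U, w ≠ v → w ≠ u → 1 ≤ βf x b w ∧ βf x b w < a.val) ∧
      Nat.Coprime a.val (βf x b x) ∧ K ≤ a.val ∧ 2 ≤ a.val
    swap
    · refine ⟨0, ?_⟩
      intro h1 h2 h3 h4 h5 h6 h7 h8 h9 h10
      exact absurd ⟨h1, h2, h3, h4, h5, h6, h7, h8, h9, h10⟩ hc
    obtain ⟨h1, h2, h3, h4, h5, h6, h7, h8, h9, h10⟩ := hc
    have hβ : ∀ w, βf x b w = s w ∨ (w = x ∧ βf x b w = q) := by
      intro w
      simp only [βf]
      split_ifs with h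
      · exact Or.inr ⟨h.2, rfl⟩
      · exact Or.inl rfl
    have hβx : ∀ w, w ≠ x → βf x b w = s w := by
      intro w hw
      rcases hβ w with h | h
      · exact h
      · exact absurd h.1 hw
    obtain ⟨C, hC⟩ := hROL V G hG U v u x a.val (βf x b) h1 h2 h3 h4 h5 h6 h7
      (by
        intro w _ w' _ _ _ _ _ hww
        have hS4 := hsS w
        have hS4' := hsS w'
        rcases hβ w with h | h <;> rcases hβ w' with h' | h'
        · exact hsinj _ _ (by rw [← h, ← h', hww])
        · omega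
        · omega
        · rw [h.1, h'.1])
      (by
        intro w _ w' _ z _ _ _ _ _ _ _ hww heq
        have hS1 := hsS w
        have hS2 := hsS w'
        have hS3 := hsS z
        have hs1' := hs1 w
        have hs2' := hs1 w'
        rcases hβ w with h | h <;> rcases hβ w' with h' | h' <;> rcases hβ z with h'' | h''
        · exact hs2 w w' z hww (by omega)
        · omega
        · omega
        · omega
        · omega
        · omega
        · omega
        · omega)
      (by
        intro w _ w' _ z _ z' _ _ _ _ _ _ _ _ _ hww hzz heq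
        have hS1 := hsS w
        have hS2 := hsS w'
        have hS3 := hsS z
        have hS4 := hsS z'
        by_cases hwx : w = x
        · have hw' : βf x b w' = s w' := hβx w' (fun h => hww (by rw [hwx, h]))
          by_cases hzx : z = x
          · have hz' : βf x b z' = s z' := hβx z' (fun h => hzz (by rw [hzx, h]))
            rw [hwx, hzx, hw', hz'] at heq
            exact Or.inl ⟨by rw [hwx, hzx], hsinj _ _ (by omega)⟩
          · by_cases hzx' : z' = x
            · have hz' : βf x b z = s z := hβx z hzx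
              rw [hwx, hzx', hw', hz'] at heq
              exact Or.inr ⟨by rw [hwx, hzx'], hsinj _ _ (by omega)⟩
            · have hz1 : βf x b z = s z := hβx z hzx
              have hz2 : βf x b z' = s z' := hβx z' hzx'
              rcases hβ w with h | h
              · exact hs3 w w' z z' hww hzz (by rw [← h, ← hw', ← hz1, ← hz2, heq])
              · omega
        · have hw1 : βf x b w = s w := hβx w hwx
          by_cases hwx' : w' = x
          · by_cases hzx : z = x
            · have hz' : βf x b z' = s z' := hβx z' (fun h => hzz (by rw [hzx, h]))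
              rw [hwx', hzx, hw1, hz'] at heq
              exact Or.inr ⟨hsinj _ _ (by omega), by rw [hwx', hzx]⟩
            · by_cases hzx' : z' = x
              · have hz' : βf x b z = s z := hβx z hzx
                rw [hwx', hzx', hw1, hz'] at heq
                exact Or.inl ⟨hsinj _ _ (by omega), by rw [hwx', hzx']⟩
              · have hz1 : βf x b z = s z := hβx z hzx
                have hz2 : βf x b z' = s z' := hβx z' hzx'
                rcases hβ w' with h | h
                · exact hs3 w w' z z' hww hzz (by rw [← h, ← hw1, ← hz1, ← hz2, heq])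
                · omega
          · have hw2 : βf x b w' = s w' := hβx w' hwx'
            rcases hβ z with h | h <;> rcases hβ z' with h' | h'
            · exact hs3 w w' z z' hww hzz (by rw [← h, ← hw1, ← h', ← hw2, heq])
            · omega
            · omega
            · omega)
      h8 h10 (by rw [← hK]; exact h9)
      (by
        rw [← hK]
        have := hsK x
        rcases hβ x with h | h
        · omega
        · omega)
    exact ⟨C, fun _ _ _ _ _ _ _ _ _ _ => hC⟩
  choose C hC using key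
  obtain ⟨B, hB⟩ : ∃ B, ∀ i, C i ≤ B := by
    obtain ⟨B, hB⟩ := (Set.finite_range C).bddAbove
    exact ⟨B, fun i => hB ⟨i, rfl⟩⟩
  -- monotone form
  have fin : ∀ (a : ℕ) (v u x : V) (b : Bool) (m : V → ℕ), a ≤ Amax → v ∈ U → u ∈ U → x ∈ U →
      v ≠ u → x ≠ v → x ≠ u →
      (∀ w ∈ U, w ≠ v → w ≠ u → 1 ≤ βf x b w ∧ βf x b w < a) → Nat.Coprime a (βf x b x) →
      K ≤ a → 2 ≤ a → (∀ w, w ∉ U → m w = 0) → (∀ w ∈ U, B ≤ m w) →
      (B : ℤ) ≤ (a : ℤ) * m u - ∑ w ∈ (U.erase v).erase u, (βf x b w : ℤ) * m w →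
      (a : ℤ) * m u - ∑ w ∈ (U.erase v).erase u, (βf x b w : ℤ) * m w + B ≤ ∑ w, (m w : ℤ) →
      Lab G m := by
    intro a v u x b m ha h1 h2 h3 h4 h5 h6 h7 h8 h9 h10 h11 h12 h13 h14
    have hi := hB (⟨a, by omega⟩, v, u, x, b)
    refine hC (⟨a, by omega⟩, v, u, x, b) h1 h2 h3 h4 h5 h6 h7 h8 h9 h10 m h11
      (fun w hw => hi.trans (h12 w hw)) ?_ ?_
    · refine le_trans ?_ h13
      exact_mod_cast hi
    · refine le_trans ?_ h14
      have : ((C (⟨a, by omega⟩, v, u, x, b) : ℕ) : ℤ) ≤ B := by exact_mod_cast hi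
      linarith
  refine ⟨2 * B + 1, ?_⟩
  intro m hm0 hm
  have hsumle : ∀ F : Finset V, ∑ w ∈ F, (m w : ℤ) ≤ ∑ w, (m w : ℤ) := fun F =>
    sum_le_sum_of_subset_of_nonneg (subset_univ _) (fun w _ _ => by positivity)
  have hcardle : ∀ F : Finset V, F.card ≤ K := fun F => by rw [hK]; exact card_le_univ F
  -- bound for sums of the small numbers
  have hbound : ∀ (F : Finset V) (μ : ℕ), (∀ w ∈ F, m w ≤ μ) →
      ∑ w ∈ F, (s w : ℤ) * m w ≤ (K * S : ℕ) * μ := by
    intro F μ hF
    calc ∑ w ∈ F, (s w : ℤ) * m w ≤ ∑ w ∈ F, ((S : ℤ) * μ) := by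
          apply sum_le_sum
          intro w hw
          have h1 : (s w : ℤ) ≤ S := by
            have := hsS w
            have : s w ≤ S := by omega
            exact_mod_cast this
          have h2 : (m w : ℤ) ≤ μ := by exact_mod_cast hF w hw
          exact mul_le_mul h1 h2 (by positivity) (by positivity)
      _ = (F.card : ℤ) * (S * μ) := by rw [sum_const, nsmul_eq_mul]
      _ ≤ (K : ℤ) * (S * μ) := by
          apply mul_le_mul_of_nonneg_right _ (by positivity)
          exact_mod_cast hcardle F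
      _ = (K * S : ℕ) * μ := by push_cast; ring
  by_cases hreg : ∃ v ∈ U, ∀ w ∈ U, w ≠ v → Λ * m w ≤ m v
  · -- Regime B
    obtain ⟨v, hvU, hv⟩ := hreg
    have hne : (U.erase v).Nonempty := by
      rw [← card_pos, card_erase_of_mem hvU]; omega
    obtain ⟨u, huU, hu⟩ := exists_max_image (U.erase v) m hne
    have hne2 : ((U.erase v).erase u).Nonempty := by
      rw [← card_pos, card_erase_of_mem huU, card_erase_of_mem hvU]; omega
    obtain ⟨x, hx⟩ := hne2
    have huU' := mem_erase.1 huU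
    have hx' := mem_erase.1 hx
    have hx'' := mem_erase.1 hx'.2
    have hβs : ∀ w, βf x false w = s w := fun w => by simp [βf]
    have hT : ∑ w ∈ (U.erase v).erase u, (βf x false w : ℤ) * m w ≤ (K * S : ℕ) * m u := by
      have h1 := hbound ((U.erase v).erase u) (m u) (fun w hw => hu w (mem_erase.1 hw).2)
      refine le_trans (le_of_eq ?_) h1
      apply sum_congr rfl
      intro w _
      rw [hβs]
    have hT0 : 0 ≤ ∑ w ∈ (U.erase v).erase u, (βf x false w : ℤ) * m w :=
      sum_nonneg (fun w _ => by positivity)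
    have hΛv : Λ * m u ≤ m v := hv u huU'.2 huU'.1
    have hmv := hm v hvU
    have hmu := hm u huU'.2
    have haBz : (aB : ℤ) = 4 * ((K + 1) * S) + 1 := by rw [haB]; push_cast; ring
    have hΛz : (Λ : ℤ) * m u ≤ m v := by exact_mod_cast hΛv
    rw [hΛ] at hΛz
    push_cast at hΛz hT
    have hmuz : (2 * B + 1 : ℤ) ≤ m u := by exact_mod_cast hmu
    have hmvz : (2 * B + 1 : ℤ) ≤ m v := by exact_mod_cast hmv
    have hKS : (0 : ℤ) ≤ (K : ℤ) * S := by positivity
    have hSz : (0 : ℤ) ≤ (S : ℤ) := by positivity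
    refine fin aB v u x false m (by omega) hvU huU'.2 hx''.2 (Ne.symm huU'.1) hx''.1 hx'.1 ?_ ?_
      ?_ ?_ hm0 (fun w hw => by have := hm w hw; omega) ?_ ?_
    · intro w _ _ _
      rw [hβs]
      refine ⟨hs1 w, ?_⟩
      have h4 := hsS w
      have h5 : S ≤ (K + 1) * S := Nat.le_mul_of_pos_left _ (by omega)
      omega
    · rw [hβs]; exact hcop x
    · have h5 : K ≤ (K + 1) * S := by nlinarith
      omega
    · have h5 : 1 ≤ (K + 1) * S := by nlinarith
      omega
    · have h6 : (aB : ℤ) * m u = 4 * (K * S) * m u + 4 * S * m u + m u := by rw [haBz]; ring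
      have h7 : (0 : ℤ) ≤ (K : ℤ) * S * m u := by positivity
      have h8 : (0 : ℤ) ≤ (S : ℤ) * m u := by positivity
      nlinarith
    · have h9 : (m v : ℤ) ≤ ∑ w, (m w : ℤ) := by
        have := hsumle {v}
        simpa using this
      nlinarith
  · -- Regime A
    push Not at hreg
    obtain ⟨x, hxU, hx⟩ := exists_max_image U m ⟨v0, hv0⟩
    have hne : (U.erase x).Nonempty := by
      rw [← card_pos, card_erase_of_mem hxU]; omega
    obtain ⟨u, huU, hu⟩ := exists_max_image (U.erase x) m hne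
    have hne2 : ((U.erase x).erase u).Nonempty := by
      rw [← card_pos, card_erase_of_mem huU, card_erase_of_mem hxU]; omega
    obtain ⟨v, hv⟩ := hne2
    have huU' := mem_erase.1 huU
    have hv' := mem_erase.1 hv
    have hv'' := mem_erase.1 hv'.2
    obtain ⟨w0, hw0U, hw0x, hw0⟩ := hreg x hxU
    have hxΛ : m x ≤ Λ * m u := by
      have h1 : m w0 ≤ m u := hu w0 (mem_erase.2 ⟨hw0x, hw0U⟩)
      have h2 : Λ * m w0 ≤ Λ * m u := Nat.mul_le_mul_left _ h1
      omega
    have hβx : βf x true x = q := by simp [βf]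
    have hβs : ∀ w, w ≠ x → βf x true w = s w := fun w hw => by simp [βf, hw]
    -- the sum
    obtain ⟨T, hTdef⟩ : ∃ T : ℕ, T = ∑ w ∈ (U.erase v).erase u, βf x true w * m w := ⟨_, rfl⟩
    have hxmem : x ∈ (U.erase v).erase u :=
      mem_erase.2 ⟨Ne.symm huU'.1, mem_erase.2 ⟨Ne.symm hv''.1, hxU⟩⟩
    have hTsplit : T = q * m x + ∑ w ∈ ((U.erase v).erase u).erase x, s w * m w := by
      rw [hTdef, ← add_sum_erase _ _ hxmem, hβx]
      congr 1
      apply sum_congr rfl
      intro w hw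
      rw [hβs w (mem_erase.1 hw).1]
    have hTle : T ≤ q * m x + K * S * m u := by
      rw [hTsplit]
      have h1 := hbound (((U.erase v).erase u).erase x) (m u) (by
        intro w hw
        have h2 := mem_erase.1 hw
        exact hu w (mem_erase.2 ⟨h2.1, (mem_erase.1 (mem_erase.1 h2.2).2).2⟩))
      have h3 : ∑ w ∈ ((U.erase v).erase u).erase x, s w * m w ≤ K * S * m u := by
        exact_mod_cast h1
      omega
    have hTge : q * m x ≤ T := by rw [hTsplit]; omega
    have hmu := hm u huU'.2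
    have hmx := hm x hxU
    have hmv := hm v hv''.2
    have hux : m u ≤ m x := hx u huU'.2
    obtain ⟨a0, ha0⟩ : ∃ a0 : ℕ, a0 = (T + B) / m u + 1 := ⟨_, rfl⟩
    have hmupos : 0 < m u := by omega
    have ha01 : T + B < a0 * m u := by
      rw [ha0]
      have h1 := Nat.div_add_mod (T + B) (m u)
      have h2 := Nat.mod_lt (T + B) hmupos
      calc T + B = m u * ((T + B) / m u) + (T + B) % m u := h1.symm
        _ < m u * ((T + B) / m u) + m u := by omega
        _ = ((T + B) / m u + 1) * m u := by ring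
    have ha02 : a0 * m u ≤ T + B + m u := by
      rw [ha0]
      have h1 := Nat.div_mul_le_self (T + B) (m u)
      calc ((T + B) / m u + 1) * m u = (T + B) / m u * m u + m u := by ring
        _ ≤ T + B + m u := by omega
    obtain ⟨a, haa, hacop⟩ : ∃ a, (a = a0 ∨ a = a0 + 1) ∧ Nat.Coprime a q := by
      by_cases h : q ∣ a0
      · refine ⟨a0 + 1, Or.inr rfl, ?_⟩
        rw [Nat.coprime_comm, hq.coprime_iff_not_dvd]
        intro h2
        have h3 : q ∣ 1 := (Nat.dvd_add_right h).1 h2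
        have h4 := Nat.le_of_dvd one_pos h3
        have h5 := hq.two_le
        omega
      · refine ⟨a0, Or.inl rfl, ?_⟩
        rw [Nat.coprime_comm, hq.coprime_iff_not_dvd]
        exact h
    have ha1 : T + B < a * m u := by
      rcases haa with h | h
      · rw [h]; exact ha01
      · rw [h, add_mul]; omega
    have ha2 : a * m u ≤ T + B + 2 * m u := by
      rcases haa with h | h
      · rw [h]; omega
      · rw [h, add_mul]; omega
    have hqa : q ≤ a := by
      by_contra hlt
      push Not at hlt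
      have h1 : a * m u ≤ q * m u := Nat.mul_le_mul_right _ hlt.le
      have h2 : q * m u ≤ q * m x := Nat.mul_le_mul_left _ hux
      omega
    have hqa' : q < a := by
      rcases Nat.lt_or_ge q a with h | h
      · exact h
      · exfalso
        have h1 : a = q := le_antisymm h hqa
        rw [h1, Nat.coprime_self] at hacop
        have h5 := hq.two_le
        omega
    have haAmax : a ≤ Amax := by
      have h1 : a * m u ≤ (q * Λ + K * S + 3) * m u := by
        have h2 : q * m x ≤ q * (Λ * m u) := Nat.mul_le_mul_left _ hxΛ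
        have h3 : (q * Λ + K * S + 3) * m u = q * (Λ * m u) + K * S * m u + 3 * m u := by ring
        rw [h3]
        omega
      have h4 := Nat.le_of_mul_le_mul_right h1 hmupos
      omega
    have hTz : ∑ w ∈ (U.erase v).erase u, (βf x true w : ℤ) * m w = (T : ℤ) := by
      rw [hTdef]; push_cast; rfl
    have ha1z : (T : ℤ) + B < a * m u := by exact_mod_cast ha1
    have ha2z : (a : ℤ) * m u ≤ T + B + 2 * m u := by exact_mod_cast ha2
    refine fin a v u x true m haAmax hv''.2 huU'.2 hxU hv'.1 (Ne.symm hv''.1) (Ne.symm huU'.1) ?_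
      ?_ ?_ ?_ hm0 (fun w hw => by have := hm w hw; omega) ?_ ?_
    · intro w _ _ _
      by_cases hwx : w = x
      · rw [hwx, hβx]
        exact ⟨hq.one_lt.le, hqa'⟩
      · rw [hβs w hwx]
        have := hsS w
        exact ⟨hs1 w, by omega⟩
    · rw [hβx]; exact hacop
    · omega
    · have := hq.two_le; omega
    · rw [hTz]; linarith
    · rw [hTz]
      have h1 := hsumle {v, u, x}
      have h2 : ∑ w ∈ ({v, u, x} : Finset V), (m w : ℤ) = m v + (m u + m x) := by
        rw [sum_insert (by simp [hv'.1, hv''.1]), sum_pair huU'.1]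
      rw [h2] at h1
      have h3 : (m u : ℤ) ≤ m x := by exact_mod_cast hux
      have h4 : (2 * B + 1 : ℤ) ≤ m v := by exact_mod_cast hmv
      linarith

end Pool.Agent.Lib.MP_8b7544_co.Hv
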