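import Pool.Agent.Lib.MP_8b7544_co.Hv.Stm3

namespace Pool.Agent.Lib.MP_8b7544_co.Hv

open Finset

open Classical in
theorem TR_base_one {ι : Type} (a : ℕ) (β : ι → ℕ) (hβ : ∀ i, 1 ≤ β i) (ha : 1 ≤ a) :
    Tile a β 0 1 (fun _ => 0) := by
  refine ⟨fun x => x, ?_, ?_, ?_⟩
  · have h : (Set.Ico (0 : ℤ) ((1 : ℕ) : ℤ)) = Set.Ico (0 : ℤ) (((1 : ℕ) : ℤ) + 0) := by simp
    rw [← h]
    exact Set.bijOn_id _
  · intro x _ _
    left
    rfl
  · intro i
    have : {x : ℤ | 0 ≤ x ∧ x < ((1 : ℕ) : ℤ) ∧ x = x - β i} = ∅ := by
      ext x
      simp only [Set.mem_setOf_eq, Set.mem_empty_iff_false, iff_false, not_and]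
      intro _ _ h
      have := hβ i
      omega
    rw [this, Set.ncard_empty]

open Classical in
theorem TR_base_zero {ι : Type} (a : ℕ) (β : ι → ℕ) :
    Tile a β 0 0 (fun _ => 0) := by
  refine ⟨fun x => x, ?_, ?_, ?_⟩
  · have h : (Set.Ico (0 : ℤ) ((0 : ℕ) : ℤ)) = Set.Ico (0 : ℤ) (((0 : ℕ) : ℤ) + 0) := by simp
    rw [← h]
    exact Set.bijOn_id _
  · intro x _ _
    left
    rfl
  · intro i
    have : {x : ℤ | 0 ≤ x ∧ x < ((0 : ℕ) : ℤ) ∧ x = x - β i} = ∅ := by
      ext x
      simp only [Set.mem_setOf_eq, Set.mem_empty_iff_false, iff_false, not_and]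
      intro h1 h2 _
      simp at h2
      omega
    rw [this, Set.ncard_empty]

open Classical in
theorem TR_base {ι : Type} (a : ℕ) (β : ι → ℕ) (hβ : ∀ i, 1 ≤ β i) (ha : 1 ≤ a)
    (hinj : Function.Injective β) (i : ι) :
    Tile a β 0 (a + β i) (fun j => a * (if j = i then 1 else 0)) := by
  refine ⟨fun x => if x < β i then x + a else x - β i, ⟨?_, ?_, ?_⟩, ?_, ?_⟩
  · intro x hx
    simp only [Set.mem_Ico] at hx ⊢
    push_cast at hx ⊢
    split_ifs with h
    · constructor <;> omega
    · constructor <;> omega
  · intro x hx y hy hxy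
    simp only [Set.mem_Ico] at hx hy
    push_cast at hx hy
    simp only at hxy
    split_ifs at hxy <;> omega
  · intro y hy
    simp only [Set.mem_Ico] at hy
    push_cast at hy
    by_cases h : y < a
    · refine ⟨y + β i, ?_, ?_⟩
      · simp only [Set.mem_Ico]
        push_cast
        constructor <;> omega
      · have : ¬ (y + (β i : ℤ) < β i) := by omega
        simp [this]
    · refine ⟨y - a, ?_, ?_⟩
      · simp only [Set.mem_Ico]
        push_cast
        constructor <;> omega
      · have : y - (a : ℤ) < β i := by omega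
        simp [this]
  · intro x _ _
    simp only
    split_ifs with h
    · right; left; rfl
    · right; right; exact ⟨i, rfl⟩
  · intro j
    by_cases hj : j = i
    · subst hj
      have : {x : ℤ | 0 ≤ x ∧ x < ((a + β j : ℕ) : ℤ) ∧
          (if x < β j then x + (a : ℤ) else x - β j) = x - β j} =
          ((Finset.Ico (β j : ℤ) (a + β j) : Finset ℤ) : Set ℤ) := by
        ext x
        simp only [Set.mem_setOf_eq, Finset.coe_Ico, Set.mem_Ico]
        push_cast
        have := hβ j
        constructor
        · rintro ⟨h1, h2, h3⟩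
          split_ifs at h3 <;> constructor <;> omega
        · rintro ⟨h1, h2⟩
          refine ⟨by omega, by omega, ?_⟩
          rw [if_neg (by omega)]
      rw [this, Set.ncard_coe_finset, Int.card_Ico]
      simp
    · have : {x : ℤ | 0 ≤ x ∧ x < ((a + β i : ℕ) : ℤ) ∧
          (if x < β i then x + (a : ℤ) else x - β i) = x - β j} = ∅ := by
        ext x
        simp only [Set.mem_setOf_eq, Set.mem_empty_iff_false, iff_false, not_and]
        intro h1 h2 h3
        have := hβ j
        have hne : β j ≠ β i := fun h => hj (hinj h)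
        split_ifs at h3 <;> omega
      rw [this, Set.ncard_empty]
      simp [hj]

theorem TR_holds (hTC : S_TC) : S_TR := by
  classical
  intro ι _ a β ha hβ hinj z q
  have hmul : ∀ (i : ι) (n : ℕ), Tile a β 0 (n * (a + β i))
      (fun j => a * (if j = i then n else 0)) := by
    intro i n
    induction n with
    | zero =>
      have := TR_base_zero a β
      simpa using this
    | succ n ih =>
      have h := hTC ι a β 0 _ _ _ _ (le_refl _) (by norm_num) ih (TR_base a β hβ ha hinj i)
      have e1 : n * (a + β i) + (a + β i) = (n + 1) * (a + β i) := by ring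
      have e2 : (fun j => a * (if j = i then n else 0) + a * (if j = i then 1 else 0)) =
          (fun j => a * (if j = i then n + 1 else 0)) := by
        funext j
        split_ifs <;> ring
      rw [e1, e2] at h
      exact h
  have hsum : ∀ s : Finset ι, Tile a β 0 (∑ i ∈ s, z i * (a + β i))
      (fun j => a * (if j ∈ s then z j else 0)) := by
    intro s
    induction s using Finset.induction_on with
    | empty =>
      have := TR_base_zero a β
      simpa using this
    | insert i s his ih =>
      have h := hTC ι a β 0 _ _ _ _ (le_refl _) (by norm_num) (hmul i (z i)) ih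
      have e1 : z i * (a + β i) + ∑ k ∈ s, z k * (a + β k) =
          ∑ k ∈ insert i s, z k * (a + β k) := by
        rw [Finset.sum_insert his]
      have e2 : (fun j => a * (if j = i then z i else 0) + a * (if j ∈ s then z j else 0)) =
          (fun j => a * (if j ∈ insert i s then z j else 0)) := by
        funext j
        by_cases hj : j = i
        · subst hj
          simp [his]
        · simp [hj]
      rw [e1, e2] at h
      exact h
  have hq : ∀ q : ℕ, Tile a β 0 q (fun _ => 0) := by
    intro q
    induction q with
    | zero => exact TR_base_zero a β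
    | succ n ih =>
      have h := hTC ι a β 0 _ _ _ _ (le_refl _) (by norm_num) ih (TR_base_one a β hβ ha)
      simpa using h
  have h := hTC ι a β 0 _ _ _ _ (le_refl _) (by norm_num) (hsum Finset.univ) (hq q)
  simpa using h

end Pool.Agent.Lib.MP_8b7544_co.Hv
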