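import Pool.Agent.Lib.MP_8b7544_co.Hv.Stm3

set_option autoImplicit false

namespace Pool.Agent.Lib.MP_8b7544_co.Hv

open Finset
open scoped Pointwise

theorem TRI_holds (hNEW : S_NEW) : S_TRI := by
  intro X lo L K a b ha hb hab hL hcard
  by_contra hcon
  push Not at hcon
  have hL0 : (0 : ℤ) < L := by omega
  have hwin : ∀ i : ℕ, i < K → ∃ y : ℤ, lo + i * L ≤ y ∧ y < lo + i * L + L ∧ y ∉ X ∧
      (y - a ∈ X ∨ y + b ∈ X) := by
    intro i hi
    have hiL : (i : ℤ) * L + L ≤ K * L := by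
      have : ((i : ℤ) + 1) * L ≤ K * L :=
        mul_le_mul_of_nonneg_right (by exact_mod_cast hi) hL0.le
      linarith
    have h0 : (0 : ℤ) ≤ (i : ℤ) * L := by positivity
    have h1 := hcon (lo + i * L) (by linarith) (by linarith)
    obtain ⟨⟨x, hx, hx1, hx2⟩, y, hy1, hy2, hy⟩ := h1
    obtain ⟨x', hx', _, _, y', hy', hy1', hy2', hor⟩ := hNEW X (lo + i * L) L a b ha hb hab hL
      ⟨x, hx, hx1, hx2⟩ ⟨y, hy, hy1, hy2⟩
    refine ⟨y', hy1', hy2', hy', ?_⟩
    rcases hor with rfl | rfl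
    · left; simpa using hx'
    · right; simpa using hx'
  choose! m hm1 hm2 hm3 hm4 using hwin
  have hinj : Set.InjOn m (Finset.range K : Finset ℕ) := by
    intro i hi j hj heq
    rw [mem_coe, Finset.mem_range] at hi hj
    by_contra hne
    rcases lt_or_gt_of_ne hne with h | h
    · have h1 := hm2 i hi
      have h2 := hm1 j hj
      have h3 : ((i : ℤ) + 1) * L ≤ j * L :=
        mul_le_mul_of_nonneg_right (by exact_mod_cast h) hL0.le
      rw [heq] at h1
      linarith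
    · have h1 := hm2 j hj
      have h2 := hm1 i hi
      have h3 : ((j : ℤ) + 1) * L ≤ i * L :=
        mul_le_mul_of_nonneg_right (by exact_mod_cast h) hL0.le
      rw [heq] at h2
      linarith
  have hfin : ({y : ℤ | lo ≤ y ∧ y < lo + K * L ∧ y ∉ X ∧ (y - a ∈ X ∨ y + b ∈ X)}).Finite :=
    (Set.finite_Ico lo (lo + K * L)).subset fun y hy => ⟨hy.1, hy.2.1⟩
  have hsub : (((Finset.range K).image m : Finset ℤ) : Set ℤ) ⊆
      {y : ℤ | lo ≤ y ∧ y < lo + K * L ∧ y ∉ X ∧ (y - a ∈ X ∨ y + b ∈ X)} := by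
    intro z hz
    rw [mem_coe, mem_image] at hz
    obtain ⟨i, hi, rfl⟩ := hz
    rw [Finset.mem_range] at hi
    have h1 := hm1 i hi
    have h2 := hm2 i hi
    have h3 : ((i : ℤ) + 1) * L ≤ K * L :=
      mul_le_mul_of_nonneg_right (by exact_mod_cast hi) hL0.le
    have h4 : (0 : ℤ) ≤ (i : ℤ) * L := by positivity
    exact ⟨by linarith, by linarith, hm3 i hi, hm4 i hi⟩
  have h := Set.ncard_le_ncard hsub hfin
  rw [Set.ncard_coe_finset, card_image_of_injOn hinj, card_range] at h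
  omega

end Pool.Agent.Lib.MP_8b7544_co.Hv
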