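import Pool.Agent.Lib.MP_8b7544_co.Hv.Stm3

set_option autoImplicit false

namespace Pool.Agent.Lib.MP_8b7544_co.Hv

open Finset
open scoped Pointwise

private theorem two_step {V : Type} (s : Finset V) (F : V → ℤ) (t : ℤ) :
    (s.filter (fun w => F w ≤ t)).card =
      (s.filter (fun w => F w ≤ t - 1)).card + (s.filter (fun w => F w = t)).card := by
  classical
  rw [← Finset.card_union_of_disjoint]
  · congr 1
    ext w
    simp only [mem_union, mem_filter]
    constructor
    · rintro ⟨h1, h2⟩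
      by_cases h3 : F w = t
      · right; exact ⟨h1, h3⟩
      · left; exact ⟨h1, by omega⟩
    · rintro (⟨h1, h2⟩ | ⟨h1, h2⟩)
      · exact ⟨h1, by omega⟩
      · exact ⟨h1, by omega⟩
  · rw [Finset.disjoint_left]
    intro w h1 h2
    rw [mem_filter] at h1 h2
    omega

private theorem two_count (P c : ℤ) (h0 : 0 ≤ c) (hc : c ≤ P + 1) :
    ∑ x ∈ Icc (0 : ℤ) P, (if c ≤ x then (1 : ℤ) else 0) = P + 1 - c := by
  rw [Finset.sum_boole]
  have h1 : (Icc (0 : ℤ) P).filter (fun x => c ≤ x) = Icc c P := by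
    ext x
    simp only [mem_filter, mem_Icc]
    constructor
    · rintro ⟨⟨_, h2⟩, h3⟩; exact ⟨h3, h2⟩
    · rintro ⟨h2, h3⟩; exact ⟨⟨by omega, h3⟩, h2⟩
  rw [h1, Int.card_Icc, Int.toNat_of_nonneg (by omega)]

private theorem two_sum {V : Type} (s : Finset V) (F : V → ℤ) (P κ : ℤ)
    (h : ∀ w ∈ s, 0 ≤ κ + F w ∧ κ + F w ≤ P + 1) :
    ∑ x ∈ Icc (0 : ℤ) P, ((s.filter (fun w => F w ≤ x - κ)).card : ℤ) =
      (P + 1 - κ) * s.card - ∑ w ∈ s, F w := by
  have h1 : ∀ x ∈ Icc (0 : ℤ) P, ((s.filter (fun w => F w ≤ x - κ)).card : ℤ) =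
      ∑ w ∈ s, (if κ + F w ≤ x then (1 : ℤ) else 0) := by
    intro x _
    rw [Finset.sum_boole]
    congr 2
    ext w
    simp only [mem_filter]
    constructor
    · rintro ⟨h2, h3⟩; exact ⟨h2, by omega⟩
    · rintro ⟨h2, h3⟩; exact ⟨h2, by omega⟩
  rw [Finset.sum_congr rfl h1, Finset.sum_comm,
    Finset.sum_congr rfl (fun w hw => two_count P (κ + F w) (h w hw).1 (h w hw).2)]
  have h2 : ∀ w ∈ s, P + 1 - (κ + F w) = (P + 1 - κ) - F w := fun w _ => by ring
  rw [Finset.sum_congr rfl h2, Finset.sum_sub_distrib, Finset.sum_const, nsmul_eq_mul]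
  ring

theorem TWO_holds : S_TWO := by
  classical
  intro V _ _ G par v u δ hadj hgood hv hu
  obtain ⟨-, -, hinj, -, hpsi, hpsi1⟩ := hgood
  have huv : u ≠ v := by
    intro h
    rw [h, hv] at hu
    exact absurd hu (by norm_num)
  -- bounds
  obtain ⟨Rb, hRb⟩ : ∃ Rb : ℕ, ∀ w, |δ w| ≤ (Rb : ℤ) ∧ |δ w + δ (par w)| ≤ (Rb : ℤ) := by
    refine ⟨∑ w, ((δ w).natAbs + (δ w + δ (par w)).natAbs), fun w => ?_⟩
    have h1 : (δ w).natAbs + (δ w + δ (par w)).natAbs ≤
        ∑ w, ((δ w).natAbs + (δ w + δ (par w)).natAbs) :=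
      Finset.single_le_sum (f := fun w => (δ w).natAbs + (δ w + δ (par w)).natAbs)
        (fun i _ => Nat.zero_le _) (Finset.mem_univ w)
    have h2 := Int.natCast_natAbs (δ w)
    have h3 := Int.natCast_natAbs (δ w + δ (par w))
    constructor <;> omega
  set SA : ℤ := ∑ w, δ w with hSA
  set SB : ℤ := ∑ w ∈ univ.erase v, (δ w + δ (par w)) with hSB
  refine ⟨(SB - SA).natAbs + Rb + 2, ?_⟩
  intro m hm hmu hmv
  set κ : ℤ := m u + SB - SA with hκ
  have hPP : PP m = (Fintype.card V : ℤ) - 1 + m u + m v := by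
    unfold PP
    have h1 : ∑ w, (m w : ℤ) = m u + m v := by
      rw [← Finset.add_sum_erase _ _ (Finset.mem_univ u),
        ← Finset.add_sum_erase _ _ (Finset.mem_erase.2 ⟨huv.symm, Finset.mem_univ v⟩),
        Finset.sum_eq_zero, add_zero]
      intro w hw
      rw [mem_erase, mem_erase] at hw
      rw [hm w hw.2.1 hw.1]
      rfl
    rw [h1]; ring
  set P : ℤ := PP m with hP
  have hcard : 1 ≤ Fintype.card V := Fintype.card_pos_iff.2 ⟨v⟩
  have hκ1 : (Rb : ℤ) + 1 ≤ κ := by omega
  have hκ2 : κ + Rb ≤ P := by omega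
  have hA : ∀ w ∈ (univ : Finset V), 0 ≤ κ + δ w ∧ κ + δ w ≤ P + 1 := by
    intro w _
    have h1 := abs_le.1 (hRb w).1
    constructor <;> omega
  have hB : ∀ w ∈ univ.erase v, 0 ≤ κ + (δ w + δ (par w)) ∧ κ + (δ w + δ (par w)) ≤ P + 1 := by
    intro w _
    have h1 := abs_le.1 (hRb w).2
    constructor <;> omega
  set ψ : ℤ → ℤ := fun t => psi par v univ δ t with hψ
  have hψ01 : ∀ t, ψ t = 0 ∨ ψ t = 1 := hpsi
  have hψ1 : ∀ w, ψ (δ w) = 1 := fun w => hpsi1 w (Finset.mem_univ w)
  have hstep : ∀ t, ψ t = ψ (t - 1) + ((univ : Finset V).filter (fun w => δ w = t)).card -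
      ((univ.erase v).filter (fun w => δ w + δ (par w) = t)).card := by
    intro t
    simp only [hψ, psi]
    rw [two_step univ δ t, two_step (univ.erase v) (fun w => δ w + δ (par w)) t]
    push_cast
    ring
  have hsumψ : ∑ x ∈ Icc (0 : ℤ) P, ψ (x - κ) = P + 1 - m u := by
    simp only [hψ, psi]
    rw [Finset.sum_sub_distrib, two_sum univ δ P κ hA,
      two_sum (univ.erase v) (fun w => δ w + δ (par w)) P κ hB,
      Finset.card_erase_of_mem (Finset.mem_univ v), Finset.card_univ,
      Nat.cast_sub hcard, ← hSA, ← hSB]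
    rw [hκ]
    push_cast
    ring
  have hPcard : ((Icc (0 : ℤ) P).card : ℤ) = P + 1 := by
    rw [Int.card_Icc, Int.toNat_of_nonneg (by omega)]
    ring
  -- counts
  have hc0 : (((Icc (0 : ℤ) P).filter (fun x => ψ (x - κ) = 0)).card : ℤ) = m u := by
    have h1 : (((Icc (0 : ℤ) P).filter (fun x => ψ (x - κ) = 0)).card : ℤ) =
        ∑ x ∈ Icc (0 : ℤ) P, (1 - ψ (x - κ)) := by
      rw [← Finset.sum_boole]
      refine Finset.sum_congr rfl fun x _ => ?_
      rcases hψ01 (x - κ) with h | h
      · rw [if_pos h, h]; norm_num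
      · rw [if_neg (by omega), h]; norm_num
    rw [h1, Finset.sum_sub_distrib, hsumψ, Finset.sum_const, nsmul_eq_mul, hPcard]
    ring
  have hc1 : (((Icc (0 : ℤ) P).filter (fun x => ψ (x - κ) = 1)).card : ℤ) = P + 1 - m u := by
    rw [← hsumψ, ← Finset.sum_boole]
    refine Finset.sum_congr rfl fun x _ => ?_
    rcases hψ01 (x - κ) with h | h
    · rw [if_neg (by omega), h]
    · rw [if_pos h, h]
  set f : ℤ → ℤ := fun x => x + (1 - ψ (x - κ)) with hf
  refine ⟨δ, κ, f, ?_, ?_, ?_⟩
  · intro y hy1 hy2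
    by_cases hyB : ∃ w, w ≠ v ∧ δ w + δ (par w) = y - κ
    · obtain ⟨w, hw1, hw2⟩ := hyB
      left
      exact ⟨w, par w, hadj w hw1, by omega⟩
    · right
      have h1 : ((univ.erase v).filter (fun w => δ w + δ (par w) = y - κ)).card = 0 := by
        rw [Finset.card_eq_zero, Finset.filter_eq_empty_iff]
        intro w hw h
        exact hyB ⟨w, (Finset.mem_erase.1 hw).1, h⟩
      have h2 := hstep (y - κ)
      rw [h1] at h2
      push_cast at h2
      have hnot : ∀ x, ψ (x - κ) = 0 → ∀ w, x ≠ κ + δ w := by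
        intro x hx w hxw
        have h3 := hψ1 w
        rw [hxw, add_sub_cancel_left, h3] at hx
        exact absurd hx (by norm_num)
      by_cases hyA : ∃ w, δ w = y - κ
      · obtain ⟨w, hw⟩ := hyA
        have h3 : ψ (y - κ) = 1 := by rw [← hw]; exact hψ1 w
        have h4 : 0 < ((univ : Finset V).filter (fun w => δ w = y - κ)).card :=
          Finset.card_pos.2 ⟨w, by rw [mem_filter]; exact ⟨Finset.mem_univ w, hw⟩⟩
        have h5 : ψ (y - κ - 1) = 0 := by
          rcases hψ01 (y - κ - 1) with h | h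
          · exact h
          · omega
        have h6 : y - 1 - κ = y - κ - 1 := by ring
        refine ⟨y - 1, by omega, by omega, hnot _ (by rw [h6]; exact h5), ?_⟩
        simp only [hf]
        rw [h6, h5]; ring
      · have h4 : ((univ : Finset V).filter (fun w => δ w = y - κ)).card = 0 := by
          rw [Finset.card_eq_zero, Finset.filter_eq_empty_iff]
          intro w _ h
          exact hyA ⟨w, h⟩
        rw [h4] at h2
        push_cast at h2
        rcases hψ01 (y - κ) with h | h
        · have h6 : y - 1 - κ = y - κ - 1 := by ring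
          have h5 : ψ (y - κ - 1) = 0 := by linarith
          refine ⟨y - 1, by omega, by omega, hnot _ (by rw [h6]; exact h5), ?_⟩
          simp only [hf]
          rw [h6, h5]; ring
        · refine ⟨y, by omega, hy2, ?_, ?_⟩
          · intro w hw
            exact hyA ⟨w, by omega⟩
          · simp only [hf]
            rw [h]; ring
  · intro x _ _ _
    rcases hψ01 (x - κ) with h | h
    · refine ⟨u, ?_⟩
      simp only [hf]
      rw [h, hu]; ring
    · refine ⟨v, ?_⟩
      simp only [hf]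
      rw [h, hv]; ring
  · intro w
    by_cases hwu : w = u
    · subst hwu
      have h1 : {x : ℤ | 0 ≤ x ∧ x ≤ P ∧ (∀ w', x ≠ κ + δ w') ∧ f x = x + δ w} ⊆
          (((Icc (0 : ℤ) P).filter (fun x => ψ (x - κ) = 0) : Finset ℤ) : Set ℤ) := by
        rintro x ⟨hx1, hx2, -, hx3⟩
        rw [Finset.mem_coe, mem_filter, mem_Icc]
        simp only [hf] at hx3
        rw [hu] at hx3
        exact ⟨⟨hx1, hx2⟩, by omega⟩
      have h2 := Set.ncard_le_ncard h1 (Finset.finite_toSet _)
      rw [Set.ncard_coe_finset] at h2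
      have h3 : (((Icc (0 : ℤ) P).filter (fun x => ψ (x - κ) = 0)).card) = m w := by
        exact_mod_cast hc0
      rw [h3] at h2
      exact h2
    · by_cases hwv : w = v
      · subst hwv
        have h1 : {x : ℤ | 0 ≤ x ∧ x ≤ P ∧ (∀ w', x ≠ κ + δ w') ∧ f x = x + δ w} ⊆
            ((((Icc (0 : ℤ) P).filter (fun x => ψ (x - κ) = 1)) \
              (univ.image (fun w' => κ + δ w')) : Finset ℤ) : Set ℤ) := by
          rintro x ⟨hx1, hx2, hx4, hx3⟩
          rw [Finset.mem_coe, mem_sdiff, mem_filter, mem_Icc, mem_image]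
          simp only [hf] at hx3
          rw [hv] at hx3
          refine ⟨⟨⟨hx1, hx2⟩, by omega⟩, ?_⟩
          rintro ⟨w', -, hw'⟩
          exact hx4 w' hw'.symm
        have h2 := Set.ncard_le_ncard h1 (Finset.finite_toSet _)
        rw [Set.ncard_coe_finset, Finset.card_sdiff_of_subset] at h2
        · rw [Finset.card_image_of_injective] at h2
          · rw [Finset.card_univ] at h2
            have h3 : (((Icc (0 : ℤ) P).filter (fun x => ψ (x - κ) = 1)).card : ℤ) =
              Fintype.card V + m w := by rw [hc1]; linarith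
            have h4 : ((Icc (0 : ℤ) P).filter (fun x => ψ (x - κ) = 1)).card =
              Fintype.card V + m w := by exact_mod_cast h3
            rw [h4, Nat.add_sub_cancel_left] at h2
            exact h2
          · intro a b hab
            have hab' : κ + δ a = κ + δ b := hab
            exact hinj (Finset.mem_coe.2 (Finset.mem_univ a)) (Finset.mem_coe.2 (Finset.mem_univ b))
              (by linarith)
        · intro x hx
          rw [mem_image] at hx
          obtain ⟨w', -, rfl⟩ := hx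
          rw [mem_filter, mem_Icc, add_sub_cancel_left]
          have h3 := abs_le.1 (hRb w').1
          exact ⟨⟨by omega, by omega⟩, hψ1 w'⟩
      · have h1 : {x : ℤ | 0 ≤ x ∧ x ≤ P ∧ (∀ w', x ≠ κ + δ w') ∧ f x = x + δ w} = ∅ := by
          rw [Set.eq_empty_iff_forall_notMem]
          rintro x ⟨-, -, -, hx3⟩
          simp only [hf] at hx3
          rcases hψ01 (x - κ) with h | h
          · apply hwu
            exact hinj (Finset.mem_coe.2 (Finset.mem_univ w)) (Finset.mem_coe.2 (Finset.mem_univ u))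
              (by linarith)
          · apply hwv
            exact hinj (Finset.mem_coe.2 (Finset.mem_univ w)) (Finset.mem_coe.2 (Finset.mem_univ v))
              (by linarith)
        rw [h1, Set.ncard_empty]
        exact Nat.zero_le _

end Pool.Agent.Lib.MP_8b7544_co.Hv
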