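import Pool.Agent.Lib.MP_8b7544_co.Hv.Stm3

set_option autoImplicit false

namespace Pool.Agent.Lib.MP_8b7544_co.Hv

open Finset

theorem UNI_holds (hTHR : S_THR) (hGEX : S_GEX) (hTWO : S_TWO) : S_UNI := by
  classical
  intro N
  have key : ∀ (n : ℕ) (p : SimpleGraph (Fin n) × Finset (Fin n)), ∃ M : ℕ, p.1.IsTree →
      2 ≤ p.2.card → (∀ v u, p.2 = {v, u} → ¬ Exc p.1 v u) →
      ∀ m : Fin n → ℕ, (∀ w, w ∉ p.2 → m w = 0) → (∀ w ∈ p.2, M ≤ m w) → Lab p.1 m := by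
    rintro n ⟨G, U⟩
    by_cases hG : G.IsTree
    swap
    · exact ⟨0, fun h => absurd h hG⟩
    by_cases h3 : 3 ≤ U.card
    · obtain ⟨M, hM⟩ := hTHR (Fin n) G hG U h3
      exact ⟨M, fun _ _ _ => hM⟩
    by_cases h2 : U.card = 2
    swap
    · exact ⟨0, fun _ h => by simp only at h; omega⟩
    obtain ⟨v, u, hvu, hU⟩ := Finset.card_eq_two.1 h2
    by_cases hE : Exc G v u
    · exact ⟨0, fun _ _ h => absurd hE (h v u hU)⟩
    obtain ⟨par, δ, h4, h5, h6, h7⟩ := hGEX (Fin n) G hG v u hvu hE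
    obtain ⟨M, hM⟩ := hTWO (Fin n) G par v u δ h4 h5 h6 h7
    refine ⟨M, fun _ _ _ m hm0 hm => hM m ?_ ?_ ?_⟩
    · intro w hw1 hw2
      apply hm0
      simp [hU, hw1, hw2]
    · apply hm; simp [hU]
    · apply hm; simp [hU]
  choose M hM using key
  have hb : ∀ n : ℕ, ∃ B, ∀ p, M n p ≤ B := by
    intro n
    obtain ⟨B, hB⟩ := (Set.finite_range (M n)).bddAbove
    exact ⟨B, fun p => hB ⟨p, rfl⟩⟩
  choose B hB using hb
  refine ⟨(range (N + 1)).sup B, ?_⟩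
  intro n hn G hG U hU hexc m hm0 hm
  refine hM n (G, U) hG hU hexc m hm0 ?_
  intro w hw
  exact (hB n (G, U)).trans ((Finset.le_sup (f := B) (mem_range.2 (by omega))).trans (hm w hw))

end Pool.Agent.Lib.MP_8b7544_co.Hv
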