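import Pool.Agent.Lib.MP_8b7544_co.Hv.P_AR
import Pool.Agent.Lib.MP_8b7544_co.Hv.P_AS
import Pool.Agent.Lib.MP_8b7544_co.Hv.P_C2
import Pool.Agent.Lib.MP_8b7544_co.Hv.P_C4a
import Pool.Agent.Lib.MP_8b7544_co.Hv.P_C4b
import Pool.Agent.Lib.MP_8b7544_co.Hv.P_CD
import Pool.Agent.Lib.MP_8b7544_co.Hv.P_CHN
import Pool.Agent.Lib.MP_8b7544_co.Hv.P_CIM
import Pool.Agent.Lib.MP_8b7544_co.Hv.P_COR
import Pool.Agent.Lib.MP_8b7544_co.Hv.P_DEL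
import Pool.Agent.Lib.MP_8b7544_co.Hv.P_EV6
import Pool.Agent.Lib.MP_8b7544_co.Hv.P_EX3
import Pool.Agent.Lib.MP_8b7544_co.Hv.P_EX5
import Pool.Agent.Lib.MP_8b7544_co.Hv.P_EXT
import Pool.Agent.Lib.MP_8b7544_co.Hv.P_FIN
import Pool.Agent.Lib.MP_8b7544_co.Hv.P_FPR
import Pool.Agent.Lib.MP_8b7544_co.Hv.P_FUL
import Pool.Agent.Lib.MP_8b7544_co.Hv.P_G2
import Pool.Agent.Lib.MP_8b7544_co.Hv.P_G4
import Pool.Agent.Lib.MP_8b7544_co.Hv.P_GAP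
import Pool.Agent.Lib.MP_8b7544_co.Hv.P_GEX
import Pool.Agent.Lib.MP_8b7544_co.Hv.P_GL
import Pool.Agent.Lib.MP_8b7544_co.Hv.P_GR
import Pool.Agent.Lib.MP_8b7544_co.Hv.P_HC
import Pool.Agent.Lib.MP_8b7544_co.Hv.P_HIT
import Pool.Agent.Lib.MP_8b7544_co.Hv.P_IND
import Pool.Agent.Lib.MP_8b7544_co.Hv.P_LAN
import Pool.Agent.Lib.MP_8b7544_co.Hv.P_LH
import Pool.Agent.Lib.MP_8b7544_co.Hv.P_NAP
import Pool.Agent.Lib.MP_8b7544_co.Hv.P_NEW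
import Pool.Agent.Lib.MP_8b7544_co.Hv.P_ODD
import Pool.Agent.Lib.MP_8b7544_co.Hv.P_ONE
import Pool.Agent.Lib.MP_8b7544_co.Hv.P_P3
import Pool.Agent.Lib.MP_8b7544_co.Hv.P_P5
import Pool.Agent.Lib.MP_8b7544_co.Hv.P_RED
import Pool.Agent.Lib.MP_8b7544_co.Hv.P_ROL
import Pool.Agent.Lib.MP_8b7544_co.Hv.P_STR
import Pool.Agent.Lib.MP_8b7544_co.Hv.P_TC
import Pool.Agent.Lib.MP_8b7544_co.Hv.P_THR
import Pool.Agent.Lib.MP_8b7544_co.Hv.P_TL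
import Pool.Agent.Lib.MP_8b7544_co.Hv.P_TR
import Pool.Agent.Lib.MP_8b7544_co.Hv.P_TRI
import Pool.Agent.Lib.MP_8b7544_co.Hv.P_TWO
import Pool.Agent.Lib.MP_8b7544_co.Hv.P_UNI

set_option autoImplicit false

namespace Pool.Agent.Lib.MP_8b7544_co.Hv

theorem str : S_STR := STR_holds (RED_holds LAN_holds) CD_holds NAP_holds

theorem hc : S_HC := HC_holds (TRI_holds NEW_holds) GR_holds GL_holds

theorem as' : S_AS := AS_holds AR_holds (TL_holds TC_holds) (TR_holds TC_holds)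

theorem rol : S_ROL := ROL_holds DEL_holds (CIM_holds str) (COR_holds (LH_holds hc) as')

theorem thr : S_THR := THR_holds rol

theorem chn : S_CHN := CHN_holds EXT_holds

theorem gex : S_GEX := GEX_holds ONE_holds (ODD_holds chn) (EV6_holds chn)
  (G2_holds HIT_holds C2A_holds C2B_holds C2C_holds)
  (G4_holds HIT_holds C4A_holds C4B_holds C4C_holds C4D_holds C4E_holds) (FUL_holds EXT_holds)

theorem uni : S_UNI := UNI_holds thr gex TWO_holds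

theorem fin : S_FIN := FIN_holds uni IND_holds GAP_holds (EX3_holds P3_holds FPR_holds)
  (EX5_holds P5_holds FPR_holds) FPR_holds

end Pool.Agent.Lib.MP_8b7544_co.Hv
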