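import Mathlib
import Pool.Agent.Lib.MP_8b7544_co.Defs

set_option autoImplicit false

namespace Pool.Agent.Lib.MP_8b7544_co.Hv

open Finset
open scoped Pointwise

/-- Number of edges of the tree made of a tree on `V` and `m w` further leaves at each `w`. -/
def PP {V : Type} [Fintype V] (m : V → ℕ) : ℤ := (Fintype.card V : ℤ) - 1 + ∑ w, (m w : ℤ)

/-- Labelling data for the tree `G` with `m w` further leaves at each vertex `w`: the vertex `w`
gets the label `κ + δ w`, the edge `ab` of `G` the label `- (κ + δ a + δ b)`; every other label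
`x` in `[0, PP m]` is the label of a leaf at a vertex `w` with `f x = x + δ w`, whose edge gets
the label `- f x`. -/
def Lab {V : Type} [Fintype V] (G : SimpleGraph V) (m : V → ℕ) : Prop :=
  ∃ (δ : V → ℤ) (κ : ℤ) (f : ℤ → ℤ),
    (∀ y : ℤ, 1 ≤ y → y ≤ PP m →
      (∃ a b, G.Adj a b ∧ y = κ + δ a + δ b) ∨
        ∃ x : ℤ, 0 ≤ x ∧ x ≤ PP m ∧ (∀ w, x ≠ κ + δ w) ∧ f x = y) ∧
    (∀ x : ℤ, 0 ≤ x → x ≤ PP m → (∀ w, x ≠ κ + δ w) → ∃ w, f x = x + δ w) ∧
    (∀ w, {x : ℤ | 0 ≤ x ∧ x ≤ PP m ∧ (∀ w', x ≠ κ + δ w') ∧ f x = x + δ w}.ncard ≤ m w)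

/-- The Hall type inequality for sources outside `A`, targets outside `B`, displacements `D`. -/
def CI (A B D : Finset ℤ) : Prop :=
  ∀ X : Finset ℤ, Disjoint X A → X.card + (B ∩ (X + D)).card ≤ (X + D).card

/-- Tiles: a bijection of `[0, ℓ)` onto `[s, ℓ + s)` with displacements `0`, `a` or `- β i`,
the displacement `- β i` being used `c i` times. -/
def Tile {ι : Type} (a : ℕ) (β : ι → ℕ) (s : ℤ) (ℓ : ℕ) (c : ι → ℕ) : Prop :=
  ∃ g : ℤ → ℤ, Set.BijOn g (Set.Ico 0 (ℓ : ℤ)) (Set.Ico s (ℓ + s)) ∧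
    (∀ x : ℤ, 0 ≤ x → x < ℓ → g x = x ∨ g x = x + a ∨ ∃ i, g x = x - β i) ∧
    ∀ i, {x : ℤ | 0 ≤ x ∧ x < ℓ ∧ g x = x - β i}.ncard = c i

/-- `ψ`: number of vertex offsets `≤ t` minus number of edge offsets `≤ t`, on a set `S` of
vertices of a tree rooted at `v` with parent function `par`. -/
def psi {V : Type} [DecidableEq V] (par : V → V) (v : V) (S : Finset V) (δ : V → ℤ) (t : ℤ) : ℤ :=
  ((S.filter (fun w => δ w ≤ t)).card : ℤ)
    - (((S.erase v).filter (fun w => δ w + δ (par w) ≤ t)).card : ℤ)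

/-- Interlacing labellings of the parent closed set `S`. -/
def Good {V : Type} [DecidableEq V] (par : V → V) (v : V) (S : Finset V) (δ : V → ℤ) : Prop :=
  v ∈ S ∧ (∀ x ∈ S, x ≠ v → par x ∈ S) ∧
  Set.InjOn δ S ∧ Set.InjOn (fun w => δ w + δ (par w)) (S.erase v : Finset V) ∧
  (∀ t : ℤ, psi par v S δ t = 0 ∨ psi par v S δ t = 1) ∧
  (∀ w ∈ S, psi par v S δ (δ w) = 1)

end Pool.Agent.Lib.MP_8b7544_co.Hv
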