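import Pool.Agent.Lib.MP_8b7544_co.Hv.Stm3

set_option autoImplicit false

namespace Pool.Agent.Lib.MP_8b7544_co.Hv

open Finset
open scoped Pointwise

theorem AR_holds : S_AR := by
  classical
  intro ι _ a β ha
  set Bn : ℕ := ∑ i, (a + β i) with hBn
  refine ⟨a * a * Bn + a * a, ?_⟩
  intro m m0 m1 z0 hm hm0 hz0 hsum hz
  push_cast at hz0 hsum
  have hBi : ∀ i, a + β i ≤ Bn := fun i =>
    Finset.single_le_sum (f := fun i => a + β i) (fun i _ => Nat.zero_le _) (Finset.mem_univ i)
  have haB : ((a : ℤ) - 1) * Bn ≤ a * a * Bn := by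
    have h1 : (0 : ℤ) ≤ Bn := Int.natCast_nonneg _
    have h2 : (a : ℤ) - 1 ≤ a * a := by nlinarith [(by omega : (2 : ℤ) ≤ a)]
    exact mul_le_mul_of_nonneg_right h2 h1
  have haa : (4 : ℤ) ≤ a * a := by nlinarith [(by omega : (2 : ℤ) ≤ a)]
  -- residues
  have hres : ∀ i, ∃ r : ℕ, r < a ∧ a ∣ m i + r := by
    intro i
    refine ⟨(a - m i % a) % a, Nat.mod_lt _ (by omega), ?_⟩
    have h1 : m i % a < a := Nat.mod_lt _ (by omega)
    have h4 : m i = a * (m i / a) + m i % a := (Nat.div_add_mod _ _).symm
    by_cases h3 : m i % a = 0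
    · rw [h3, Nat.sub_zero, Nat.mod_self, Nat.add_zero]
      exact Nat.dvd_of_mod_eq_zero h3
    · rw [Nat.mod_eq_of_lt (show a - m i % a < a by omega)]
      refine ⟨m i / a + 1, ?_⟩
      rw [mul_add, mul_one]
      omega
  choose r hr1 hr2 using hres
  -- the feasible vectors
  set S : (ι → ℕ) → ℤ := fun e => ∑ i, ((r i + a * e i : ℕ) : ℤ) * (a + β i) with hS
  set P : (ι → ℕ) → Prop := fun e => (∀ i, (a - 1) * (r i + a * e i) ≤ m i) ∧ S e ≤ z0 with hP
  have hex : ∃ n : ℕ, ∃ e, P e ∧ (z0 - S e).toNat = n := by
    refine ⟨_, fun _ => 0, ⟨?_, ?_⟩, rfl⟩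
    · intro i
      have h1 := hm i
      have h2 := hr1 i
      have h3 : (a - 1) * (r i + a * 0) ≤ a * a := by
        rw [Nat.mul_zero, Nat.add_zero]
        exact Nat.mul_le_mul (by omega) h2.le
      have h4 : a * a ≤ a * a * Bn + a * a := Nat.le_add_left _ _
      exact h3.trans (h4.trans h1)
    · have h1 : S (fun _ => 0) ≤ ((a : ℤ) - 1) * Bn := by
        simp only [hS, hBn]
        push_cast
        rw [Finset.mul_sum]
        refine Finset.sum_le_sum fun i _ => ?_
        have h2 := hr1 i
        have h3 : (0 : ℤ) ≤ (a : ℤ) + β i := by positivity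
        refine mul_le_mul_of_nonneg_right ?_ h3
        omega
      linarith
  obtain ⟨e, ⟨he1, he2⟩, he3⟩ := Nat.find_spec hex
  have hmin : ∀ e', P e' → S e' ≤ S e := by
    intro e' he'
    have h1 := Nat.find_min' hex ⟨e', he', rfl⟩
    rw [← he3] at h1
    have h2 := he'.2
    omega
  -- the multipliers
  have ht : ∀ i, ∃ t : ℕ, m i + (r i + a * e i) = a * t := by
    intro i
    obtain ⟨t, ht⟩ := hr2 i
    exact ⟨t + e i, by rw [mul_add, ← ht]; ring⟩
  choose t ht using ht
  set d : ι → ℕ := fun i => r i + a * e i with hd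
  have hdt : ∀ i, d i ≤ t i := by
    intro i
    have h1 := he1 i
    have h2 := ht i
    have h3 : a * d i ≤ a * t i := by
      have h4 : a * d i = (a - 1) * d i + d i := by
        obtain ⟨b, rfl⟩ : ∃ b, a = b + 1 := ⟨a - 1, by omega⟩
        rw [Nat.add_sub_cancel]; ring
      have h5 : m i + d i = a * t i := h2
      have h6 : (a - 1) * d i ≤ m i := h1
      omega
    exact Nat.le_of_mul_le_mul_left h3 (by omega)
  set pz : ℤ := m1 - ∑ i, (d i : ℤ) - ∑ i, (β i : ℤ) * t i with hpz
  have hzS : z0 = S e + a * pz := by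
    have h1 : ∑ i, (β i : ℤ) * m i = a * ∑ i, (β i : ℤ) * t i - ∑ i, (β i : ℤ) * d i := by
      rw [Finset.mul_sum, ← Finset.sum_sub_distrib]
      refine Finset.sum_congr rfl fun i _ => ?_
      have h2 : (m i : ℤ) + d i = a * t i := by exact_mod_cast ht i
      have h3 : (m i : ℤ) = a * t i - d i := by linarith
      rw [h3]; ring
    have h4 : S e = a * ∑ i, (d i : ℤ) + ∑ i, (β i : ℤ) * d i := by
      rw [Finset.mul_sum, ← Finset.sum_add_distrib]
      refine Finset.sum_congr rfl fun i _ => ?_
      change (d i : ℤ) * (a + β i) = _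
      ring
    rw [hz, h1, h4, hpz]; ring
  have ha0 : (0 : ℤ) < a := by omega
  have hp0 : 0 ≤ pz := by
    have h1 : 0 ≤ (a : ℤ) * pz := by linarith
    exact nonneg_of_mul_nonneg_right h1 ha0
  refine ⟨d, fun i => t i - d i, pz.toNat, ?_, ?_, ?_⟩
  · intro i
    have h1 := hdt i
    have h2 : m i + d i = a * t i := ht i
    have h3 : a * (t i - d i) = a * t i - a * d i := Nat.mul_sub _ _ _
    have h4 : a * d i = (a - 1) * d i + d i := by
      obtain ⟨b, rfl⟩ : ∃ b, a = b + 1 := ⟨a - 1, by omega⟩
      rw [Nat.add_sub_cancel]; ring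
    have h5 : a * d i ≤ a * t i := Nat.mul_le_mul_left a h1
    rw [h3]
    omega
  · rw [Int.toNat_of_nonneg hp0, hzS]
  · -- the bound
    have key : ((a : ℤ) - 1) * pz ≤ m0 := by
      have hm0' : (a : ℤ) * a * Bn + a * a ≤ m0 := by exact_mod_cast hm0
      by_cases hcase : ∃ i, z0 < S e + a * (a + β i)
      · obtain ⟨i, hi⟩ := hcase
        rw [hzS] at hi
        have h1 : (a : ℤ) * pz < a * (a + β i) := by linarith
        have h2 : pz < a + β i := lt_of_mul_lt_mul_left h1 ha0.le
        have h3 : (a : ℤ) + β i ≤ Bn := by exact_mod_cast hBi i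
        have h4 : ((a : ℤ) - 1) * pz ≤ ((a : ℤ) - 1) * Bn :=
          mul_le_mul_of_nonneg_left (by linarith) (by omega)
        linarith
      · have hcase' : ∀ i, S e + a * (a + β i) ≤ z0 := fun i => not_lt.1 (fun h => hcase ⟨i, h⟩)
        have hbig : ∀ i, (m i : ℤ) - a * (a - 1) ≤ (a - 1) * d i := by
          intro i
          by_contra hcon
          have hcon' := not_le.1 hcon
          -- increase e i
          have hSe : S (Function.update e i (e i + 1)) = S e + a * (a + β i) := by
            simp only [hS]
            rw [← Finset.add_sum_erase _ _ (Finset.mem_univ i),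
              ← Finset.add_sum_erase (Finset.univ) (fun i => ((r i + a * e i : ℕ) : ℤ) * (a + β i))
              (Finset.mem_univ i)]
            have h1 : ∀ j ∈ Finset.univ.erase i,
                ((r j + a * (Function.update e i (e i + 1)) j : ℕ) : ℤ) * (a + β j) =
                  ((r j + a * e j : ℕ) : ℤ) * (a + β j) := by
              intro j hj
              rw [Function.update_of_ne (Finset.ne_of_mem_erase hj)]
            rw [Finset.sum_congr rfl h1, Function.update_self]
            push_cast
            ring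
          have hPe : P (Function.update e i (e i + 1)) := by
            refine ⟨?_, ?_⟩
            · intro j
              by_cases hj : j = i
              · subst hj
                rw [Function.update_self]
                have h1 : (((a - 1) * (r j + a * (e j + 1)) : ℕ) : ℤ) ≤ (m j : ℤ) := by
                  push_cast [Nat.cast_sub (show 1 ≤ a by omega)]
                  have h2 : (d j : ℤ) = r j + a * e j := by rw [hd]; push_cast; ring
                  rw [h2] at hcon'
                  have h3 : ((a : ℤ) - 1) * (r j + a * (e j + 1)) =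
                    (a - 1) * (r j + a * e j) + a * (a - 1) := by ring
                  rw [h3]
                  linarith
                exact_mod_cast h1
              · rw [Function.update_of_ne hj]
                exact he1 j
            · rw [hSe]
              exact hcase' i
          have h4 := hmin _ hPe
          rw [hSe] at h4
          have h5 : 0 < (a : ℤ) * (a + β i) := by positivity
          linarith
        have h1 : ∑ i, (m i : ℤ) * (a + β i) - a * (a - 1) * Bn ≤ (a - 1) * S e := by
          rw [hBn]
          push_cast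
          rw [Finset.mul_sum, Finset.mul_sum, ← Finset.sum_sub_distrib]
          refine Finset.sum_le_sum fun i _ => ?_
          have h2 := hbig i
          have h3 : (0 : ℤ) ≤ (a : ℤ) + β i := by positivity
          have h4 := mul_le_mul_of_nonneg_right h2 h3
          have h5 : ((a : ℤ) - 1) * (((r i + a * e i : ℕ) : ℤ) * (a + β i)) =
            (a - 1) * (d i : ℤ) * (a + β i) := by
            change _ = (a - 1) * ((r i + a * e i : ℕ) : ℤ) * (a + β i)
            ring
          rw [h5]
          linarith
        have h6 : ∑ i, (m i : ℤ) * (a + β i) = a * ∑ i, (m i : ℤ) + ∑ i, (β i : ℤ) * m i := by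
          rw [Finset.mul_sum, ← Finset.sum_add_distrib]
          refine Finset.sum_congr rfl fun i _ => ?_
          ring
        have h7 : (a : ℤ) * ((a - 1) * pz) ≤ a * m0 := by
          have h8 : (a : ℤ) * ((a - 1) * pz) = (a - 1) * z0 - (a - 1) * S e := by
            rw [hzS]; ring
          rw [h8]
          have h9 : (a : ℤ) * (z0 + (a * a * Bn + a * a)) ≤ a * (m0 + m1 + ∑ i, (m i : ℤ)) :=
            mul_le_mul_of_nonneg_left hsum ha0.le
          have h10 : (a : ℤ) * (a - 1) * Bn ≤ a * (a * a * Bn + a * a) := by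
            have h11 : (a : ℤ) * ((a - 1) * Bn) ≤ a * (a * a * Bn) :=
              mul_le_mul_of_nonneg_left haB ha0.le
            have h12 : (0 : ℤ) ≤ a * (a * a) := by positivity
            linarith
          linarith
        exact le_of_mul_le_mul_left h7 ha0
    have h1 : (((a - 1) * pz.toNat : ℕ) : ℤ) ≤ (m0 : ℤ) := by
      push_cast [Nat.cast_sub (show 1 ≤ a by omega)]
      rw [Int.toNat_of_nonneg hp0]
      exact key
    exact_mod_cast h1

end Pool.Agent.Lib.MP_8b7544_co.Hv
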