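import Pool.Agent.Lib.MP_8b7544_co.Hv.P_THR

set_option autoImplicit false

namespace Pool.Agent.Lib.MP_8b7544_co.Hv

open Finset

theorem DEL_holds : S_DEL := by
  intro V _ _ r par U δ e a Γ v u β hv hu hvu hδv hδu ha hδw hδl he hΓ hβinj h2 h3 hpar hedge
  classical
  have hapos : (0 : ℤ) < a := by exact_mod_cast ha
  have hpow : ∀ n : ℕ, (0 : ℤ) < 4 ^ n := fun n => by positivity
  have hΓpos : 0 < Γ := by linarith
  have cls : ∀ p ∈ U, (p = v ∧ δ p = 0) ∨ (p = u ∧ δ p = a) ∨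
      (p ≠ v ∧ p ≠ u ∧ δ p = -(β p : ℤ) ∧ 1 ≤ β p ∧ β p < a) := by
    intro p hp
    by_cases h1 : p = v
    · exact Or.inl ⟨h1, by rw [h1, hδv]⟩
    by_cases h1' : p = u
    · exact Or.inr (Or.inl ⟨h1', by rw [h1', hδu]⟩)
    · have := hδw p hp h1 h1'
      exact Or.inr (Or.inr ⟨h1, h1', this.1, this.2.1, this.2.2⟩)
  have hDb : ∀ w ∈ U, |δ w| ≤ (a : ℤ) := by
    intro w hw
    rw [abs_le]
    rcases cls w hw with ⟨_, h⟩ | ⟨_, h⟩ | ⟨_, _, h, h', h''⟩ <;> constructor <;> omega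
  let c : V → ℤ := fun w => if w ∈ U then 0 else 4 ^ (e w)
  have hcU : ∀ w, w ∈ U → c w = 0 := fun w hw => by simp [c, hw]
  have hcL : ∀ w, w ∉ U → c w = 4 ^ (e w) := fun w hw => by simp [c, hw]
  have hcb : ∀ w, |δ w - Γ * c w| ≤ a := by
    intro w
    by_cases hw : w ∈ U
    · rw [hcU w hw, mul_zero, sub_zero]; exact hDb w hw
    · rw [hcL w hw, hδl w hw, sub_self, abs_zero]; exact hapos.le
  have hcnn : ∀ w, 0 ≤ c w := by
    intro w
    by_cases hw : w ∈ U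
    · rw [hcU w hw]
    · rw [hcL w hw]; exact (hpow _).le
  have hsep : ∀ p q : ℤ, |Γ * (p - q)| < Γ → p = q := by
    intro p q h
    rw [abs_mul, abs_of_pos hΓpos] at h
    have h1 : |p - q| < 1 := by
      by_contra h2
      push Not at h2
      nlinarith
    have h2 := Int.abs_lt_one_iff.1 h1
    linarith
  have hz1 : ∀ i j k : ℕ, i ≠ j → (4 : ℤ) ^ i + 4 ^ j ≠ 4 ^ k := by
    intro i j k hij h
    exact thr_dig1 hij (by exact_mod_cast h)
  have hz2 : ∀ i j k l : ℕ, i ≠ j → k ≠ l → (4 : ℤ) ^ i + 4 ^ j = 4 ^ k + 4 ^ l →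
      (i = k ∧ j = l) ∨ (i = l ∧ j = k) := by
    intro i j k l hij hkl h
    exact thr_dig2 hij hkl (by exact_mod_cast h)
  have hz3 : ∀ i j : ℕ, (4 : ℤ) ^ i = 4 ^ j → i = j := by
    intro i j h
    have h1 : 4 ^ i = 4 ^ j := by exact_mod_cast h
    exact Nat.pow_right_injective (le_refl 2 |>.trans (by norm_num)) h1
  have hinj : Function.Injective δ := by
    intro p q hpq
    have hc : c p = c q := by
      apply hsep
      have e1 := abs_le.1 (hcb p)
      have e2 := abs_le.1 (hcb q)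
      rw [abs_lt]
      constructor
      · nlinarith
      · nlinarith
    by_cases h1 : p ∈ U <;> by_cases h2' : q ∈ U
    · rcases cls p h1 with ⟨h, h'⟩ | ⟨h, h'⟩ | ⟨h, h', h'', h5, h6⟩ <;>
      rcases cls q h2' with ⟨g, g'⟩ | ⟨g, g'⟩ | ⟨g, g', g'', g5, g6⟩
      · rw [h, g]
      · omega
      · omega
      · omega
      · rw [h, g]
      · omega
      · omega
      · omega
      · exact hβinj p h1 q h2' h h' g g' (by omega)
    · rw [hcU _ h1, hcL _ h2'] at hc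
      have := hpow (e q)
      omega
    · rw [hcL _ h1, hcU _ h2'] at hc
      have := hpow (e p)
      omega
    · rw [hcL _ h1, hcL _ h2'] at hc
      exact he (hz3 _ _ hc)
  refine ⟨hinj, ?_⟩
  -- pairs
  have hfin : ∀ p q p' q' : V, δ p + δ q = δ p' + δ q' →
      (p = p' ∨ p = q' ∨ q = p' ∨ q = q') → (p = p' ∧ q = q') ∨ (p = q' ∧ q = p') := by
    intro p q p' q' heq h
    rcases h with h | h | h | h
    · rw [h] at heq
      exact Or.inl ⟨h, hinj (by linarith)⟩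
    · rw [h] at heq
      exact Or.inr ⟨h, hinj (by linarith)⟩
    · rw [h] at heq
      exact Or.inr ⟨hinj (by linarith), h⟩
    · rw [h] at heq
      exact Or.inl ⟨hinj (by linarith), h⟩
  have hheavy : ∀ p ∈ U, ∀ q ∈ U, p ≠ q → ∀ p' ∈ U, ∀ q' ∈ U, p' ≠ q' →
      δ p + δ q = δ p' + δ q' → p = p' ∨ p = q' ∨ q = p' ∨ q = q' := by
    intro p hp q hq hpq p' hp' q' hq' hpq' heq
    by_contra hcon
    push Not at hcon
    obtain ⟨n1, n2, n3, n4⟩ := hcon
    rcases cls p hp with ⟨a1, a2⟩ | ⟨a1, a2⟩ | ⟨a1, a2, a3, a4, a5⟩ <;>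
    rcases cls q hq with ⟨b1, b2⟩ | ⟨b1, b2⟩ | ⟨b1, b2, b3, b4, b5⟩ <;>
    rcases cls p' hp' with ⟨c1, c2⟩ | ⟨c1, c2⟩ | ⟨c1, c2, c3, c4, c5⟩ <;>
    rcases cls q' hq' with ⟨d1, d2⟩ | ⟨d1, d2⟩ | ⟨d1, d2, d3, d4, d5⟩ <;>
    first
      | omega
      | exact hpq (a1.trans b1.symm)
      | exact hpq' (c1.trans d1.symm)
      | exact n1 (a1.trans c1.symm)
      | exact n2 (a1.trans d1.symm)
      | exact n3 (b1.trans c1.symm)
      | exact n4 (b1.trans d1.symm)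
      | exact h2 p' hp' q' hq' q hq c1 c2 d1 d2 b1 b2 hpq' (by omega)
      | exact h2 p' hp' q' hq' p hp c1 c2 d1 d2 a1 a2 hpq' (by omega)
      | exact h2 p hp q hq q' hq' a1 a2 b1 b2 d1 d2 hpq (by omega)
      | exact h2 p hp q hq p' hp' a1 a2 b1 b2 c1 c2 hpq (by omega)
      | exact (h3 p hp q hq p' hp' q' hq' a1 a2 b1 b2 c1 c2 d1 d2 hpq hpq' (by omega)).elim
          (fun h => n1 h.1) (fun h => n2 h.1)
  have hall : ∀ p q p' q' : V, p ≠ q → p' ≠ q' → δ p + δ q = δ p' + δ q' →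
      p = p' ∨ p = q' ∨ q = p' ∨ q = q' := by
    intro p q p' q' hpq hpq' heq
    have hc : c p + c q = c p' + c q' := by
      apply hsep
      have e1 := abs_le.1 (hcb p)
      have e2 := abs_le.1 (hcb q)
      have e3 := abs_le.1 (hcb p')
      have e4 := abs_le.1 (hcb q')
      rw [abs_lt]
      constructor
      · nlinarith
      · nlinarith
    have p1 := hpow (e p)
    have p2 := hpow (e q)
    have p3 := hpow (e p')
    have p4 := hpow (e q')
    have ne1 : e p ≠ e q := fun h => hpq (he h)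
    have ne2 : e p' ≠ e q' := fun h => hpq' (he h)
    by_cases a1 : p ∈ U <;> by_cases a2 : q ∈ U <;> by_cases a3 : p' ∈ U <;>
      by_cases a4 : q' ∈ U
    · exact hheavy p a1 q a2 hpq p' a3 q' a4 hpq' heq
    · rw [hcU _ a1, hcU _ a2, hcU _ a3, hcL _ a4] at hc; omega
    · rw [hcU _ a1, hcU _ a2, hcL _ a3, hcU _ a4] at hc; omega
    · rw [hcU _ a1, hcU _ a2, hcL _ a3, hcL _ a4] at hc; omega
    · rw [hcU _ a1, hcL _ a2, hcU _ a3, hcU _ a4] at hc; omega
    · rw [hcU _ a1, hcL _ a2, hcU _ a3, hcL _ a4, zero_add, zero_add] at hc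
      exact Or.inr (Or.inr (Or.inr (he (hz3 _ _ hc))))
    · rw [hcU _ a1, hcL _ a2, hcL _ a3, hcU _ a4, zero_add, add_zero] at hc
      exact Or.inr (Or.inr (Or.inl (he (hz3 _ _ hc))))
    · rw [hcU _ a1, hcL _ a2, hcL _ a3, hcL _ a4, zero_add] at hc
      exact absurd hc.symm (hz1 _ _ _ ne2)
    · rw [hcL _ a1, hcU _ a2, hcU _ a3, hcU _ a4] at hc; omega
    · rw [hcL _ a1, hcU _ a2, hcU _ a3, hcL _ a4, zero_add, add_zero] at hc
      exact Or.inr (Or.inl (he (hz3 _ _ hc)))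
    · rw [hcL _ a1, hcU _ a2, hcL _ a3, hcU _ a4, add_zero, add_zero] at hc
      exact Or.inl (he (hz3 _ _ hc))
    · rw [hcL _ a1, hcU _ a2, hcL _ a3, hcL _ a4, add_zero] at hc
      exact absurd hc.symm (hz1 _ _ _ ne2)
    · rw [hcL _ a1, hcL _ a2, hcU _ a3, hcU _ a4] at hc; omega
    · rw [hcL _ a1, hcL _ a2, hcU _ a3, hcL _ a4, zero_add] at hc
      exact absurd hc (hz1 _ _ _ ne1)
    · rw [hcL _ a1, hcL _ a2, hcL _ a3, hcU _ a4, add_zero] at hc
      exact absurd hc (hz1 _ _ _ ne1)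
    · rw [hcL _ a1, hcL _ a2, hcL _ a3, hcL _ a4] at hc
      rcases hz2 _ _ _ _ ne1 ne2 hc with h | h
      · exact Or.inl (he h.1)
      · exact Or.inr (Or.inl (he h.1))
  intro w hw w' hw' heq
  by_contra hne
  simp only at heq
  rcases hfin _ _ _ _ heq (hall w (par w) w' (par w') (fun h => hpar w hw h.symm)
    (fun h => hpar w' hw' h.symm) heq) with h | h
  · exact hne h.1
  · exact hedge w w' hw hw' hne ⟨h.1, h.2⟩

end Pool.Agent.Lib.MP_8b7544_co.Hv
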