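import Pool.Agent.Lib.MP_8b7544_co.Hv.Stm3

set_option autoImplicit false

namespace Pool.Agent.Lib.MP_8b7544_co.Hv

open Finset

theorem GAP_holds : S_GAP := by
  classical
  intro W k τ f I hτ hI
  by_contra hcon
  push Not at hcon
  obtain ⟨w0, -⟩ := hcon 0 (Nat.zero_le k)
  haveI : Nonempty W := ⟨w0⟩
  choose! g hg using hcon
  have hinj : Set.InjOn g (range (k + 1) : Finset ℕ) := by
    intro i hi j hj hij
    rw [mem_coe, mem_range] at hi hj
    obtain ⟨_, hi1, hi2⟩ := hg i (by omega)
    obtain ⟨_, hj1, hj2⟩ := hg j (by omega)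
    rw [hij] at hi1 hi2
    by_contra hne
    rcases lt_or_gt_of_ne hne with h | h
    · have := hτ.monotone (show i + 1 ≤ j from h)
      omega
    · have := hτ.monotone (show j + 1 ≤ i from h)
      omega
  have hmap : ∀ i ∈ range (k + 1), g i ∈ I := by
    intro i hi
    rw [mem_range] at hi
    exact (hg i (by omega)).1
  have hcard := Finset.card_le_card_of_injOn g hmap hinj
  rw [card_range] at hcard
  omega

end Pool.Agent.Lib.MP_8b7544_co.Hv
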