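import Pool.Agent.Lib.MP_8b7544_co.Hv.Stm3

set_option autoImplicit false

namespace Pool.Agent.Lib.MP_8b7544_co.Hv

open Finset
open scoped Pointwise

theorem NEW_holds : S_NEW := by
  intro X t L a b ha hb hab hL hx hy
  by_contra hcon
  push Not at hcon
  obtain ⟨x, hx, hx1, hx2⟩ := hx
  obtain ⟨y, hy, hy1, hy2⟩ := hy
  -- closure
  have hcl1 : ∀ z ∈ X, t ≤ z → z + a < t + L → z + a ∈ X := by
    intro z hz h1 h2
    by_contra h3
    have h4 := hcon z hz h1 (by omega) (z + a) h3 (by omega) h2
    exact h4.1 rfl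
  have hcl2 : ∀ z ∈ X, t ≤ z - b → z < t + L → z - b ∈ X := by
    intro z hz h1 h2
    by_contra h3
    have h4 := hcon z hz (by omega) h2 (z - b) h3 h1 (by omega)
    exact h4.2 rfl
  have hn : (0 : ℤ) < (a : ℤ) + b := by omega
  -- orbits of the rotation
  have horb : ∀ s : ℤ, t ≤ s → s + (a + b) ≤ t + L → ∀ i : ℤ, s + i % ((a : ℤ) + b) ∈ X →
      ∀ k : ℕ, s + (i + k * a) % ((a : ℤ) + b) ∈ X := by
    intro s hs1 hs2 i hi k
    induction k with
    | zero => simpa using hi
    | succ k ih =>
      have e : i + ((k + 1 : ℕ) : ℤ) * a = (i + k * a) + a := by push_cast; ring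
      rw [e]
      set r := (i + k * a) % ((a : ℤ) + b) with hr
      have hr0 : 0 ≤ r := Int.emod_nonneg _ hn.ne'
      have hr1 : r < (a : ℤ) + b := Int.emod_lt_of_pos _ hn
      have e2 : (i + k * a + a) % ((a : ℤ) + b) = (r + a) % ((a : ℤ) + b) := by
        rw [hr, Int.emod_add_emod]
      rw [e2]
      by_cases hrb : r < b
      · rw [Int.emod_eq_of_lt (by omega) (by omega)]
        have := hcl1 (s + r) ih (by omega) (by omega)
        rwa [add_assoc] at this
      · have e3 : (r + a) % ((a : ℤ) + b) = r - b := by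
          have e4 : r + a = (r - b) + ((a : ℤ) + b) := by ring
          rw [e4, Int.add_emod_right, Int.emod_eq_of_lt (by omega) (by omega)]
        rw [e3]
        have := hcl2 (s + r) ih (by omega) (by omega)
        rwa [add_sub_assoc] at this
  -- transitivity
  have htrans : ∀ i j : ℤ, ∃ k : ℕ, (i + k * a) % ((a : ℤ) + b) = j % ((a : ℤ) + b) := by
    intro i j
    have hcop : IsCoprime (a : ℤ) ((a : ℤ) + b) := by
      have h1 : IsCoprime (a : ℤ) (b : ℤ) := by
        rw [Nat.isCoprime_iff_coprime]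
        exact hab
      have := h1.add_mul_left_right 1
      rwa [mul_one, add_comm] at this
    obtain ⟨u, v, huv⟩ := hcop
    -- `u * a ≡ 1`
    refine ⟨(((j - i) * u) % ((a : ℤ) + b)).toNat, ?_⟩
    rw [Int.toNat_of_nonneg (Int.emod_nonneg _ hn.ne')]
    have h1 : ((i + ((j - i) * u) % ((a : ℤ) + b) * a) - j) % ((a : ℤ) + b) = 0 := by
      apply Int.emod_eq_zero_of_dvd
      have h2 : ((j - i) * u) % ((a : ℤ) + b) =
          (j - i) * u - ((a : ℤ) + b) * (((j - i) * u) / ((a : ℤ) + b)) := by
        have := Int.emod_add_mul_ediv ((j - i) * u) ((a : ℤ) + b)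
        linarith
      refine ⟨-((j - i) * v) - (((j - i) * u) / ((a : ℤ) + b)) * a, ?_⟩
      rw [h2]
      linear_combination (j - i) * huv
    exact Int.emod_eq_emod_iff_emod_sub_eq_zero.2 h1
  have hwin : ∀ s : ℤ, t ≤ s → s + (a + b) ≤ t + L → ∀ z w : ℤ, s ≤ z → z < s + (a + b) →
      s ≤ w → w < s + (a + b) → z ∈ X → w ∈ X := by
    intro s hs1 hs2 z w hz1 hz2 hw1 hw2 hz
    obtain ⟨k, hk⟩ := htrans (z - s) (w - s)
    have h1 := horb s hs1 hs2 (z - s) (by
      rw [Int.emod_eq_of_lt (by omega) (by omega)]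
      simpa using hz) k
    rw [hk, Int.emod_eq_of_lt (by omega) (by omega)] at h1
    simpa using h1
  have hstep : ∀ z : ℤ, t ≤ z → z + 1 < t + L → (z ∈ X ↔ z + 1 ∈ X) := by
    intro z h1 h2
    have hs1 : t ≤ min z (t + L - (a + b)) := by
      rw [le_min_iff]
      constructor
      · exact h1
      · have : ((a + b : ℕ) : ℤ) ≤ (L : ℤ) := by exact_mod_cast hL
        push_cast at this
        linarith
    have hs2 : min z (t + L - (a + b)) ≤ z := min_le_left _ _
    have hs3 : min z (t + L - (a + b)) ≤ t + L - (a + b) := min_le_right _ _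
    have hs4 : z + 1 < min z (t + L - (a + b)) + (a + b) := by
      rcases min_choice z (t + L - ((a : ℤ) + b)) with h | h <;> rw [h] <;> omega
    constructor
    · intro hz
      exact hwin _ hs1 (by linarith) z (z + 1) hs2 (by linarith) (by linarith) hs4 hz
    · intro hz
      exact hwin _ hs1 (by linarith) (z + 1) z (by linarith) hs4 hs2 (by linarith) hz
  have hup : ∀ n : ℕ, t + n < t + L → (t ∈ X ↔ t + n ∈ X) := by
    intro n
    induction n with
    | zero => intro _; simp
    | succ n ih =>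
      intro h
      have e : t + ((n + 1 : ℕ) : ℤ) = t + n + 1 := by push_cast; ring
      rw [e] at h ⊢
      rw [ih (by omega)]
      exact hstep _ (by omega) h
  have h1 := hup (x - t).toNat (by omega)
  have h2 := hup (y - t).toNat (by omega)
  rw [Int.toNat_of_nonneg (by omega), add_sub_cancel] at h1 h2
  exact hy (h2.1 (h1.2 hx))

end Pool.Agent.Lib.MP_8b7544_co.Hv
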