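import Pool.Agent.Lib.MP_8b7544_co.Hv.Stm3

set_option autoImplicit false

namespace Pool.Agent.Lib.MP_8b7544_co.Hv

open Finset
open scoped Pointwise

private theorem tl_zero (ι : Type) (a : ℕ) (β : ι → ℕ) : Tile a β 1 0 (fun _ => 0) := by
  refine ⟨id, ?_, ?_, ?_⟩
  · have h1 : Set.Ico (0 : ℤ) ((0 : ℕ) : ℤ) = ∅ := by simp
    have h2 : Set.Ico (1 : ℤ) (((0 : ℕ) : ℤ) + 1) = ∅ := by simp
    rw [h1, h2]
    exact Set.bijOn_empty _
  · intro x h0 h1
    push_cast at h1
    omega
  · intro i
    have h : {x : ℤ | 0 ≤ x ∧ x < ((0 : ℕ) : ℤ) ∧ id x = x - (β i : ℤ)} = ∅ := by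
      ext x
      simp only [Set.mem_ofPred_eq, Set.mem_empty_iff_false, iff_false]
      push_cast
      omega
    rw [h, Set.ncard_empty]

private theorem tl_fix (ι : Type) (a : ℕ) (β : ι → ℕ) (ha : 1 ≤ a) (hβ : ∀ i, 1 ≤ β i) :
    Tile a β 1 a (fun _ => 0) := by
  refine ⟨fun x => if x = 0 then (a : ℤ) else x, ?_, ?_, ?_⟩
  · refine ⟨?_, ?_, ?_⟩
    · intro x hx
      rw [Set.mem_Ico] at hx ⊢
      dsimp only
      split_ifs <;> omega
    · intro x hx y hy h
      rw [Set.mem_Ico] at hx hy
      dsimp only at h
      split_ifs at h <;> omega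
    · intro y hy
      rw [Set.mem_Ico] at hy
      by_cases h : y = a
      · refine ⟨0, by rw [Set.mem_Ico]; omega, ?_⟩
        simp [h]
      · refine ⟨y, by rw [Set.mem_Ico]; omega, ?_⟩
        have : y ≠ 0 := by omega
        simp [this]
  · intro x _ _
    dsimp only
    by_cases h : x = 0
    · right; left
      simp [h]
    · left
      simp [h]
  · intro i
    have hi := hβ i
    have h : {x : ℤ | 0 ≤ x ∧ x < (a : ℤ) ∧
        (fun x : ℤ => if x = 0 then (a : ℤ) else x) x = x - (β i : ℤ)} = ∅ := by
      ext x
      simp only [Set.mem_ofPred_eq, Set.mem_empty_iff_false, iff_false]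
      rintro ⟨h0, h1, h2⟩
      split_ifs at h2 <;> omega
    rw [h, Set.ncard_empty]

private theorem tl_base (ι : Type) (a : ℕ) (β : ι → ℕ) (ha : 1 ≤ a)
    (hinj : Function.Injective β) (i : ι) :
    Tile a β 1 (a + β i) (fun j => by classical exact if j = i then a - 1 else 0) := by
  classical
  refine ⟨fun x => if x ≤ β i then x + a else x - β i, ?_, ?_, ?_⟩
  · refine ⟨?_, ?_, ?_⟩
    · intro x hx
      rw [Set.mem_Ico] at hx ⊢
      dsimp only
      push_cast at hx ⊢
      split_ifs <;> omega
    · intro x hx y hy h
      rw [Set.mem_Ico] at hx hy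
      dsimp only at h
      push_cast at hx hy
      split_ifs at h <;> omega
    · intro y hy
      rw [Set.mem_Ico] at hy
      push_cast at hy
      by_cases h : (a : ℤ) ≤ y
      · refine ⟨y - a, by rw [Set.mem_Ico]; push_cast; omega, ?_⟩
        have h' : y - a ≤ β i := by omega
        simp [h']
      · refine ⟨y + β i, by rw [Set.mem_Ico]; push_cast; omega, ?_⟩
        have h' : ¬ y + β i ≤ β i := by omega
        simp only [if_neg h']
        ring
  · intro x _ _
    dsimp only
    by_cases h : x ≤ β i
    · right; left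
      simp [h]
    · right; right
      exact ⟨i, by simp only [if_neg h]⟩
  · intro j
    by_cases hj : j = i
    · subst hj
      have h : {x : ℤ | 0 ≤ x ∧ x < ((a + β j : ℕ) : ℤ) ∧
          (fun x : ℤ => if x ≤ β j then x + a else x - β j) x = x - (β j : ℤ)} =
          ((Finset.Ioo (β j : ℤ) (a + β j) : Finset ℤ) : Set ℤ) := by
        ext x
        simp only [Set.mem_ofPred_eq, Finset.coe_Ioo, Set.mem_Ioo]
        push_cast
        constructor
        · rintro ⟨h0, h1, h2⟩
          split_ifs at h2 <;> omega
        · rintro ⟨h0, h1⟩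
          refine ⟨by omega, by omega, ?_⟩
          rw [if_neg (by omega)]
      rw [h, Set.ncard_coe_finset, Int.card_Ioo]
      change _ = if j = j then a - 1 else 0
      rw [if_pos rfl]
      omega
    · have hne : β j ≠ β i := fun h => hj (hinj h)
      have h : {x : ℤ | 0 ≤ x ∧ x < ((a + β i : ℕ) : ℤ) ∧
          (fun x : ℤ => if x ≤ β i then x + a else x - β i) x = x - (β j : ℤ)} = ∅ := by
        ext x
        simp only [Set.mem_ofPred_eq, Set.mem_empty_iff_false, iff_false]
        rintro ⟨h0, h1, h2⟩
        split_ifs at h2 <;> omega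
      rw [h, Set.ncard_empty]
      change _ = if j = i then a - 1 else 0
      rw [if_neg hj]

theorem TL_holds (hTC : S_TC) : S_TL := by
  classical
  intro ι _ a β ha hβ hinj d p
  -- `p` copies of the first tile
  have h1 : ∀ p : ℕ, Tile a β 1 (a * p) (fun _ => 0) := by
    intro p
    induction p with
    | zero => exact tl_zero ι a β
    | succ p ih =>
      exact hTC ι a β 1 (a * p) a _ _ (by norm_num) le_rfl ih (tl_fix ι a β ha hβ)
  -- `d` copies of a base tile
  have h2 : ∀ (i : ι) (d : ℕ), Tile a β 1 (d * (a + β i))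
      (fun j => if j = i then (a - 1) * d else 0) := by
    intro i d
    induction d with
    | zero =>
      have h := tl_zero ι a β
      have e1 : 0 * (a + β i) = 0 := Nat.zero_mul _
      have e2 : (fun j => if j = i then (a - 1) * 0 else 0) = fun _ : ι => 0 := by
        funext j
        split_ifs <;> simp
      rw [e1, e2]
      exact h
    | succ d ih =>
      have h := hTC ι a β 1 _ _ _ _ (by norm_num) le_rfl ih (tl_base ι a β ha hinj i)
      have e1 : (d + 1) * (a + β i) = d * (a + β i) + (a + β i) := Nat.succ_mul _ _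
      have e2 : (fun j => if j = i then (a - 1) * (d + 1) else 0) =
          fun j : ι => (if j = i then (a - 1) * d else 0) + (if j = i then a - 1 else 0) := by
        funext j
        split_ifs
        · rw [Nat.mul_succ]
        · rfl
      rw [e1, e2]
      exact h
  have h3 : ∀ S : Finset ι, Tile a β 1 (∑ i ∈ S, d i * (a + β i))
      (fun j => if j ∈ S then (a - 1) * d j else 0) := by
    intro S
    induction S using Finset.induction_on with
    | empty =>
      have h := tl_zero ι a β
      simpa using h
    | insert i S hi ih =>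
      have h := hTC ι a β 1 _ _ _ _ (by norm_num) le_rfl (h2 i (d i)) ih
      rw [sum_insert hi]
      have e2 : (fun j => if j ∈ insert i S then (a - 1) * d j else 0) =
          fun j : ι => (if j = i then (a - 1) * d i else 0) +
            (if j ∈ S then (a - 1) * d j else 0) := by
        funext j
        by_cases hj : j = i
        · subst hj
          simp [hi]
        · simp [hj]
      rw [e2]
      exact h
  have h := hTC ι a β 1 _ _ _ _ (by norm_num) le_rfl (h3 univ) (h1 p)
  simpa using h

end Pool.Agent.Lib.MP_8b7544_co.Hv
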