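import Pool.Agent.Lib.MP_8b7544_co.Hv.Defs

set_option autoImplicit false

namespace Pool.Agent.Lib.MP_8b7544_co.Hv

open Finset
open scoped Pointwise

/-! # Statements of the pieces (each `S_…` is to be proved as `theorem …_holds : S_…`) -/

/-- [LAN] Lanes. Proof: a run is a maximal sequence `x, x+a, …` inside `X`. If some `x` has
`x, x+a, …, x+(K-1)a ∈ X`, these lie in `K` different classes mod `b` (coprimality, `K ≤ b`); the
least element of `X` in each of these classes is an element of the second filter, so it has at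
least `K` elements, contradiction. So for each `x ∈ X` there is `t < K` with
`x + t a ∈ X`, `x + (t+1) a ∉ X`; hence `X ⊆ ⋃_{t<K} (F - t a)`, `F` the first filter. -/
def S_LAN : Prop := ∀ (X : Finset ℤ) (a b K : ℕ), 1 ≤ a → Nat.Coprime a b → K ≤ b →
    (X.filter (fun x => x + (a : ℤ) ∉ X)).card < K →
    (X.filter (fun x => x - (b : ℤ) ∉ X)).card < K → X.card ≤ K * K

/-- [CD] Sumsets of integers. (Mathlib has Cauchy-Davenport for linear orders.) -/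
def S_CD : Prop := ∀ (X D : Finset ℤ), X.Nonempty → D.Nonempty → X.card + D.card ≤ (X + D).card + 1

/-- [NAP] Strict version when `D` is not an arithmetic progression.
Proof: let `x1 < x2` be the two smallest elements of `X`, `h = x2 - x1`. If every two consecutive
elements `d < d'` of `D` had `d' - d = h` then `h ∣ a`, `h ∣ b` (as `-b, 0, a ∈ D`), so `h = 1` and
`D` is an interval containing `[-b, a]`, of size `≥ a + b + 1`, contradiction. Take consecutive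
`d < d'` in `D` with `d' - d ≠ h`. If `x1 + d' < x2 + d` the sets `x1 + {e ∈ D | e ≤ d'}`,
`x2 + {e ∈ D | e ≥ d}`, `{x ∈ X | x > x2} + max D` are pairwise disjoint (increasing) with total
size `(|D| + 2) + (|X| - 2)`. If `x1 + d' > x2 + d` use `x1 + {e ≤ d}`, `{x2 + d}`, `{x1 + d'}`,
`x2 + {e ≥ d'}` and the same last set. -/
def S_NAP : Prop := ∀ (X D : Finset ℤ) (a b : ℕ), 1 ≤ a → 1 ≤ b → Nat.Coprime a b →
    (0 : ℤ) ∈ D → (a : ℤ) ∈ D → -(b : ℤ) ∈ D → D.card ≤ a + b → 2 ≤ X.card →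
    X.card + D.card ≤ (X + D).card

/-- [RED] Reduction of `CI` to sets of small diameter. Proof: `X ⊆ X + D` as `0 ∈ D`. If
`|X + D| ≥ |X| + K` done as `|B| ≤ K`. Otherwise the two filters of [LAN] inject (by `x ↦ x + a`,
`x ↦ x - b`) into `(X + D) \ X`, of size `< K`, so `|X| ≤ K * K`. So it suffices to treat `X` with
`|X| ≤ K * K`, by strong induction on `|X|`: if all differences are `≤ 2 Dm K K` use the
hypothesis; otherwise (at most `K K` elements, spread `> 2 Dm K K`) there is a split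
`X = X1 ⊔ X2`, both nonempty, with `x2 - x1 > 2 Dm` for all `x1 ∈ X1`, `x2 ∈ X2`; then `X1 + D`
and `X2 + D` are disjoint and the induction hypothesis applies to both. -/
def S_RED : Prop := ∀ (A B D : Finset ℤ) (a b K Dm : ℕ), 1 ≤ a → Nat.Coprime a b →
    (0 : ℤ) ∈ D → (a : ℤ) ∈ D → -(b : ℤ) ∈ D → K ≤ b → B.card ≤ K →
    (∀ d ∈ D, |d| ≤ (Dm : ℤ)) →
    (∀ X : Finset ℤ, X.Nonempty → Disjoint X A →
      (∀ x ∈ X, ∀ y ∈ X, x - y ≤ 2 * Dm * (K * K)) → X.card + (B ∩ (X + D)).card ≤ (X + D).card) →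
    CI A B D

/-- [STR] `CI` for clustered target sets. Proof: by [RED] let `X` be nonempty of small diameter,
`t = min X - Dm`; then `X + D ⊆ [t, t + 2 Dm K K + 2 Dm]`, so `B ∩ (X + D)` lies in the filter
`Bt` of the hypothesis. If `|Bt| < |D|` use [CD]. Otherwise `Bt ⊆ E`, `|E| ≤ |D|`. If `2 ≤ |X|`
use [NAP]. If `X = {x}`, `x ∉ A`, then `x + D ≠ E` and both have at most `|D|` elements, so
`E ∩ (x + D)` has fewer than `|D|` elements. -/
def S_STR : Prop := ∀ (A B D : Finset ℤ) (a b K Dm : ℕ), 1 ≤ a → 1 ≤ b → Nat.Coprime a b →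
    (0 : ℤ) ∈ D → (a : ℤ) ∈ D → -(b : ℤ) ∈ D → K ≤ b → B.card ≤ K →
    (∀ d ∈ D, |d| ≤ (Dm : ℤ)) → D.card ≤ a + b →
    (∀ t : ℤ, (B.filter (fun z => t ≤ z ∧ z ≤ t + (2 * Dm * (K * K) + 2 * Dm))).card < D.card ∨
      ∃ E : Finset ℤ, E.card ≤ D.card ∧
        B.filter (fun z => t ≤ z ∧ z ≤ t + (2 * Dm * (K * K) + 2 * Dm)) ⊆ E ∧
        ∀ x, x ∉ A → D.image (fun d => x + d) ≠ E) →
    CI A B D

/-- [NEW] Proof: there are consecutive `c, c + 1` in `[t, t + L)`, exactly one of them in `X`;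
choose a window `[s, s + a + b) ⊆ [t, t + L)` containing both. The rotation `x ↦ x + a` if
`x < s + b`, `x ↦ x - b` otherwise, is `+ a` modulo `a + b` on the window, and `a` is prime to
`a + b`; so a subset of the window closed under it is empty or full. -/
def S_NEW : Prop := ∀ (X : Finset ℤ) (t : ℤ) (L a b : ℕ), 1 ≤ a → 1 ≤ b → Nat.Coprime a b →
    a + b ≤ L → (∃ x ∈ X, t ≤ x ∧ x < t + L) → (∃ y, y ∉ X ∧ t ≤ y ∧ y < t + L) →
    ∃ x ∈ X, t ≤ x ∧ x < t + L ∧ ∃ y, y ∉ X ∧ t ≤ y ∧ y < t + L ∧ (y = x + a ∨ y = x - b)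

/-- [GR] Proof: for each residue class mod `a` let `x_c` be the largest element of `X` in this
class (it exists and is `> i - a`); the `a` numbers `x_c + a` are `> i`, not in `X`, distinct. -/
def S_GR : Prop := ∀ (X : Finset ℤ) (i : ℤ) (a : ℕ), 1 ≤ a → (∀ x, i - a < x → x ≤ i → x ∈ X) →
    (X.filter (fun x => i < x)).card + a ≤
      ((X ∪ X.image (fun x => x + (a : ℤ))).filter (fun x => i < x)).card

/-- [GL] Mirror image of [GR]. -/
def S_GL : Prop := ∀ (X : Finset ℤ) (r : ℤ) (b : ℕ), 1 ≤ b → (∀ x, r ≤ x → x < r + b → x ∈ X) →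
    (X.filter (fun x => x < r)).card + b ≤
      ((X ∪ X.image (fun x => x - (b : ℤ))).filter (fun x => x < r)).card

/-- [TRI] Trivial windows. Let `X` have fewer than `K` new points in `[lo, lo + K L)`; then one of
the `K` windows `[lo + i L, lo + (i + 1) L)` is disjoint from `X` or contained in `X`. Proof: a
nontrivial window contains a point of the set by [NEW], different windows different points. -/
def S_TRI : Prop := ∀ (X : Finset ℤ) (lo : ℤ) (L K a b : ℕ), 1 ≤ a → 1 ≤ b → Nat.Coprime a b →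
    a + b ≤ L →
    {y : ℤ | lo ≤ y ∧ y < lo + K * L ∧ y ∉ X ∧ (y - a ∈ X ∨ y + b ∈ X)}.ncard < K →
    ∃ l : ℤ, lo ≤ l ∧ l + L ≤ lo + K * L ∧
      ((∀ x ∈ X, ¬ (l ≤ x ∧ x < l + L)) ∨ (∀ x, l ≤ x → x < l + L → x ∈ X))

/-- [HC] Hall's condition in a large window. Proof. Put `L = 2 Dm + a + b`, `K = |A| = |B| + 1`,
`W = [-R, R]`, `N = (X + D) ∩ ((-R, R] \ B)`. If `(X + D) ∩ W` has at least `K` elements outside
`X` then `|N| ≥ |(X + D) ∩ W| - |B| - 1 ≥ |X|`. Otherwise apply [TRI] to the left zone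
(`lo = -R + Dm`) and to the right zone (`lo = R1 + Dm`): windows `[l, l + L)` and `[r, r + L)`,
with `l + L ≤ - R1 - Dm`, `r ≥ R1 + Dm`, `r + L ≤ R - Dm`, each empty or full for `X`.
* empty, empty: `X = X_L ⊔ X_M ⊔ X_R`, the three sets `X_? + D` are separated. Right:
  `X_R ⊆ N`. Middle: `CI`. Left: `X_L \ {-R}` and `max X_L + a` are in `N`.
* full, empty: let `i = l + L - 1` and `X' = {x ∈ X | x < r}`: by [GR] at least
  `|X' ∩ (i, ∞)| + a` elements of `X' + {0, a}` are `> i` (and `≤ r + Dm`), at most `|B| ≤ a - 1` of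
  them are in `B`; the elements of `X` that are `≤ i`, except `-R`, and those `≥ r + L`, are in `N`.
* empty, full: by [GL] (`r`), `|X ∩ (l, r)| + b - |B|` elements of `N` in `(l + Dm, r)`; those `≥ r`
  are in `N`; left part as in the first case.
* full, full: count the complement. A target `y ∉ N` with `y ≤ i` or `y ≥ r` is not in `X` and not
  in `A`. The set `Y` of the targets `y ∈ (i, r)`, `y ∉ N` satisfies `Y ∩ B = ∅` and
  `Y - D ⊆ (i, r) \ X`, so `CI B A (-D)` gives `|((i, r) \ X) \ A| ≥ |Y|`. As the numbers of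
  sources and targets are equal, `|N| ≥ |X|`. -/
def S_HC : Prop := ∀ (A B D : Finset ℤ) (a b Dm R1 R : ℕ), 1 ≤ a → 1 ≤ b → Nat.Coprime a b →
    (0 : ℤ) ∈ D → (a : ℤ) ∈ D → -(b : ℤ) ∈ D → A.card = B.card + 1 → A.card ≤ a → A.card ≤ b →
    (∀ d ∈ D, |d| ≤ (Dm : ℤ)) → (∀ x ∈ A, |x| < (R1 : ℤ)) → (∀ x ∈ B, |x| < (R1 : ℤ)) →
    CI A B D → CI B A (-D) → R1 + (A.card + 3) * (2 * Dm + a + b) ≤ R →
    ∀ X : Finset ℤ, X ⊆ Icc (-(R : ℤ)) R \ A →
      X.card ≤ ((X + D) ∩ (Ioc (-(R : ℤ)) R \ B)).card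

/-- [LH] Local Hall lemma. Proof: Hall's marriage theorem in Mathlib
(`Finset.all_card_le_biUnion_card_iff_exists_injective`) and [HC]; the injection is a bijection as
the two finite sets have the same size. -/
def S_LH : Prop := ∀ (A B D : Finset ℤ) (a b Dm R1 : ℕ), 1 ≤ a → 1 ≤ b → Nat.Coprime a b →
    (0 : ℤ) ∈ D → (a : ℤ) ∈ D → -(b : ℤ) ∈ D → A.card = B.card + 1 → A.card ≤ a → A.card ≤ b →
    (∀ d ∈ D, |d| ≤ (Dm : ℤ)) → (∀ x ∈ A, |x| < (R1 : ℤ)) → (∀ x ∈ B, |x| < (R1 : ℤ)) →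
    CI A B D → CI B A (-D) →
    ∃ (R : ℕ) (g : ℤ → ℤ), R1 ≤ R ∧
      Set.BijOn g {x : ℤ | -(R : ℤ) ≤ x ∧ x ≤ R ∧ x ∉ A} {y : ℤ | -(R : ℤ) < y ∧ y ≤ R ∧ y ∉ B} ∧
      ∀ x : ℤ, -(R : ℤ) ≤ x → x ≤ R → x ∉ A → g x - x ∈ D

/-- [TC] Concatenation of tiles. -/
def S_TC : Prop := ∀ (ι : Type) (a : ℕ) (β : ι → ℕ) (s : ℤ) (ℓ ℓ' : ℕ) (c c' : ι → ℕ),
    0 ≤ s → s ≤ 1 → Tile a β s ℓ c → Tile a β s ℓ' c' → Tile a β s (ℓ + ℓ') (fun i => c i + c' i)

/-- [TL] Left tiles. Base tiles (`s = 1`): length `a`, `0 ↦ a`, `x ↦ x` for `0 < x < a`; and for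
`i : ι` length `a + β i`, `x ↦ x + a` for `x ≤ β i`, `x ↦ x - β i` for `β i < x < a + β i`, which
uses `- β i` exactly `a - 1` times. Then [TC]. -/
def S_TL : Prop := ∀ (ι : Type) [Fintype ι] (a : ℕ) (β : ι → ℕ), 1 ≤ a → (∀ i, 1 ≤ β i) →
    Function.Injective β → ∀ (d : ι → ℕ) (p : ℕ),
    Tile a β 1 (∑ i, d i * (a + β i) + a * p) (fun i => (a - 1) * d i)

/-- [TR] Right tiles. Base tiles (`s = 0`): length `1`, `0 ↦ 0`; and for `i : ι` length `a + β i`,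
`x ↦ x + a` for `x < β i`, `x ↦ x - β i` for `β i ≤ x < a + β i`. Then [TC]. -/
def S_TR : Prop := ∀ (ι : Type) [Fintype ι] (a : ℕ) (β : ι → ℕ), 1 ≤ a → (∀ i, 1 ≤ β i) →
    Function.Injective β → ∀ (z : ι → ℕ) (q : ℕ),
    Tile a β 0 (∑ i, z i * (a + β i) + q) (fun i => a * z i)

/-- [AR] The numbers of tiles. Proof: `d i ≡ - m i (mod a)`, `(a - 1) d i ≤ m i` and
`z i = (m i - (a - 1) d i) / a`. Let `S = ∑ d i (a + β i)`; modulo `a` one has `z0 ≡ S`. Start with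
the least `d i ∈ [0, a)`: `S ≤ a ∑ (a + β i) ≤ C ≤ z0`. Increase the `d i` by `a` one after the
other as long as `S ≤ z0` and `(a - 1) d i ≤ m i`. If it stops because of `S`, then
`z0 - S < a (a + max β)`, so `p = (z0 - S) / a < a + max β` and `(a - 1) p ≤ C ≤ m0`. Otherwise
`(a - 1) d i > m i - a (a - 1)` for all `i`, so `(a - 1) S ≥ ∑ m i (a + β i) - const`, and
`a (a - 1) p = (a - 1) (z0 - S) ≤ a z0 - (a m1 - ∑ β i m i) - ∑ m i (a + β i) + const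
= a (z0 - m1 - ∑ m i) + const ≤ a (m0 - C) + const ≤ a m0`. -/
def S_AR : Prop := ∀ (ι : Type) [Fintype ι] (a : ℕ) (β : ι → ℕ), 2 ≤ a →
    ∃ C : ℕ, ∀ (m : ι → ℕ) (m0 m1 : ℕ) (z0 : ℤ), (∀ i, C ≤ m i) → C ≤ m0 → (C : ℤ) ≤ z0 →
      z0 + C ≤ m0 + m1 + ∑ i, (m i : ℤ) → z0 = a * m1 - ∑ i, (β i : ℤ) * m i →
      ∃ (d z : ι → ℕ) (p : ℕ), (∀ i, (a - 1) * d i + a * z i = m i) ∧
        z0 = ∑ i, (d i : ℤ) * (a + β i) + a * p ∧ (a - 1) * p ≤ m0

/-- [AS] Assembly. Let `n i` be the number of `x` in the window with `g x = x - β i`, `n0` the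
number of fixed points, `n1` the number of `x` with `g x = x + a`, all `≤ 2 R + 1`. Summing
`g x - x` over the window: `a n1 - ∑ β i n i = ∑ A-free targets - sources = R - ∑ B + ∑ A`
(the target `-R` is missing). So `z0 := κ - R` satisfies
`z0 = a (m1 - n1) - ∑ β i (m i - n i)`. Apply [AR] to `m i - n i`, `m0 - n0`, `m1 - n1`. Put the
left tile on `[0, z0)` (it maps onto `(0, z0]`), the window map shifted by `κ` on
`[κ - R, κ + R]`, the right tile with `q = P - κ - R - ∑ z i (a + β i) ≥ 0` on `(κ + R, P]`. The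
numbers of the displacements `- β i` are right; then the sum of all displacements and the number
of all sources give those of `a` and `0`. -/
def S_AS : Prop := ∀ (ι : Type) [Fintype ι] (a : ℕ) (β : ι → ℕ) (A B : Finset ℤ) (R : ℕ)
    (g : ℤ → ℤ), 2 ≤ a → (∀ i, 1 ≤ β i) → Function.Injective β → A.card = B.card + 1 →
    (∀ x ∈ A, |x| < (R : ℤ)) → (∀ x ∈ B, |x| < (R : ℤ)) →
    Set.BijOn g {x : ℤ | -(R : ℤ) ≤ x ∧ x ≤ R ∧ x ∉ A} {y : ℤ | -(R : ℤ) < y ∧ y ≤ R ∧ y ∉ B} →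
    (∀ x : ℤ, -(R : ℤ) ≤ x → x ≤ R → x ∉ A → g x = x ∨ g x = x + a ∨ ∃ i, g x = x - β i) →
    ∃ C : ℕ, ∀ (m : ι → ℕ) (m0 m1 : ℕ) (κ P : ℤ), (∀ i, C ≤ m i) → C ≤ m0 → C ≤ m1 →
      κ = a * m1 - ∑ i, (β i : ℤ) * m i + (∑ x ∈ B, x - ∑ x ∈ A, x) →
      P + 1 = m0 + m1 + ∑ i, (m i : ℤ) + A.card → (C : ℤ) ≤ κ → κ + C ≤ P →
      ∃ f : ℤ → ℤ,
        Set.BijOn f {x : ℤ | 0 ≤ x ∧ x ≤ P ∧ x - κ ∉ A} {y : ℤ | 1 ≤ y ∧ y ≤ P ∧ y - κ ∉ B} ∧
        (∀ x : ℤ, 0 ≤ x → x ≤ P → x - κ ∉ A → f x = x ∨ f x = x + a ∨ ∃ i, f x = x - β i) ∧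
        {x : ℤ | 0 ≤ x ∧ x ≤ P ∧ x - κ ∉ A ∧ f x = x}.ncard = m0 ∧
        {x : ℤ | 0 ≤ x ∧ x ≤ P ∧ x - κ ∉ A ∧ f x = x + a}.ncard = m1 ∧
        ∀ i, {x : ℤ | 0 ≤ x ∧ x ≤ P ∧ x - κ ∉ A ∧ f x = x - β i}.ncard = m i

end Pool.Agent.Lib.MP_8b7544_co.Hv
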