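import Pool.Agent.Lib.MP_8b7544_co.Hv.Stm

set_option autoImplicit false

namespace Pool.Agent.Lib.MP_8b7544_co.Hv

open Finset
open scoped Pointwise

/-- Vertex offsets, edge offsets, heavy displacements. -/
def setA {V : Type} [Fintype V] (δ : V → ℤ) : Finset ℤ := univ.image δ

/-- Edge offsets of a tree with root `r` and parent function `par`. -/
def setB {V : Type} [Fintype V] [DecidableEq V] (r : V) (par : V → V) (δ : V → ℤ) : Finset ℤ :=
  (univ.erase r).image (fun w => δ w + δ (par w))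

/-- [COR] Core theorem. Proof: [LH] with `A = setA δ`, `B = setB r par δ`, `D = U.image δ`,
`b = β x`, `Dm = ` a bound of `|δ w|`, gives `R`, `g` (enlarge nothing: `R1 ≤ R`); [AS] with
`ι = {w // w ∈ U ∧ w ≠ v ∧ w ≠ u}` gives `f` with
`κ = ∑ m w δ w + ∑ B - ∑ A`, `P = PP m = card V - 1 + ∑ m w` (note `A.card = card V`,
`B.card = card V - 1`); the constant absorbs `|∑ B - ∑ A|` and `card V`. Then `Lab G m` with
`δ, κ, f`: a number `y ∈ [1, P]` is `f x` or `κ + δ w + δ (par w)`; for `w ∉ U` no `x` has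
`f x = x + δ w`, because `δ w` is not in `D` (`δ` is injective). -/
def S_COR : Prop := ∀ (V : Type) [Fintype V] [DecidableEq V] (G : SimpleGraph V) (r : V)
    (par : V → V) (U : Finset V) (δ : V → ℤ) (v u x : V) (a : ℕ) (β : V → ℕ),
    (∀ w, w ≠ r → G.Adj w (par w)) → Function.Injective δ →
    Set.InjOn (fun w => δ w + δ (par w)) {w | w ≠ r} →
    v ∈ U → u ∈ U → x ∈ U → v ≠ u → x ≠ v → x ≠ u → δ v = 0 → δ u = a →
    (∀ w ∈ U, w ≠ v → w ≠ u → δ w = -(β w : ℤ) ∧ 1 ≤ β w) →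
    Nat.Coprime a (β x) → 2 ≤ a → Fintype.card V ≤ a → Fintype.card V ≤ β x →
    CI (setA δ) (setB r par δ) (U.image δ) → CI (setB r par δ) (setA δ) (-(U.image δ)) →
    ∃ C : ℕ, ∀ m : V → ℕ, (∀ w, w ∉ U → m w = 0) → (∀ w ∈ U, C ≤ m w) →
      (C : ℤ) ≤ ∑ w, (m w : ℤ) * δ w → ∑ w, (m w : ℤ) * δ w + C ≤ ∑ w, (m w : ℤ) → Lab G m

/-- [CIM] `CI` for our offsets. Proof: [STR] twice, with `K = card V`, `Dm = a`.
Every edge offset is within `2 a` of its centre: `0` (both ends in `U`), `Γ 4^(e w)` (exactly one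
end `w` outside `U`), `Γ (4^(e w) + 4^(e w'))` (both outside); vertex offsets similarly. Different
centres differ by at least `Γ` (base 4 digits), so an interval of length `2 a K K + 2 a` contains
offsets of one centre only. Edge offsets: centre `0`: at most `|U| - 1 < |D|` of them, as `r ∈ U`;
one light vertex `l`: they lie in `E = δ l + D`, and `x + D ≠ δ l + D` for `x ∉ setA δ`; two light
vertices: at most one (injectivity). Vertex offsets, displacements `- D` (`a`, `b` exchanged):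
centre `0`: they lie in `E = D`, and `y - D ≠ D` for all `y`: otherwise `y = a + min D > 0`,
`y = y - 0 ∈ D`, so `y = a` and `min D = 0`, but `- b ∈ D`; other centres: at most one. -/
def S_CIM : Prop := ∀ (V : Type) [Fintype V] [DecidableEq V] (r : V) (par : V → V) (U : Finset V)
    (δ : V → ℤ) (e : V → ℕ) (a b : ℕ) (Γ : ℤ) (v u x : V),
    r ∈ U → v ∈ U → u ∈ U → x ∈ U → 3 ≤ U.card → δ v = 0 → δ u = a → δ x = -(b : ℤ) →
    Nat.Coprime a b → Fintype.card V ≤ a → Fintype.card V ≤ b →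
    (∀ w ∈ U, w ≠ u → -(a : ℤ) < δ w ∧ δ w ≤ 0) →
    (∀ w, w ∉ U → δ w = Γ * 4 ^ (e w)) → Function.Injective e →
    2 * a * (Fintype.card V * Fintype.card V : ℤ) + 6 * a < Γ → Function.Injective δ →
    Set.InjOn (fun w => δ w + δ (par w)) {w | w ≠ r} → (∀ w, w ≠ r → par w ≠ w) →
    CI (setA δ) (setB r par δ) (U.image δ) ∧ CI (setB r par δ) (setA δ) (-(U.image δ))

/-- [DEL] Injectivity of the offsets and of the edge offsets. Proof: heavy-heavy edges: the sum of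
the offsets of a pair of distinct vertices of `U` is `a`, `a - β > 0`, `- β`, or `- (β + β')`, and
determines the pair by the hypotheses on `β`; light-heavy and light-light edges by the base 4
digits and `4 a < Γ` as in [CIM]. Edges `{w, par w}` of different `w ≠ r` are different. -/
def S_DEL : Prop := ∀ (V : Type) [Fintype V] [DecidableEq V] (r : V) (par : V → V) (U : Finset V)
    (δ : V → ℤ) (e : V → ℕ) (a : ℕ) (Γ : ℤ) (v u : V) (β : V → ℕ),
    v ∈ U → u ∈ U → v ≠ u → δ v = 0 → δ u = a → 1 ≤ a →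
    (∀ w ∈ U, w ≠ v → w ≠ u → δ w = -(β w : ℤ) ∧ 1 ≤ β w ∧ β w < a) →
    (∀ w, w ∉ U → δ w = Γ * 4 ^ (e w)) → Function.Injective e → 4 * (a : ℤ) < Γ →
    (∀ w ∈ U, ∀ w' ∈ U, w ≠ v → w ≠ u → w' ≠ v → w' ≠ u → β w = β w' → w = w') →
    (∀ w ∈ U, ∀ w' ∈ U, ∀ z ∈ U, w ≠ v → w ≠ u → w' ≠ v → w' ≠ u → z ≠ v → z ≠ u →
      w ≠ w' → β w + β w' ≠ β z) →
    (∀ w ∈ U, ∀ w' ∈ U, ∀ z ∈ U, ∀ z' ∈ U, w ≠ v → w ≠ u → w' ≠ v → w' ≠ u → z ≠ v → z ≠ u →
      z' ≠ v → z' ≠ u → w ≠ w' → z ≠ z' → β w + β w' = β z + β z' →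
      (w = z ∧ w' = z') ∨ (w = z' ∧ w' = z)) →
    (∀ w, w ≠ r → par w ≠ w) →
    (∀ w w', w ≠ r → w' ≠ r → w ≠ w' → ¬ (w = par w' ∧ par w = w')) →
    Function.Injective δ ∧ Set.InjOn (fun w => δ w + δ (par w)) {w | w ≠ r}

/-- [ROL] Fixed roles and fixed numbers. Proof: root the tree at `v` (`exists_par`), `r = v`,
number the vertices (`e`), define `δ`, `Γ`, apply [DEL], [CIM], [COR]. Note
`∑ m w δ w = a m u - ∑_{w ∈ U \ {v, u}} β w m w`. -/
def S_ROL : Prop := ∀ (V : Type) [Fintype V] [DecidableEq V] (G : SimpleGraph V), G.IsTree →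
    ∀ (U : Finset V) (v u x : V) (a : ℕ) (β : V → ℕ),
    v ∈ U → u ∈ U → x ∈ U → v ≠ u → x ≠ v → x ≠ u →
    (∀ w ∈ U, w ≠ v → w ≠ u → 1 ≤ β w ∧ β w < a) →
    (∀ w ∈ U, ∀ w' ∈ U, w ≠ v → w ≠ u → w' ≠ v → w' ≠ u → β w = β w' → w = w') →
    (∀ w ∈ U, ∀ w' ∈ U, ∀ z ∈ U, w ≠ v → w ≠ u → w' ≠ v → w' ≠ u → z ≠ v → z ≠ u →
      w ≠ w' → β w + β w' ≠ β z) →
    (∀ w ∈ U, ∀ w' ∈ U, ∀ z ∈ U, ∀ z' ∈ U, w ≠ v → w ≠ u → w' ≠ v → w' ≠ u → z ≠ v → z ≠ u →
      z' ≠ v → z' ≠ u → w ≠ w' → z ≠ z' → β w + β w' = β z + β z' →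
      (w = z ∧ w' = z') ∨ (w = z' ∧ w' = z)) →
    Nat.Coprime a (β x) → 2 ≤ a → Fintype.card V ≤ a → Fintype.card V ≤ β x →
    ∃ C : ℕ, ∀ m : V → ℕ, (∀ w, w ∉ U → m w = 0) → (∀ w ∈ U, C ≤ m w) →
      (C : ℤ) ≤ (a : ℤ) * m u - ∑ w ∈ (U.erase v).erase u, (β w : ℤ) * m w →
      (a : ℤ) * m u - ∑ w ∈ (U.erase v).erase u, (β w : ℤ) * m w + C ≤ ∑ w, (m w : ℤ) → Lab G m

/-- [THR] Three or more heavy vertices. Proof. `K = card V`, `e : V → ℕ` injective with values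
`< K`, small numbers `s w = 4 K 4^(e w)`, `S = 4 K 4^K`, `a_B = (K + 1) * S * 4 + 1` (prime to all
`s w`, `> ∑ s w`), `q` a prime `> 2 S` (and `> K`), `Λ = 2 a_B`.
* Regime B: some `v ∈ U` has `m v ≥ Λ m w` for all other `w ∈ U`. Let `u` have the largest `m`
  among the others, `x` any third vertex, `β = s`, `a = a_B`: `c = a m u - ∑ β m ≥ m u` and
  `c ≤ a m u ≤ m v / 2`.
* Regime A: otherwise. Let `x` have the largest `m`, `u` the largest among the others (so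
  `m u ≤ m x < Λ m u` after excluding Regime B for `v = x`), `v` any third vertex,
  `β = s` except `β x = q`. Let `T = ∑_{w ∈ U \ {v,u}} β w m w` and `a0` the least natural number with
  `a0 m u ≥ T + C`; `a0` or `a0 + 1` is prime to the prime `q`: this is `a`. Then
  `a ≥ T / m u ≥ q`, `a ≠ q`, so `a > q`; and `a ≤ q Λ + S + 4` as `C ≤ m u` (the other vertices
  `w` have `m w ≤ m u`), a bound `Amax` which does not depend on `C`; and
  `C ≤ a m u - T < C + 2 m u ≤ C + m u + m x ≤ ∑ m - m v + C ≤ ∑ m - C` if `m v ≥ 2 C`.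
So let `C` be the maximum of the constants of [ROL] over all `a ≤ Amax`, all roles `v, u, x` and
both `β` (a finite set; the conclusion of [ROL] is monotone in `C`), and `M = 2 C + 1`. -/
def S_THR : Prop := ∀ (V : Type) [Fintype V] [DecidableEq V] (G : SimpleGraph V), G.IsTree →
    ∀ U : Finset V, 3 ≤ U.card →
    ∃ M : ℕ, ∀ m : V → ℕ, (∀ w, w ∉ U → m w = 0) → (∀ w ∈ U, M ≤ m w) → Lab G m

/-- [FPR] From labelling data to an edge-magic labelling. Proof: `edgeMagic_of_surj` (Surj.lean)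
with `P = card W - 1`, `k = κ`, the vertex `e a` gets `κ + δ a`, and the leaves at `e a` (at least
`ncard` many) are mapped onto the set of all `x` with `f x = x + δ a` of the third clause. For
`t ≥ 0`, `t` is a `κ + δ a` or a label of a leaf by the second clause; for `t < 0` use the first
clause with `y = - t`. -/
def S_FPR : Prop := ∀ (W V : Type) [Fintype W] [Fintype V] (T : SimpleGraph W) (G : SimpleGraph V)
    (e : V → W) (π : W → V) (m : V → ℕ), T.IsTree → Function.Injective e →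
    (∀ a b, G.Adj a b → T.Adj (e a) (e b)) → (∀ w, w ∉ Set.range e → T.Adj w (e (π w))) →
    (∀ a, m a = {w | w ∉ Set.range e ∧ π w = a}.ncard) → Lab G m → EdgeMagic T

/-- [P3] `0, 1, 2 = v, p, u`; `N, q, n = m 0, m 1, m 2`; `κ = N + n`, `δ = (q + 2, - N, 1)`,
`f x = x + 1` for `x < n`, `x + q + 2` for `n < x ≤ n + N`, `x - N` above; `PP m = N + q + n + 2`. -/
def S_P3 : Prop := ∀ (G : SimpleGraph (Fin 3)) (m : Fin 3 → ℕ), G.Adj 0 1 → G.Adj 1 2 → Lab G m

/-- [P5] `N = m 0`, `n = m 4`, `κ = N + n + 1`, `δ = (3, - N, 2, - N - 1, 1)`, `f x = x + 1` for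
`x < n`, `x + 3` above; `PP m = N + n + 4`. -/
def S_P5 : Prop := ∀ (G : SimpleGraph (Fin 5)) (m : Fin 5 → ℕ), G.Adj 0 1 → G.Adj 1 2 →
    G.Adj 2 3 → G.Adj 3 4 → m 1 = 0 → m 2 = 0 → m 3 = 0 → Lab G m

/-- [TWO] Two heavy vertices. Proof: `A = {δ w}`, `B = {δ w + δ (par w) | w ≠ v}`,
`ψ t = |A ∩ (-∞, t]| - |B ∩ (-∞, t]|`, `κ = m u + ∑ B - ∑ A` (as `|A| = |B| + 1`), `P = PP m`,
`f x = x + (1 - ψ (x - κ))`. For `m u`, `m v` large all `κ + δ w` are in `[0, P]` and all edge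
offsets plus `κ` in `[1, P]`. If `y ∈ [1, P]` is not an edge offset plus `κ` then
`ψ (y - κ) = ψ (y - 1 - κ) + [y - κ ∈ A]`: if `y - κ ∉ A` and `ψ = 1` then `f y = y`, if `ψ = 0`
then `f (y - 1) = y` and `y - 1 - κ ∉ A` (`ψ = 1` on `A`); if `y - κ ∈ A` then
`ψ (y - 1 - κ) = 0` and `f (y - 1) = y`. The number of `x ∈ [0, P]` with `ψ (x - κ) = 0` is
`∑ (1 - ψ) = ∑ A - ∑ B + κ = m u`, and the number of the other `x` with `x - κ ∉ A` is
`P + 1 - card V - m u = m v`. The displacements are `1 = δ u` and `0 = δ v`. -/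
def S_TWO : Prop := ∀ (V : Type) [Fintype V] [DecidableEq V] (G : SimpleGraph V) (par : V → V)
    (v u : V) (δ : V → ℤ), (∀ w, w ≠ v → G.Adj w (par w)) → Good par v univ δ → δ v = 0 →
    δ u = 1 → ∃ M : ℕ, ∀ m : V → ℕ, (∀ w, w ≠ u → w ≠ v → m w = 0) → M ≤ m u → M ≤ m v → Lab G m

/-- [EXT] Adding one vertex far away. Proof: let `R'` bound `R` and all absolute values of old
vertex and edge offsets plus `|δ (par w)|`. If `δ (par w) > 0` take `y = - R' - δ (par w) - 1`: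
`ψ` is `1` on `[y, y + δ (par w))` and unchanged elsewhere (old `ψ` is `0` there). If
`δ (par w) = 0` take `y = R' + 1`: both new points coincide, `ψ` is unchanged and is `1` there
(`|S| - |S \ v| = 1`). If `δ (par w) < 0` take `y = R' + 1 - δ (par w)`: `ψ` is `0` on
`[y + δ (par w), y)`, otherwise unchanged. -/
def S_EXT : Prop := ∀ (V : Type) [DecidableEq V] (par : V → V) (v : V) (S : Finset V) (δ : V → ℤ)
    (w : V), Good par v S δ → w ∉ S → par w ∈ S → ∀ R : ℤ, ∃ y : ℤ,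
      (δ (par w) ≤ 0 → R < y ∧ R < y + δ (par w)) ∧
      (0 < δ (par w) → y < -R ∧ y + δ (par w) < -R) ∧
      Good par v (insert w S) (Function.update δ w y)

/-- [FUL] Proof: [EXT] repeatedly, adding each time a vertex outside `S` of smallest `d`. -/
def S_FUL : Prop := ∀ (V : Type) [Fintype V] [DecidableEq V] (par : V → V) (d : V → ℕ) (v : V),
    (∀ x, x ≠ v → d (par x) < d x) → ∀ (S : Finset V) (δ : V → ℤ), Good par v S δ →
    ∃ δ' : V → ℤ, Good par v univ δ' ∧ ∀ x ∈ S, δ' x = δ x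

/-- `x` has depth `n`. -/
def Dep {V : Type} (par : V → V) (v : V) : ℕ → V → Prop
  | 0, x => x = v
  | n + 1, x => x ≠ v ∧ Dep par v n (par x)

/-- Chains: alternating far away offsets along the path from `v` to `x`, all vertices of `S` are
`v` or iterated parents of `x` (or `x`). -/
def Chn {V : Type} [DecidableEq V] (par : V → V) (v : V) (n : ℕ) (x : V) (S : Finset V)
    (δ : V → ℤ) : Prop :=
  Good par v S δ ∧ x ∈ S ∧ (∀ y ∈ S, ∃ k, k ≤ n ∧ y = par^[k] x) ∧ δ v = 0 ∧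
  (n = 0 → S = {v}) ∧
  (∀ y ∈ S, y ≠ v → 5 ≤ |δ y| ∧ 5 ≤ |δ y + δ (par y)|) ∧
  (Odd n → 0 < δ x) ∧ (Even n → δ x ≤ 0) ∧
  (0 < n → ∀ y ∈ S, (y ≠ x → |δ y| + 5 ≤ |δ x|) ∧ (y ≠ v → y ≠ x → |δ y + δ (par y)| + 5 ≤ |δ x|))

/-- [CHN] Proof: induction on `n` with [EXT] for large `R`. -/
def S_CHN : Prop := ∀ (V : Type) [DecidableEq V] (par : V → V) (v : V) (n : ℕ) (x : V),
    Dep par v n x → ∃ (S : Finset V) (δ : V → ℤ), Chn par v n x S δ

end Pool.Agent.Lib.MP_8b7544_co.Hv
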